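import Pool.Agent.Lib.MP_c8ddae_co.H19Cyc

set_option autoImplicit false

namespace Pool.Agent.Lib.MP_c8ddae_co.H19

open List

variable {V : Type}

/-- the list `l` enumerates the vertex set `S` -/
def Span (S : Finset V) (l : List V) : Prop := l.Nodup ∧ ∀ v, v ∈ l ↔ v ∈ S

/-- a Hamiltonian cycle of `S`, read from `r` -/
def HamAt (S : Finset V) (A : V → V → Prop) (r : V) : Prop :=
  ∃ t : List V, Span S (r :: t) ∧ IsChain A ((r :: t) ++ [r])

open Classical in
/-- number of vertices of `S` with property `p` -/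
noncomputable def cnt (S : Finset V) (p : V → Prop) : ℕ := (S.filter p).card

open Classical in
/-- number of entries of a list with property `p` -/
noncomputable def lc (p : V → Prop) (l : List V) : ℕ := l.countP (fun v => decide (p v))

lemma Span.perm {S : Finset V} {l l' : List V} (h : Span S l) (hp : l ~ l') : Span S l' :=
  ⟨hp.nodup_iff.1 h.1, fun v => (hp.mem_iff).symm.trans (h.2 v)⟩

lemma Span.toFinset [DecidableEq V] {S : Finset V} {l : List V} (h : Span S l) :
    l.toFinset = S := by
  ext v; rw [mem_toFinset]; exact h.2 v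

lemma Span.len {S : Finset V} {l : List V} (h : Span S l) : l.length = S.card := by
  classical
  rw [← h.toFinset, toFinset_card_of_nodup h.1]

lemma Span.cnt_eq {S : Finset V} {l : List V} (h : Span S l) (p : V → Prop) :
    cnt S p = lc p l := by
  classical
  unfold cnt lc
  rw [← h.toFinset]
  exact h.1.card_eq_countP

lemma lc_append (p : V → Prop) (l l' : List V) : lc p (l ++ l') = lc p l + lc p l' := by
  unfold lc; exact countP_append

lemma lc_perm (p : V → Prop) {l l' : List V} (h : l ~ l') : lc p l = lc p l' := by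
  unfold lc; exact h.countP_eq _

lemma lc_lt (p : V → Prop) {l : List V} {x : V} (hx : x ∈ l) (h : ¬ p x) :
    lc p l < l.length := by
  unfold lc
  exact countP_lt_length_iff.2 ⟨x, hx, by simpa using h⟩

lemma lc_zero (p : V → Prop) {l : List V} (h : ∀ x ∈ l, ¬ p x) : lc p l = 0 := by
  unfold lc
  exact countP_eq_zero.2 (fun x hx => by simpa using h x hx)

/-- `n` consecutive vertices of the sequence `c` -/
def seg (c : ℕ → V) (s n : ℕ) : List V := (range' s n).map c

lemma seg_add (c : ℕ → V) (s m n : ℕ) : seg c s (m + n) = seg c s m ++ seg c (s + m) n := by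
  unfold seg; rw [← range'_append_1, map_append]

lemma seg_one (c : ℕ → V) (s : ℕ) : seg c s 1 = [c s] := rfl

lemma seg_cons (c : ℕ → V) (s n : ℕ) : seg c s (n + 1) = c s :: seg c (s + 1) n := rfl

lemma seg_snoc (c : ℕ → V) (s n : ℕ) : seg c s (n + 1) = seg c s n ++ [c (s + n)] := by
  rw [seg_add, seg_one]

lemma seg_lc (c : ℕ → V) (p : V → Prop) [DecidablePred p] (s n : ℕ) :
    lc p (seg c s n) = Nat.count (fun i => p (c (s + i))) n := by
  induction n with
  | zero => rfl
  | succ n ih =>
    rw [seg_snoc, lc_append, ih, Nat.count_succ]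
    congr 1
    unfold lc
    by_cases h : p (c (s + n)) <;> simp [h]

lemma seg_perm (c : ℕ → V) (z : ℕ) (hc : ∀ i, c (i + z) = c i) (s : ℕ) :
    seg c s z ~ seg c 0 z := by
  induction s with
  | zero => exact Perm.refl _
  | succ s ih =>
    refine Perm.trans ?_ ih
    have h1 := seg_cons c s z
    rw [seg_snoc, hc] at h1
    have h2 : c s :: seg c (s + 1) z ~ c s :: seg c s z := by
      rw [← h1]; exact perm_append_singleton _ _
    exact h2.cons_inv

lemma chain_snoc {A : V → V → Prop} {l : List V} {x y : V} (hl : IsChain A l)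
    (hx : l.getLast? = some x) (h : A x y) : IsChain A (l ++ [y]) := by
  refine hl.append (isChain_singleton _) ?_
  intro a ha b hb
  rw [hx] at ha
  simp only [Option.mem_def, Option.some.injEq, head?_cons] at ha hb
  rw [← ha, ← hb]; exact h

lemma chain_seg {A : V → V → Prop} {c : ℕ → V} (hc : ∀ i, A (c i) (c (i + 1))) {l : List V}
    {x : V} (hl : IsChain A l) (hx : l.getLast? = some x) {s : ℕ} (h : A x (c s)) (n : ℕ) :
    IsChain A (l ++ seg c s (n + 1)) ∧ (l ++ seg c s (n + 1)).getLast? = some (c (s + n)) := by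
  induction n with
  | zero => exact ⟨chain_snoc hl hx h, by simp [seg_one]⟩
  | succ n ih =>
    rw [seg_snoc, ← append_assoc]
    exact ⟨chain_snoc ih.1 ih.2 (hc _), by simp⟩

lemma exists_cyc {A : V → V → Prop} {x : V} {t : List V} (h : IsChain A ((x :: t) ++ [x])) :
    ∃ c : ℕ → V, (∀ i, c (i + (t.length + 1)) = c i) ∧ (∀ i, A (c i) (c (i + 1))) ∧
      seg c 0 (t.length + 1) = x :: t := by
  refine ⟨fun i => ((x :: t) ++ [x]).getD (i % (t.length + 1)) x, fun i => by simp, ?_, ?_⟩
  · intro i
    have hi : i % (t.length + 1) < t.length + 1 := Nat.mod_lt _ (by omega)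
    have h1 := isChain_iff_getElem.1 h (i % (t.length + 1)) (by simp; omega)
    simp only
    rw [getD_eq_getElem _ _ (by simp; omega)]
    have h2 : ((x :: t) ++ [x]).getD ((i + 1) % (t.length + 1)) x =
        ((x :: t) ++ [x])[i % (t.length + 1) + 1]'(by simp; omega) := by
      by_cases h3 : i % (t.length + 1) + 1 < t.length + 1
      · have h4 : (i + 1) % (t.length + 1) = i % (t.length + 1) + 1 := by
          rw [Nat.add_mod, Nat.mod_eq_of_lt (a := 1) (by omega), Nat.mod_eq_of_lt h3]
        rw [h4, getD_eq_getElem _ _ (by simp; omega)]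
      · have h4 : i % (t.length + 1) = t.length := by omega
        have h5 : (i + 1) % (t.length + 1) = 0 := by
          rw [← Nat.mod_add_mod, h4, Nat.mod_self]
        rw [h5]
        simp [h4]
    rw [h2]; exact h1
  · apply ext_getElem
    · simp [seg]
    · intro i h1 h2
      have h3 : i < t.length + 1 := by simpa using h2
      simp only [seg, getElem_map, getElem_range', Nat.zero_add, Nat.one_mul]
      rw [Nat.mod_eq_of_lt h3, getD_eq_getElem _ _ (by simp; omega), getElem_append_left]

/-- spanning path whose final part `x :: t` is a cycle, with `q` vertices strictly between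
`r` and the cycle -/
def Good (S : Finset V) (A : V → V → Prop) (r : V) (q : ℕ) : Prop :=
  ∃ (Q : List V) (x : V) (t : List V), Q.length = q ∧ Span S ((r :: Q) ++ x :: t) ∧
    IsChain A ((r :: Q) ++ x :: t) ∧ IsChain A ((x :: t) ++ [x])

lemma good_of {S : Finset V} {A : V → V → Prop} {r y v : V} {Q t : List V}
    (hs : Span S ((r :: Q) ++ v :: t)) (hc : IsChain A ((r :: Q) ++ v :: t))
    (hy : ((r :: Q) ++ v :: t).getLast? = some y) (h : A y v) : Good S A r Q.length := by
  refine ⟨Q, v, t, rfl, hs, hc, chain_snoc hc.right_of_append ?_ h⟩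
  rw [getLast?_append] at hy
  cases h1 : (v :: t).getLast? with
  | none => simp at h1
  | some a => rw [h1] at hy; simpa using hy

/-- One sided closure: all outdegrees at least `b ≥ n/2`, and a Hamiltonian path from a vertex
of indegree at least `n - b - 1`, give a Hamiltonian cycle. -/
theorem closure {S : Finset V} {A : V → V → Prop} (hirr : ∀ v, ¬ A v v) {b : ℕ}
    (hb : S.card ≤ 2 * b) (hod : ∀ v ∈ S, b ≤ cnt S (A v)) {r : V} {t0 : List V}
    (hs : Span S (r :: t0)) (hc : IsChain A (r :: t0))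
    (hid : S.card ≤ cnt S (fun u => A u r) + b + 1) : HamAt S A r := by
  classical
  by_contra hno
  have hex : ∃ q, Good S A r q := by
    obtain ⟨y, hy⟩ : ∃ y, (r :: t0).getLast? = some y := by
      cases h1 : (r :: t0).getLast? with
      | none => simp at h1
      | some a => exact ⟨a, rfl⟩
    have hyS : y ∈ S := (hs.2 y).1 (mem_of_getLast? hy)
    have h1 := hod y hyS
    have h2 := hs.len
    have h3 : 0 < cnt S (A y) := by simp only [length_cons] at h2; omega
    obtain ⟨v, hv⟩ := Finset.card_pos.1 h3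
    rw [Finset.mem_filter] at hv
    rcases mem_cons.1 ((hs.2 v).2 hv.1) with rfl | h4
    · exact absurd ⟨t0, hs, chain_snoc hc hy hv.2⟩ hno
    · obtain ⟨Q, t, rfl⟩ := append_of_mem h4
      exact ⟨_, good_of hs hc hy hv.2⟩
  obtain ⟨Q, x, t, hq, hsp, hch, hcy⟩ := Nat.find_spec hex
  have hmin : ∀ m, m < Q.length → ¬ Good S A r m := fun m hm => Nat.find_min hex (hq ▸ hm)
  clear hq
  obtain ⟨c, hc1, hc2, hc3⟩ := exists_cyc hcy
  have hx0 : c 0 = x := by
    rw [seg_cons] at hc3; exact (cons.inj hc3).1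
  rw [← hc3] at hsp
  obtain ⟨u, hu⟩ : ∃ y, (r :: Q).getLast? = some y := by
    cases h1 : (r :: Q).getLast? with
    | none => simp at h1
    | some a => exact ⟨a, rfl⟩
  have hux : A u (c 0) := by
    rw [hx0]
    exact (isChain_append.1 hch).2.2 u hu x rfl
  have hQ : IsChain A (r :: Q) := hch.left_of_append
  generalize t.length = m at hc1 hc3 hsp
  clear hc3 hcy hch hx0
  have hsp' : ∀ s, Span S ((r :: Q) ++ seg c s (m + 1)) := fun s =>
    hsp.perm ((seg_perm c _ hc1 s).symm.append_left _)
  have hn : Q.length + 1 + (m + 1) = S.card := by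
    have := hsp.len
    simp only [seg, length_append, length_cons, length_map, length_range'] at this
    exact this
  have hend : ∀ i, c (i + 1 + m) = c i := fun i => by
    rw [show i + 1 + m = i + (m + 1) by omega, hc1]
  -- ends of Hamiltonian paths
  have hT : ∀ i, A u (c (i + 1)) → ∀ v ∈ r :: Q, ¬ A (c i) v := by
    intro i hi v hv hA
    obtain ⟨h1, h2⟩ := chain_seg hc2 hQ hu hi m
    rw [hend] at h2
    rcases mem_cons.1 hv with rfl | h4
    · exact hno ⟨_, hsp' (i + 1), chain_snoc h1 h2 hA⟩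
    · obtain ⟨Q1, Q2, rfl⟩ := append_of_mem h4
      have e : (r :: (Q1 ++ v :: Q2)) ++ seg c (i + 1) (m + 1) =
          (r :: Q1) ++ v :: (Q2 ++ seg c (i + 1) (m + 1)) := by simp
      have h5 := hsp' (i + 1)
      rw [e] at h1 h2 h5
      exact hmin _ (by simp) (good_of h5 h1 h2 hA)
  have hcS : ∀ i, c i ∈ S := fun i =>
    ((hsp' i).2 _).1 (mem_append_right _ (by rw [seg_cons]; exact mem_cons_self))
  have hmiss : ∀ i, A u (c (i + 1)) → ∀ s : Finset ℕ,
      (∀ j ∈ s, i < j ∧ j < i + (m + 1) ∧ ¬ A (c i) (c j)) → s.card + b ≤ m := by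
    intro i hi s hs1
    have h1 := hod _ (hcS i)
    rw [(hsp' (i + 1)).cnt_eq, lc_append, lc_zero _ (hT i hi), seg_lc, Nat.count_succ, hend,
      if_neg (hirr _), Nat.count_eq_card_filter_range] at h1
    have h2 : (s ∪ ((Finset.range m).filter (fun j => A (c i) (c (i + 1 + j)))).image
        (fun j => i + 1 + j)) ⊆ Finset.Ico (i + 1) (i + 1 + m) := by
      intro j hj
      rw [Finset.mem_Ico]
      rcases Finset.mem_union.1 hj with h | h
      · have := hs1 j h; omega
      · obtain ⟨k, hk, rfl⟩ := Finset.mem_image.1 h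
        have := Finset.mem_range.1 (Finset.mem_filter.1 hk).1
        omega
    have h3 := Finset.card_le_card h2
    rw [Finset.card_union_of_disjoint, Finset.card_image_of_injective _ (add_right_injective _),
      Nat.card_Ico] at h3
    · omega
    · rw [Finset.disjoint_left]
      intro j h4 h5
      obtain ⟨k, hk, rfl⟩ := Finset.mem_image.1 h5
      exact (hs1 _ h4).2.2 (Finset.mem_filter.1 hk).2
  have hbm : b ≤ m := by
    have := hmiss m (by rw [← hc1 0] at hux; simpa using hux) ∅ (by simp)
    simpa using this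
  have huQ : u ∈ r :: Q := mem_of_getLast? hu
  have hk : (m - b) + 2 ≤ Nat.count (fun i => A u (c (i + 1))) (m + 1) := by
    have h1 := hod u (((hsp' 1).2 _).1 (mem_append_left _ huQ))
    rw [(hsp' 1).cnt_eq, lc_append, seg_lc] at h1
    have h2 := lc_lt (A u) huQ (hirr u)
    simp only [add_comm 1, length_cons] at h1 h2
    omega
  have hw : (m - b) + 1 ≤ Nat.count (fun i => A (c i) r) (m + 1) := by
    rw [(hsp' 0).cnt_eq, lc_append, seg_lc] at hid
    have h2 := lc_lt (fun v => A v r) (mem_cons_self (a := r) (l := Q)) (hirr r)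
    simp only [Nat.zero_add, length_cons] at hid h2
    omega
  obtain ⟨w, j, a, h1, h2, h3, h4, h5, -, h7, h8⟩ := cyc_exchange (m + 1) (m - b)
    (fun i => A u (c (i + 1))) (fun i => A (c i) r) (fun i j => A (c i) (c j))
    (fun i => by rw [show i + (m + 1) + 1 = i + 1 + (m + 1) by omega, hc1])
    (fun i => by rw [hc1]) (fun i j => by rw [hc1]) (fun i j => by rw [hc1])
    (fun i hi => hT i hi r mem_cons_self)
    (fun i hi s hs1 => by have := hmiss i hi s hs1; omega) hk hw
  obtain ⟨n1, rfl⟩ : ∃ n1, j = w + 1 + n1 := ⟨j - (w + 1), by omega⟩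
  obtain ⟨n2, rfl⟩ : ∃ n2, a = w + 1 + n1 + 1 + n2 := ⟨a - (w + 1 + n1 + 1), by omega⟩
  obtain ⟨n3, rfl⟩ : ∃ n3, m = n1 + 1 + n2 + 1 + n3 := ⟨m - (n1 + 1 + n2 + 1), by omega⟩
  obtain ⟨g1, g2⟩ := chain_seg hc2 hQ hu h5 n2
  obtain ⟨g3, g4⟩ := chain_seg hc2 g1 g2 h7 n1
  obtain ⟨g5, g6⟩ := chain_seg hc2 g3 g4 h8 n3
  rw [show w + 1 + n1 + 1 + n2 + 1 + n3 = w + 1 + (n1 + 1 + n2 + 1 + n3) by omega, hend] at g6
  refine hno ⟨_, ?_, chain_snoc g5 g6 h4⟩
  have e := hsp' (w + 1)
  rw [show n1 + 1 + n2 + 1 + n3 + 1 = (n1 + 1) + (n2 + 1) + (n3 + 1) by omega, seg_add,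
    seg_add] at e
  refine e.perm ?_
  rw [show w + 1 + (n1 + 1 + (n2 + 1)) = w + 1 + n1 + 1 + n2 + 1 by omega,
    show w + 1 + (n1 + 1) = w + 1 + n1 + 1 by omega]
  simp only [cons_append, append_assoc, append_eq]
  refine Perm.cons _ (Perm.append_left _ ?_)
  rw [← append_assoc, ← append_assoc]
  exact perm_append_comm.append_right _

end Pool.Agent.Lib.MP_c8ddae_co.H19
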