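import Mathlib

set_option autoImplicit false

namespace Pool.Agent.Lib.MP_c8ddae_co.H19

open Finset

lemma count_Ico (p : ℕ → Prop) [DecidablePred p] {x y : ℕ} (h : x ≤ y) :
    Nat.count p y = Nat.count p x + ((Ico x y).filter p).card := by
  induction y, h using Nat.le_induction with
  | base => simp
  | succ y hy ih =>
    rw [Nat.count_succ, ih, ← Finset.insert_Ico_right_eq_Ico_add_one hy, filter_insert]
    split_ifs with hp
    · rw [card_insert_of_notMem (by simp)]; omega
    · omega

lemma count_per (p : ℕ → Prop) [DecidablePred p] (z : ℕ) (hp : ∀ i, p (i + z) ↔ p i) (n : ℕ) :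
    Nat.count p (n + z) = Nat.count p n + Nat.count p z := by
  induction n with
  | zero => simp
  | succ n ih =>
    rw [show n + 1 + z = (n + z) + 1 by omega, Nat.count_succ, Nat.count_succ, ih]
    by_cases h : p n
    · rw [if_pos h, if_pos ((hp n).2 h)]; omega
    · rw [if_neg h, if_neg (fun h' => h ((hp n).1 h'))]; omega

/-- The three segment exchange on a cycle of length `z`. -/
theorem cyc_exchange (z d : ℕ) (T W : ℕ → Prop) (E : ℕ → ℕ → Prop)
    [DecidablePred T] [DecidablePred W]
    (hT : ∀ i, T (i + z) ↔ T i) (hW : ∀ i, W (i + z) ↔ W i)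
    (hE1 : ∀ i j, E (i + z) j ↔ E i j) (hE2 : ∀ i j, E i (j + z) ↔ E i j)
    (hTW : ∀ i, T i → ¬ W i)
    (hmiss : ∀ t, T t → ∀ s : Finset ℕ, (∀ j ∈ s, t < j ∧ j < t + z ∧ ¬ E t j) → s.card ≤ d)
    (hk : d + 2 ≤ Nat.count T z) (hw : d + 1 ≤ Nat.count W z) :
    ∃ w b a, w < b ∧ b < a ∧ a < w + z ∧ W w ∧ T b ∧ T a ∧ E a (w + 1) ∧ E b (a + 1) := by
  classical
  by_contra hno
  push Not at hno
  have hz : 0 < z := by
    rcases Nat.eq_zero_or_pos z with h | h
    · subst h; simp at hk
    · exact h
  set hit : ℕ → Set ℕ := fun t => {w | t < w ∧ W w ∧ (E t (w + 1) ∨ w + 1 = t + z)} with hhit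
  have hex : ∀ t, T t → ∃ w, w ∈ hit t ∧ w < t + z := by
    intro t ht
    by_contra hc
    push Not at hc
    have h1 := count_Ico W (show t + 1 ≤ t + z by omega)
    have h2 := count_per W z hW t
    have h3 : Nat.count W (t + 1) = Nat.count W t := by
      rw [Nat.count_succ, if_neg (hTW t ht)]; rfl
    have h4 := hmiss t ht (((Ico (t + 1) (t + z)).filter W).image (· + 1)) (by
      intro j hj
      obtain ⟨w, hw1, rfl⟩ := mem_image.1 hj
      rw [mem_filter, mem_Ico] at hw1
      have h5 : w ∉ hit t := fun h => by have := hc w h; omega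
      simp only [hhit, Set.mem_ofPred_eq, not_and, not_or] at h5
      have h6 := h5 (by omega) hw1.2
      exact ⟨by omega, by omega, h6.1⟩)
    rw [card_image_of_injective _ (add_left_injective 1)] at h4
    omega
  set f : ℕ → ℕ := fun t => sInf (hit t) with hf
  have hfm : ∀ t, T t → f t ∈ hit t := fun t ht => by
    obtain ⟨w, hw1, -⟩ := hex t ht
    exact Nat.sInf_mem ⟨w, hw1⟩
  have hfl : ∀ t w, w ∈ hit t → f t ≤ w := fun t w h => Nat.sInf_le h
  have hfz : ∀ t, T t → f t < t + z := fun t ht => by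
    obtain ⟨w, hw1, hw2⟩ := hex t ht
    exact lt_of_le_of_lt (hfl t w hw1) hw2
  have hshift : ∀ t w, w + z ∈ hit (t + z) ↔ w ∈ hit t := by
    intro t w
    simp only [hhit, Set.mem_ofPred_eq]
    rw [hW, hE1, show w + z + 1 = w + 1 + z by omega, hE2]
    constructor
    · rintro ⟨h1, h2, h3⟩
      exact ⟨by omega, h2, h3.imp id (by omega)⟩
    · rintro ⟨h1, h2, h3⟩
      exact ⟨by omega, h2, h3.imp id (by omega)⟩
  have hfper : ∀ t, T t → f (t + z) = f t + z := by
    intro t ht
    apply le_antisymm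
    · exact hfl _ _ ((hshift _ _).2 (hfm t ht))
    · have h1 := hfm _ ((hT t).2 ht)
      have h2 : t + z < f (t + z) := h1.1
      obtain ⟨u, hu⟩ : ∃ u, f (t + z) = u + z := ⟨f (t + z) - z, by omega⟩
      rw [hu] at h1 ⊢
      have := hfl _ _ ((hshift _ _).1 h1)
      omega
  set P : ℕ → ℤ := fun t => (z : ℤ) * ((Nat.count W (f t) : ℤ) - Nat.count T t) +
    ((Nat.count T z : ℤ) - Nat.count W z) * t with hP
  have hPper : ∀ t, T t → P (t + z) = P t := by
    intro t ht
    simp only [hP]
    rw [hfper t ht, count_per W z hW, count_per T z hT]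
    push_cast
    ring
  have hne : ((range z).filter T).Nonempty := by
    rw [← card_pos, ← Nat.count_eq_card_filter_range]; omega
  obtain ⟨c, hc, hmax⟩ := exists_max_image _ P hne
  rw [mem_filter, mem_range] at hc
  have hall : ∀ a, T a → a < c + z → P a ≤ P (c + z) := by
    intro a ha hac
    rw [hPper c hc.2]
    by_cases h : a < z
    · exact hmax a (mem_filter.2 ⟨mem_range.2 h, ha⟩)
    · obtain ⟨u, rfl⟩ : ∃ u, a = u + z := ⟨a - z, by omega⟩
      have hu := (hT u).1 ha
      rw [hPper u hu]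
      exact hmax u (mem_filter.2 ⟨mem_range.2 (by omega), hu⟩)
  have hb : T (c + z) := (hT c).2 hc.2
  have hfb : c + z < f (c + z) := (hfm _ hb).1
  have hfb2 := hfz _ hb
  -- the counting inequality
  have key : ∀ x, c + 1 ≤ x → x ≤ c + z → (∀ a, T a → c < a → a < x → f a < c + z) →
      Nat.count W (f (c + z)) + Nat.count T x ≤
        Nat.count W (c + z) + Nat.count T (c + 1) + d := by
    intro x hx1 hx2 hsm
    have h1 := count_Ico W (show c + z + 1 ≤ f (c + z) by omega)
    have h2 := count_Ico T hx1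
    have h3 : Nat.count W (c + z + 1) = Nat.count W (c + z) := by
      rw [Nat.count_succ, if_neg (hTW _ hb)]; rfl
    have h4 := hmiss _ hb ((((Ico (c + z + 1) (f (c + z))).filter W) ∪
        (((Ico (c + 1) x).filter T).image (· + z))).image (· + 1)) (by
      intro j hj
      obtain ⟨w, hw1, rfl⟩ := mem_image.1 hj
      rcases mem_union.1 hw1 with hw1 | hw1
      · rw [mem_filter, mem_Ico] at hw1
        have h5 : w ∉ hit (c + z) := fun h => by have := hfl _ _ h; omega
        simp only [hhit, Set.mem_ofPred_eq, not_and, not_or] at h5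
        have h6 := h5 (by omega) hw1.2
        exact ⟨by omega, by omega, h6.1⟩
      · obtain ⟨a, ha, rfl⟩ := mem_image.1 hw1
        rw [mem_filter, mem_Ico] at ha
        have h5 := hsm a ha.2 (by omega) (by omega)
        obtain ⟨h6, h7, h8⟩ := hfm a ha.2
        have h9 : E a (f a + 1) := h8.resolve_right (by omega)
        exact ⟨by omega, by omega, hno (f a) (c + z) (a + z) h5 (by omega) (by omega) h7 hb
          ((hT a).2 ha.2) ((hE1 _ _).2 h9)⟩)
    rw [card_image_of_injective _ (add_left_injective 1), card_union_of_disjoint,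
      card_image_of_injective _ (add_left_injective z)] at h4
    · omega
    · rw [disjoint_left]
      intro w hw1 hw2
      obtain ⟨a, ha, rfl⟩ := mem_image.1 hw2
      exact hTW _ ((hT a).2 (mem_filter.1 ha).2) (mem_filter.1 hw1).2
  have hc1 : Nat.count T (c + 1) = Nat.count T c + 1 := by
    rw [Nat.count_succ, if_pos hc.2]
  have hc2 := count_per T z hT c
  have hmono : Nat.count W (c + z) ≤ Nat.count W (f (c + z)) := Nat.count_monotone W hfb.le
  have hexa : ∃ a, T a ∧ c < a ∧ a < c + z ∧ c + z ≤ f a := by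
    by_contra hc3
    push Not at hc3
    have := key (c + z) (by omega) le_rfl (fun a h1 h2 h3 => hc3 a h1 h2 h3)
    omega
  obtain ⟨ha1, ha2, ha3, ha4⟩ := Nat.find_spec hexa
  have hmin := fun m => Nat.find_min hexa (m := m)
  generalize Nat.find hexa = a at ha1 ha2 ha3 ha4 hmin
  have h1 := key a (by omega) (by omega) (fun u h1 h2 h3 => by
    by_contra h4
    exact hmin u h3 ⟨h1, h2, by omega, by omega⟩)
  have h2 : Nat.count W (c + z) ≤ Nat.count W (f a) := Nat.count_monotone W ha4
  have h3 := hall a ha1 ha3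
  simp only [hP] at h3
  have e1 : (Nat.count T z : ℤ) - 1 - d ≤ ((Nat.count W (f a) : ℤ) - Nat.count T a) -
      ((Nat.count W (f (c + z)) : ℤ) - Nat.count T (c + z)) := by omega
  have e2 : (d : ℤ) + 2 ≤ Nat.count T z := by exact_mod_cast hk
  have e3 : (d : ℤ) + 1 ≤ Nat.count W z := by exact_mod_cast hw
  have e4 : (c : ℤ) < a := by exact_mod_cast ha2
  have e5 : (a : ℤ) < c + z := by exact_mod_cast ha3
  have e6 : (0 : ℤ) < z := by exact_mod_cast hz
  push_cast at h3
  generalize ((Nat.count W (f a) : ℤ) - Nat.count T a) = X at e1 h3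
  generalize ((Nat.count W (f (c + z)) : ℤ) - Nat.count T (c + z)) = Y at e1 h3
  generalize (Nat.count T z : ℤ) = k at e1 e2 h3
  generalize (Nat.count W z : ℤ) = o at e3 h3
  have e7 : (z : ℤ) * (k - 1 - d) ≤ z * (X - Y) := mul_le_mul_of_nonneg_left e1 e6.le
  rcases le_or_gt k o with h | h
  · have e8 : 0 ≤ (o - k) * (c + z - a) := mul_nonneg (by omega) (by omega)
    have e9 : (z : ℤ) * 1 ≤ z * (k - 1 - d) := mul_le_mul_of_nonneg_left (by omega) e6.le
    nlinarith
  · have e8 : 0 < (k - o) * (a - c) := mul_pos (by omega) (by omega)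
    have e9 : (z : ℤ) * (k - o) ≤ z * (k - 1 - d) := mul_le_mul_of_nonneg_left (by omega) e6.le
    nlinarith

end Pool.Agent.Lib.MP_c8ddae_co.H19
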