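import Pool.Agent.Lib.MP_c8ddae_co.H19Close

set_option autoImplicit false

namespace Pool.Agent.Lib.MP_c8ddae_co.H19

open List

variable {V : Type}

lemma cnt_le {S S' : Finset V} {p q : V → Prop} (φ : V → V)
    (h1 : ∀ v ∈ S, p v → φ v ∈ S' ∧ q (φ v))
    (h2 : ∀ v ∈ S, ∀ w ∈ S, p v → p w → φ v = φ w → v = w) : cnt S p ≤ cnt S' q := by
  classical
  unfold cnt
  refine Finset.card_le_card_of_injOn φ ?_ ?_
  · intro v hv
    rw [Finset.mem_coe, Finset.mem_filter] at hv ⊢
    exact h1 v hv.1 hv.2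
  · intro v hv w hw h
    rw [Finset.mem_coe, Finset.mem_filter] at hv hw
    exact h2 v hv.1 w hw.1 hv.2 hw.2 h

lemma cnt_mono {S : Finset V} {p q : V → Prop} (h : ∀ v ∈ S, p v → q v) : cnt S p ≤ cnt S q :=
  cnt_le id (fun v hv hp => ⟨hv, h v hv hp⟩) (fun _ _ _ _ _ _ h => h)

lemma cnt_erase [DecidableEq V] (S : Finset V) (p : V → Prop) (y : V) :
    cnt S p ≤ cnt (S.erase y) p + 1 := by
  classical
  unfold cnt
  rw [Finset.filter_erase]
  exact Nat.le_add_of_sub_le Finset.pred_card_le_card_erase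

lemma cnt_erase_eq [DecidableEq V] {S : Finset V} {p : V → Prop} {y : V} (hy : y ∈ S)
    (h : p y) : cnt (S.erase y) p + 1 = cnt S p := by
  classical
  unfold cnt
  rw [Finset.filter_erase]
  exact Finset.card_erase_add_one (Finset.mem_filter.2 ⟨hy, h⟩)

lemma cnt_pos {S : Finset V} {p : V → Prop} : 0 < cnt S p ↔ ∃ v ∈ S, p v := by
  classical
  unfold cnt
  rw [Finset.card_pos]
  exact ⟨fun ⟨v, hv⟩ => ⟨v, Finset.mem_filter.1 hv⟩, fun ⟨v, hv⟩ => ⟨v, Finset.mem_filter.2 hv⟩⟩

lemma cnt_all {S : Finset V} {p : V → Prop} (h : ∀ v ∈ S, p v) : cnt S p = S.card := by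
  classical
  unfold cnt
  rw [Finset.filter_true_of_mem h]

lemma chain_tail {R R' : V → V → Prop} {l : List V} {x : V} (h : IsChain R (l ++ [x]))
    (hi : ∀ a ∈ l, ∀ c, R a c → R' a c) : IsChain R' (l ++ [x]) := by
  induction l with
  | nil => exact isChain_singleton _
  | cons a l ih =>
    have h1 := ih h.tail (fun u hu => hi u (mem_cons_of_mem _ hu))
    cases l with
    | nil => exact isChain_cons_cons.2 ⟨hi a mem_cons_self _ (isChain_cons_cons.1 h).1, h1⟩
    | cons c l =>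
      exact isChain_cons_cons.2 ⟨hi a mem_cons_self _ (isChain_cons_cons.1 h).1, h1⟩

lemma chain_head {R R' : V → V → Prop} {l : List V} {x : V} (h : IsChain R (x :: l))
    (hi : ∀ c ∈ l, ∀ a, R a c → R' a c) : IsChain R' (x :: l) := by
  induction l generalizing x with
  | nil => exact isChain_singleton _
  | cons a l ih =>
    obtain ⟨h1, h2⟩ := isChain_cons_cons.1 h
    exact isChain_cons_cons.2 ⟨hi a mem_cons_self _ h1,
      ih h2 (fun u hu => hi u (mem_cons_of_mem _ hu))⟩

lemma HamAt.rot {S : Finset V} {A : V → V → Prop} {r r' : V} (h : HamAt S A r) (hr : r' ∈ S) :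
    HamAt S A r' := by
  obtain ⟨t, h1, h2⟩ := h
  rcases mem_cons.1 ((h1.2 r').2 hr) with rfl | h3
  · exact ⟨t, h1, h2⟩
  · obtain ⟨s1, s2, rfl⟩ := append_of_mem h3
    refine ⟨s2 ++ r :: s1, h1.perm ?_, ?_⟩
    · exact perm_append_comm (l₁ := r :: s1) (l₂ := r' :: s2)
    · have e : (r :: (s1 ++ r' :: s2)) ++ [r] = (r :: s1) ++ r' :: (s2 ++ [r]) := by simp
      rw [e, isChain_split] at h2
      have e2 : (r' :: (s2 ++ r :: s1)) ++ [r'] = (r' :: s2) ++ r :: (s1 ++ [r']) := by simp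
      rw [e2, isChain_split]
      exact ⟨h2.2, h2.1⟩

lemma HamAt.rev {S : Finset V} {A : V → V → Prop} {r : V} (h : HamAt S (fun a c => A c a) r) :
    HamAt S A r := by
  obtain ⟨t, h1, h2⟩ := h
  refine ⟨t.reverse, h1.perm ((reverse_perm t).symm.cons _), ?_⟩
  have e : (r :: t.reverse) ++ [r] = ((r :: t) ++ [r]).reverse := by simp
  rw [e, isChain_reverse]
  exact h2

/-- contraction of the arc `x → y`; the merged vertex is called `x` -/
def ctr [DecidableEq V] (A : V → V → Prop) (x y : V) (a c : V) : Prop :=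
  a ≠ c ∧ A (if a = x then y else a) c

section
variable [DecidableEq V] {S : Finset V} {A : V → V → Prop} {x y : V}

lemma ctr_ne {a c : V} (ha : a ≠ x) (h : ctr A x y a c) : A a c := by
  have := h.2; rwa [if_neg ha] at this

lemma ctr_self {c : V} (h : ctr A x y x c) : A y c := by
  have := h.2; rwa [if_pos rfl] at this

lemma ctr_chain {l : List V} (hx : x ∉ l) (h : IsChain (ctr A x y) (x :: l)) :
    IsChain A (y :: l) := by
  cases l with
  | nil => exact isChain_singleton _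
  | cons c l =>
    obtain ⟨h1, h2⟩ := isChain_cons_cons.1 h
    exact isChain_cons_cons.2 ⟨ctr_self h1,
      h2.imp_of_mem_imp (fun a _ ha _ h3 => ctr_ne (ne_of_mem_of_not_mem ha hx) h3)⟩

lemma span_ins {l : List V} (hy : y ∈ S) (h : Span (S.erase y) l) : Span S (y :: l) := by
  refine ⟨nodup_cons.2 ⟨fun h1 => by simpa using (h.2 y).1 h1, h.1⟩, fun v => ?_⟩
  rw [mem_cons, h.2, Finset.mem_erase]
  by_cases hv : v = y
  · simp [hv, hy]
  · simp [hv]

lemma ctr_ham (hy : y ∈ S) (hxy : A x y) (h : HamAt (S.erase y) (ctr A x y) x) :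
    HamAt S A x := by
  obtain ⟨t, h1, h2⟩ := h
  refine ⟨y :: t, (span_ins hy h1).perm (Perm.swap _ _ _), isChain_cons_cons.2 ⟨hxy, ?_⟩⟩
  have hx : x ∉ t := (nodup_cons.1 h1.1).1
  cases t with
  | nil => exact absurd rfl (isChain_cons_cons.1 h2).1.1
  | cons c t =>
    obtain ⟨h3, h4⟩ := isChain_cons_cons.1 h2
    exact isChain_cons_cons.2 ⟨ctr_self h3,
      chain_tail (l := c :: t) h4 (fun a ha _ h5 => ctr_ne (ne_of_mem_of_not_mem ha hx) h5)⟩

lemma ctr_col (hirr : ∀ v, ¬ A v v) (hx : x ∈ S) (hxy : x ≠ y) (c : V) :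
    cnt S (fun a => A a c) ≤ cnt (S.erase y) (fun a => ctr A x y a c) + 1 := by
  by_cases hcx : c = x
  · refine (cnt_erase S _ y).trans (Nat.succ_le_succ (cnt_mono fun a _ h => ?_))
    have h1 : a ≠ c := fun e => hirr c (e ▸ h)
    exact ⟨h1, by rwa [if_neg (hcx ▸ h1)]⟩
  · refine (cnt_erase S _ x).trans (Nat.succ_le_succ
      (cnt_le (fun a => if a = y then x else a) ?_ ?_))
    · intro a ha h
      rw [Finset.mem_erase] at ha
      by_cases hay : a = y
      · simp only [if_pos hay]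
        exact ⟨Finset.mem_erase.2 ⟨hxy, hx⟩, fun e => hcx e.symm, by rwa [if_pos rfl, ← hay]⟩
      · simp only [if_neg hay]
        exact ⟨Finset.mem_erase.2 ⟨hay, ha.2⟩, fun e => hirr c (e ▸ h), by rwa [if_neg ha.1]⟩
    · intro v hv w hw _ _ h
      rw [Finset.mem_erase] at hv hw
      by_cases h1 : v = y <;> by_cases h2 : w = y <;> simp only [h1, h2, if_true, if_false] at h
      · rw [h1, h2]
      · exact absurd h.symm hw.1
      · exact absurd h hv.1
      · exact h

lemma ctr_row (hirr : ∀ v, ¬ A v v) (a : V) :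
    cnt S (A (if a = x then y else a)) ≤ cnt (S.erase y) (ctr A x y a) + 1 := by
  by_cases hax : a = x
  · refine (cnt_erase S _ x).trans (Nat.succ_le_succ (cnt_le id ?_ (fun _ _ _ _ _ _ h => h)))
    intro c hc h
    rw [Finset.mem_erase] at hc
    refine ⟨Finset.mem_erase.2 ⟨fun e => ?_, hc.2⟩, fun e => hc.1 (e.symm.trans hax), h⟩
    rw [if_pos hax] at h
    exact hirr y (e ▸ h)
  · refine (cnt_erase S _ y).trans (Nat.succ_le_succ (cnt_mono fun c _ h => ⟨fun e => ?_, h⟩))
    rw [if_neg hax] at h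
    exact hirr a (e ▸ h)

end

/-- removing a vertex of least degree keeps the condition `#(degree ≤ k) ≤ k` -/
lemma drop_min [DecidableEq V] {S : Finset V} {L : V → Prop} {d d' : V → ℕ} {y : V} {k : ℕ}
    (hy : y ∈ S) (hL : L y) (hmin : ∀ c ∈ S, L c → d y ≤ d c)
    (hd : ∀ c ∈ S.erase y, d c ≤ d' c + 1)
    (h : cnt S (fun c => L c ∧ d c ≤ k + 1) ≤ k + 1) :
    cnt (S.erase y) (fun c => L c ∧ d' c ≤ k) ≤ k := by
  have h1 : cnt (S.erase y) (fun c => L c ∧ d' c ≤ k) ≤
      cnt (S.erase y) (fun c => L c ∧ d c ≤ k + 1) :=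
    cnt_mono fun c hc h2 => ⟨h2.1, by have := hd c hc; have := h2.2; omega⟩
  by_cases h2 : d y ≤ k + 1
  · have := cnt_erase_eq (p := fun c => L c ∧ d c ≤ k + 1) hy ⟨hL, h2⟩
    omega
  · rcases Nat.eq_zero_or_pos (cnt (S.erase y) (fun c => L c ∧ d c ≤ k + 1)) with h3 | h3
    · omega
    · obtain ⟨c, hc, h4, h5⟩ := cnt_pos.1 h3
      have := hmin c (Finset.mem_of_mem_erase hc) h4
      omega

/-- all columns outside `L` complete -/
theorem path_of_complete (L : V → Prop) (n : ℕ) : ∀ (S : Finset V) (A : V → V → Prop),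
    cnt S L = n → (∀ v, ¬ A v v) → (∃ r ∈ S, ¬ L r) →
    (∀ r ∈ S, ¬ L r → ∀ a ∈ S, a ≠ r → A a r) →
    (∀ k, cnt S (fun c => L c ∧ cnt S (fun a => A a c) ≤ k) ≤ k) →
    ∃ r t, ¬ L r ∧ Span S (r :: t) ∧ IsChain A (r :: t) := by
  classical
  induction n with
  | zero =>
    intro S A hn hirr ⟨r, hr, hLr⟩ hcomp _
    have hL : ∀ c ∈ S, ¬ L c := fun c hc h => by
      have := cnt_pos.2 ⟨c, hc, h⟩; omega
    have hs : Span S (r :: (S.erase r).toList) :=
      span_ins hr ⟨Finset.nodup_toList _, fun v => Finset.mem_toList⟩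
    refine ⟨r, _, hLr, hs, ?_⟩
    exact (Pairwise.isChain hs.1).imp_of_mem_imp
      (fun a c ha hc h => hcomp c ((hs.2 c).1 hc) (hL c ((hs.2 c).1 hc)) a ((hs.2 a).1 ha) h)
  | succ n ih =>
    intro S A hn hirr ⟨r, hr, hLr⟩ hcomp hP
    obtain ⟨y0, hy0⟩ := cnt_pos.1 (show 0 < cnt S L by omega)
    obtain ⟨y, hy, hmin⟩ := Finset.exists_min_image (S.filter L)
      (fun c => cnt S (fun a => A a c)) ⟨y0, Finset.mem_filter.2 hy0⟩
    rw [Finset.mem_filter] at hy
    have hpos : 0 < cnt S (fun a => A a y) := by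
      by_contra h
      have h1 := hP 0
      have h2 := (cnt_pos (p := fun c => L c ∧ cnt S (fun a => A a c) ≤ 0)).2
        ⟨y, hy.1, hy.2, by omega⟩
      omega
    obtain ⟨x, hx, hxy⟩ := cnt_pos.1 hpos
    have hne : x ≠ y := fun e => hirr y (e ▸ hxy)
    obtain ⟨r', t, h1, h2, h3⟩ := ih (S.erase y) (ctr A x y)
      (by have := cnt_erase_eq hy.1 hy.2; omega) (fun v h => h.1 rfl)
      ⟨r, Finset.mem_erase.2 ⟨fun e => hLr (e ▸ hy.2), hr⟩, hLr⟩
      (by
        intro c hc hLc a ha hac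
        rw [Finset.mem_erase] at hc ha
        refine ⟨hac, ?_⟩
        split_ifs with h
        · exact hcomp c hc.2 hLc y hy.1 hc.1.symm
        · exact hcomp c hc.2 hLc a ha.2 hac)
      (fun k => drop_min (d := fun c => cnt S (fun a => A a c)) hy.1 hy.2
        (fun c hc h => hmin c (Finset.mem_filter.2 ⟨hc, h⟩))
        (fun c _ => ctr_col hirr hx hne c) (hP _))
    obtain ⟨l1, l2, e⟩ := append_of_mem ((h2.2 x).2 (Finset.mem_erase.2 ⟨hne, hx⟩))
    rw [e] at h2 h3
    have h4 : Span S (l1 ++ x :: y :: l2) := by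
      refine (span_ins hy.1 h2).perm ?_
      exact ((perm_middle (l₁ := l1)).symm).trans ((Perm.swap _ _ _).append_left _)
    have hnd := nodup_middle.1 h2.1
    have hx1 : x ∉ l1 := fun h => (nodup_cons.1 hnd).1 (mem_append_left _ h)
    have hx2 : x ∉ l2 := fun h => (nodup_cons.1 hnd).1 (mem_append_right _ h)
    have h5 : IsChain A (l1 ++ x :: y :: l2) := by
      rw [isChain_split] at h3
      exact isChain_append_cons_cons.2 ⟨chain_tail h3.1
        (fun a ha _ h5 => ctr_ne (ne_of_mem_of_not_mem ha hx1) h5), hxy, ctr_chain hx2 h3.2⟩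
    cases l1 with
    | nil => exact ⟨x, _, (cons.inj e).1 ▸ h1, h4, h5⟩
    | cons a l1 => exact ⟨a, _, (cons.inj e).1 ▸ h1, h4, h5⟩

lemma cnt_lt {S : Finset V} {p q : V → Prop} (h : ∀ v ∈ S, p v → q v) {y : V} (hy : y ∈ S)
    (h1 : q y) (h2 : ¬ p y) : cnt S p < cnt S q := by
  classical
  have h3 := cnt_erase_eq hy h1
  have h4 : cnt S p ≤ cnt (S.erase y) q := cnt_le id
    (fun v hv hp => ⟨Finset.mem_erase.2 ⟨fun e => h2 (by rw [← show v = y from e]; exact hp), hv⟩,
      h v hv hp⟩) (fun _ _ _ _ _ _ h => h)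
  omega

/-- closure followed by contraction -/
theorem ham_low (L : V → Prop) (S : Finset V) (b : ℕ) (hb : S.card ≤ 2 * b)
    (hr : ∃ r ∈ S, ¬ L r) (n : ℕ) : ∀ (A : V → V → Prop),
    cnt (S ×ˢ S) (fun e => e.1 ≠ e.2 ∧ ¬ L e.2 ∧ ¬ A e.1 e.2) = n →
    (∀ v, ¬ A v v) → (∀ v ∈ S, b ≤ cnt S (A v)) →
    (∀ r ∈ S, ¬ L r → S.card ≤ cnt S (fun u => A u r) + b + 1) →
    (∀ k, cnt S (fun c => L c ∧ cnt S (fun a => A a c) ≤ k) ≤ k) →
    ∃ r ∈ S, HamAt S A r := by
  induction n using Nat.strong_induction_on with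
  | _ n ih =>
  intro A hn hirr hod hid hP
  by_cases hc : ∀ r ∈ S, ¬ L r → ∀ a ∈ S, a ≠ r → A a r
  · obtain ⟨r, t, h1, h2, h3⟩ := path_of_complete L _ S A rfl hirr hr hc hP
    have hrS := (h2.2 r).1 mem_cons_self
    exact ⟨r, hrS, closure hirr hb hod h2 h3 (hid r hrS h1)⟩
  · push Not at hc
    obtain ⟨r, hrS, hLr, x, hx, hxr, hA⟩ := hc
    have hle : ∀ c, cnt S (fun a => A a c) ≤ cnt S (fun a => A a c ∨ (a = x ∧ c = r)) :=
      fun c => cnt_mono fun a _ h => Or.inl h
    obtain ⟨r', -, h⟩ := ih _ (by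
        rw [← hn]
        exact cnt_lt (y := (x, r)) (fun e _ he => ⟨he.1, he.2.1, fun h => he.2.2 (Or.inl h)⟩)
          (Finset.mem_product.2 ⟨hx, hrS⟩) ⟨hxr, hLr, hA⟩
          (fun h => h.2.2 (Or.inr ⟨rfl, rfl⟩)))
      (fun a c => A a c ∨ (a = x ∧ c = r)) rfl
      (fun v h => h.elim (hirr v) (fun h => hxr (h.1.symm.trans h.2)))
      (fun v hv => (hod v hv).trans (cnt_mono fun a _ h => Or.inl h))
      (fun c hc hL => by have := hid c hc hL; have := hle c; omega)
      (fun k => le_trans (cnt_mono fun c _ h => ⟨h.1, (hle c).trans h.2⟩) (hP k))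
    obtain ⟨t, h1, h2⟩ := h.rot hrS
    have hrt : r ∉ t := (nodup_cons.1 h1.1).1
    exact ⟨r, hrS, closure hirr hb hod h1 (chain_head h2.left_of_append
      (fun c hc a h3 => h3.resolve_right (fun h4 => hrt (h4.2 ▸ hc)))) (hid r hrS hLr)⟩

/-- the case `p = 0` -/
theorem ham_zero {S : Finset V} {A : V → V → Prop} {b : ℕ} (hS : S.Nonempty)
    (hb : S.card ≤ 2 * b) (hirr : ∀ v, ¬ A v v) (hod : ∀ v ∈ S, b ≤ cnt S (A v))
    (hP : ∀ k, k + b + 2 ≤ S.card → cnt S (fun c => cnt S (fun a => A a c) ≤ k) ≤ k) :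
    ∃ r ∈ S, HamAt S A r := by
  refine ham_low (fun c => cnt S (fun a => A a c) + b + 2 ≤ S.card) S b hb ?_ _ A rfl hirr hod
    (fun r _ h => by omega) (fun k => ?_)
  · by_contra h
    push Not at h
    obtain ⟨c, hc⟩ := hS
    have h1 := h c hc
    have h2 := hP (S.card - b - 2) (by omega)
    rw [cnt_all (fun v hv => by have := h v hv; omega)] at h2
    omega
  · by_cases hk : k + b + 2 ≤ S.card
    · exact le_trans (cnt_mono fun c _ h => h.2) (hP k hk)
    · by_cases h0 : b + 2 ≤ S.card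
      · refine le_trans (cnt_mono fun c _ h => ?_)
          ((hP (S.card - b - 2) (by omega)).trans (by omega))
        have := h.1; omega
      · by_contra h1
        obtain ⟨c, -, h2, -⟩ := cnt_pos.1 (lt_of_le_of_lt (Nat.zero_le k) (not_le.1 h1))
        omega

/-- the general case, stated with the large degrees on the in side -/
theorem ham_gen (p : ℕ) : ∀ (S : Finset V) (A : V → V → Prop) (b : ℕ), S.Nonempty →
    S.card + p ≤ 2 * b → (∀ v, ¬ A v v) →
    cnt S (fun c => cnt S (fun a => A a c) < b) ≤ p →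
    (∀ k < b, cnt S (fun c => cnt S (fun a => A a c) ≤ k) ≤ k) →
    (∀ k, k + b + 2 ≤ S.card + p → cnt S (fun a => cnt S (A a) ≤ k) ≤ k - p) →
    ∃ r ∈ S, HamAt S A r := by
  classical
  have base : ∀ (p : ℕ) (S : Finset V) (A : V → V → Prop) (b : ℕ), S.Nonempty →
      S.card + p ≤ 2 * b → (∀ v, ¬ A v v) → (∀ c ∈ S, b ≤ cnt S (fun a => A a c)) →
      (∀ k, k + b + 2 ≤ S.card + p → cnt S (fun a => cnt S (A a) ≤ k) ≤ k - p) →
      ∃ r ∈ S, HamAt S A r := by
    intro p S A b hS hb hirr hid hP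
    obtain ⟨r, hr, h⟩ := ham_zero (A := fun a c => A c a) hS (show S.card ≤ 2 * b by omega)
      hirr hid (fun k hk => (hP k (by omega)).trans (Nat.sub_le _ _))
    exact ⟨r, hr, h.rev⟩
  induction p with
  | zero =>
    intro S A b hS hb hirr hp _ hP
    refine base 0 S A b hS hb hirr (fun c hc => ?_) hP
    by_contra h
    have := (cnt_pos (p := fun c => cnt S (fun a => A a c) < b)).2 ⟨c, hc, not_le.1 h⟩
    omega
  | succ p ih =>
    intro S A b hS hb hirr hp hQ hP
    obtain ⟨y, hy, hmin⟩ := Finset.exists_min_image S (fun c => cnt S (fun a => A a c)) hS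
    by_cases hyb : b ≤ cnt S (fun a => A a y)
    · exact base _ S A b hS hb hirr (fun c hc => hyb.trans (hmin c hc)) hP
    have hpos : 0 < cnt S (fun a => A a y) := by
      by_contra h
      have h1 := hQ 0 (by omega)
      have h2 := (cnt_pos (p := fun c => cnt S (fun a => A a c) ≤ 0)).2 ⟨y, hy, by omega⟩
      omega
    obtain ⟨x, hx, hxy⟩ := cnt_pos.1 hpos
    have hne : x ≠ y := fun e => hirr y (e ▸ hxy)
    have hx' : x ∈ S.erase y := Finset.mem_erase.2 ⟨hne, hx⟩
    have hcard := Finset.card_erase_add_one hy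
    have hcol : ∀ c ∈ S.erase y,
        cnt S (fun a => A a c) ≤ cnt (S.erase y) (fun a => ctr A x y a c) + 1 :=
      fun c _ => ctr_col hirr hx hne c
    obtain ⟨b, rfl⟩ : ∃ b', b = b' + 1 := ⟨b - 1, by omega⟩
    obtain ⟨r, -, h⟩ := ih (S.erase y) (ctr A x y) b ⟨x, hx'⟩ (by omega) (fun v h => h.1 rfl)
      (by
        have h1 := cnt_erase_eq (p := fun c => cnt S (fun a => A a c) < b + 1) hy (not_le.1 hyb)
        have h2 : cnt (S.erase y) (fun c => cnt (S.erase y) (fun a => ctr A x y a c) < b) ≤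
            cnt (S.erase y) (fun c => cnt S (fun a => A a c) < b + 1) :=
          cnt_mono fun c hc h => by have := hcol c hc; omega
        omega)
      (fun k hk => le_trans (cnt_mono fun c _ h => ⟨trivial, h⟩)
        (drop_min (L := fun _ => True) (d := fun c => cnt S (fun a => A a c)) hy trivial
          (fun c hc _ => hmin c hc) hcol
          (le_trans (cnt_mono fun c _ h => h.2) (hQ (k + 1) (by omega)))))
      (fun k hk => by
        refine le_trans (cnt_le (q := fun a => cnt S (A a) ≤ k + 1)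
          (fun a => if a = x then y else a) ?_ ?_) ((hP (k + 1) (by omega)).trans (by omega))
        · intro a ha h
          refine ⟨?_, (ctr_row hirr a).trans (Nat.succ_le_succ h)⟩
          split_ifs
          · exact hy
          · exact Finset.mem_of_mem_erase ha
        · intro v hv w hw _ _ h
          rw [Finset.mem_erase] at hv hw
          by_cases h1 : v = x <;> by_cases h2 : w = x <;>
            simp only [h1, h2, if_true, if_false] at h
          · rw [h1, h2]
          · exact absurd h.symm hw.1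
          · exact absurd h hv.1
          · exact h)
    exact ⟨x, hx, ctr_ham hy hxy (h.rot hx')⟩

lemma HamAt.enum [Fintype V] {A : V → V → Prop} {r : V} (h : HamAt Finset.univ A r) :
    ∃ f : Fin (Fintype.card V) ≃ V,
      ∀ i j : Fin (Fintype.card V), j.val = (i.val + 1) % Fintype.card V → A (f i) (f j) := by
  classical
  obtain ⟨t, h1, h2⟩ := h
  have hl : Fintype.card V = (r :: t).length := by rw [h1.len, Finset.card_univ]
  refine ⟨(finCongr hl).trans (h1.1.getEquivOfForallMemList _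
    (fun v => (h1.2 v).2 (Finset.mem_univ v))), fun i j hj => ?_⟩
  have hi := i.2
  have hj2 := j.2
  have h3 := isChain_iff_getElem.1 h2 i.val (by simp at hl ⊢; omega)
  rw [getElem_append_left (by omega)] at h3
  change A ((r :: t)[i.val]'(by omega)) ((r :: t)[j.val]'(by omega))
  by_cases h4 : i.val + 1 < Fintype.card V
  · rw [Nat.mod_eq_of_lt h4] at hj
    rw [getElem_append_left (by omega)] at h3
    simpa only [hj] using h3
  · have h5 : i.val + 1 = Fintype.card V := by omega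
    rw [h5, Nat.mod_self] at hj
    rw [getElem_append_right (by omega)] at h3
    simpa [hj] using h3

lemma cnt_ncard [Fintype V] (p : V → Prop) : {v | p v}.ncard = cnt Finset.univ p := by
  classical
  unfold cnt
  rw [← Set.ncard_coe_finset]
  congr 1
  ext v
  simp

end Pool.Agent.Lib.MP_c8ddae_co.H19
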