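import Pool.Agent.Lib.MP_c8ddae_co.H8NE2

set_option autoImplicit false
open Finset

namespace Pool.Agent.Lib.MP_c8ddae_co

variable {V : Type} [Fintype V] [DecidableEq V] {E : V → V → Prop}

open Classical in
/-- out-neighbourhood of a set -/
noncomputable def nb (ρ : V → V → Prop) (S : Finset V) : Finset V :=
  univ.filter fun y => ∃ x ∈ S, ρ x y

lemma mem_nb {ρ : V → V → Prop} {S : Finset V} {y : V} : y ∈ nb ρ S ↔ ∃ x ∈ S, ρ x y := by
  simp [nb]

lemma nb_mono {ρ : V → V → Prop} {S T : Finset V} (h : S ⊆ T) : nb ρ S ⊆ nb ρ T := fun _ hy =>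
  let ⟨x, h1, h2⟩ := mem_nb.1 hy
  mem_nb.2 ⟨x, h h1, h2⟩

lemma deg_le_nb {ρ : V → V → Prop} {S : Finset V} (C : Finset V) {x : V} (hx : x ∈ S) :
    deg ρ C x ≤ (C ∩ nb ρ S).card := by
  classical
  rw [deg_eq]
  exact card_le_card fun v hv =>
    mem_inter.2 ⟨(mem_filter.1 hv).1, mem_nb.2 ⟨x, hx, (mem_filter.1 hv).2⟩⟩

lemma nb_ball {ρ : V → V → Prop} (A : Finset V) (x : V) (j : ℕ) :
    (nb ρ (ball ρ A x j)).card ≤ (ball ρ A x (j + 1)).card + A.card := by
  refine le_trans (card_le_card (t := ball ρ A x (j + 1) ∪ A) fun v hv => ?_) (card_union_le _ _)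
  obtain ⟨y, h1, h2⟩ := mem_nb.1 hv
  by_cases h : v ∈ A
  · exact mem_union_right _ h
  · exact mem_union_left _ (ball_step h1 h h2)

lemma nb_ball_zero {ρ : V → V → Prop} (A : Finset V) (x : V) :
    (nb ρ {x}).card ≤ (ball ρ A x 0).card + A.card := by
  refine le_trans (card_le_card (t := ball ρ A x 0 ∪ A) fun v hv => ?_) (card_union_le _ _)
  obtain ⟨y, h1, h2⟩ := mem_nb.1 hv
  rw [mem_singleton.1 h1] at h2
  by_cases h : v ∈ A
  · exact mem_union_right _ h
  · exact mem_union_left _ (mem_ball.2 ⟨h, Wk.edge _ _ _ h2⟩)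

lemma wk_of_nb {ρ : V → V → Prop} {A : Finset V} {x y : V} {j : ℕ}
    (h : y ∈ nb ρ (ball ρ A x j)) : Wk ρ A (j + 1) x y :=
  let ⟨_, h1, h2⟩ := mem_nb.1 h
  (mem_ball.1 h1).2.snoc (mem_ball.1 h1).1 h2

/-- one block: rows `R`, columns `C`, nearly complete rows `H` -/
structure Half (ρ : V → V → Prop) (R C H : Finset V) (μ θ σ : ℕ) : Prop where
  sub : H ⊆ R
  hi : ∀ x ∈ H, C.card ≤ deg ρ C x + μ
  lo : ∀ k, ((R \ H).filter (deg ρ C · ≤ k)).Nonempty →
    ((R \ H).filter (deg ρ C · ≤ k)).card + σ ≤ k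
  col : ∀ y ∈ C, θ ≤ deg (flip ρ) R y

/-- bipartite expansion -/
def Exp (ρ : V → V → Prop) (R C : Finset V) (g : ℕ) : Prop :=
  ∀ S ⊆ R, S.Nonempty → C ⊆ nb ρ S ∨ S.card + g ≤ (C ∩ nb ρ S).card

lemma Half.big {ρ : V → V → Prop} {R C H : Finset V} {μ θ σ : ℕ} (h : Half ρ R C H μ θ σ)
    (S : Finset V) (hS : S ⊆ R \ H) (hne : S.Nonempty) : ∃ x ∈ S, S.card + σ ≤ deg ρ C x := by
  obtain ⟨x, hx, hmax⟩ := exists_max_image S (deg ρ C) hne
  have hsub : S ⊆ (R \ H).filter (deg ρ C · ≤ deg ρ C x) := fun v hv =>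
    mem_filter.2 ⟨hS hv, hmax v hv⟩
  have := h.lo _ ⟨x, hsub hx⟩
  have := card_le_card hsub
  exact ⟨x, hx, by omega⟩

lemma Half.exp {ρ : V → V → Prop} {R C H : Finset V} {μ θ σ g : ℕ} (h : Half ρ R C H μ θ σ)
    (hc : R.card = C.card) (h1 : g ≤ σ) (h2 : g + μ ≤ θ) : Exp ρ R C g := by
  classical
  intro S hS hne
  by_cases hH : ∃ x ∈ S, x ∈ H
  · obtain ⟨x, hx, hxH⟩ := hH
    by_cases hC : C ⊆ nb ρ S
    · exact Or.inl hC
    · right
      obtain ⟨y, hy, hy'⟩ := not_subset.1 hC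
      have e1 := h.hi x hxH
      have e2 := deg_le_nb (ρ := ρ) C hx
      have e3 := h.col y hy
      have e4 : deg (flip ρ) R y ≤ (R \ S).card := by
        rw [deg_eq']
        exact card_le_card fun v hv => mem_sdiff.2 ⟨(mem_filter.1 hv).1,
          fun e => hy' (mem_nb.2 ⟨v, e, (mem_filter.1 hv).2⟩)⟩
      have e5 := card_sdiff_add_card_eq_card hS
      omega
  · right
    push Not at hH
    obtain ⟨x, hx, h3⟩ := h.big S (fun v hv => mem_sdiff.2 ⟨hS hv, hH v hv⟩) hne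
    have := deg_le_nb (ρ := ρ) C hx
    omega

lemma Exp.dual {ρ : V → V → Prop} {R C : Finset V} {g : ℕ} (h : Exp ρ R C g)
    (hc : R.card = C.card) : Exp (flip ρ) C R g := by
  intro T hT hne
  by_cases hR : R ⊆ nb (flip ρ) T
  · exact Or.inl hR
  · right
    obtain ⟨y, hy, hy'⟩ := not_subset.1 hR
    have key : ∀ v ∈ nb ρ (R \ nb (flip ρ) T), v ∉ T := fun v hv e =>
      let ⟨x, h1, h2⟩ := mem_nb.1 hv
      (mem_sdiff.1 h1).2 (mem_nb.2 ⟨v, e, h2⟩)
    rcases h (R \ nb (flip ρ) T) sdiff_subset ⟨y, mem_sdiff.2 ⟨hy, hy'⟩⟩ with h1 | h1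
    · obtain ⟨t, ht⟩ := hne
      exact absurd ht (key t (h1 (hT ht)))
    · have e1 : (C ∩ nb ρ (R \ nb (flip ρ) T)).card ≤ (C \ T).card :=
        card_le_card fun v hv => mem_sdiff.2 ⟨(mem_inter.1 hv).1, key v (mem_inter.1 hv).2⟩
      have e2 := card_sdiff_add_card_eq_card hT
      have e3 := card_sdiff_add_card_inter R (nb (flip ρ) T)
      omega

lemma Exp.le {ρ : V → V → Prop} {R C : Finset V} {g : ℕ} (h : Exp ρ R C g)
    (hc : R.card = C.card) (S : Finset V) (hS : S ⊆ R) : S.card ≤ (C ∩ nb ρ S).card := by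
  rcases S.eq_empty_or_nonempty with rfl | hne
  · simp
  · rcases h S hS hne with h1 | h1
    · rw [inter_eq_left.2 h1, ← hc]; exact card_le_card hS
    · omega

lemma nb_split (ρ : V → V → Prop) (R C S : Finset V) :
    (C ∩ nb ρ (S ∩ R)).card + (Cᶜ ∩ nb ρ (S ∩ Rᶜ)).card ≤ (nb ρ S).card := by
  rw [← card_union_of_disjoint]
  · refine card_le_card (union_subset ?_ ?_) <;>
      exact inter_subset_right.trans (nb_mono inter_subset_left)
  · exact disjoint_left.2 fun v h1 h2 => mem_compl.1 (mem_inter.1 h2).1 (mem_inter.1 h1).1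

lemma card_split (R S : Finset V) : (S ∩ R).card + (S ∩ Rᶜ).card = S.card := by
  have := card_inter_add_card_sdiff S R
  rwa [sdiff_eq_inter_compl] at this

lemma compl_card_eq {R C : Finset V} (hc : R.card = C.card) : Rᶜ.card = Cᶜ.card := by
  rw [card_compl, card_compl, hc]

lemma exp_perm {ρ : V → V → Prop} {R C : Finset V} {g : ℕ} (h1 : Exp ρ R C g)
    (h2 : Exp ρ Rᶜ Cᶜ g) (hc : R.card = C.card) : ∃ μ : Equiv.Perm V, ∀ v, ρ v (μ v) := by
  classical
  obtain ⟨f, hf, hρ⟩ := (Fintype.all_card_le_filter_rel_iff_exists_injective ρ).1 (by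
    intro S
    have e1 := h1.le hc (S ∩ R) inter_subset_right
    have e2 := h2.le (compl_card_eq hc) (S ∩ Rᶜ) inter_subset_right
    have e3 := nb_split ρ R C S
    have e4 := card_split R S
    have e5 : nb ρ S = univ.filter fun b => ∃ a ∈ S, ρ a b := by ext; simp [mem_nb]
    rw [← e5]
    omega)
  exact ⟨Equiv.ofBijective f (Finite.injective_iff_bijective.1 hf), hρ⟩

lemma grow2 {ρ : V → V → Prop} {R C : Finset V} {g : ℕ} (h1 : Exp ρ R C g)
    (h2 : Exp ρ Rᶜ Cᶜ g) (hc : R.card = C.card) (S : Finset V) :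
    S.card + g ≤ (nb ρ S).card ∨
      (((S ∩ R).Nonempty → C ⊆ nb ρ S) ∧ ((S ∩ Rᶜ).Nonempty → Cᶜ ⊆ nb ρ S)) := by
  have e1 := h1.le hc (S ∩ R) inter_subset_right
  have e2 := h2.le (compl_card_eq hc) (S ∩ Rᶜ) inter_subset_right
  have e3 := nb_split ρ R C S
  have e4 := card_split R S
  by_contra hn
  rw [not_or] at hn
  refine hn.2 ⟨fun hne => ?_, fun hne => ?_⟩
  · rcases h1 _ inter_subset_right hne with h | h
    · exact h.trans (nb_mono inter_subset_left)
    · omega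
  · rcases h2 _ inter_subset_right hne with h | h
    · exact h.trans (nb_mono inter_subset_left)
    · omega

lemma reach_big {ρ : V → V → Prop} {R C : Finset V} {g g' u J : ℕ} (h1 : Exp ρ R C g)
    (h2 : Exp ρ Rᶜ Cᶜ g) (hc : R.card = C.card) (hg : g' + u ≤ g)
    (hJ : Fintype.card V < J * g') (m1 : u < (C \ R).card) (m2 : u < (R \ C).card)
    (A : Finset V) (hA : A.card ≤ u) (x y : V) : Wk ρ A (2 * J + 2) x y := by
  have k1 : ∀ T : Finset V, u < T.card → ∃ v ∈ T, v ∉ A := fun T hT =>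
    exists_mem_notMem_of_card_lt_card (by omega)
  have b0 : (ball ρ A x 0).Nonempty := by
    have e0 := nb_ball_zero (ρ := ρ) A x
    rw [← card_pos]
    rcases grow2 h1 h2 hc {x} with h | h
    · rw [card_singleton] at h; omega
    · by_cases hx : x ∈ R
      · have := card_le_card (h.1 ⟨x, by simpa using hx⟩)
        have := card_le_card (sdiff_subset : C \ R ⊆ C)
        omega
      · have := card_le_card (h.2 ⟨x, by simpa using hx⟩)
        have : (R \ C).card ≤ Cᶜ.card := card_le_card fun v hv => mem_compl.2 (mem_sdiff.1 hv).2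
        omega
  obtain ⟨j, -, hj, hd⟩ := grow (fun j => (ball ρ A x (2 * j)).card) (Fintype.card V) g' 0 J
    (fun j => Wk ρ A (2 * j + 2) x y) (fun j => card_le_univ _) hJ (by
      intro j _ hn
      have s1 : ball ρ A x (2 * j) ⊆ ball ρ A x (2 * j + 1) := ball_mono (by omega)
      have s2 : ball ρ A x (2 * j + 1) ⊆ ball ρ A x (2 * j + 1 + 1) := ball_mono (by omega)
      have c1 := card_le_card s1
      have c2 := card_le_card s2
      have n1 := nb_ball (ρ := ρ) A x (2 * j)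
      have n2 := nb_ball (ρ := ρ) A x (2 * j + 1)
      have hb : (ball ρ A x (2 * j)).Nonempty := b0.mono (ball_mono (Nat.zero_le _))
      show (ball ρ A x (2 * j)).card + g' ≤ (ball ρ A x (2 * j + 1 + 1)).card
      rcases grow2 h1 h2 hc (ball ρ A x (2 * j + 1)) with h | h
      · omega
      rcases grow2 h1 h2 hc (ball ρ A x (2 * j)) with h' | h'
      · omega
      exfalso
      apply hn
      apply wk_of_nb
      have inb : ∀ v, v ∈ nb ρ (ball ρ A x (2 * j)) → v ∉ A → v ∈ ball ρ A x (2 * j + 1) :=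
        fun v hv hA => mem_ball.2 ⟨hA, wk_of_nb hv⟩
      obtain ⟨z, hz⟩ := hb
      have both : (ball ρ A x (2 * j + 1) ∩ R).Nonempty ∧
          (ball ρ A x (2 * j + 1) ∩ Rᶜ).Nonempty := by
        by_cases hR : z ∈ R
        · obtain ⟨v, v1, v2⟩ := k1 _ m1
          rw [mem_sdiff] at v1
          exact ⟨⟨z, mem_inter.2 ⟨s1 hz, hR⟩⟩, ⟨v, mem_inter.2
            ⟨inb v (h'.1 ⟨z, mem_inter.2 ⟨hz, hR⟩⟩ v1.1) v2, mem_compl.2 v1.2⟩⟩⟩
        · obtain ⟨v, v1, v2⟩ := k1 _ m2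
          rw [mem_sdiff] at v1
          exact ⟨⟨v, mem_inter.2
            ⟨inb v (h'.2 ⟨z, mem_inter.2 ⟨hz, mem_compl.2 hR⟩⟩ (mem_compl.2 v1.2)) v2, v1.1⟩⟩,
            ⟨z, mem_inter.2 ⟨s1 hz, mem_compl.2 hR⟩⟩⟩
      by_cases hy : y ∈ C
      · exact h.1 both.1 hy
      · exact h.2 both.2 (mem_compl.2 hy))
  exact hd.le (by omega)

lemma wk_block {ρ : V → V → Prop} {R C A : Finset V} (hb : ∀ x y, ρ x y → (x ∈ R ↔ y ∈ C))
    (hA : C \ R ⊆ A) {j : ℕ} {x v : V} (h : Wk ρ A j x v) (hx : x ∈ R) : v ∈ C := by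
  induction h with
  | edge j x w h => exact (hb _ _ h).1 hx
  | step j x y w h1 h2 _ ih =>
    exact ih (by_contra fun e => h1 (hA (mem_sdiff.2 ⟨(hb _ _ h2).1 hx, e⟩)))

lemma reach_small {ρ : V → V → Prop} {R C : Finset V} {g g' u J : ℕ} (h1 : Exp ρ R C g)
    (hb : ∀ x y, ρ x y → (x ∈ R ↔ y ∈ C)) (hg : g' + 2 * u ≤ g)
    (hJ : Fintype.card V < J * g') (m1 : (C \ R).card ≤ u)
    (A : Finset V) (hA : A.card ≤ u) (x y : V) (hx : x ∈ R) (hy : y ∈ C) :
    Wk ρ A (2 * J + 2) x y := by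
  have cA := card_union_le A (C \ R)
  refine Wk.anti (A := A ∪ (C \ R)) ?_ subset_union_left
  have sub : ∀ j, ball ρ (A ∪ (C \ R)) x j ⊆ R := fun j v hv => by
    rw [mem_ball] at hv
    exact by_contra fun e => hv.1 (mem_union_right _
      (mem_sdiff.2 ⟨wk_block hb subset_union_right hv.2 hx, e⟩))
  rcases h1 {x} (by simpa using hx) (singleton_nonempty x) with h | h
  · obtain ⟨z, z1, z2⟩ := mem_nb.1 (h hy)
    rw [mem_singleton.1 z1] at z2
    exact Wk.edge _ _ _ z2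
  have b0 : (ball ρ (A ∪ (C \ R)) x 0).Nonempty := by
    have e0 := nb_ball_zero (ρ := ρ) (A ∪ (C \ R)) x
    have := card_le_card (inter_subset_right : C ∩ nb ρ {x} ⊆ _)
    rw [card_singleton] at h
    rw [← card_pos]; omega
  obtain ⟨j, -, hj, hd⟩ := grow (fun j => (ball ρ (A ∪ (C \ R)) x j).card) (Fintype.card V) g' 0 J
    (fun j => Wk ρ (A ∪ (C \ R)) (j + 1) x y) (fun j => card_le_univ _) hJ (by
      intro j _ hn
      have n1 := nb_ball (ρ := ρ) (A ∪ (C \ R)) x j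
      rcases h1 _ (sub j) (b0.mono (ball_mono (Nat.zero_le _))) with h | h
      · exact absurd (wk_of_nb (h hy)) hn
      · have := card_le_card (inter_subset_right : C ∩ nb ρ (ball ρ (A ∪ (C \ R)) x j) ⊆ _)
        omega)
  exact hd.le (by omega)

/-- universal cycles for a block -/
lemma uh_block (hirr : ∀ v, ¬ E v v) {R C D : Finset V} {G : V → V → Prop} {u L K N g : ℕ}
    (hN : Fintype.card V ≤ N) (hb : ∀ x y, E x y → (x ∈ R ↔ y ∈ C)) (hc : R.card = C.card)
    (μ : Equiv.Perm V) (hμ : ∀ v, E v (μ v))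
    (hG : ∀ x y, G x y → x ∈ R ∧ y ∈ C ∧ R.card + g + 4 * u ≤ deg E univ x + deg (flip E) univ y)
    (reach : ∀ A : Finset V, A.card ≤ u → ∀ x ∈ D, ∀ y ∈ D, Wk E A L x y)
    (d1 : (R \ D).card ≤ u) (d2 : (C \ D).card ≤ u) (hu : 2 * u < R.card) (hg : 0 < g)
    (hgN : g ≤ N) (hK : (N : ℝ) ^ 2 * (1 - g / N) ^ K < 1) : UH E E G D u L K := by
  classical
  refine ⟨reach, ?_, ?_⟩
  · have := card_sdiff_add_card_inter R D
    have := card_le_card (inter_subset_right : R ∩ D ⊆ D)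
    omega
  have hinj : Function.Injective fun w => (w, μ w) := fun a b hab => (Prod.mk.inj hab).1
  refine ⟨(univ.filter fun w => w ∈ D ∧ μ w ∈ D).image fun w => (w, μ w), N, g,
    card_image_le.trans ((card_le_univ _).trans hN), hg, hgN, ?_, pow_bound hN hgN hK, ?_⟩
  · intro p hp
    obtain ⟨w, hw, rfl⟩ := mem_image.1 hp
    have := (mem_filter.1 hw).2
    exact ⟨hμ w, this.1, this.2, fun (e : w = μ w) => hirr w (by have := hμ w; rwa [← e] at this)⟩
  · intro A hA x y hxy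
    obtain ⟨hx, hy, hd⟩ := hG x y hxy
    set S1 := univ.filter fun w => E x (μ w) with hS1
    set S2 := univ.filter fun w => E w y with hS2
    have e1 : S1.card = deg E univ x := by
      rw [hS1, deg_eq]; exact card_filter_perm μ (E x)
    have e2 : S2.card = deg (flip E) univ y := by rw [hS2, deg_eq']
    have e3 : (univ.filter fun w => μ w ∈ A ∪ (C \ D)).card = (A ∪ (C \ D)).card := by
      have := card_filter_perm μ (· ∈ A ∪ (C \ D))
      simpa only [filter_mem_eq_inter, univ_inter] using this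
    have h2 := card_union_add_card_inter S1 S2
    have h3 : (S1 ∪ S2).card ≤ R.card := card_le_card fun w hw => by
      simp only [hS1, hS2, mem_union, mem_filter, mem_univ, true_and] at hw
      rcases hw with hw | hw
      · exact (hb _ _ (hμ w)).2 ((hb _ _ hw).1 hx)
      · exact (hb _ _ hw).2 hy
    have h4 := le_card_sdiff (A ∪ (R \ D) ∪ univ.filter fun w => μ w ∈ A ∪ (C \ D)) (S1 ∩ S2)
    have h5 := card_union_le (A ∪ (R \ D)) (univ.filter fun w => μ w ∈ A ∪ (C \ D))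
    have h6 := card_union_le A (R \ D)
    have h7 := card_union_le A (C \ D)
    have key : ∀ w ∈ (S1 ∩ S2) \ (A ∪ (R \ D) ∪ univ.filter fun w => μ w ∈ A ∪ (C \ D)),
        (w ∈ D ∧ μ w ∈ D) ∧ w ∉ A ∧ μ w ∉ A ∧ E x (μ w) ∧ E w y := by
      intro w hw
      simp only [hS1, hS2, mem_sdiff, mem_inter, mem_filter, mem_univ, true_and, mem_union,
        not_or, not_and, not_not] at hw
      exact ⟨⟨hw.2.1.2 ((hb _ _ hw.1.2).2 hy), hw.2.2.2 ((hb _ _ hw.1.1).1 hx)⟩,
        hw.2.1.1, hw.2.2.1, hw.1.1, hw.1.2⟩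
    refine ⟨((S1 ∩ S2) \ (A ∪ (R \ D) ∪ univ.filter fun w => μ w ∈ A ∪ (C \ D))).image
      fun w => (w, μ w), image_subset_image fun w hw => mem_filter.2 ⟨mem_univ _, (key w hw).1⟩,
      by rw [card_image_of_injective _ hinj]; omega, ?_⟩
    intro p hp
    obtain ⟨w, hw, rfl⟩ := mem_image.1 hp
    exact (key w hw).2

end Pool.Agent.Lib.MP_c8ddae_co
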