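import Pool.Agent.Lib.MP_c8ddae_co.H8Blk1

set_option autoImplicit false
open Finset

namespace Pool.Agent.Lib.MP_c8ddae_co

variable {V : Type} [Fintype V] [DecidableEq V] {E : V → V → Prop}

open Classical in
/-- free starts in `C` -/
noncomputable def fs (P : PS E) (Z C : Finset V) : Finset V :=
  C.filter fun b => P.St b ∧ P.e b ∉ Z

lemma mem_fs {P : PS E} {Z C : Finset V} {b : V} :
    b ∈ fs P Z C ↔ b ∈ C ∧ P.St b ∧ P.e b ∉ Z := by simp [fs]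

lemma balance (P : PS E) {R C : Finset V} (hb : ∀ x y, E x y → (x ∈ R ↔ y ∈ C))
    (hc : R.card = C.card) (Cs : Finset V) (hX : Cs ⊆ P.X)
    (hcy : ∀ c ∈ Cs, ∃ b, P.St b ∧ P.e b = c ∧ E c b) :
    ((P.X \ Cs) ∩ R).card = (fs P Cs C).card := by
  classical
  have e1 : (R \ P.X).card = (C.filter fun b => ¬ P.St b).card := by
    refine card_bij (fun w _ => P.F w) (fun w hw => ?_) (fun a _ b _ h => P.F.injective h)
      fun b hb' => ⟨P.F.symm b, ?_, by simp⟩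
    · rw [mem_sdiff] at hw
      exact mem_filter.2 ⟨(hb _ _ (P.real w hw.2)).1 hw.1, P.not_St_F hw.2⟩
    · rw [mem_filter] at hb'
      refine mem_sdiff.2 ⟨(hb _ _ (P.real _ hb'.2)).2 (by simpa using hb'.1), hb'.2⟩
  have e2 : (C.filter fun b => P.St b ∧ P.e b ∈ Cs).card = (Cs ∩ R).card := by
    refine card_bij (fun w _ => P.e w) (fun w hw => ?_) (fun a ha b hb h => ?_) fun c hc => ?_
    · rw [mem_filter] at hw
      obtain ⟨b, b1, b2, b3⟩ := hcy _ hw.2.2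
      rw [P.start_unique b1 hw.2.1 b2] at b3
      exact mem_inter.2 ⟨hw.2.2, (hb _ _ b3).2 hw.1⟩
    · exact P.start_unique (mem_filter.1 ha).2.1 (mem_filter.1 hb).2.1 h
    · rw [mem_inter] at hc
      obtain ⟨b, b1, b2, b3⟩ := hcy _ hc.1
      exact ⟨b, mem_filter.2 ⟨(hb _ _ b3).1 hc.2, b1, by rw [b2]; exact hc.1⟩, b2⟩
  have e3 := card_filter_add_card_filter_not (s := C) (fun b => P.St b)
  have e4 := card_filter_add_card_filter_not (s := C.filter fun b => P.St b)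
    (fun b => P.e b ∈ Cs)
  rw [filter_filter, filter_filter] at e4
  have e5 : fs P Cs C = C.filter fun b => P.St b ∧ ¬ P.e b ∈ Cs := by ext; simp [mem_fs]
  have e6 := card_sdiff_add_card_inter R P.X
  have e7 := card_sdiff_add_card_inter (R ∩ P.X) Cs
  have e8 : (R ∩ P.X) \ Cs = (P.X \ Cs) ∩ R := by ext; simp only [mem_sdiff, mem_inter]; tauto
  have e9 : R ∩ P.X ∩ Cs = Cs ∩ R := by
    ext v; simp only [mem_inter]; exact ⟨fun h => ⟨h.2, h.1.1⟩, fun h => ⟨⟨h.2, hX h.1⟩, h.1⟩⟩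
  rw [e8, e9] at e7
  rw [e5]
  omega

lemma fs_insert (P : PS E) (Z C : Finset V) (v : V) :
    (fs P Z C).card ≤ (fs P (insert v Z) C).card + 1 := by
  obtain ⟨b, hb, eb⟩ := P.exists_start v
  refine le_trans (card_le_card (t := insert b (fs P (insert v Z) C)) fun y hy => ?_)
    (card_insert_le _ _)
  rw [mem_fs] at hy
  by_cases h : P.e y = P.e b
  · rw [P.start_unique hy.2.1 hb h]; exact mem_insert_self _ _
  · refine mem_insert_of_mem (mem_fs.2 ⟨hy.1, hy.2.1, ?_⟩)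
    rw [mem_insert, not_or]
    refine ⟨fun e => h ?_, hy.2.2⟩
    rw [eb, ← e, P.e_self _ (P.e_mem y)]

lemma short_lt {l m r σ n : ℕ} (h : l * m ≤ n) (hm : r ≤ m) (hr : n < r * σ) : l < σ := by
  by_contra hc
  push Not at hc
  have : σ * r ≤ l * m := Nat.mul_le_mul hc hm
  nlinarith

lemma merge_step_blk (P : PS E) (Z U R C : Finset V) (hb : ∀ x y, E x y → (x ∈ R ↔ y ∈ C))
    (hZ : Z ⊆ P.X) (hU : ∀ v, P.e v ∈ Z → v ∈ U) (σ r : ℕ)
    (hdeg : ∀ a ∈ P.X, a ∉ Z → a ∈ R → ∀ b ∈ fs P Z C,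
      R.card + 2 * U.card + 2 * σ ≤ deg E univ a + deg (flip E) univ b)
    (hr : Fintype.card V < r * σ) (hm : r ≤ ((P.X \ Z) ∩ R).card) (hm' : r ≤ (fs P Z C).card) :
    ∃ Q a b, a ∈ P.X ∧ a ∉ Z ∧ a ∈ R ∧ Red P Q Z a b := by
  classical
  have hr0 : 0 < r := Nat.pos_of_ne_zero fun e => by simp [e] at hr
  obtain ⟨a, ha, l1⟩ := exists_short P ((P.X \ Z) ∩ R) (card_pos.1 (by omega))
  have ci : ((fs P Z C).image P.e).card = (fs P Z C).card := card_image_of_injOn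
    fun x hx y hy h => P.start_unique (mem_fs.1 hx).2.1 (mem_fs.1 hy).2.1 h
  obtain ⟨a', ha', l2⟩ := exists_short P ((fs P Z C).image P.e) (card_pos.1 (by omega))
  obtain ⟨b, hbf, rfl⟩ := mem_image.1 ha'
  replace l1 := short_lt l1 hm hr
  replace l2 := short_lt l2 (ci ▸ hm') hr
  simp only [mem_inter, mem_sdiff] at ha
  have h1 := hdeg a ha.1.1 ha.1.2 ha.2 b hbf
  rw [mem_fs] at hbf
  obtain ⟨b0, hb0, eb0⟩ := P.exists_start a
  rw [P.e_self a ha.1.1] at eb0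
  by_contra hn
  set A := (univ.filter fun w => E a (P.F w)) \
    insert (P.F.symm b0) (univ.filter fun w => P.F w ∈ U) with hA
  set B := (univ.filter fun w => E w b) \ U with hB
  have e0 : (univ.filter fun w => P.F w ∈ U).card = U.card := by
    have := card_filter_perm P.F (· ∈ U)
    simpa only [filter_mem_eq_inter, univ_inter] using this
  have hAc : deg E univ a ≤ A.card + U.card + 1 := by
    have e1 : (univ.filter fun w => E a (P.F w)).card = deg E univ a := by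
      rw [deg_eq]; exact card_filter_perm P.F (E a)
    have e2 := le_card_sdiff (insert (P.F.symm b0) (univ.filter fun w => P.F w ∈ U))
      (univ.filter fun w => E a (P.F w))
    have e3 := card_insert_le (P.F.symm b0) (univ.filter fun w => P.F w ∈ U)
    rw [← hA] at e2
    omega
  have hBc : deg (flip E) univ b ≤ B.card + U.card := by
    have e1 : (univ.filter fun w => E w b).card = deg (flip E) univ b := by rw [deg_eq']
    have e2 := le_card_sdiff U (univ.filter fun w => E w b)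
    rw [← hB] at e2
    omega
  have mA : ∀ w ∈ A, E a (P.F w) ∧ w ∉ P.X ∧ w ∈ R := by
    intro w hw
    simp only [hA, mem_sdiff, mem_filter, mem_univ, true_and, mem_insert, not_or] at hw
    have hX : w ∉ P.X := fun hX => by
      have hs : P.St (P.F w) := (P.St_F w).2 hX
      obtain ⟨Q, hQ⟩ := red_join P Z hZ ha.1.1 hs ha.1.2 (fun e => hw.2.2 (hU _ e))
        (fun e => hw.2.1 (by rw [← P.start_unique hs hb0 (e.trans eb0.symm)]; simp)) hw.1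
      exact hn ⟨Q, a, _, ha.1.1, ha.1.2, ha.2, hQ⟩
    exact ⟨hw.1, hX, (hb _ _ (P.real w hX)).2 ((hb _ _ hw.1).1 ha.2)⟩
  have mB : ∀ w ∈ B, E w b ∧ P.e w ∉ Z ∧ w ∈ R := by
    intro w hw
    simp only [hB, mem_sdiff, mem_filter, mem_univ, true_and] at hw
    exact ⟨hw.1, fun e => hw.2 (hU _ e), (hb _ _ hw.1).2 hbf.1⟩
  have h2 := card_union_add_card_inter A B
  have h3 : (A ∪ B).card ≤ R.card := card_le_card
    (union_subset (fun w hw => (mA w hw).2.2) fun w hw => (mB w hw).2.2)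
  have h4 := card_union_le (univ.filter (P.e · = a)) (univ.filter (P.e · = P.e b))
  obtain ⟨w, hw, hwB⟩ := exists_mem_notMem_of_card_lt_card (by omega :
    (univ.filter (P.e · = a) ∪ univ.filter (P.e · = P.e b)).card < (A ∩ B).card)
  simp only [mem_union, mem_filter, mem_univ, true_and, not_or] at hwB
  rw [mem_inter] at hw
  obtain ⟨Q, hQ⟩ := red_switch P Z hZ ha.1.1 hbf.2.1 (mA w hw.1).2.1 ha.1.2 hbf.2.2
    (mB w hw.2).2.1 hwB.1 (fun e => hwB.2 e.symm) (mA w hw.1).1 (mB w hw.2).1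
  exact hn ⟨Q, a, b, ha.1.1, ha.1.2, ha.2, hQ⟩

lemma merge_typed (P0 : PS E) (Z R : Finset V) {Hr Hc : V → Prop} (r : ℕ)
    (hstep : ∀ P, Good P0 P Z Hr Hc → r < ((P.X \ Z) ∩ R).card →
      ∃ Q a b, a ∈ P.X ∧ a ∉ Z ∧ a ∈ R ∧ Red P Q Z a b) :
    ∀ (m : ℕ) (P : PS E), Good P0 P Z Hr Hc → ((P.X \ Z) ∩ R).card = r + m →
      ∃ Q, Good P0 Q Z Hr Hc ∧ ((Q.X \ Z) ∩ R).card = r ∧
        (Q.X \ Z) ∩ Rᶜ = (P.X \ Z) ∩ Rᶜ := by
  intro m
  induction m with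
  | zero => exact fun P h1 h2 => ⟨P, h1, h2, rfl⟩
  | succ m ih =>
    intro P h1 h2
    obtain ⟨Q, a, b, ha, hz, hR, hr⟩ := hstep P h1 (by omega)
    have e1 : (Q.X \ Z) ∩ R = ((P.X \ Z) ∩ R).erase a := by
      rw [hr.X]; ext v; simp only [mem_sdiff, mem_erase, mem_inter]; tauto
    have e2 : a ∈ (P.X \ Z) ∩ R := mem_inter.2 ⟨mem_sdiff.2 ⟨ha, hz⟩, hR⟩
    obtain ⟨Q', q1, q2, q3⟩ := ih Q (h1.red hr) (by rw [e1, card_erase_of_mem e2]; omega)
    refine ⟨Q', q1, q2, q3.trans ?_⟩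
    rw [hr.X]; ext v; simp only [mem_sdiff, mem_erase, mem_inter, mem_compl]
    exact ⟨fun h => ⟨⟨h.1.1.2, h.1.2⟩, h.2⟩, fun h => ⟨⟨⟨fun e => h.2 (e ▸ hR), h.1.1⟩, h.1.2⟩, h.2⟩⟩

lemma compl_blk {R C : Finset V} (hb : ∀ x y, E x y → (x ∈ R ↔ y ∈ C)) :
    ∀ x y, E x y → (x ∈ Rᶜ ↔ y ∈ Cᶜ) := fun x y h => by
  rw [mem_compl, mem_compl, hb x y h]

lemma close_two {R C : Finset V} (hb : ∀ x y, E x y → (x ∈ R ↔ y ∈ C)) (hc : R.card = C.card)
    {G1 G2 : V → V → Prop} {Hr Hc : V → Prop}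
    (hG1 : ∀ x y, x ∈ R ∧ Hr x → y ∈ C ∧ Hc y → G1 x y)
    (hG2 : ∀ x y, x ∉ R → Hr x → y ∉ C → Hc y → G2 x y) (r : ℕ) (C1 : Finset V)
    (h1 : C1.card = r + 1) :
    ∀ (p : ℕ) (P : PS E) (C2 : Finset V), C2.card = p → Disjoint C1 C2 → C1 ∪ C2 ⊆ P.X →
    (∀ c ∈ C1, Cyc P G1 c) → (∀ c ∈ C2, Cyc P G2 c) →
    ((P.X \ (C1 ∪ C2)) ∩ R).card = r + 1 → ((P.X \ (C1 ∪ C2)) ∩ Rᶜ).card = p →
    (∀ a ∈ P.X, a ∉ C1 ∪ C2 → Hr a) → (∀ b, P.St b → P.e b ∉ C1 ∪ C2 → Hc b) →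
    (p ≠ 0 → ∃ b ∈ fs P (C1 ∪ C2) C, P.e b ∉ R) → Ham E := by
  intro p
  induction p with
  | zero =>
    intro P C2 h2 _ h3 h4 _ h6 h7 h8 h9 _
    rw [card_eq_zero] at h2
    subst h2
    rw [union_empty] at h3 h6 h7 h8 h9
    have bal := balance P (compl_blk hb) (compl_card_eq hc) C1 h3 fun c hc => (h4 c hc).1
    rw [h7, eq_comm, card_eq_zero] at bal
    have := card_split R (P.X \ C1)
    rw [card_eq_zero] at h7
    refine close_all hG1 r P C1 h1 h3 h4 (by rw [h7] at this; simp at this; omega)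
      (fun a ha hz => ⟨by_contra fun e => ?_, h8 a ha hz⟩)
      fun b hb hz => ⟨by_contra fun e => ?_, h9 b hb hz⟩
    · have : a ∈ (P.X \ C1) ∩ Rᶜ := mem_inter.2 ⟨mem_sdiff.2 ⟨ha, hz⟩, mem_compl.2 e⟩
      rw [h7] at this; simp at this
    · have : b ∈ fs P C1 Cᶜ := mem_fs.2 ⟨mem_compl.2 e, hb, hz⟩
      rw [bal] at this; simp at this
  | succ p ih =>
    intro P C2 h2 dj h3 h4 h5 h6 h7 h8 h9 h10
    obtain ⟨b0, b1, b2⟩ := h10 (by omega)
    rw [mem_fs] at b1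
    have bal := balance P (compl_blk hb) (compl_card_eq hc) (C1 ∪ C2) h3 fun c hc => by
      rcases mem_union.1 hc with h | h
      · exact (h4 c h).1
      · exact (h5 c h).1
    obtain ⟨N, hN, hN'⟩ : ∃ N ∈ fs P (C1 ∪ C2) Cᶜ,
        P.e N ∉ R ∨ ∀ y ∈ fs P (C1 ∪ C2) Cᶜ, P.e y ∈ R := by
      by_cases h : ∀ y ∈ fs P (C1 ∪ C2) Cᶜ, P.e y ∈ R
      · obtain ⟨N, hN⟩ : (fs P (C1 ∪ C2) Cᶜ).Nonempty := card_pos.1 (by omega)
        exact ⟨N, hN, Or.inr h⟩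
      · push Not at h
        obtain ⟨N, hN, h⟩ := h
        exact ⟨N, hN, Or.inl h⟩
    rw [mem_fs, mem_compl] at hN
    obtain ⟨c, hc2⟩ : C2.Nonempty := card_pos.1 (by omega)
    have hcZ : c ∈ C1 ∪ C2 := mem_union_right _ hc2
    have hne : P.e N ≠ P.e b0 := fun e => hN.1 (P.start_unique hN.2.1 b1.2.1 e ▸ b1.1)
    obtain ⟨Q, q1, q2, q3, q4⟩ := junction P (h3 hcZ) (h5 c hc2) (P.e_mem b0)
      (fun e => b1.2.2 (e ▸ hcZ)) hN.2.1 (fun e => hN.2.2 (e ▸ hcZ)) hne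
      (hG2 _ N b2 (h8 _ (P.e_mem b0) b1.2.2) hN.1 (h9 N hN.2.1 hN.2.2))
    have mz : ∀ v, v ∈ C1 ∪ C2.erase c ↔ v ∈ C1 ∪ C2 ∧ v ≠ c := fun v => by
      simp only [mem_union, mem_erase]
      exact ⟨fun h => h.elim (fun h => ⟨Or.inl h, fun e => disjoint_left.1 dj h (e ▸ hc2)⟩)
        fun h => ⟨Or.inr h.2, h.1⟩, fun h => h.1.elim Or.inl fun h' => Or.inr ⟨h.2, h'⟩⟩
    have hs : ∀ c' ∈ C1 ∪ C2.erase c, Same P Q c' := fun c' hc' =>
      have hc'' := (mz c').1 hc'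
      q4 c' (h3 hc''.1) (fun e => b1.2.2 (e ▸ hc''.1)) hc''.2 fun e => hN.2.2 (e ▸ hc''.1)
    have hX : Q.X \ (C1 ∪ C2.erase c) = (P.X \ (C1 ∪ C2)).erase (P.e b0) := by
      rw [q1]
      ext v
      simp only [mem_sdiff, mem_erase, mz]
      exact ⟨fun ⟨⟨h1, h2, h3⟩, h4⟩ => ⟨h2, h3, fun h => h4 ⟨h, h1⟩⟩,
        fun ⟨h1, h2, h3⟩ => ⟨⟨fun e => h3 (e ▸ hcZ), h1, h2⟩, fun h => h3 h.1⟩⟩
    have k7 : ((Q.X \ (C1 ∪ C2.erase c)) ∩ Rᶜ).card = p := by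
      rw [hX, erase_inter, card_erase_of_mem (mem_inter.2 ⟨mem_sdiff.2 ⟨P.e_mem b0, b1.2.2⟩,
        mem_compl.2 b2⟩)]
      omega
    refine ih Q (C2.erase c) (by rw [card_erase_of_mem hc2]; omega)
      (dj.mono_right (erase_subset _ _)) (fun c' hc' => (hs c' hc').mem)
      (fun c' hc' => (h4 c' hc').same (hs c' (mem_union_left _ hc')))
      (fun c' hc' => (h5 c' (mem_of_mem_erase hc')).same (hs c' (mem_union_right _ hc')))
      ?_ k7 (fun a ha ha' => ?_) (fun v hv hv' => ?_) fun hp => ?_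
    · rw [hX, erase_inter, erase_eq_of_notMem fun e => b2 (mem_inter.1 e).2, h6]
    · have : a ∈ (P.X \ (C1 ∪ C2)).erase (P.e b0) := hX ▸ mem_sdiff.2 ⟨ha, ha'⟩
      have := mem_sdiff.1 (mem_of_mem_erase this)
      exact h8 a this.1 this.2
    · obtain ⟨v1, v2, _⟩ := (q2 v).1 hv
      refine h9 v v1 fun h => ?_
      rw [q3 v v2, if_neg (fun e : P.e v = P.e b0 => b1.2.2 (e ▸ h))] at hv'
      exact hv' ((mz _).2 ⟨h, v2⟩)
    · rcases hN' with h | h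
      · have n1 : P.e b0 ≠ c := fun e => b1.2.2 (e ▸ hcZ)
        have n2 : Q.e b0 = P.e N := by rw [q3 b0 n1, if_pos rfl]
        exact ⟨b0, mem_fs.2 ⟨b1.1, (q2 b0).2 ⟨b1.2.1, n1, fun e => hN.1 (e ▸ b1.1)⟩,
          by rw [n2]; exact fun e => hN.2.2 ((mz _).1 e).1⟩, by rw [n2]; exact h⟩
      · obtain ⟨a, ha⟩ : ((Q.X \ (C1 ∪ C2.erase c)) ∩ Rᶜ).Nonempty := card_pos.1 (by omega)
        rw [hX, mem_inter, mem_erase, mem_sdiff, mem_compl] at ha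
        obtain ⟨b, hb', eb⟩ := P.exists_start a
        rw [P.e_self a ha.1.2.1] at eb
        have bC : b ∈ C := by_contra fun e =>
          ha.2 (eb ▸ h b (mem_fs.2 ⟨mem_compl.2 e, hb', by rw [eb]; exact ha.1.2.2⟩))
        have n1 : P.e b ≠ c := fun e => ha.1.2.2 (by rw [← eb, e]; exact hcZ)
        have n2 : Q.e b = a := by rw [q3 b n1, if_neg (by rw [eb]; exact ha.1.1), eb]
        exact ⟨b, mem_fs.2 ⟨bC, (q2 b).2 ⟨hb', n1, fun e => hN.1 (e ▸ bC)⟩,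
          by rw [n2]; exact fun e => ha.1.2.2 ((mz _).1 e).1⟩, by rw [n2]; exact ha.2⟩

end Pool.Agent.Lib.MP_c8ddae_co
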