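import Pool.Agent.Lib.MP_c8ddae_co.H8Blk2

set_option autoImplicit false
open Finset

namespace Pool.Agent.Lib.MP_c8ddae_co

variable {V : Type} [Fintype V] [DecidableEq V] {E : V → V → Prop}

lemma Half.restrict {ρ : V → V → Prop} {R C H : Finset V} {μ θ σ : ℕ} (h : Half ρ R C H μ θ σ)
    (A B : Finset V) (u s0 : ℕ) (hB : Bᶜ.card ≤ u) (hs : s0 + u ≤ σ) (k : ℕ)
    (hk : (((R \ H) ∩ A).filter (deg ρ B · ≤ k)).Nonempty) :
    (((R \ H) ∩ A).filter (deg ρ B · ≤ k)).card + s0 ≤ k := by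
  obtain ⟨x, hx, h1⟩ := h.big _ ((filter_subset _ _).trans inter_subset_left) hk
  have h2 := deg_le_add ρ C B x
  have h3 : (C \ B).card ≤ Bᶜ.card := card_le_card fun v hv => mem_compl.2 (mem_sdiff.1 hv).2
  have := (mem_filter.1 hx).2
  omega

lemma Half.card_H {ρ : V → V → Prop} {R C H : Finset V} {μ θ σ : ℕ} (h : Half ρ R C H μ θ σ)
    (hc : R.card = C.card) (hσ : σ ≤ R.card) : σ ≤ H.card := by
  have e := card_sdiff_add_card_eq_card h.sub
  rcases (R \ H).eq_empty_or_nonempty with h0 | h0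
  · rw [h0] at e; simp at e; omega
  · obtain ⟨x, -, h1⟩ := h.big _ subset_rfl h0
    have := deg_le_card ρ C x
    omega

lemma uh_both (hirr : ∀ v, ¬ E v v) {R C H1 H2 : Finset V} {η u J K N : ℕ}
    (hN : Fintype.card V ≤ N) (hb : ∀ x y, E x y → (x ∈ R ↔ y ∈ C)) (hc : R.card = C.card)
    (h1 : Half E R C H1 (6 * η) (14 * η) (8 * η))
    (h2 : Half (flip E) Cᶜ Rᶜ H2 (6 * η) (14 * η) (8 * η)) (hu : u ≤ η) (hη : 0 < η)
    (c1 : 14 * η ≤ R.card) (c2 : 14 * η ≤ Rᶜ.card) (hJ : N < J * (6 * η))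
    (hK : (N : ℝ) ^ 2 * (1 - (4 * η : ℕ) / N) ^ K < 1) :
    ∃ D1 D2, UH E E (fun x y => x ∈ H1 ∧ y ∈ C) D1 u (2 * J + 2) K ∧
      UH E E (fun x y => x ∉ R ∧ y ∈ H2) D2 u (2 * J + 2) K := by
  have hc' := compl_card_eq hc
  have x1 : Exp E R C (8 * η) := h1.exp hc le_rfl (by omega)
  have x2 : Exp E Rᶜ Cᶜ (8 * η) := (h2.exp hc'.symm le_rfl (by omega)).dual hc'.symm
  obtain ⟨μ, hμ⟩ := exp_perm x1 x2 hc
  have cN := card_le_univ R
  have g1 : ∀ x y, x ∈ H1 ∧ y ∈ C → x ∈ R ∧ y ∈ C ∧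
      R.card + 4 * η + 4 * u ≤ deg E univ x + deg (flip E) univ y := fun x y h => by
    have := h1.hi x h.1
    have := h1.col y h.2
    have := deg_mono E (subset_univ C) x
    have := deg_mono (flip E) (subset_univ R) y
    exact ⟨h1.sub h.1, h.2, by omega⟩
  have g2 : ∀ x y, x ∉ R ∧ y ∈ H2 → x ∈ Rᶜ ∧ y ∈ Cᶜ ∧
      Rᶜ.card + 4 * η + 4 * u ≤ deg E univ x + deg (flip E) univ y := fun x y h => by
    have := h2.hi y h.2
    have : 14 * η ≤ deg E Cᶜ x := h2.col x (mem_compl.2 h.1)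
    have := deg_mono E (subset_univ Cᶜ) x
    have := deg_mono (flip E) (subset_univ Rᶜ) y
    exact ⟨mem_compl.2 h.1, h2.sub h.2, by omega⟩
  have e1 := card_sdiff_add_card_inter R C
  have e2 := card_sdiff_add_card_inter C R
  rw [inter_comm] at e2
  have z0 : ∀ T : Finset V, (T \ univ).card ≤ u := fun T => by
    rw [sdiff_eq_empty_iff_subset.2 (subset_univ T)]; exact Nat.zero_le _
  by_cases hm : u < (C \ R).card
  · have rb := reach_big x1 x2 hc (by omega : 6 * η + u ≤ 8 * η) (hN.trans_lt hJ) hm (by omega)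
    exact ⟨univ, univ, uh_block hirr hN hb hc μ hμ g1 (fun A hA x _ y _ => rb A hA x y)
      (z0 _) (z0 _) (by omega) (by omega) (by omega) hK,
      uh_block hirr hN (compl_blk hb) hc' μ hμ g2 (fun A hA x _ y _ => rb A hA x y)
      (z0 _) (z0 _) (by omega) (by omega) (by omega) hK⟩
  · have s1 : Cᶜ \ Rᶜ = R \ C := by ext; simp only [mem_sdiff, mem_compl]; tauto
    have s2 : R \ (R ∩ C) = R \ C := by ext; simp only [mem_sdiff, mem_inter]; tauto
    have s3 : C \ (R ∩ C) = C \ R := by ext; simp only [mem_sdiff, mem_inter]; tauto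
    have s4 : Rᶜ \ (Rᶜ ∩ Cᶜ) = C \ R := by ext; simp only [mem_sdiff, mem_inter, mem_compl]; tauto
    have s5 : Cᶜ \ (Rᶜ ∩ Cᶜ) = R \ C := by ext; simp only [mem_sdiff, mem_inter, mem_compl]; tauto
    refine ⟨R ∩ C, Rᶜ ∩ Cᶜ, uh_block hirr hN hb hc μ hμ g1 (fun A hA x hx y hy =>
      reach_small x1 hb (by omega : 6 * η + 2 * u ≤ 8 * η) (hN.trans_lt hJ) (by omega) A hA x y
        (mem_inter.1 hx).1 (mem_inter.1 hy).2)
      (by rw [s2]; omega) (by rw [s3]; omega) (by omega) (by omega) (by omega) hK,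
      uh_block hirr hN (compl_blk hb) hc' μ hμ g2 (fun A hA x hx y hy =>
      reach_small x2 (compl_blk hb) (by omega : 6 * η + 2 * u ≤ 8 * η) (hN.trans_lt hJ)
        (by rw [s1]; omega) A hA x y (mem_inter.1 hx).1 (mem_inter.1 hy).2)
      (by rw [s4]; omega) (by rw [s5]; omega) (by omega) (by omega) (by omega) hK⟩

lemma fe_insert (X Z R : Finset V) (v : V) :
    ((X \ insert v Z) ∩ R).card ≤ ((X \ Z) ∩ R).card ∧
      ((X \ Z) ∩ R).card ≤ ((X \ insert v Z) ∩ R).card + 1 := by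
  refine ⟨card_le_card fun x => ?_, le_trans (card_le_card fun x => ?_) (card_insert_le v _)⟩ <;>
    simp only [mem_inter, mem_sdiff, mem_insert] <;> tauto

theorem block_ham (hirr : ∀ v, ¬ E v v) {R C H1 H2 : Finset V} {η u J K r s0 N : ℕ}
    (hN : Fintype.card V ≤ N) (hb : ∀ x y, E x y → (x ∈ R ↔ y ∈ C)) (hc : R.card = C.card)
    {v0 : V} (hv1 : v0 ∈ C) (hv2 : v0 ∉ R)
    (h1 : Half E R C H1 (6 * η) (14 * η) (8 * η))
    (h2 : Half (flip E) Cᶜ Rᶜ H2 (6 * η) (14 * η) (8 * η)) (hu : u ≤ η)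
    (hJ : N < J * (6 * η)) (hK : (N : ℝ) ^ 2 * (1 - (4 * η : ℕ) / N) ^ K < 1)
    (hr : N < r * (3 * η)) (hru : 1 + (2 * r + 3) * ((K + 1) * (2 * J + 4)) ≤ u)
    (hs0 : ∀ e, e * (e + 1) ≤ 4 * N + 6 → 2 * e + 2 ≤ s0) (hs : s0 ≤ η) : Ham E := by
  classical
  have hc' := compl_card_eq hc
  have c1 : 14 * η ≤ R.card := (h1.col v0 hv1).trans (deg_le_card _ _ _)
  have c2 : 14 * η ≤ Cᶜ.card := (h2.col v0 (mem_compl.2 hv2)).trans (deg_le_card _ _ _)
  have hru' : 2 * r + 4 ≤ u := by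
    have : (2 * r + 3) * 1 ≤ (2 * r + 3) * ((K + 1) * (2 * J + 4)) :=
      Nat.mul_le_mul_left _ (Nat.succ_le_of_lt (by positivity))
    omega
  obtain ⟨D1, D2, u1, u2⟩ := uh_both hirr hN hb hc h1 h2 hu (by omega) c1 (by omega) hJ hK
  have hL : 2 * J + 2 + 2 = 2 * J + 4 := by omega
  have hsp : (2 * r + 3) * ((K + 1) * (2 * J + 4)) =
      (r + 1) * ((K + 1) * (2 * J + 4)) + (r + 2) * ((K + 1) * (2 * J + 4)) := by ring
  obtain ⟨P0, U0, C1, -, k0, sg0, sU0, cU0, a1, dj0, a2, a3, a4, a5⟩ := many_cycles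
    (fun _ _ h => h) (Q := fun _ => True) (fun _ _ _ _ _ _ _ _ _ => trivial) u1 (PS.triv E) {v0}
    {v0} trivial (subset_univ _) (sing_triv.mono (empty_subset _)) subset_rfl (r + 1)
    (by rw [hL, card_singleton]; omega)
  rw [hL, card_singleton] at cU0
  have s0' := k0 v0 (mem_singleton_self _)
  have vU : v0 ∈ U0 := sU0 (mem_singleton_self _)
  obtain ⟨P1, U, C2, -, k1, sg, sU, cU, b1, dj1, b2, b3, b4, b5⟩ := many_cycles
    (fun _ _ h => h) (Q := fun _ => True) (fun _ _ _ _ _ _ _ _ _ => trivial) u2 P0 (insert v0 C1)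
    U0 trivial (insert_subset s0'.mem a2) sg0 (insert_subset vU a1) (r + 2)
    (by rw [hL]; omega)
  rw [hL] at cU
  replace cU : U.card ≤ u := by omega
  have dj : Disjoint C1 C2 := (dj1.mono_right (subset_insert _ _)).symm
  have n0 : v0 ∉ C1 ∪ C2 := fun e => (mem_union.1 e).elim
    (fun h => disjoint_left.1 dj0 h (mem_singleton_self _))
    fun h => disjoint_left.1 dj1 h (mem_insert_self _ _)
  set Z := insert v0 (C1 ∪ C2) with hZ
  have ZU : Z ⊆ U := insert_subset (sU vU) (union_subset (a1.trans sU) b1)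
  have ZX : Z ⊆ P1.X := insert_subset (k1 v0 (mem_insert_self _ _)).mem
    (union_subset (fun c hc => (k1 c (mem_insert_of_mem hc)).mem) b2)
  have hUe : ∀ v, P1.e v ∈ Z ↔ v ∈ U := fun v =>
    ⟨fun hv => by
      by_contra hn
      rw [sg.e hn] at hv
      exact hn (ZU hv), fun hv => by
      by_cases h0 : v ∈ U0
      · have : P0.e v ∈ insert v0 C1 := by
          by_cases e : v = v0
          · rw [e, P0.e_self _ s0'.mem]; exact mem_insert_self _ _
          · exact mem_insert_of_mem (a4 v h0 (by simpa using e))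
        exact insert_subset_insert _ subset_union_left ((k1.e_mem v).2 this)
      · exact mem_insert_of_mem (mem_union_right _ (b4 v hv h0))⟩
  have cy1 : ∀ c ∈ C1, Cyc P1 (fun x y => x ∈ H1 ∧ y ∈ C) c := fun c hc =>
    (a5 c hc).same (k1 c (mem_insert_of_mem hc))
  obtain ⟨Y1, hY1, cY1⟩ : ∃ Y ⊆ C \ U, Y.card = r + 2 := by
    apply exists_subset_card_eq
    have := le_card_sdiff U C
    omega
  obtain ⟨Y2, hY2, cY2⟩ : ∃ Y ⊆ H2 \ U, Y.card = r + 2 := by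
    apply exists_subset_card_eq
    have := le_card_sdiff U H2
    have := h2.card_H hc'.symm (by omega)
    omega
  obtain ⟨P2, A, B, Jn, k2, bk, hA, hB⟩ := greedy_all E (fun _ _ h => h) P1 Uᶜ (U ∪ (Y1 ∪ Y2))ᶜ
    (R \ H1) (Cᶜ \ H2) (fun v hv => (sg v (mem_compl.1 hv)).1)
    (fun v hv => (sg v fun e => mem_compl.1 hv (mem_union_left _ e)).2.1)
    (fun P => Keep P1 P Z)
    (fun P P' x y hk hx hy _ _ _ _ hj => hk.trans (hj.keep hk.sub
      (fun e => mem_compl.1 hx (ZU e))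
      (fun e => mem_compl.1 hy (mem_union_left _ ((hUe y).1 ((hk.e_mem y).1 e))))))
    (Keep.refl P1 ZX) s0 (fun e he => hs0 e (by omega))
    (h1.restrict _ _ (2 * u) s0 (by
      have := card_union_le U (Y1 ∪ Y2)
      have := card_union_le Y1 Y2
      rw [compl_compl]; omega) (by omega))
    (h2.restrict _ _ (2 * u) s0 (by rw [compl_compl]; omega) (by omega))
  have g2 : Good P1 P2 Z (fun x => x ∈ R → x ∈ H1) (fun y => y ∉ C → y ∈ H2) := by
    refine ⟨k2, fun a ha haz hR => ?_, fun b hb hbz hC => ?_⟩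
    · obtain ⟨h1, h2⟩ := (bk.X a).1 ha
      have haU : a ∉ U := fun e => haz (by
        have := (hUe a).2 e
        rwa [P1.e_self a h1] at this)
      by_contra hn
      have : a ∈ (R \ H1) ∩ A := mem_inter.2 ⟨mem_sdiff.2 ⟨hR, hn⟩, h2 (mem_compl.2 haU)⟩
      rw [hA] at this
      simp at this
    · obtain ⟨h1, h2⟩ := (bk.St b).1 hb
      have hbU : b ∉ U := fun e => hbz ((k2.e_mem b).2 ((hUe b).2 e))
      by_contra hn
      have y1 : b ∉ Y1 := fun e => hC (mem_sdiff.1 (hY1 e)).1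
      have y2 : b ∉ Y2 := fun e => hn (mem_sdiff.1 (hY2 e)).1
      have : b ∈ (Cᶜ \ H2) ∩ B := mem_inter.2 ⟨mem_sdiff.2 ⟨mem_compl.2 hC, hn⟩,
        h2 (by simp [hbU, y1, y2])⟩
      rw [hB] at this
      simp at this
  have cyc : ∀ P, Keep P1 P Z → C1 ∪ C2 ⊆ P.X ∧ (∀ c ∈ C1, Cyc P (fun x y => x ∈ H1 ∧ y ∈ C) c) ∧
      (∀ c ∈ C2, Cyc P (fun x y => x ∉ R ∧ y ∈ H2) c) := fun P k =>
    ⟨(subset_insert _ _).trans k.sub,
      fun c hc => (cy1 c hc).same (k c (mem_insert_of_mem (mem_union_left _ hc))),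
      fun c hc => (b5 c hc).same (k c (mem_insert_of_mem (mem_union_right _ hc)))⟩
  have bal : ∀ P, Keep P1 P Z → ∀ R' C' : Finset V, (∀ x y, E x y → (x ∈ R' ↔ y ∈ C')) →
      R'.card = C'.card → ((P.X \ (C1 ∪ C2)) ∩ R').card = (fs P (C1 ∪ C2) C').card :=
    fun P k R' C' q1 q2 => balance P q1 q2 _ (cyc P k).1 fun c hc => (mem_union.1 hc).elim
      (fun h => ((cyc P k).2.1 c h).1) fun h => ((cyc P k).2.2 c h).1
  have res : ∀ Y C' : Finset V, Y ⊆ C' \ U → Y ⊆ Y1 ∪ Y2 → Y ⊆ fs P2 (C1 ∪ C2) C' :=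
    fun Y C' q1 q2 b hb => by
      have q := mem_sdiff.1 (q1 hb)
      exact mem_fs.2 ⟨q.1, (bk.St b).2 ⟨(sg b q.2).2.1,
        fun e => absurd (mem_union_right _ (q2 hb)) (mem_compl.1 e)⟩,
        fun e => q.2 ((hUe b).1 ((k2.e_mem b).1 (mem_insert_of_mem e)))⟩
  have m1 : r + 1 ≤ ((P2.X \ Z) ∩ R).card := by
    have := card_le_card (res Y1 C hY1 subset_union_left)
    have := bal P2 k2 R C hb hc
    have := (fe_insert P2.X (C1 ∪ C2) R v0).2
    rw [hZ]; omega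
  have m2 : r + 1 ≤ ((P2.X \ Z) ∩ Rᶜ).card := by
    have := card_le_card (res Y2 Cᶜ (hY2.trans (sdiff_subset_sdiff h2.sub subset_rfl))
      subset_union_right)
    have := bal P2 k2 Rᶜ Cᶜ (compl_blk hb) hc'
    have := (fe_insert P2.X (C1 ∪ C2) Rᶜ v0).2
    rw [hZ]; omega
  have fsz : ∀ P, Keep P1 P Z → ∀ R' C' : Finset V, (∀ x y, E x y → (x ∈ R' ↔ y ∈ C')) →
      R'.card = C'.card → r + 1 < ((P.X \ Z) ∩ R').card → r ≤ (fs P Z C').card :=
    fun P k R' C' q1 q2 q3 => by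
      have := bal P k R' C' q1 q2
      have := (fe_insert P.X (C1 ∪ C2) R' v0).1
      have := fs_insert P (C1 ∪ C2) C' v0
      rw [hZ] at q3 ⊢; omega
  obtain ⟨P3, g3, t1, t2⟩ := merge_typed P1 Z R (r + 1) (fun P g hm =>
    merge_step_blk P Z U R C hb g.keep.sub (fun v hv => (hUe v).1 ((g.keep.e_mem v).1 hv))
      (3 * η) r (fun a ha hz hR b hb => by
        have := h1.hi a (g.ends a ha hz hR)
        have := h1.col b (mem_fs.1 hb).1
        have := deg_mono E (subset_univ C) a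
        have := deg_mono (flip E) (subset_univ R) b
        omega) (hN.trans_lt hr) (by omega) (fsz P g.keep R C hb hc hm))
    (((P2.X \ Z) ∩ R).card - (r + 1)) P2 g2 (by omega)
  obtain ⟨P4, g4, t3, t4⟩ := merge_typed P1 Z Rᶜ (r + 1) (fun P g hm =>
    merge_step_blk P Z U Rᶜ Cᶜ (compl_blk hb) g.keep.sub
      (fun v hv => (hUe v).1 ((g.keep.e_mem v).1 hv)) (3 * η) r (fun a ha hz hR b hb => by
        rw [mem_fs, mem_compl] at hb
        have := h2.hi b (g.starts b hb.2.1 hb.2.2 hb.1)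
        have : 14 * η ≤ deg E Cᶜ a := h2.col a hR
        have := deg_mono E (subset_univ Cᶜ) a
        have := deg_mono (flip E) (subset_univ Rᶜ) b
        omega) (hN.trans_lt hr) (by omega) (fsz P g.keep Rᶜ Cᶜ (compl_blk hb) hc' hm))
    (((P3.X \ Z) ∩ Rᶜ).card - (r + 1)) P3 g3 (by rw [t2]; omega)
  rw [compl_compl] at t4
  have s4 : Same (PS.triv E) P4 v0 :=
    (s0'.trans (k1 v0 (mem_insert_self _ _))).trans (g4.keep v0 (mem_insert_self _ _))
  have ev : ∀ v, P4.e v = v0 ↔ v = v0 := s4.e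
  have f1 : (P4.X \ (C1 ∪ C2)) ∩ R = (P4.X \ Z) ∩ R := by
    ext v
    simp only [hZ, mem_inter, mem_sdiff, mem_insert, not_or]
    exact ⟨fun h => ⟨⟨h.1.1, fun e => hv2 (e ▸ h.2), h.1.2⟩, h.2⟩, fun h => ⟨⟨h.1.1, h.1.2.2⟩, h.2⟩⟩
  have f2 : (P4.X \ (C1 ∪ C2)) ∩ Rᶜ = insert v0 ((P4.X \ Z) ∩ Rᶜ) := by
    ext v
    simp only [hZ, mem_inter, mem_sdiff, mem_insert, not_or]
    constructor
    · tauto
    · rintro (rfl | h)
      · exact ⟨⟨s4.mem, n0⟩, mem_compl.2 hv2⟩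
      · tauto
  refine close_two hb hc (Hr := fun x => x ∈ R → x ∈ H1) (Hc := fun y => y ∉ C → y ∈ H2)
    (fun x y hx hy => ⟨hx.2 hx.1, hy.1⟩) (fun x y hx _ hy hy' => ⟨hx, hy' hy⟩) r C1 a3 (r + 2) P4
    C2 b3 dj (cyc P4 g4.keep).1 (cyc P4 g4.keep).2.1 (cyc P4 g4.keep).2.2 (by rw [f1, t4, t1])
    (by rw [f2, card_insert_of_notMem (by simp [hZ]), t3]) (fun a ha hz hR => ?_)
    (fun b hb hz hC => ?_) fun _ => ⟨v0, mem_fs.2 ⟨hv1, (s4.St v0 rfl).2 (mem_univ _), ?_⟩, ?_⟩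
  · exact g4.ends a ha (fun e => (mem_insert.1 e).elim (fun e => hv2 (e ▸ hR)) hz) hR
  · exact g4.starts b hb
      (fun e => (mem_insert.1 e).elim (fun e => hC ((ev b).1 e ▸ hv1)) hz) hC
  · rw [(ev v0).2 rfl]; exact n0
  · rw [(ev v0).2 rfl]; exact hv2

end Pool.Agent.Lib.MP_c8ddae_co
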