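import Pool.Agent.Lib.MP_c8ddae_co.H8Count

set_option autoImplicit false
open Finset

namespace Pool.Agent.Lib.MP_c8ddae_co

variable {V : Type} [Fintype V] [DecidableEq V] {E : V → V → Prop}

/-- bookkeeping: `P` was obtained from `P0` by joins using ends in `A0` and starts in `B0`;
`A`, `B` are the unused ones. -/
structure Book (P0 P : PS E) (A0 B0 A B : Finset V) (J : ℕ) : Prop where
  subA : A ⊆ A0
  subB : B ⊆ B0
  X : ∀ v, v ∈ P.X ↔ v ∈ P0.X ∧ (v ∈ A0 → v ∈ A)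
  St : ∀ v, P.St v ↔ P0.St v ∧ (v ∈ B0 → v ∈ B)
  cardA : A.card + J = A0.card
  cardB : B.card + J = B0.card

lemma Book.step {P0 P P' : PS E} {A0 B0 A B : Finset V} {J : ℕ} (h : Book P0 P A0 B0 A B J)
    {x y : V} (hx : x ∈ A) (hy : y ∈ B) (hj : PS.IsJoin P P' x y) :
    Book P0 P' A0 B0 (A.erase x) (B.erase y) (J + 1) where
  subA := (erase_subset _ _).trans h.subA
  subB := (erase_subset _ _).trans h.subB
  X v := by
    rw [hj.X, mem_erase, h.X, mem_erase]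
    have := h.subA hx
    constructor
    · rintro ⟨h1, h2, h3⟩; exact ⟨h2, fun h4 => ⟨h1, h3 h4⟩⟩
    · rintro ⟨h2, h3⟩
      exact ⟨fun h4 => (h3 (h4 ▸ this)).1 h4, h2, fun h4 => (h3 h4).2⟩
  St v := by
    rw [hj.St, h.St, mem_erase]
    have := h.subB hy
    constructor
    · rintro ⟨⟨h2, h3⟩, h1⟩; exact ⟨h2, fun h4 => ⟨h1, h3 h4⟩⟩
    · rintro ⟨h2, h3⟩
      exact ⟨⟨h2, fun h4 => (h3 h4).2⟩, fun h4 => (h3 (h4 ▸ this)).1 h4⟩
  cardA := by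
    have := h.cardA; have h1 := card_erase_of_mem hx; have := card_pos.2 ⟨x, hx⟩; omega
  cardB := by
    have := h.cardB; have h1 := card_erase_of_mem hy; have := card_pos.2 ⟨y, hy⟩; omega

lemma Pos.real {R : Finset V} {val a : V → ℕ} {φ : ℕ → ℕ} {t e t0 : ℕ}
    (h : Pos R (fun x => val x + a x) φ t e) (hφ : Monotone φ) (ha : ∀ x ∈ R, a x ≤ e)
    (ht : R.Nonempty → t0 ≤ t) (k : ℕ) (hk : (R.filter (val · ≤ k)).Nonempty) :
    (R.filter (val · ≤ k)).card + φ t0 ≤ k + 2 * e := by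
  have hsub : R.filter (val · ≤ k) ⊆ R.filter (fun x => val x + a x ≤ k + e) := by
    intro u hu
    rw [mem_filter] at hu
    exact mem_filter.2 ⟨hu.1, by have := ha u hu.1; omega⟩
  have h1 := card_le_card hsub
  have h2 : (R.filter (fun x => val x + a x ≤ k + e)).card + φ (k + e + t) ≤ k + e + e :=
    h (k + e) (hk.mono hsub)
  have h3 := ht (hk.mono (filter_subset _ _))
  have h4 : φ t0 ≤ φ (k + e + t) := hφ (by omega)
  omega

section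
variable (ρ : V → V → Prop) (hρ : ∀ x y, ρ x y → E x y) (P0 : PS E) (A0 B0 R0 C0 : Finset V)
  (hA0 : A0 ⊆ P0.X) (hB0 : ∀ y ∈ B0, P0.St y) (Q : PS E → Prop)
  (hQ : ∀ P P' x y, Q P → x ∈ A0 → y ∈ B0 → ρ x y → x ∈ P.X → P.St y → P.e y ≠ x →
    PS.IsJoin P P' x y → Q P')
  (φ : ℕ → ℕ) (hmono : Monotone φ) (t0 : ℕ)
  (hφ : ∀ t e, t ≤ t0 → e * (e + 1) ≤ 4 * t + 2 → 2 * e + 2 ≤ φ t)

/-- output of the greedy process -/
def GOut (P : PS E) (A B : Finset V) (J e : ℕ) : Prop :=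
  Q P ∧ Book P0 P A0 B0 A B J ∧ J ≤ 2 * t0 + e ∧ e * (e + 1) ≤ 4 * t0 ∧
    ((R0 ∩ A).Nonempty → t0 ≤ J) ∧ ((C0 ∩ B).Nonempty → t0 ≤ J) ∧
    (∀ k, ((R0 ∩ A).filter (deg ρ B · ≤ k)).Nonempty →
      ((R0 ∩ A).filter (deg ρ B · ≤ k)).card + φ t0 ≤ k + 2 * e) ∧
    (∀ k, ((C0 ∩ B).filter (deg (flip ρ) A · ≤ k)).Nonempty →
      ((C0 ∩ B).filter (deg (flip ρ) A · ≤ k)).card + φ t0 ≤ k + 2 * e)

include hρ hA0 hB0 hQ hmono hφ in
lemma greedy_aux : ∀ (n : ℕ) (P : PS E) (A B : Finset V) (a b : V → ℕ) (tr tc e : ℕ),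
    A.card = n → Q P → Book P0 P A0 B0 A B (tr + tc + e) →
    Pos (R0 ∩ A) (fun x => deg ρ B x + a x) φ tr e →
    Pos (C0 ∩ B) (fun y => deg (flip ρ) A y + b y) φ tc e →
    e * (e + 1) + 2 * (∑ u ∈ R0 ∩ A, a u + ∑ u ∈ C0 ∩ B, b u) ≤ 2 * (tr + tc) →
    (∀ x ∈ R0 ∩ A, a x ≤ e + 1) → (∀ y ∈ C0 ∩ B, b y ≤ e + 1) →
    ((R0 ∩ A).Nonempty → tc ≤ tr + 1) → ((C0 ∩ B).Nonempty → tr ≤ tc + 1) →
    tr ≤ t0 → tc ≤ t0 →
    ∃ P' A' B' J e', GOut ρ P0 A0 B0 R0 C0 Q φ t0 P' A' B' J e' := by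
  intro n
  induction n using Nat.strong_induction_on with
  | _ n ih =>
  intro P A B a b tr tc e hn hQP hbk hR hC hbud ha hb hal1 hal2 htr htc
  have hAX : ∀ x ∈ A, x ∈ P.X := fun x hx =>
    (hbk.X x).2 ⟨hA0 (hbk.subA hx), fun _ => hx⟩
  have hBS : ∀ y ∈ B, P.St y := fun y hy =>
    (hbk.St y).2 ⟨hB0 y (hbk.subB hy), fun _ => hy⟩
  have hown1 : ∀ x, ∀ u ∈ B, ∀ u' ∈ B, P.e u = x → P.e u' = x → u = u' :=
    fun x u hu u' hu' h1 h2 => P.start_unique (hBS u hu) (hBS u' hu') (h1.trans h2.symm)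
  have hown2 : ∀ z, ∀ u ∈ A, ∀ u' ∈ A, P.e z = u → P.e z = u' → u = u' :=
    fun z u _ u' _ h1 h2 => h1.symm.trans h2
  have join : ∀ x ∈ A, ∀ y ∈ B, ρ x y → P.e y ≠ x → ∃ P', Q P' ∧
      Book P0 P' A0 B0 (A.erase x) (B.erase y) (tr + tc + e + 1) ∧ (A.erase x).card < n := by
    intro x hx y hy h1 h2
    obtain ⟨P', hj⟩ := P.exists_join (hAX x hx) (hBS y hy) h2 (hρ x y h1)
    refine ⟨P', hQ P P' x y hQP (hbk.subA hx) (hbk.subB hy) h1 (hAX x hx) (hBS y hy) h2 hj,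
      hbk.step hx hy hj, ?_⟩
    rw [← hn]; exact card_erase_lt_of_mem hx
  have sA : ∀ x, ∑ u ∈ R0 ∩ A.erase x, a u ≤ ∑ u ∈ R0 ∩ A, a u :=
    fun x => sum_le_sum_of_subset (inter_erase_sub' _ _ _)
  have sB : ∀ y, ∑ u ∈ C0 ∩ B.erase y, b u ≤ ∑ u ∈ C0 ∩ B, b u :=
    fun x => sum_le_sum_of_subset (inter_erase_sub' _ _ _)
  have nA : ∀ x, (R0 ∩ A.erase x).Nonempty → (R0 ∩ A).Nonempty :=
    fun x h => h.mono (inter_erase_sub' _ _ _)
  have nB : ∀ y, (C0 ∩ B.erase y).Nonempty → (C0 ∩ B).Nonempty :=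
    fun x h => h.mono (inter_erase_sub' _ _ _)
  by_cases em1 : ∃ x ∈ R0 ∩ A, a x = e + 1
  · obtain ⟨x, hx, hax⟩ := em1
    have h1 := hal1 ⟨x, hx⟩
    obtain ⟨y, hy, h2, h3, h4, h5, h6⟩ := emer_step ρ (fun x u => P.e u = x) A B R0 C0 a b hmono
      tr tc e hown1 hR hC hx hax (hφ tr e htr (by omega))
    obtain ⟨P', q1, q2, q3⟩ := join x (mem_inter.1 hx).2 y hy h2 h3
    have := sB y
    exact ih _ q3 P' _ _ a b tr tc (e + 1) rfl q1 q2 h4 h5 (by nlinarith)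
      (fun u hu => by have := ha u (inter_erase_sub' _ _ _ hu); omega)
      (fun u hu => by have := hb u (inter_erase_sub' _ _ _ hu); omega)
      (fun h => hal1 (nA x h)) (fun h => hal2 (nB y h)) htr htc
  by_cases em2 : ∃ y ∈ C0 ∩ B, b y = e + 1
  · obtain ⟨y, hy, hby⟩ := em2
    have h1 := hal2 ⟨y, hy⟩
    obtain ⟨x, hx, h2, h3, h4, h5, h6⟩ := emer_step (flip ρ) (fun z u => P.e z = u) B A C0 R0 b a
      hmono tc tr e hown2 hC hR hy hby (hφ tc e htc (by omega))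
    obtain ⟨P', q1, q2, q3⟩ := join x hx y (mem_inter.1 hy).2 h2 h3
    have := sA x
    exact ih _ q3 P' _ _ a b tr tc (e + 1) rfl q1 q2 h5 h4 (by nlinarith)
      (fun u hu => by have := ha u (inter_erase_sub' _ _ _ hu); omega)
      (fun u hu => by have := hb u (inter_erase_sub' _ _ _ hu); omega)
      (fun h => hal1 (nA x h)) (fun h => hal2 (nB y h)) htr htc
  have ha' : ∀ x ∈ R0 ∩ A, a x ≤ e := fun x hx => by
    have h1 := ha x hx
    have h2 : a x ≠ e + 1 := fun h => em1 ⟨x, hx, h⟩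
    omega
  have hb' : ∀ y ∈ C0 ∩ B, b y ≤ e := fun y hy => by
    have h1 := hb y hy
    have h2 : b y ≠ e + 1 := fun h => em2 ⟨y, hy, h⟩
    omega
  by_cases stop : ((R0 ∩ A).Nonempty → t0 ≤ tr) ∧ ((C0 ∩ B).Nonempty → t0 ≤ tc)
  · refine ⟨P, A, B, tr + tc + e, e, hQP, hbk, by omega, by omega,
      fun h => by have := stop.1 h; omega, fun h => by have := stop.2 h; omega,
      hR.real hmono ha' stop.1, hC.real hmono hb' stop.2⟩
  by_cases row : (R0 ∩ A).Nonempty ∧ ((C0 ∩ B).Nonempty → tr ≤ tc)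
  · have h1 := hal1 row.1
    have htr' : tr + 1 ≤ t0 := by
      by_contra hc
      apply stop
      refine ⟨fun _ => by omega, fun h => ?_⟩
      have := row.2 h
      omega
    obtain ⟨x, hx, y, hy, h2, h3, b', h4, h5, h6, h7⟩ := reg_step ρ (fun x u => P.e u = x)
      A B R0 C0 a b hmono tr tc e hown1 hR hC row.1 ha' hb' (hφ tr e htr (by omega))
    obtain ⟨P', q1, q2, q3⟩ := join x hx y hy h2 h3
    have := sA x
    refine ih _ q3 P' _ _ a b' (tr + 1) tc e rfl q1 ?_ h4 h5 (by omega)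
      (fun u hu => ha u (inter_erase_sub' _ _ _ hu)) h7
      (fun h => by omega) (fun h => by have := row.2 (nB y h); omega) htr' htc
    rwa [show tr + 1 + tc + e = tr + tc + e + 1 by ring]
  · have hCne : (C0 ∩ B).Nonempty := by
      by_contra hc
      apply row
      refine ⟨?_, fun h => absurd h hc⟩
      by_contra hr
      exact stop ⟨fun h => absurd h hr, fun h => absurd h hc⟩
    have hlt : (R0 ∩ A).Nonempty → tc < tr := by
      intro h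
      by_contra hc
      exact row ⟨h, fun _ => by omega⟩
    have h1 := hal2 hCne
    have htc' : tc + 1 ≤ t0 := by
      by_contra hc
      apply stop
      refine ⟨fun h => ?_, fun _ => by omega⟩
      have := hlt h
      omega
    obtain ⟨y, hy, x, hx, h2, h3, a', h4, h5, h6, h7⟩ := reg_step (flip ρ) (fun z u => P.e z = u)
      B A C0 R0 b a hmono tc tr e hown2 hC hR hCne hb' ha' (hφ tc e htc (by omega))
    obtain ⟨P', q1, q2, q3⟩ := join x hx y hy h2 h3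
    have := sB y
    refine ih _ q3 P' _ _ a' b tr (tc + 1) e rfl q1 ?_ h5 h4 (by omega) h7
      (fun u hu => hb u (inter_erase_sub' _ _ _ hu))
      (fun h => by have := hlt (nA x h); omega) (fun h => by omega) htr htc'
    rwa [show tr + (tc + 1) + e = tr + tc + e + 1 by ring]

include hρ hA0 hB0 hQ hmono hφ in
lemma greedy (hQ0 : Q P0) (hR : Pos (R0 ∩ A0) (deg ρ B0) φ 0 0)
    (hC : Pos (C0 ∩ B0) (deg (flip ρ) A0) φ 0 0) :
    ∃ P' A' B' J e', GOut ρ P0 A0 B0 R0 C0 Q φ t0 P' A' B' J e' :=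
  greedy_aux ρ hρ P0 A0 B0 R0 C0 hA0 hB0 Q hQ φ hmono t0 hφ _ P0 A0 B0 (fun _ => 0) (fun _ => 0)
    0 0 0 rfl hQ0 ⟨subset_rfl, subset_rfl, fun v => by tauto, fun v => by tauto, rfl, rfl⟩
    hR hC (by simp) (by simp) (by simp) (by simp) (by simp) (by simp) (by simp)

end

/-- Exhaustive form: all tracked ends and starts get covered. -/
lemma greedy_all (ρ : V → V → Prop) (hρ : ∀ x y, ρ x y → E x y) (P0 : PS E)
    (A0 B0 R0 C0 : Finset V) (hA0 : A0 ⊆ P0.X) (hB0 : ∀ y ∈ B0, P0.St y) (Q : PS E → Prop)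
    (hQ : ∀ P P' x y, Q P → x ∈ A0 → y ∈ B0 → ρ x y → x ∈ P.X → P.St y → P.e y ≠ x →
      PS.IsJoin P P' x y → Q P') (hQ0 : Q P0) (s : ℕ)
    (hs : ∀ e, e * (e + 1) ≤ 4 * Fintype.card V + 6 → 2 * e + 2 ≤ s)
    (hR : ∀ k, ((R0 ∩ A0).filter (deg ρ B0 · ≤ k)).Nonempty →
      ((R0 ∩ A0).filter (deg ρ B0 · ≤ k)).card + s ≤ k)
    (hC : ∀ k, ((C0 ∩ B0).filter (deg (flip ρ) A0 · ≤ k)).Nonempty →
      ((C0 ∩ B0).filter (deg (flip ρ) A0 · ≤ k)).card + s ≤ k) :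
    ∃ P A B J, Q P ∧ Book P0 P A0 B0 A B J ∧ R0 ∩ A = ∅ ∧ C0 ∩ B = ∅ := by
  obtain ⟨P, A, B, J, e, h1, h2, -, -, h3, h4, -⟩ := greedy ρ hρ P0 A0 B0 R0 C0 hA0 hB0 Q hQ
    (fun _ => s) monotone_const (Fintype.card V + 1) (fun t e ht he => hs e (by omega)) hQ0
    (fun k hk => hR k hk) (fun k hk => hC k hk)
  have h5 := h2.cardA
  have h6 := card_le_univ A0
  refine ⟨P, A, B, J, h1, h2, ?_, ?_⟩
  · by_contra h
    have := h3 (nonempty_iff_ne_empty.2 h)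
    omega
  · by_contra h
    have := h4 (nonempty_iff_ne_empty.2 h)
    omega

end Pool.Agent.Lib.MP_c8ddae_co
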