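import Pool.Agent.Lib.MP_c8ddae_co.H8Cycle
import Pool.Agent.Lib.MP_c8ddae_co.H8Greedy

set_option autoImplicit false
open Finset

namespace Pool.Agent.Lib.MP_c8ddae_co

variable {V : Type} [Fintype V] [DecidableEq V] {E : V → V → Prop}

lemma close_all {G : V → V → Prop} {Hr Hc : V → Prop} (hG : ∀ x y, Hr x → Hc y → G x y) :
    ∀ (r : ℕ) (P : PS E) (Cs : Finset V), Cs.card = r + 1 → Cs ⊆ P.X → (∀ c ∈ Cs, Cyc P G c) →
    (P.X \ Cs).card = r + 1 → (∀ a ∈ P.X, a ∉ Cs → Hr a) →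
    (∀ b, P.St b → P.e b ∉ Cs → Hc b) → Ham E := by
  intro r
  induction r with
  | zero =>
    intro P Cs h1 h2 h3 h4 h5 h6
    obtain ⟨c, rfl⟩ := card_eq_one.1 h1
    obtain ⟨a, ha⟩ := card_eq_one.1 h4
    have ha' : a ∈ P.X \ {c} := by rw [ha]; simp
    rw [mem_sdiff, mem_singleton] at ha'
    obtain ⟨b, hb, eb⟩ := P.exists_start a
    rw [P.e_self a ha'.1] at eb
    refine junction_close P (h3 c (by simp)) ?_ ha'.2 hb (by rw [eb]; exact ha'.2)
      (hG a b (h5 a ha'.1 (by simpa using ha'.2)) (h6 b hb (by rw [eb]; simpa using ha'.2)))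
    rw [← sdiff_union_of_subset h2, ha]; rfl
  | succ r ih =>
    intro P Cs h1 h2 h3 h4 h5 h6
    obtain ⟨c, hc⟩ : Cs.Nonempty := card_pos.1 (by omega)
    obtain ⟨a1, ha1, a2, ha2, hne⟩ := one_lt_card.1 (by omega : 1 < (P.X \ Cs).card)
    have ha1' := ha1
    rw [mem_sdiff] at ha1 ha2
    obtain ⟨b, hb, eb⟩ := P.exists_start a2
    rw [P.e_self a2 ha2.1] at eb
    obtain ⟨Q, q1, q2, q3, q4⟩ := junction P (h2 hc) (h3 c hc) ha1.1 (fun e => ha1.2 (e ▸ hc)) hb
      (by rw [eb]; exact fun e => ha2.2 (e ▸ hc)) (by rw [eb]; exact hne.symm)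
      (hG a1 b (h5 a1 ha1.1 ha1.2) (h6 b hb (by rw [eb]; exact ha2.2)))
    have hs : ∀ c' ∈ Cs.erase c, Same P Q c' := fun c' hc' =>
      q4 c' (h2 (mem_of_mem_erase hc')) (fun e => ha1.2 (e ▸ mem_of_mem_erase hc'))
        (ne_of_mem_erase hc') (by rw [eb]; exact fun e => ha2.2 (e ▸ mem_of_mem_erase hc'))
    have hX : Q.X \ Cs.erase c = (P.X \ Cs).erase a1 := by
      rw [q1]
      ext v
      simp only [mem_sdiff, mem_erase]
      exact ⟨fun ⟨⟨h1, h2, h3⟩, h4⟩ => ⟨h2, h3, fun h => h4 ⟨h1, h⟩⟩,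
        fun ⟨h1, h2, h3⟩ => ⟨⟨fun e => h3 (e ▸ hc), h1, h2⟩, fun h => h3 h.2⟩⟩
    refine ih Q (Cs.erase c) (by rw [card_erase_of_mem hc]; omega) (fun c' hc' => (hs c' hc').mem)
      (fun c' hc' => (h3 c' (mem_of_mem_erase hc')).same (hs c' hc'))
      (by rw [hX, card_erase_of_mem ha1']; omega) (fun a ha ha' => ?_) (fun v hv hv' => ?_)
    · have : a ∈ (P.X \ Cs).erase a1 := hX ▸ mem_sdiff.2 ⟨ha, ha'⟩
      have := mem_sdiff.1 (mem_of_mem_erase this)
      exact h5 a this.1 this.2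
    · obtain ⟨v1, v2, _⟩ := (q2 v).1 hv
      refine h6 v v1 fun h => ?_
      rw [q3 v v2, if_neg (fun e : P.e v = a1 => ha1.2 (e ▸ h))] at hv'
      exact hv' (mem_erase.2 ⟨v2, h⟩)

/-- all free ends are in `Hr`, all free starts in `Hc` -/
structure Good (P0 P : PS E) (Z : Finset V) (Hr Hc : V → Prop) : Prop where
  keep : Keep P0 P Z
  ends : ∀ a ∈ P.X, a ∉ Z → Hr a
  starts : ∀ b, P.St b → P.e b ∉ Z → Hc b

lemma Good.red {P0 P Q : PS E} {Z : Finset V} {Hr Hc : V → Prop} {a b : V}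
    (h : Good P0 P Z Hr Hc) (r : Red P Q Z a b) : Good P0 Q Z Hr Hc :=
  ⟨h.keep.trans r.keep, fun v hv hz => h.ends v (mem_of_mem_erase (r.X ▸ hv)) hz,
    fun v hv hz => h.starts v ((r.St v).1 hv).1 fun e => hz ((r.keep.e_mem v).2 e)⟩

lemma Red.card {P Q : PS E} {Z : Finset V} {a b : V} (r : Red P Q Z a b) (ha : a ∈ P.X)
    (hz : a ∉ Z) : (Q.X \ Z).card + 1 = (P.X \ Z).card := by
  have h1 : Q.X \ Z = (P.X \ Z).erase a := by
    rw [r.X]; ext v; simp only [mem_sdiff, mem_erase]; tauto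
  have h2 : a ∈ P.X \ Z := mem_sdiff.2 ⟨ha, hz⟩
  rw [h1, card_erase_add_one h2]

lemma exists_short (P : PS E) (A : Finset V) (hA : A.Nonempty) :
    ∃ a ∈ A, (univ.filter (P.e · = a)).card * A.card ≤ Fintype.card V := by
  apply exists_le_of_sum_le hA
  rw [← sum_mul, sum_const, smul_eq_mul, mul_comm]
  refine Nat.mul_le_mul_left _ ?_
  rw [← card_biUnion]
  · exact card_le_univ _
  · intro a _ b _ hab
    rw [Function.onFun, disjoint_left]
    intro v h1 h2
    exact hab ((mem_filter.1 h1).2.symm.trans (mem_filter.1 h2).2)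

lemma deg_eq (ρ : V → V → Prop) (A : Finset V) (x : V) [DecidablePred (ρ x)] :
    deg ρ A x = (A.filter (ρ x)).card := by
  unfold deg; congr

lemma deg_eq' (ρ : V → V → Prop) (A : Finset V) (x : V) [DecidablePred (ρ · x)] :
    deg (flip ρ) A x = (A.filter (ρ · x)).card := by
  unfold deg; congr

lemma card_filter_perm (F : Equiv.Perm V) (p : V → Prop) [DecidablePred p] :
    (univ.filter fun w => p (F w)).card = (univ.filter p).card := by
  refine card_bij (fun w _ => F w) ?_ ?_ ?_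
  · intro w hw; simpa using hw
  · intro a _ b _ h; exact F.injective h
  · intro b hb
    exact ⟨F.symm b, by simpa using hb, by simp⟩

lemma merge_step (P : PS E) (Z U : Finset V) (hZ : Z ⊆ P.X) (hU : ∀ v, P.e v ∈ Z → v ∈ U)
    {Hr Hc : V → Prop} (σ r : ℕ)
    (hdeg : ∀ x y, Hr x → Hc y → Fintype.card V + 2 * σ ≤ deg E univ x + deg (flip E) univ y)
    (hu : 2 * U.card + 1 ≤ σ) (hr : Fintype.card V ≤ r * σ) (hm : r < (P.X \ Z).card)
    (ends : ∀ a ∈ P.X, a ∉ Z → Hr a) (starts : ∀ b, P.St b → P.e b ∉ Z → Hc b) :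
    ∃ Q a b, a ∈ P.X ∧ a ∉ Z ∧ Red P Q Z a b := by
  classical
  obtain ⟨a, ha, hlen⟩ := exists_short P (P.X \ Z) (card_pos.1 (by omega))
  rw [mem_sdiff] at ha
  obtain ⟨b, hb, eb⟩ := P.exists_start a
  rw [P.e_self a ha.1] at eb
  have hlen' : (univ.filter (P.e · = a)).card < σ := by
    by_contra hc
    push Not at hc
    have : σ * (r + 1) ≤ (univ.filter (P.e · = a)).card * (P.X \ Z).card :=
      Nat.mul_le_mul hc hm
    nlinarith
  have h1 := hdeg a b (ends a ha.1 ha.2) (starts b hb (by rw [eb]; exact ha.2))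
  set A := univ.filter fun w => E a (P.F w) with hA
  set B := univ.filter fun w => E w b with hB
  have hAc : A.card = deg E univ a := by
    rw [hA, deg_eq]; exact card_filter_perm P.F (E a)
  have hBc : B.card = deg (flip E) univ b := by
    rw [hB, deg_eq']
  have h2 := card_union_add_card_inter A B
  have h3 := card_le_univ (A ∪ B)
  set Bad := U ∪ (univ.filter fun w => P.F w ∈ U) ∪ (univ.filter (P.e · = a)) ∪ {P.F.symm b}
    with hBad
  have h4 : Bad.card ≤ 2 * U.card + (univ.filter (P.e · = a)).card + 1 := by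
    have e1 : (univ.filter fun w => P.F w ∈ U).card = U.card := by
      have := card_filter_perm P.F (· ∈ U)
      simpa only [filter_mem_eq_inter, univ_inter] using this
    refine le_trans (card_union_le _ _) ?_
    have := card_union_le (U ∪ (univ.filter fun w => P.F w ∈ U)) (univ.filter (P.e · = a))
    have := card_union_le U (univ.filter fun w => P.F w ∈ U)
    rw [card_singleton]
    omega
  obtain ⟨w, hw, hwB⟩ := exists_mem_notMem_of_card_lt_card (by omega : Bad.card < (A ∩ B).card)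
  simp only [hA, hB, hBad, mem_inter, mem_filter, mem_univ, true_and, mem_union, mem_singleton,
    not_or] at hw hwB
  obtain ⟨⟨⟨w1, w2⟩, w3⟩, w4⟩ := hwB
  by_cases hX : w ∈ P.X
  · have hs : P.St (P.F w) := (P.St_F w).2 hX
    obtain ⟨Q, hQ⟩ := red_join P Z hZ ha.1 hs ha.2 (fun e => w2 (hU _ e))
      (fun e => w4 (by rw [← P.start_unique hs hb (e.trans eb.symm)]; simp)) hw.1
    exact ⟨Q, a, _, ha.1, ha.2, hQ⟩
  · obtain ⟨Q, hQ⟩ := red_switch P Z hZ ha.1 hb hX ha.2 (by rw [eb]; exact ha.2)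
      (fun e => w1 (hU _ e)) w3 (by rw [eb]; exact fun e => w3 e.symm) hw.1 hw.2
    exact ⟨Q, a, b, ha.1, ha.2, hQ⟩

lemma merge_all (P0 : PS E) (Z : Finset V) {Hr Hc : V → Prop} (r : ℕ)
    (hstep : ∀ P, Good P0 P Z Hr Hc → r < (P.X \ Z).card →
      ∃ Q a b, a ∈ P.X ∧ a ∉ Z ∧ Red P Q Z a b) :
    ∀ (m : ℕ) (P : PS E), Good P0 P Z Hr Hc → (P.X \ Z).card = r + m →
      ∃ Q, Good P0 Q Z Hr Hc ∧ (Q.X \ Z).card = r := by
  intro m
  induction m with
  | zero => exact fun P h1 h2 => ⟨P, h1, h2⟩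
  | succ m ih =>
    intro P h1 h2
    obtain ⟨Q, a, b, ha, hz, hr⟩ := hstep P h1 (by omega)
    have := hr.card ha hz
    exact ih Q (h1.red hr) (by omega)

/-- number of starts outside the kept paths is at most the number of free ends -/
lemma card_starts_le (P : PS E) (Z Y : Finset V) (hY : ∀ b ∈ Y, P.St b ∧ P.e b ∉ Z) :
    Y.card ≤ (P.X \ Z).card := by
  refine card_le_card_of_injOn P.e (fun b hb => ?_) (fun b hb c hc h => ?_)
  · exact mem_coe.2 (mem_sdiff.2 ⟨P.e_mem b, (hY b hb).2⟩)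
  · exact P.start_unique (hY b hb).1 (hY c hc).1 h

end Pool.Agent.Lib.MP_c8ddae_co
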