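import Pool.Agent.Lib.MP_c8ddae_co.H8PS

set_option autoImplicit false
open Finset

namespace Pool.Agent.Lib.MP_c8ddae_co

variable {V : Type} [Fintype V] [DecidableEq V]

open Classical in
/-- number of out-neighbours of `x` in `A` -/
noncomputable def deg (ρ : V → V → Prop) (A : Finset V) (x : V) : ℕ := (A.filter (ρ x ·)).card

lemma deg_erase_le (ρ : V → V → Prop) (A : Finset V) (x y : V) :
    deg ρ A x ≤ deg ρ (A.erase y) x + 1 := by
  classical
  unfold deg
  refine le_trans (card_le_card (t := insert y ((A.erase y).filter (ρ x ·))) ?_)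
    (card_insert_le _ _)
  intro u hu
  simp only [mem_filter, mem_insert, mem_erase] at hu ⊢
  by_cases h : u = y
  · exact Or.inl h
  · exact Or.inr ⟨⟨h, hu.1⟩, hu.2⟩

lemma deg_erase_of_not (ρ : V → V → Prop) (A : Finset V) {x y : V} (h : ¬ ρ x y) :
    deg ρ A x ≤ deg ρ (A.erase y) x := by
  classical
  unfold deg
  refine card_le_card ?_
  intro u hu
  simp only [mem_filter, mem_erase] at hu ⊢
  exact ⟨⟨fun e => h (e ▸ hu.2), hu.1⟩, hu.2⟩

lemma deg_mono (ρ : V → V → Prop) {A B : Finset V} (h : A ⊆ B) (x : V) :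
    deg ρ A x ≤ deg ρ B x := by
  classical
  unfold deg
  exact card_le_card (filter_subset_filter _ h)

lemma deg_le_card (ρ : V → V → Prop) (A : Finset V) (x : V) : deg ρ A x ≤ A.card := by
  classical
  unfold deg
  exact card_le_card (filter_subset _ _)

lemma deg_le_add (ρ : V → V → Prop) (A B : Finset V) (x : V) :
    deg ρ A x ≤ deg ρ B x + (A \ B).card := by
  classical
  unfold deg
  refine le_trans (card_le_card (t := B.filter (ρ x ·) ∪ (A \ B)) ?_) (card_union_le _ _)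
  intro u hu
  simp only [mem_filter, mem_union, mem_sdiff] at hu ⊢
  tauto

lemma exists_of_lt_deg (ρ : V → V → Prop) (A B : Finset V) (x : V) (h : B.card < deg ρ A x) :
    ∃ y ∈ A, ρ x y ∧ y ∉ B := by
  classical
  unfold deg at h
  obtain ⟨y, hy, hyB⟩ := exists_mem_notMem_of_card_lt_card h
  exact ⟨y, (mem_filter.1 hy).1, (mem_filter.1 hy).2, hyB⟩

lemma exists_partner (ρ own : V → V → Prop) (B : Finset V) (x : V)
    (hown : ∀ u ∈ B, ∀ u' ∈ B, own x u → own x u' → u = u') (h : 2 ≤ deg ρ B x) :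
    ∃ y ∈ B, ρ x y ∧ ¬ own x y := by
  classical
  have h1 : (B.filter (own x ·)).card ≤ 1 := card_le_one.2 fun u hu u' hu' =>
    hown u (mem_filter.1 hu).1 u' (mem_filter.1 hu').1 (mem_filter.1 hu).2 (mem_filter.1 hu').2
  obtain ⟨y, hy, h2, h3⟩ := exists_of_lt_deg ρ B (B.filter (own x ·)) x (by omega)
  exact ⟨y, hy, h2, fun h => h3 (mem_filter.2 ⟨hy, h⟩)⟩

/-- Posa-type condition with slack function `φ`, shift `t` and loss `e`. -/
def Pos (R : Finset V) (val : V → ℕ) (φ : ℕ → ℕ) (t e : ℕ) : Prop :=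
  ∀ k, (R.filter (val · ≤ k)).Nonempty → (R.filter (val · ≤ k)).card + φ (k + t) ≤ k + e

namespace Pos
variable {R R' : Finset V} {val val' : V → ℕ} {φ : ℕ → ℕ} {t e : ℕ}

lemma min_removal (h : Pos R val φ t e) {x : V} (hx : x ∈ R) (hmin : ∀ u ∈ R, val x ≤ val u)
    (hR : R' ⊆ R.erase x) (hv : ∀ u ∈ R', val u ≤ val' u + 1) : Pos R' val' φ (t + 1) e := by
  intro k hk
  obtain ⟨u0, hu0⟩ := hk
  rw [mem_filter] at hu0
  have hx' : x ∈ R.filter (val · ≤ k + 1) := mem_filter.2 ⟨hx, by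
    have := hmin u0 (mem_of_mem_erase (hR hu0.1)); have := hv u0 hu0.1; omega⟩
  have hsub : R'.filter (val' · ≤ k) ⊆ (R.filter (val · ≤ k + 1)).erase x := by
    intro u hu
    rw [mem_filter] at hu
    have h1 := mem_erase.1 (hR hu.1)
    exact mem_erase.2 ⟨h1.1, mem_filter.2 ⟨h1.2, by have := hv u hu.1; omega⟩⟩
  have h1 := card_le_card hsub
  rw [card_erase_of_mem hx'] at h1
  have h2 := h (k + 1) ⟨x, hx'⟩
  have h3 := card_pos.2 ⟨x, hx'⟩
  rw [show k + (t + 1) = k + 1 + t by ring]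
  omega

lemma no_loss (h : Pos R val φ t e) (hR : R' ⊆ R) (hv : ∀ u ∈ R', val u ≤ val' u) :
    Pos R' val' φ t e := by
  intro k hk
  have hsub : R'.filter (val' · ≤ k) ⊆ R.filter (val · ≤ k) := by
    intro u hu
    rw [mem_filter] at hu
    exact mem_filter.2 ⟨hR hu.1, le_trans (hv u hu.1) hu.2⟩
  have h1 := card_le_card hsub
  have h2 := h k (hk.mono hsub)
  omega

lemma partner_min (h : Pos R val φ t e) (hφ : Monotone φ) {y : V} (hy : y ∈ R)
    (hR : R' ⊆ R.erase y)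
    (hv : ∀ u ∈ R', val u ≤ val' u ∨ (val u ≤ val' u + 1 ∧ val y ≤ val u)) :
    Pos R' val' φ t e := by
  intro k hk
  by_cases hyk : val y ≤ k + 1
  · have hy' : y ∈ R.filter (val · ≤ k + 1) := mem_filter.2 ⟨hy, hyk⟩
    have hsub : R'.filter (val' · ≤ k) ⊆ (R.filter (val · ≤ k + 1)).erase y := by
      intro u hu
      rw [mem_filter] at hu
      have h1 := mem_erase.1 (hR hu.1)
      exact mem_erase.2 ⟨h1.1, mem_filter.2 ⟨h1.2, by have := hv u hu.1; omega⟩⟩
    have h1 := card_le_card hsub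
    rw [card_erase_of_mem hy'] at h1
    have h2 := h (k + 1) ⟨y, hy'⟩
    have h3 := card_pos.2 ⟨y, hy'⟩
    have h4 : φ (k + t) ≤ φ (k + 1 + t) := hφ (by omega)
    omega
  · have hsub : R'.filter (val' · ≤ k) ⊆ R.filter (val · ≤ k) := by
      intro u hu
      rw [mem_filter] at hu
      exact mem_filter.2 ⟨mem_of_mem_erase (hR hu.1), by have := hv u hu.1; omega⟩
    have h1 := card_le_card hsub
    have h2 := h k (hk.mono hsub)
    omega

lemma emergency (h : Pos R val φ t e) (hφ : Monotone φ) (hR : R' ⊆ R)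
    (hv : ∀ u ∈ R', val u ≤ val' u + 1) : Pos R' val' φ t (e + 1) := by
  intro k hk
  have hsub : R'.filter (val' · ≤ k) ⊆ R.filter (val · ≤ k + 1) := by
    intro u hu
    rw [mem_filter] at hu
    exact mem_filter.2 ⟨hR hu.1, by have := hv u hu.1; omega⟩
  have h1 := card_le_card hsub
  have h2 := h (k + 1) (hk.mono hsub)
  have h4 : φ (k + t) ≤ φ (k + 1 + t) := hφ (by omega)
  omega

lemma min_val (h : Pos R val φ t e) (hφ : Monotone φ) {x : V} (hx : x ∈ R) :
    φ t + 1 ≤ val x + e := by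
  have hx' : x ∈ R.filter (val · ≤ val x) := mem_filter.2 ⟨hx, le_rfl⟩
  have h1 := h (val x) ⟨x, hx'⟩
  have h3 := card_pos.2 ⟨x, hx'⟩
  have h4 : φ t ≤ φ (val x + t) := hφ (by omega)
  omega

end Pos

lemma inter_erase_sub (R A : Finset V) (x : V) : R ∩ A.erase x ⊆ (R ∩ A).erase x := by
  intro u hu
  simp only [mem_inter, mem_erase] at hu ⊢
  tauto

lemma inter_erase_sub' (R A : Finset V) (x : V) : R ∩ A.erase x ⊆ R ∩ A :=
  (inter_erase_sub R A x).trans (erase_subset _ _)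

lemma reg_step (ρ own : V → V → Prop) (A B R0 C0 : Finset V) (a b : V → ℕ) {φ : ℕ → ℕ}
    (hmono : Monotone φ) (t t' e : ℕ)
    (hown : ∀ x, ∀ u ∈ B, ∀ u' ∈ B, own x u → own x u' → u = u')
    (hR : Pos (R0 ∩ A) (fun x => deg ρ B x + a x) φ t e)
    (hC : Pos (C0 ∩ B) (fun y => deg (flip ρ) A y + b y) φ t' e)
    (hne : (R0 ∩ A).Nonempty) (ha : ∀ x ∈ R0 ∩ A, a x ≤ e) (hb : ∀ y ∈ C0 ∩ B, b y ≤ e)
    (hφ : 2 * e + 2 ≤ φ t) :
    ∃ x ∈ A, ∃ y ∈ B, ρ x y ∧ ¬ own x y ∧ ∃ b' : V → ℕ,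
      Pos (R0 ∩ A.erase x) (fun u => deg ρ (B.erase y) u + a u) φ (t + 1) e ∧
      Pos (C0 ∩ B.erase y) (fun u => deg (flip ρ) (A.erase x) u + b' u) φ t' e ∧
      ∑ u ∈ C0 ∩ B.erase y, b' u ≤ ∑ u ∈ C0 ∩ B, b u + 1 ∧
      ∀ u ∈ C0 ∩ B.erase y, b' u ≤ e + 1 := by
  classical
  obtain ⟨x, hx, hmin⟩ := exists_min_image (R0 ∩ A) (fun x => deg ρ B x + a x) hne
  have hdeg : 2 ≤ deg ρ B x := by
    have h1 := hR.min_val hmono hx
    have h2 := ha x hx
    omega
  set b' : V → ℕ := fun u => b u + if own x u then 1 else 0 with hb'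
  have hrow : ∀ y, Pos (R0 ∩ A.erase x) (fun u => deg ρ (B.erase y) u + a u) φ (t + 1) e := by
    intro y
    refine hR.min_removal hx hmin (inter_erase_sub _ _ _) fun u _ => ?_
    have := deg_erase_le ρ B u y
    omega
  have hsum : ∀ y, ∑ u ∈ C0 ∩ B.erase y, b' u ≤ ∑ u ∈ C0 ∩ B, b u + 1 := by
    intro y
    refine le_trans (sum_le_sum_of_subset (inter_erase_sub' _ _ _)) ?_
    simp only [hb', sum_add_distrib]
    refine Nat.add_le_add_left ?_ _
    rw [← card_filter]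
    exact card_le_one.2 fun u hu u' hu' =>
      hown x u (mem_inter.1 (mem_filter.1 hu).1).2 u' (mem_inter.1 (mem_filter.1 hu').1).2
        (mem_filter.1 hu).2 (mem_filter.1 hu').2
  have hbd : ∀ y, ∀ u ∈ C0 ∩ B.erase y, b' u ≤ e + 1 := by
    intro y u hu
    have := hb u (inter_erase_sub' _ _ _ hu)
    simp only [hb']
    split_ifs <;> omega
  have hval : ∀ u, (ρ x u ∧ ¬ own x u) ∨
      deg (flip ρ) A u + b u ≤ deg (flip ρ) (A.erase x) u + b' u := by
    intro u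
    by_cases h1 : ρ x u
    · by_cases h2 : own x u
      · right
        have := deg_erase_le (flip ρ) A u x
        simp only [hb', if_pos h2]
        omega
      · exact Or.inl ⟨h1, h2⟩
    · right
      have := deg_erase_of_not (flip ρ) A (x := u) (y := x) h1
      simp only [hb']
      omega
  by_cases hN : ((C0 ∩ B).filter fun u => ρ x u ∧ ¬ own x u).Nonempty
  · obtain ⟨y, hy, hymin⟩ := exists_min_image _ (fun y => deg (flip ρ) A y + b y) hN
    rw [mem_filter] at hy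
    refine ⟨x, (mem_inter.1 hx).2, y, (mem_inter.1 hy.1).2, hy.2.1, hy.2.2, b', hrow y, ?_,
      hsum y, hbd y⟩
    refine hC.partner_min hmono hy.1 (inter_erase_sub _ _ _) fun u hu => ?_
    rcases hval u with h | h
    · right
      refine ⟨?_, hymin u (mem_filter.2 ⟨inter_erase_sub' _ _ _ hu, h⟩)⟩
      have := deg_erase_le (flip ρ) A u x
      simp only [hb']
      omega
    · exact Or.inl h
  · obtain ⟨y, hy, h1, h2⟩ := exists_partner ρ own B x (hown x) hdeg
    refine ⟨x, (mem_inter.1 hx).2, y, hy, h1, h2, b', hrow y, ?_, hsum y, hbd y⟩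
    refine hC.no_loss (inter_erase_sub' _ _ _) fun u hu => ?_
    rcases hval u with h | h
    · exact absurd ⟨u, mem_filter.2 ⟨inter_erase_sub' _ _ _ hu, h⟩⟩ hN
    · exact h

lemma emer_step (ρ own : V → V → Prop) (A B R0 C0 : Finset V) (a b : V → ℕ) {φ : ℕ → ℕ}
    (hmono : Monotone φ) (t t' e : ℕ)
    (hown : ∀ x, ∀ u ∈ B, ∀ u' ∈ B, own x u → own x u' → u = u')
    (hR : Pos (R0 ∩ A) (fun x => deg ρ B x + a x) φ t e)
    (hC : Pos (C0 ∩ B) (fun y => deg (flip ρ) A y + b y) φ t' e)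
    {x : V} (hx : x ∈ R0 ∩ A) (hax : a x = e + 1) (hφ : 2 * e + 2 ≤ φ t) :
    ∃ y ∈ B, ρ x y ∧ ¬ own x y ∧
      Pos (R0 ∩ A.erase x) (fun u => deg ρ (B.erase y) u + a u) φ t (e + 1) ∧
      Pos (C0 ∩ B.erase y) (fun u => deg (flip ρ) (A.erase x) u + b u) φ t' (e + 1) ∧
      ∑ u ∈ R0 ∩ A.erase x, a u + (e + 1) ≤ ∑ u ∈ R0 ∩ A, a u := by
  have hdeg : 2 ≤ deg ρ B x := by
    have h1 := hR.min_val hmono hx
    omega
  obtain ⟨y, hy, h1, h2⟩ := exists_partner ρ own B x (hown x) hdeg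
  refine ⟨y, hy, h1, h2, ?_, ?_, ?_⟩
  · refine hR.emergency hmono (inter_erase_sub' _ _ _) fun u _ => ?_
    have := deg_erase_le ρ B u y
    omega
  · refine hC.emergency hmono (inter_erase_sub' _ _ _) fun u _ => ?_
    have := deg_erase_le (flip ρ) A u x
    omega
  · rw [← hax, ← sum_erase_add _ _ hx]
    exact Nat.add_le_add_right (sum_le_sum_of_subset (inter_erase_sub _ _ _)) _

end Pool.Agent.Lib.MP_c8ddae_co
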