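import Pool.Agent.Lib.MP_c8ddae_co.H8Ops

set_option autoImplicit false
open Finset

namespace Pool.Agent.Lib.MP_c8ddae_co

variable {V : Type} [Fintype V] [DecidableEq V] {E : V → V → Prop}

/-- a walk with at most `j` inner vertices, all outside `A` -/
inductive Wk (ρ : V → V → Prop) (A : Finset V) : ℕ → V → V → Prop
  | edge (j : ℕ) (x w : V) : ρ x w → Wk ρ A j x w
  | step (j : ℕ) (x y w : V) : y ∉ A → ρ x y → Wk ρ A j y w → Wk ρ A (j + 1) x w

namespace Wk
variable {ρ : V → V → Prop} {A : Finset V}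

lemma succ {j : ℕ} {x w : V} (h : Wk ρ A j x w) : Wk ρ A (j + 1) x w := by
  induction h with
  | edge j x w h => exact edge _ _ _ h
  | step j x y w h1 h2 _ ih => exact step _ _ _ _ h1 h2 ih

lemma le {j k : ℕ} {x w : V} (h : Wk ρ A j x w) (hjk : j ≤ k) : Wk ρ A k x w := by
  induction hjk with
  | refl => exact h
  | step _ ih => exact ih.succ

lemma anti {B : Finset V} {j : ℕ} {x w : V} (h : Wk ρ A j x w) (hB : B ⊆ A) : Wk ρ B j x w := by
  induction h with
  | edge j x w h => exact edge _ _ _ h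
  | step j x y w h1 h2 _ ih => exact step _ _ _ _ (fun h => h1 (hB h)) h2 ih

lemma snoc {j : ℕ} {x y w : V} (h : Wk ρ A j x y) (hy : y ∉ A) (hw : ρ y w) :
    Wk ρ A (j + 1) x w := by
  induction h with
  | edge j x y h => exact step _ _ _ _ hy h (edge _ _ _ hw)
  | step j x z y h1 h2 _ ih => exact step _ _ _ _ h1 h2 (ih hy hw)

lemma trans {j k : ℕ} {x y w : V} (h : Wk ρ A j x y) (hy : y ∉ A) (hw : Wk ρ A k y w) :
    Wk ρ A (j + k + 1) x w := by
  induction h with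
  | edge j x y h => exact step _ _ _ _ hy h (hw.le (by omega))
  | step j x z y h1 h2 _ ih =>
    rw [show j + 1 + k + 1 = (j + k + 1) + 1 by ring]
    exact step _ _ _ _ h1 h2 (ih hy hw)

lemma rev {j : ℕ} {x w : V} (h : Wk (flip ρ) A j x w) : Wk ρ A j w x := by
  induction h with
  | edge j x w h => exact edge _ _ _ h
  | step j x y w h1 h2 _ ih => exact ih.snoc h1 h2

lemma avoid_aux (y : V) {j : ℕ} {x w : V} (h : Wk ρ A j x w) :
    Wk ρ (insert y A) j x w ∨ ∃ j' < j, Wk ρ A j' y w := by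
  induction h with
  | edge j x w h => exact Or.inl (edge _ _ _ h)
  | step j x z w h1 h2 h3 ih =>
    by_cases hz : z = y
    · exact Or.inr ⟨j, by omega, hz ▸ h3⟩
    · rcases ih with h | ⟨j', h4, h5⟩
      · exact Or.inl (step _ _ _ _ (by simp [hz, h1]) h2 h)
      · exact Or.inr ⟨j', by omega, h5⟩

lemma avoid {y w : V} : ∀ j, Wk ρ A j y w → Wk ρ (insert y A) j y w := by
  intro j
  induction j using Nat.strong_induction_on with
  | _ j ih =>
    intro h
    rcases h.avoid_aux y with h1 | ⟨j', h1, h2⟩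
    · exact h1
    · exact (ih j' h1 h2).le h1.le

end Wk

/-- outside `U` all paths are single vertices -/
def Sing (P : PS E) (U : Finset V) : Prop :=
  ∀ v, v ∉ U → v ∈ P.X ∧ P.St v ∧ ∀ u, P.e u = v → u = v

lemma Sing.e {P : PS E} {U : Finset V} (h : Sing P U) {v : V} (hv : v ∉ U) : P.e v = v :=
  P.e_self v (h v hv).1

lemma Sing.mono {P : PS E} {U U' : Finset V} (h : Sing P U) (hU : U ⊆ U') : Sing P U' :=
  fun v hv => h v fun h1 => hv (hU h1)

lemma Sing.join {P Q : PS E} {U : Finset V} (h : Sing P U) {a b : V} (j : PS.IsJoin P Q a b)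
    (ha : a ∈ U) (hb : b ∈ U) : Sing Q U := by
  intro v hv
  obtain ⟨h1, h2, h3⟩ := h v hv
  refine ⟨by rw [j.X]; exact mem_erase.2 ⟨fun e => hv (e ▸ ha), h1⟩,
    (j.St v).2 ⟨h2, fun e => hv (e ▸ hb)⟩, fun u hu => ?_⟩
  rw [j.e] at hu
  split_ifs at hu with h4
  · exact absurd (h3 b hu ▸ hb) hv
  · exact h3 u hu

/-- closure of a property of path systems under joins along `ρ` -/
def JClosed (ρ : V → V → Prop) (Q : PS E → Prop) : Prop :=
  ∀ P P' x y, Q P → ρ x y → x ∈ P.X → P.St y → PS.IsJoin P P' x y → Q P'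

/-- state while growing a path from `b0`, current end `c`, containing the arcs in `W` -/
structure BS (P0 P : PS E) (Q : PS E → Prop) (Z U0 U : Finset V) (b0 c : V)
    (W : Finset (V × V)) : Prop where
  q : Q P
  keep : Keep P0 P Z
  sing : Sing P U
  ZU : Z ⊆ U
  cU : c ∈ U
  cZ : c ∉ Z
  cX : c ∈ P.X
  st : P.St b0
  eb : P.e b0 = c
  new : ∀ v ∈ U, v ∉ U0 → P.e v = c
  arcs : ∀ p ∈ W, p.1 ∉ P.X ∧ P.e p.1 = c ∧ P.F p.1 = p.2

section
variable {ρ : V → V → Prop} (hρ : ∀ x y, ρ x y → E x y) {P0 : PS E} {Q : PS E → Prop}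
  (hQ : JClosed ρ Q) {Z U0 : Finset V} {b0 : V}

include hρ hQ in
lemma BS.ext {P : PS E} {U : Finset V} {c y : V} {W : Finset (V × V)}
    (h : BS P0 P Q Z U0 U b0 c W) (hy : y ∉ U) (hcy : ρ c y) :
    ∃ P', BS P0 P' Q Z U0 (insert y U) b0 y (insert (c, y) W) := by
  have ey := h.sing.e hy
  have hne : y ≠ c := fun e => hy (e ▸ h.cU)
  obtain ⟨y1, y2, y3⟩ := h.sing y hy
  obtain ⟨P', j⟩ := P.exists_join h.cX y2 (by rw [ey]; exact hne) (hρ _ _ hcy)
  refine ⟨P', hQ _ _ _ _ h.q hcy h.cX y2 j,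
    h.keep.trans (j.keep h.keep.sub h.cZ (by rw [ey]; exact fun e => hy (h.ZU e))),
    (h.sing.mono (subset_insert _ _)).join j (mem_insert_of_mem h.cU) (mem_insert_self _ _),
    h.ZU.trans (subset_insert _ _), mem_insert_self _ _, fun e => hy (h.ZU e),
    by rw [j.X]; exact mem_erase.2 ⟨hne, y1⟩,
    (j.St _).2 ⟨h.st, fun e => hne (by rw [← ey, ← e, h.eb])⟩,
    by rw [j.e, if_pos h.eb, ey], ?_, ?_⟩
  · intro v hv hv0
    rcases mem_insert.1 hv with e | hv
    · rw [e, j.e, ey, if_neg hne]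
    · rw [j.e, if_pos (h.new v hv hv0), ey]
  intro p hp
  rcases mem_insert.1 hp with e | hp
  · rw [e]
    exact ⟨by rw [j.X]; simp, by rw [j.e, if_pos (P.e_self c h.cX), ey], j.Fa⟩
  · obtain ⟨p1, p2, p3⟩ := h.arcs p hp
    exact ⟨by rw [j.X]; exact fun e => p1 (mem_of_mem_erase e), by rw [j.e, if_pos p2, ey],
      by rw [j.F _ p1, p3]⟩

lemma BS.sub {P : PS E} {U : Finset V} {c : V} {W W' : Finset (V × V)}
    (h : BS P0 P Q Z U0 U b0 c W) (hW : W' ⊆ W) : BS P0 P Q Z U0 U b0 c W' :=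
  ⟨h.q, h.keep, h.sing, h.ZU, h.cU, h.cZ, h.cX, h.st, h.eb, h.new,
    fun p hp => h.arcs p (hW hp)⟩

include hρ hQ in
lemma BS.walk {w : V} {W : Finset (V × V)} : ∀ (j : ℕ) (P : PS E) (U A : Finset V) (c : V),
    BS P0 P Q Z U0 U b0 c W → U ⊆ A → Wk ρ A j c w →
    ∃ P' U' c', BS P0 P' Q Z U0 U' b0 c' W ∧ U ⊆ U' ∧ U'.card ≤ U.card + j ∧
      (∀ v ∈ U', v ∈ U ∨ v ∉ A) ∧ ρ c' w := by
  intro j
  induction j with
  | zero =>
    intro P U A c h _ hw
    cases hw with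
    | edge _ _ _ h1 => exact ⟨P, U, c, h, subset_rfl, by omega, fun v hv => Or.inl hv, h1⟩
  | succ j ih =>
    intro P U A c h hUA hw
    cases hw with
    | edge _ _ _ h1 => exact ⟨P, U, c, h, subset_rfl, by omega, fun v hv => Or.inl hv, h1⟩
    | step _ _ y _ h1 h2 h3 =>
      obtain ⟨P1, b1⟩ := h.ext hρ hQ (fun e => h1 (hUA e)) h2
      obtain ⟨P', U', c', b2, s1, s2, s3, s4⟩ := ih P1 (insert y U) (insert y A) y
        (b1.sub (subset_insert _ _)) (insert_subset_insert _ hUA) (Wk.avoid j h3)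
      refine ⟨P', U', c', b2, (subset_insert _ _).trans s1, ?_, fun v hv => ?_, s4⟩
      · have := card_insert_le y U
        omega
      · rcases s3 v hv with h4 | h4
        · rcases mem_insert.1 h4 with h5 | h5
          · exact Or.inr (h5 ▸ h1)
          · exact Or.inl h5
        · exact Or.inr fun h5 => h4 (mem_insert_of_mem h5)

include hρ hQ in
/-- grow the path so that it contains the arc `p` at its end -/
lemma BS.arc {P : PS E} {U : Finset V} {c : V} {W : Finset (V × V)} {L : ℕ} {p : V × V}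
    (h : BS P0 P Q Z U0 U b0 c W) (h1 : p.1 ∉ U) (h2 : p.2 ∉ U) (hne : p.1 ≠ p.2) (hp : ρ p.1 p.2)
    (hw : Wk ρ (insert p.1 (insert p.2 U)) L c p.1) :
    ∃ P' U', BS P0 P' Q Z U0 U' b0 p.2 (insert p W) ∧ U ⊆ U' ∧ U'.card ≤ U.card + (L + 2) := by
  obtain ⟨P1, U1, c1, b1, s1, s2, s3, s4⟩ := BS.walk hρ hQ L P U _ c h
    ((subset_insert _ _).trans (subset_insert _ _)) hw
  have n1 : p.1 ∉ U1 := fun e => (s3 _ e).elim h1 (by simp)
  have n2 : p.2 ∉ U1 := fun e => (s3 _ e).elim h2 (by simp)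
  obtain ⟨P2, b2⟩ := b1.ext hρ hQ n1 s4
  obtain ⟨P3, b3⟩ := b2.ext hρ hQ (y := p.2) (by simp [n2, hne.symm]) hp
  refine ⟨P3, _, b3.sub ?_, s1.trans ((subset_insert _ _).trans (subset_insert _ _)), ?_⟩
  · exact insert_subset_insert _ (subset_insert _ _)
  · have := card_insert_le p.1 U1
    have := card_insert_le p.2 (insert p.1 U1)
    omega

end

lemma BS.init {P : PS E} {Q : PS E → Prop} {Z U : Finset V} {b0 : V} (hq : Q P) (hZ : Z ⊆ P.X)
    (hs : Sing P U) (hZU : Z ⊆ U) (hb : b0 ∉ U) : BS P P Q Z U (insert b0 U) b0 b0 ∅ :=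
  ⟨hq, Keep.refl P hZ, hs.mono (subset_insert _ _), hZU.trans (subset_insert _ _),
    mem_insert_self _ _, fun e => hb (hZU e), (hs b0 hb).1, (hs b0 hb).2.1, hs.e hb,
    fun v hv hv' => by rw [(mem_insert.1 hv).resolve_right hv']; exact hs.e hb, by simp⟩

lemma averaging {α β : Type} (S : Finset α) (T : Finset β) (r : α → β → Prop)
    [∀ a b, Decidable (r a b)] (M g : ℕ) (hM : S.card ≤ M) (hg : 0 < g) (hT : T.Nonempty)
    (h : ∀ b ∈ T, g ≤ (S.filter (r · b)).card) :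
    ∃ a ∈ S, g * T.card ≤ M * (T.filter (r a ·)).card := by
  have hS : S.Nonempty := by
    obtain ⟨b, hb⟩ := hT
    exact (card_pos.1 (lt_of_lt_of_le hg (h b hb))).mono (filter_subset _ _)
  have h1 : ∑ a ∈ S, (T.filter (r a ·)).card = ∑ b ∈ T, (S.filter (r · b)).card := by
    simp only [card_filter]; exact sum_comm
  have h2 : T.card * g ≤ ∑ b ∈ T, (S.filter (r · b)).card := by
    simpa using card_nsmul_le_sum T _ g h
  apply exists_le_of_sum_le hS
  rw [sum_const, smul_eq_mul, ← mul_sum, h1]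
  calc S.card * (g * T.card) ≤ M * (T.card * g) := by rw [mul_comm g]; gcongr
    _ ≤ _ := by gcongr

/-- hypotheses under which universal cycles can be built -/
structure UH (E ρ G : V → V → Prop) (D : Finset V) (u L K : ℕ) : Prop where
  reach : ∀ A : Finset V, A.card ≤ u → ∀ x ∈ D, ∀ y ∈ D, Wk ρ A L x y
  big : u < D.card
  samp : ∃ (S : Finset (V × V)) (M g : ℕ), S.card ≤ M ∧ 0 < g ∧ g ≤ M ∧
    (∀ p ∈ S, ρ p.1 p.2 ∧ p.1 ∈ D ∧ p.2 ∈ D ∧ p.1 ≠ p.2) ∧
    ((Fintype.card V : ℝ) ^ 2 * (1 - g / M) ^ K < 1) ∧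
    ∀ A : Finset V, A.card ≤ u → ∀ x y, G x y → ∃ T ⊆ S, g ≤ T.card ∧
      ∀ p ∈ T, p.1 ∉ A ∧ p.2 ∉ A ∧ E x p.2 ∧ E p.1 y

lemma one_cycle {ρ G : V → V → Prop} (hρ : ∀ x y, ρ x y → E x y) {Q : PS E → Prop}
    (hQ : JClosed ρ Q) {D : Finset V} {u L K : ℕ} (H : UH E ρ G D u L K) (P : PS E)
    (Z U : Finset V) (hq : Q P) (hZ : Z ⊆ P.X) (hs : Sing P U) (hZU : Z ⊆ U)
    (hu : U.card + (K + 1) * (L + 2) ≤ u) :
    ∃ P' U' c, Q P' ∧ Keep P P' Z ∧ Sing P' U' ∧ U ⊆ U' ∧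
      U'.card ≤ U.card + (K + 1) * (L + 2) ∧ c ∈ U' ∧ c ∉ Z ∧ c ∈ P'.X ∧
      (∀ v ∈ U', v ∉ U → P'.e v = c) ∧ Cyc P' G c := by
  classical
  obtain ⟨S, M, g, hM, hg, hgM, hS, hK, hT⟩ := H.samp
  obtain ⟨b0, hb0D, hb0⟩ : ∃ b0 ∈ D, b0 ∉ U :=
    exists_mem_notMem_of_card_lt_card (by have := H.big; nlinarith)
  set rem : Finset (V × V) → Finset (V × V) := fun W =>
    univ.filter fun q => G q.1 q.2 ∧ ¬ ∃ p ∈ W, E q.1 p.2 ∧ E p.1 q.2 with hrem
  have hMpos : (0 : ℝ) < M := by exact_mod_cast lt_of_lt_of_le hg hgM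
  have hr0 : (0 : ℝ) ≤ 1 - g / M := by
    rw [sub_nonneg, div_le_one hMpos]; exact_mod_cast hgM
  have key : ∀ j ≤ K, ∃ P' U' c W, BS P P' Q Z U U' b0 c W ∧ c ∈ D ∧ U ⊆ U' ∧
      U'.card ≤ U.card + 1 + j * (L + 2) ∧
      ((rem W).card : ℝ) ≤ (Fintype.card V : ℝ) ^ 2 * (1 - g / M) ^ j := by
    intro j
    induction j with
    | zero =>
      intro _
      refine ⟨P, _, b0, ∅, BS.init hq hZ hs hZU hb0, hb0D, subset_insert _ _, ?_, ?_⟩
      · have := card_insert_le b0 U; omega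
      · have := card_le_univ (rem ∅)
        rw [Fintype.card_prod] at this
        rw [pow_zero, mul_one, sq]
        exact_mod_cast this
    | succ j ih =>
      intro hj
      obtain ⟨P', U', c, W, b1, cD, s1, s2, s3⟩ := ih (by omega)
      by_cases hne : (rem W).Nonempty
      · have hU' : U'.card + 2 ≤ u := by nlinarith
        obtain ⟨p, hp, hav⟩ := averaging (S.filter fun p => p.1 ∉ U' ∧ p.2 ∉ U') (rem W)
          (fun p q => E q.1 p.2 ∧ E p.1 q.2) M g (le_trans (card_filter_le _ _) hM) hg hne (by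
            intro q hq'
            obtain ⟨T, t1, t2, t3⟩ := hT U' (by omega) q.1 q.2 (mem_filter.1 hq').2.1
            refine le_trans t2 (card_le_card fun p hp => ?_)
            obtain ⟨p1, p2, p3, p4⟩ := t3 p hp
            exact mem_filter.2 ⟨mem_filter.2 ⟨t1 hp, p1, p2⟩, p3, p4⟩)
        rw [mem_filter] at hp
        obtain ⟨q1, q2, q3, q4⟩ := hS p hp.1
        obtain ⟨P2, U2, b2, r1, r2⟩ := b1.arc hρ hQ (L := L) hp.2.1 hp.2.2 q4 q1
          (H.reach _ (by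
            have := card_insert_le p.2 U'
            have := card_insert_le p.1 (insert p.2 U')
            omega) c cD p.1 q2)
        refine ⟨P2, U2, p.2, insert p W, b2, q3, s1.trans r1, by nlinarith, ?_⟩
        have h1 : (rem (insert p W)).card +
            ((rem W).filter fun q => E q.1 p.2 ∧ E p.1 q.2).card ≤ (rem W).card := by
          rw [← card_filter_add_card_filter_not (s := rem W) (fun q => E q.1 p.2 ∧ E p.1 q.2),
            add_comm]
          refine Nat.add_le_add_left (card_le_card fun q hq' => ?_) _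
          simp only [hrem, mem_filter, mem_univ, true_and, mem_insert] at hq' ⊢
          exact ⟨⟨hq'.1, fun ⟨p', h1, h2⟩ => hq'.2 ⟨p', Or.inr h1, h2⟩⟩,
            fun h => hq'.2 ⟨p, Or.inl rfl, h⟩⟩
        have h2 : ((rem (insert p W)).card : ℝ) ≤ (rem W).card * (1 - g / M) := by
          have h3 : (g : ℝ) * (rem W).card ≤
            M * ((rem W).filter fun q => E q.1 p.2 ∧ E p.1 q.2).card := by exact_mod_cast hav
          have h4 : ((rem (insert p W)).card : ℝ) +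
            ((rem W).filter fun q => E q.1 p.2 ∧ E p.1 q.2).card ≤ (rem W).card := by
            exact_mod_cast h1
          have h5 : ((rem W).card : ℝ) * (g / M) ≤
              ((rem W).filter fun q => E q.1 p.2 ∧ E p.1 q.2).card := by
            rw [← mul_div_assoc, div_le_iff₀ hMpos]; linarith
          linarith
        rw [pow_succ _ j, ← mul_assoc]
        exact h2.trans (mul_le_mul_of_nonneg_right s3 hr0)
      · refine ⟨P', U', c, W, b1, cD, s1, by nlinarith, ?_⟩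
        rw [not_nonempty_iff_eq_empty.1 hne, card_empty, Nat.cast_zero]
        positivity
  obtain ⟨P', U', c, W, b1, cD, s1, s2, s3⟩ := key K le_rfl
  have hemp : rem W = ∅ := by
    rw [← card_eq_zero]
    have : ((rem W).card : ℝ) < 1 := lt_of_le_of_lt s3 hK
    exact_mod_cast Nat.lt_one_iff.1 (by exact_mod_cast this)
  obtain ⟨P2, U2, c2, b2, r1, r2, -, r4⟩ := BS.walk hρ hQ L P' U' U' c b1 subset_rfl
    (H.reach U' (by nlinarith) c cD b0 hb0D)
  refine ⟨P2, U2, c2, b2.q, b2.keep, b2.sing, s1.trans r1, by nlinarith, b2.cU, b2.cZ, b2.cX,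
    b2.new, ⟨b0, b2.st, b2.eb, hρ _ _ r4⟩, fun x y hxy => ?_⟩
  have : (x, y) ∉ rem W := by rw [hemp]; simp
  simp only [hrem, mem_filter, mem_univ, true_and, hxy, not_not] at this
  obtain ⟨p, hp, e1, e2⟩ := this
  obtain ⟨a1, a2, a3⟩ := b2.arcs p hp
  exact ⟨p.1, a1, a2, a3 ▸ e1, e2⟩

lemma many_cycles {ρ G : V → V → Prop} (hρ : ∀ x y, ρ x y → E x y) {Q : PS E → Prop}
    (hQ : JClosed ρ Q) {D : Finset V} {u L K : ℕ} (H : UH E ρ G D u L K) (P : PS E)
    (Z U : Finset V) (hq : Q P) (hZ : Z ⊆ P.X) (hs : Sing P U) (hZU : Z ⊆ U) :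
    ∀ r, U.card + r * ((K + 1) * (L + 2)) ≤ u →
    ∃ P' U' Cs, Q P' ∧ Keep P P' Z ∧ Sing P' U' ∧ U ⊆ U' ∧
      U'.card ≤ U.card + r * ((K + 1) * (L + 2)) ∧ Cs ⊆ U' ∧ Disjoint Cs Z ∧ Cs ⊆ P'.X ∧
      Cs.card = r ∧ (∀ v ∈ U', v ∉ U → P'.e v ∈ Cs) ∧ ∀ c ∈ Cs, Cyc P' G c := by
  intro r
  induction r with
  | zero => exact fun _ => ⟨P, U, ∅, hq, Keep.refl P hZ, hs, subset_rfl, by simp, by simp,
      by simp, by simp, rfl, fun v h1 h2 => absurd h1 h2, by simp⟩
  | succ r ih =>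
    intro hu
    obtain ⟨P1, U1, Cs, q1, k1, s1, u1, c1, c2, c3, c4, c5, c7, c6⟩ := ih (by nlinarith)
    obtain ⟨P2, U2, c, q2, k2, s2, u2, d1, d2, d3, d4, d6, d5⟩ := one_cycle hρ hQ H P1 (Cs ∪ Z) U1 q1
      (union_subset c4 k1.sub) s1 (union_subset c2 (hZU.trans u1)) (by nlinarith)
    rw [mem_union, not_or] at d3
    refine ⟨P2, U2, insert c Cs, q2, k1.trans fun z hz => k2 z (mem_union_right _ hz), s2,
      u1.trans u2, by nlinarith, insert_subset d2 (c2.trans u2), disjoint_insert_left.2 ⟨d3.2, c3⟩,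
      insert_subset d4 fun z hz => (k2 z (mem_union_left _ hz)).mem,
      by rw [card_insert_of_notMem d3.1, c5], fun v hv hv' => ?_, fun z hz => ?_⟩
    · by_cases h : v ∈ U1
      · have h1 := c7 v h hv'
        rw [((k2 _ (mem_union_left _ h1)).e v).2 rfl]
        exact mem_insert_of_mem h1
      · rw [d6 v hv h]; exact mem_insert_self _ _
    rcases mem_insert.1 hz with e | hz
    · exact e ▸ d5
    · exact (c6 z hz).same (k2 z (mem_union_left _ hz))

end Pool.Agent.Lib.MP_c8ddae_co
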