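import Pool.Agent.Lib.MP_c8ddae_co.H8Close

set_option autoImplicit false
open Finset

namespace Pool.Agent.Lib.MP_c8ddae_co

variable {V : Type} [Fintype V] [DecidableEq V] {E : V → V → Prop}

lemma PS.e_ne_of_notMem (P : PS E) {w : V} (hw : w ∉ P.X) (v : V) : P.e v ≠ w :=
  fun h => hw (h ▸ P.e_mem v)

lemma PS.IsCut.after {P Q : PS E} {w v : V} (h : PS.IsCut P Q w)
    (hv : ¬ (P.e v = P.e w ∧ P.d w ≤ P.d v)) : Q.e v = P.e v ∧ Q.d v = P.d v := by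
  rw [h.e, h.d, if_neg hv, if_neg hv]; exact ⟨rfl, rfl⟩

lemma PS.IsCut.before {P Q : PS E} {w v : V} (h : PS.IsCut P Q w)
    (h1 : P.e v = P.e w) (h2 : P.d w ≤ P.d v) : Q.e v = w := by
  rw [h.e, if_pos ⟨h1, h2⟩]

lemma PS.IsCut.notMem {P Q : PS E} {w v : V} (h : PS.IsCut P Q w) (h1 : v ≠ w) (h2 : v ∉ P.X) :
    v ∉ Q.X := by rw [h.X, mem_insert, not_or]; exact ⟨h1, h2⟩

lemma PS.IsCut.mem {P Q : PS E} {w v : V} (h : PS.IsCut P Q w) (h2 : v ∈ P.X) : v ∈ Q.X := by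
  rw [h.X]; exact mem_insert_of_mem h2

lemma PS.IsCut.self {P Q : PS E} {w : V} (h : PS.IsCut P Q w) : w ∈ Q.X := by
  rw [h.X]; exact mem_insert_self _ _

lemma PS.IsJoin.mem {P Q : PS E} {a b v : V} (h : PS.IsJoin P Q a b) (h1 : v ≠ a)
    (h2 : v ∈ P.X) : v ∈ Q.X := by rw [h.X]; exact mem_erase.2 ⟨h1, h2⟩

lemma PS.IsJoin.e_ne {P Q : PS E} {a b v : V} (h : PS.IsJoin P Q a b) (h1 : P.e v ≠ a) :
    Q.e v = P.e v := by rw [h.e, if_neg h1]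

lemma PS.IsJoin.e_eq {P Q : PS E} {a b v : V} (h : PS.IsJoin P Q a b) (h1 : P.e v = a) :
    Q.e v = P.e b := by rw [h.e, if_pos h1]

/-- three-exchange: `a → F w1`, `w1 → F w2`, `w2 → b` -/
lemma red_three (P : PS E) (Z : Finset V) (hZ : Z ⊆ P.X) {a b w1 w2 : V} (ha : a ∈ P.X)
    (hb : P.St b) (h1 : w1 ∉ P.X) (h2 : w2 ∉ P.X) (haZ : a ∉ Z) (hbZ : P.e b ∉ Z)
    (z1 : P.e w1 ∉ Z) (z2 : P.e w2 ∉ Z) (hord : ¬ (P.e w2 = P.e w1 ∧ P.d w1 ≤ P.d w2))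
    (a1 : P.e w1 ≠ a) (a2 : P.e w2 ≠ a) (b1 : P.e b ≠ P.e w1) (b2 : P.e b ≠ P.e w2)
    (ba : P.e b ≠ a) (E1 : E a (P.F w1)) (E2 : E w1 (P.F w2)) (E3 : E w2 b) :
    ∃ Q, Red P Q Z a b := by
  have hne : w2 ≠ w1 := fun h => hord (by rw [h]; exact ⟨rfl, le_rfl⟩)
  have n1 := P.e_ne_of_notMem h1
  have n2 := P.e_ne_of_notMem h2
  obtain ⟨P1, c1⟩ := P.exists_cut h1
  have k1 := c1.keep hZ h1 z1
  obtain ⟨e12, d12⟩ := c1.after hord
  have h2' := c1.notMem hne h2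
  obtain ⟨P2, c2⟩ := P1.exists_cut h2'
  have k2 := c2.keep k1.sub h2' (by rw [e12]; exact z2)
  have f2 : P2.e (P.F w2) = P.e w2 := by rw [← c1.F, c2.e_F h2', e12]
  have f1 : P2.e (P.F w1) = P.e w1 ∨ P2.e (P.F w1) = w2 := by
    rw [c2.e, c1.e_F h1]; split_ifs <;> simp
  have eb : P2.e b = P.e b := by rw [c2.e_ne (by rw [c1.e_ne b1, e12]; exact b2), c1.e_ne b1]
  have s1 := P.not_St_F h1
  have s2 := P.not_St_F h2
  have F12 : P.F w1 ≠ P.F w2 := fun h => hne (P.F.injective h).symm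
  obtain ⟨P3, j3⟩ := P2.exists_join (a := w1) (b := P.F w2) (c2.mem c1.self)
    ((c2.St _).2 (Or.inr (by rw [c1.F]))) (by rw [f2]; exact n1 _) E2
  have k3 := j3.keep k2.sub (fun h => h1 (hZ h)) (by rw [f2]; exact z2)
  have g1 : P3.e (P.F w1) = P2.e (P.F w1) :=
    j3.e_ne (by rcases f1 with h | h <;> rw [h]; exacts [n1 _, hne])
  have hwa1 : a ≠ w1 := fun h => h1 (h ▸ ha)
  have hwa2 : w2 ≠ a := fun h => h2 (h ▸ ha)
  obtain ⟨P4, j4⟩ := P3.exists_join (a := a) (b := P.F w1) (j3.mem hwa1 (c2.mem (c1.mem ha)))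
    ((j3.St _).2 ⟨(c2.St _).2 (Or.inl ((c1.St _).2 (Or.inr rfl))), F12⟩)
    (by rw [g1]; rcases f1 with h | h <;> rw [h]; exacts [a1, hwa2]) E1
  have k4 := j4.keep k3.sub haZ
    (by rw [g1]; rcases f1 with h | h <;> rw [h]; exacts [z1, fun h => h2 (hZ h)])
  have eb3 : P3.e b = P.e b := by rw [j3.e_ne (by rw [eb]; exact n1 _), eb]
  have eb4 : P4.e b = P.e b := by rw [j4.e_ne (by rw [eb3]; exact ba), eb3]
  obtain ⟨P5, j5⟩ := P4.exists_join (a := w2) (b := b) (j4.mem hwa2 (j3.mem hne c2.self))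
    ((j4.St _).2 ⟨(j3.St _).2 ⟨(c2.St _).2 (Or.inl ((c1.St _).2 (Or.inl hb))),
      fun h => s2 (h ▸ hb)⟩, fun h => s1 (h ▸ hb)⟩) (by rw [eb4]; exact n2 _) E3
  have k5 := j5.keep k4.sub (fun h => h2 (hZ h)) (by rw [eb4]; exact hbZ)
  refine ⟨P5, ?_, ?_, k1.trans (k2.trans (k3.trans (k4.trans k5)))⟩
  · rw [j5.X, j4.X, j3.X, c2.X, c1.X]
    ext v
    simp only [mem_erase, mem_insert]
    exact ⟨fun h => by tauto,
      fun h => ⟨fun e => h2 (e ▸ h.2), h.1, fun e => h1 (e ▸ h.2), Or.inr (Or.inr h.2)⟩⟩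
  · intro c
    rw [j5.St, j4.St, j3.St, c2.St, c1.St, c1.F]
    exact ⟨fun h => by tauto,
      fun h => ⟨⟨⟨Or.inl (Or.inl h.1), fun e => s2 (e ▸ h.1)⟩, fun e => s1 (e ▸ h.1)⟩, h.2⟩⟩

/-- two ends and two starts disappear -/
structure Red2 (P Q : PS E) (Z : Finset V) (a a' : V) : Prop where
  X : Q.X = (P.X.erase a').erase a
  St : ∀ c, Q.St c → P.St c
  keep : Keep P Q Z

/-- exchange along two crossing backward arcs `w1 → F w2`, `w → F w3`; order `w3, w2, w, w1` -/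
lemma red_five (P : PS E) (Z : Finset V) (hZ : Z ⊆ P.X) {a a' b b' w w1 w2 w3 : V}
    (ha : a ∈ P.X) (ha' : a' ∈ P.X) (hb : P.St b) (hb' : P.St b') (haa : a ≠ a') (hbb : b' ≠ b)
    (h0 : w ∉ P.X) (h1 : w1 ∉ P.X) (h2 : w2 ∉ P.X) (h3 : w3 ∉ P.X)
    (haZ : a ∉ Z) (haZ' : a' ∉ Z) (hbZ : P.e b ∉ Z) (hbZ' : P.e b' ∉ Z) (hz : P.e w ∉ Z)
    (p1 : P.e w1 = P.e w) (p2 : P.e w2 = P.e w) (p3 : P.e w3 = P.e w)
    (o1 : P.d w1 < P.d w) (o2 : P.d w < P.d w2) (o3 : P.d w2 < P.d w3)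
    (a1 : P.e w ≠ a) (a2 : P.e w ≠ a') (b1 : P.e b ≠ P.e w) (b2 : P.e b' ≠ P.e w)
    (ba : P.e b ≠ a') (E1 : E w1 (P.F w2)) (E2 : E w (P.F w3)) (E3 : E a' (P.F w))
    (E4 : E a (P.F w1)) (E5 : E w2 b) (E6 : E w3 b') : ∃ Q, Red2 P Q Z a a' := by
  have n0 := P.e_ne_of_notMem h0
  have n1 := P.e_ne_of_notMem h1
  have n2 := P.e_ne_of_notMem h2
  have n3 := P.e_ne_of_notMem h3
  have d0 := P.d_step w h0
  have d1 := P.d_step w1 h1
  have d2 := P.d_step w2 h2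
  have d3 := P.d_step w3 h3
  have q0 := P.e_step w h0
  have q1 := P.e_step w1 h1
  have q2 := P.e_step w2 h2
  have q3 := P.e_step w3 h3
  have ne : ∀ {u v : V}, P.d u < P.d v → u ≠ v := fun h e => by rw [e] at h; omega
  have nx : ∀ {u v : V}, u ∉ P.X → v ∈ P.X → u ≠ v := fun h1 h2 e => h1 (e ▸ h2)
  -- the four cuts
  obtain ⟨P1, c1⟩ := P.exists_cut h3
  have k1 := c1.keep hZ h3 (by rw [p3]; exact hz)
  have A1 : ∀ v, P.d v < P.d w3 ∨ P.e v ≠ P.e w → P1.e v = P.e v ∧ P1.d v = P.d v :=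
    fun v hv => c1.after (by rw [p3]; rintro ⟨x1, x2⟩; rcases hv with h | h; omega; exact h x1)
  have h2' := c1.notMem (ne o3) h2
  obtain ⟨P2, c2⟩ := P1.exists_cut h2'
  obtain ⟨x2, y2⟩ := A1 w2 (Or.inl o3)
  have k2 := c2.keep k1.sub h2' (by rw [x2, p2]; exact hz)
  have A2 : ∀ v, P.d v < P.d w2 ∨ P.e v ≠ P.e w → P2.e v = P.e v ∧ P2.d v = P.d v := by
    intro v hv
    obtain ⟨x, y⟩ := A1 v (hv.imp (by omega) id)
    rw [← x, ← y]
    exact c2.after (by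
      rw [x, y, x2, y2, p2]; rintro ⟨x1, x2⟩; rcases hv with h | h; omega; exact h x1)
  have S1 : P2.e (P.F w3) = w2 := by
    obtain ⟨x, y⟩ := A1 (P.F w3) (Or.inl (by omega))
    exact c2.before (by rw [x, x2, q3, p3, p2]) (by rw [y, y2]; omega)
  have h0' := c2.notMem (ne o2) (c1.notMem (ne (by omega)) h0)
  obtain ⟨P3, c3⟩ := P2.exists_cut h0'
  obtain ⟨x0, y0⟩ := A2 w (Or.inl o2)
  have k3 := c3.keep k2.sub h0' (by rw [x0]; exact hz)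
  have A3 : ∀ v, P.d v < P.d w ∨ P.e v ≠ P.e w → P3.e v = P.e v ∧ P3.d v = P.d v := by
    intro v hv
    obtain ⟨x, y⟩ := A2 v (hv.imp (by omega) id)
    rw [← x, ← y]
    exact c3.after (by
      rw [x, y, x0, y0]; rintro ⟨x1, x2⟩; rcases hv with h | h; omega; exact h x1)
  have S2 : P3.e (P.F w2) = w := by
    obtain ⟨x, y⟩ := A2 (P.F w2) (Or.inl (by omega))
    exact c3.before (by rw [x, x0, q2, p2]) (by rw [y, y0]; omega)
  have S1' : P3.e (P.F w3) = w2 := by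
    rw [c3.e_ne (by rw [S1, x0]; exact (n2 _).symm), S1]
  have h1' := c3.notMem (ne o1) (c2.notMem (ne (by omega)) (c1.notMem (ne (by omega)) h1))
  obtain ⟨P4, c4⟩ := P3.exists_cut h1'
  obtain ⟨x1, y1⟩ := A3 w1 (Or.inl o1)
  have k4 := c4.keep k3.sub h1' (by rw [x1, p1]; exact hz)
  have A4 : ∀ v, P.d v < P.d w1 ∨ P.e v ≠ P.e w → P4.e v = P.e v := by
    intro v hv
    obtain ⟨x, y⟩ := A3 v (hv.imp (by omega) id)
    rw [← x]
    exact (c4.after (by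
      rw [x, y, x1, y1, p1]; rintro ⟨x1, x2⟩; rcases hv with h | h; omega; exact h x1)).1
  have T3 : P4.e (P.F w) = w1 := by
    obtain ⟨x, y⟩ := A3 (P.F w) (Or.inl (by omega))
    exact c4.before (by rw [x, x1, q0, p1]) (by rw [y, y1]; omega)
  have T2 : P4.e (P.F w2) = w := by rw [c4.e_ne (by rw [S2, x1]; exact (n0 _).symm), S2]
  have T1 : P4.e (P.F w3) = w2 := by rw [c4.e_ne (by rw [S1', x1]; exact (n2 _).symm), S1']
  have T4 : P4.e (P.F w1) = P.e w := by rw [A4 _ (Or.inl (by omega)), q1, p1]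
  have Tb : P4.e b = P.e b := A4 b (Or.inr b1)
  have Tb' : P4.e b' = P.e b' := A4 b' (Or.inr b2)
  have K4 := k1.trans (k2.trans (k3.trans k4))
  have X4 : ∀ v, v ∈ P4.X ↔ v = w1 ∨ v = w ∨ v = w2 ∨ v = w3 ∨ v ∈ P.X := by
    intro v; rw [c4.X, c3.X, c2.X, c1.X]; simp only [mem_insert]
  have St4 : ∀ v, P4.St v ↔ P.St v ∨ v = P.F w3 ∨ v = P.F w2 ∨ v = P.F w ∨ v = P.F w1 := by
    intro v
    rw [c4.St, c3.St, c2.St, c1.St, c3.F, c2.F, c1.F]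
    simp only [or_assoc]
  have nF : ∀ {u v : V}, u ≠ v → P.F u ≠ P.F v := fun h e => h (P.F.injective e)
  have sF : ∀ {u v : V}, P.St v → u ∉ P.X → v ≠ P.F u := fun h1 h2 e => P.not_St_F h2 (e ▸ h1)
  have zz : ∀ {u : V}, u ∉ P.X → u ∉ Z := fun h e => h (hZ e)
  have m01 : w ≠ w1 := (ne o1).symm
  have m21 : w2 ≠ w1 := (ne (by omega)).symm
  have m20 : w2 ≠ w := (ne o2).symm
  have m31 : w3 ≠ w1 := (ne (by omega)).symm
  have m30 : w3 ≠ w := (ne (by omega)).symm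
  have m32 : w3 ≠ w2 := (ne o3).symm
  -- the six joins
  obtain ⟨P5, j5⟩ := P4.exists_join (a := w1) (b := P.F w2) (by simp [X4]) (by simp [St4])
    (by rw [T2]; exact m01) E1
  have k5 := j5.keep K4.sub (zz h1) (by rw [T2]; exact zz h0)
  have U1 : P5.e (P.F w3) = w2 := by rw [j5.e_ne (by rw [T1]; exact m21), T1]
  obtain ⟨P6, j6⟩ := P5.exists_join (a := w) (b := P.F w3) (j5.mem m01 (by simp [X4]))
    ((j5.St _).2 ⟨by simp [St4], nF m32⟩) (by rw [U1]; exact m20) E2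
  have k6 := j6.keep k5.sub (zz h0) (by rw [U1]; exact zz h2)
  have U3 : P6.e (P.F w) = w2 := by rw [j6.e_eq (by rw [j5.e_eq T3, T2]), U1]
  have B6 : ∀ v, P4.e v ∈ P.X → P6.e v = P4.e v := fun v hv => by
    have e5 := j5.e_ne (v := v) (nx h1 hv).symm
    rw [j6.e_ne (by rw [e5]; exact (nx h0 hv).symm), e5]
  obtain ⟨P7, j7⟩ := P6.exists_join (a := a') (b := P.F w)
    (j6.mem (nx h0 ha').symm (j5.mem (nx h1 ha').symm (by simp [X4, ha'])))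
    ((j6.St _).2 ⟨(j5.St _).2 ⟨by simp [St4], nF m20.symm⟩, nF m30.symm⟩)
    (by rw [U3]; exact nx h2 ha') E3
  have k7 := j7.keep k6.sub haZ' (by rw [U3]; exact zz h2)
  have U4 : P7.e (P.F w1) = P.e w := by
    have := B6 (P.F w1) (by rw [T4]; exact P.e_mem _)
    rw [j7.e_ne (by rw [this, T4]; exact a2), this, T4]
  obtain ⟨P8, j8⟩ := P7.exists_join (a := a) (b := P.F w1)
    (j7.mem haa (j6.mem (nx h0 ha).symm (j5.mem (nx h1 ha).symm (by simp [X4, ha]))))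
    ((j7.St _).2 ⟨(j6.St _).2 ⟨(j5.St _).2 ⟨by simp [St4], nF m21.symm⟩, nF m31.symm⟩,
      nF m01.symm⟩) (by rw [U4]; exact a1) E4
  have k8 := j8.keep k7.sub haZ (by rw [U4]; exact hz)
  have Ub : P8.e b = P.e w ∨ P8.e b = P.e b := by
    have e6 : P6.e b = P.e b := by rw [B6 b (by rw [Tb]; exact P.e_mem _), Tb]
    have e7 : P7.e b = P.e b := by rw [j7.e_ne (by rw [e6]; exact ba), e6]
    rw [j8.e, U4, e7]; split_ifs <;> simp
  have Ub' : P8.e b' = P.e w ∨ P8.e b' = P.e b' ∨ P8.e b' = w2 := by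
    have e6 : P6.e b' = P.e b' := by rw [B6 b' (by rw [Tb']; exact P.e_mem _), Tb']
    rw [j8.e, U4, j7.e, U3, e6]; split_ifs <;> simp
  have St8 : ∀ v, P.St v → P8.St v := fun v hv =>
    (j8.St _).2 ⟨(j7.St _).2 ⟨(j6.St _).2 ⟨(j5.St _).2 ⟨by simp [St4, hv], sF hv h2⟩,
      sF hv h3⟩, sF hv h0⟩, sF hv h1⟩
  obtain ⟨P9, j9⟩ := P8.exists_join (a := w2) (b := b)
    (j8.mem (nx h2 ha) (j7.mem (nx h2 ha') (j6.mem m20 (j5.mem m21 (by simp [X4])))))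
    (St8 b hb) (by rcases Ub with h | h <;> rw [h] <;> exact n2 _) E5
  have Zb : P8.e b ∉ Z := by rcases Ub with h | h <;> rw [h]; exacts [hz, hbZ]
  have k9 := j9.keep k8.sub (zz h2) Zb
  have Vb' : P9.e b' = P.e w ∨ P9.e b' = P.e b ∨ P9.e b' = P.e b' := by
    rw [j9.e]
    split_ifs with h
    · rcases Ub with h | h <;> simp [h]
    · rcases Ub' with h' | h' | h'
      · simp [h']
      · simp [h']
      · exact absurd h' h
  obtain ⟨P10, j10⟩ := P9.exists_join (a := w3) (b := b')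
    (j9.mem m32 (j8.mem (nx h3 ha) (j7.mem (nx h3 ha') (j6.mem m30 (j5.mem m31 (by simp [X4]))))))
    ((j9.St _).2 ⟨St8 b' hb', hbb⟩) (by rcases Vb' with h | h | h <;> rw [h] <;> exact n3 _) E6
  have k10 := j10.keep k9.sub (zz h3)
    (by rcases Vb' with h | h | h <;> rw [h]; exacts [hz, hbZ, hbZ'])
  refine ⟨P10, ?_, ?_, K4.trans (k5.trans (k6.trans (k7.trans (k8.trans (k9.trans k10)))))⟩
  · ext v
    rw [j10.X, j9.X, j8.X, j7.X, j6.X, j5.X]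
    simp only [mem_erase, X4]
    exact ⟨fun h => by tauto, fun h => ⟨(nx h3 h.2.2).symm, (nx h2 h.2.2).symm, h.1, h.2.1,
      (nx h0 h.2.2).symm, (nx h1 h.2.2).symm, by simp [h.2.2]⟩⟩
  · intro c
    rw [j10.St, j9.St, j8.St, j7.St, j6.St, j5.St, St4]
    tauto

end Pool.Agent.Lib.MP_c8ddae_co
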