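import Pool.Agent.Lib.MP_c8ddae_co.H8Blk3

set_option autoImplicit false
open Finset

namespace Pool.Agent.Lib.MP_c8ddae_co

variable {V : Type} [Fintype V] [DecidableEq V] {E : V → V → Prop}

section
variable {W : Type} [Fintype W] [DecidableEq W]

lemma deg_tr (ρ : V → V → Prop) (ρ' : W → W → Prop) (g : W → V) (C : Finset V) (v : V) (x : W)
    (h : ∀ y, y ≠ x → g y ∈ C → ρ v (g y) → ρ' x y) :
    deg ρ (C ∩ univ.image g) v ≤ deg ρ' (univ.filter (g · ∈ C)) x + 1 := by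
  classical
  rw [deg_eq, deg_eq]
  refine le_trans (card_le_card (t := (insert x ((univ.filter (g · ∈ C)).filter (ρ' x))).image g)
    fun w hw => ?_) (card_image_le.trans (card_insert_le _ _))
  simp only [mem_filter, mem_inter, mem_image, mem_univ, true_and] at hw
  obtain ⟨⟨h1, y, rfl⟩, h2⟩ := hw
  refine mem_image_of_mem _ (mem_insert.2 ?_)
  by_cases e : y = x
  · exact Or.inl e
  · exact Or.inr (mem_filter.2 ⟨mem_filter.2 ⟨mem_univ _, h1⟩, h y e h1 h2⟩)

lemma card_pre (g : W → V) (hg : Function.Injective g) (C : Finset V) :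
    (univ.filter (g · ∈ C)).card = (C ∩ univ.image g).card := by
  rw [← card_image_of_injective _ hg]
  congr 1
  ext v
  simp only [mem_filter, mem_inter, mem_image, mem_univ, true_and]
  exact ⟨fun ⟨y, h1, h2⟩ => ⟨h2 ▸ h1, y, h2⟩, fun ⟨h1, y, h2⟩ => ⟨y, h2 ▸ h1, h2⟩⟩

lemma card_miss (g : W → V) (hg : Function.Injective g) (C : Finset V) {J : ℕ}
    (hJ : Fintype.card V ≤ Fintype.card W + J) : (C \ (C ∩ univ.image g)).card ≤ J := by
  have e1 : (C \ (C ∩ univ.image g)).card ≤ (univ.image g)ᶜ.card := card_le_card fun v hv => by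
    simp only [mem_sdiff, mem_inter, not_and] at hv
    exact mem_compl.2 (hv.2 hv.1)
  rw [card_compl, card_image_of_injective _ hg, card_univ] at e1
  omega

lemma Half.transfer {ρ : V → V → Prop} {R C H : Finset V} {μ θ σ : ℕ} (h : Half ρ R C H μ θ σ)
    (ρ' : W → W → Prop) (f g : W → V) (hf : Function.Injective f) (hg : Function.Injective g)
    {J μ' θ' σ' : ℕ} (hJ : Fintype.card V ≤ Fintype.card W + J)
    (hρ : ∀ x y, x ≠ y → f x ∈ R → g y ∈ C → ρ (f x) (g y) → ρ' x y)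
    (h1 : μ + 1 ≤ μ') (h2 : θ' + J + 1 ≤ θ) (h3 : σ' + J + 1 ≤ σ) :
    Half ρ' (univ.filter (f · ∈ R)) (univ.filter (g · ∈ C)) (univ.filter (f · ∈ H)) μ' θ' σ' := by
  have key : ∀ x, f x ∈ R → deg ρ (C ∩ univ.image g) (f x) ≤
      deg ρ' (univ.filter (g · ∈ C)) x + 1 := fun x hx =>
    deg_tr ρ ρ' g C (f x) x fun y e => hρ x y e.symm hx
  refine ⟨fun x hx => mem_filter.2 ⟨mem_univ _, h.sub (mem_filter.1 hx).2⟩, fun x hx => ?_,
    fun k hk => ?_, fun y hy => ?_⟩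
  · have hx' := (mem_filter.1 hx).2
    have := h.hi _ hx'
    have := key x (h.sub hx')
    have := deg_le_add ρ C (C ∩ univ.image g) (f x)
    have := card_sdiff_add_card_eq_card (inter_subset_left : C ∩ univ.image g ⊆ C)
    rw [card_pre g hg]
    omega
  · obtain ⟨v, hv, h4⟩ := h.big _ (fun v hv => by
      obtain ⟨x, hx, rfl⟩ := mem_image.1 hv
      simp only [mem_filter, mem_sdiff, mem_univ, true_and] at hx
      exact mem_sdiff.2 hx.1) (hk.image f)
    obtain ⟨x, hx, rfl⟩ := mem_image.1 hv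
    rw [card_image_of_injective _ hf] at h4
    simp only [mem_filter, mem_sdiff, mem_univ, true_and] at hx
    have := key x hx.1.1
    have := deg_le_add ρ C (C ∩ univ.image g) (f x)
    have := card_miss g hg C hJ
    omega
  · have hy' := (mem_filter.1 hy).2
    have := h.col _ hy'
    have := deg_tr (flip ρ) (flip ρ') f R (g y) y fun x e hx => hρ x y e hx hy'
    have := deg_le_add (flip ρ) R (R ∩ univ.image f) (g y)
    have := card_miss f hf R hJ
    omega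

end

lemma Ham.mono {ρ : V → V → Prop} (h : Ham ρ) (hρ : ∀ x y, ρ x y → E x y) : Ham E :=
  let ⟨F, x, k, h1, h2⟩ := h
  ⟨F, x, k, fun v => hρ _ _ (h1 v), h2⟩

lemma PS.st_e (P : PS E) {b : V} (hb : P.St b) : P.st (P.e b) = b :=
  P.start_unique (P.st_St _) hb (by rw [P.e_st, P.e_self _ (P.e_mem b)])

theorem ham_cross (P : PS E) {R C H1 H2 : Finset V} {η u J K r s0 J0 μ θ σ : ℕ}
    (hJ0 : Fintype.card V ≤ P.X.card + J0) (bal : (P.X ∩ R).card = (fs P ∅ C).card)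
    {b0 : V} (hb0 : b0 ∈ fs P ∅ C) (hb1 : P.e b0 ∉ R)
    (h1 : Half E R C H1 μ θ σ) (h2 : Half (flip E) Cᶜ Rᶜ H2 μ θ σ)
    (p1 : μ + 1 ≤ 6 * η) (p2 : 14 * η + J0 + 1 ≤ θ) (p3 : 8 * η + J0 + 1 ≤ σ) (hu : u ≤ η)
    (hJ : Fintype.card V < J * (6 * η))
    (hK : (Fintype.card V : ℝ) ^ 2 * (1 - (4 * η : ℕ) / (Fintype.card V : ℕ)) ^ K < 1)
    (hr : Fintype.card V < r * (3 * η)) (hru : 1 + (2 * r + 3) * ((K + 1) * (2 * J + 4)) ≤ u)
    (hs0 : ∀ e, e * (e + 1) ≤ 4 * Fintype.card V + 6 → 2 * e + 2 ≤ s0) (hs : s0 ≤ η) :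
    Ham E := by
  classical
  have hW : Fintype.card V ≤ Fintype.card P.X + J0 := by simpa using hJ0
  set ρ : P.X → P.X → Prop := fun x y => P.con x y ∧ (x.1 ∈ R ↔ P.st y ∈ C) with hρ
  have t1 := h1.transfer ρ Subtype.val (fun x => P.st x) Subtype.val_injective P.st_inj hW
    (fun x y e hx hy h => ⟨⟨e, h⟩, iff_of_true hx hy⟩) p1 p2 p3
  have t2 := h2.transfer (flip ρ) (fun x => P.st x) Subtype.val P.st_inj Subtype.val_injective hW
    (fun x y e hx hy h => ⟨⟨e.symm, h⟩, iff_of_false (mem_compl.1 hy) (mem_compl.1 hx)⟩) p1 p2 p3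
  have c1 : (univ.filter fun x : P.X => P.st x ∈ Cᶜ) = (univ.filter fun x : P.X => P.st x ∈ C)ᶜ := by
    ext; simp
  have c2 : (univ.filter fun x : P.X => x.1 ∈ Rᶜ) = (univ.filter fun x : P.X => x.1 ∈ R)ᶜ := by
    ext; simp
  rw [c1, c2] at t2
  rw [mem_fs] at hb0
  refine P.lift (Ham.mono (ρ := ρ) (block_ham (v0 := ⟨P.e b0, P.e_mem b0⟩) (fun v h => h.1.1 rfl)
    (Fintype.card_subtype_le _) (fun x y h => by simpa using h.2) ?_ ?_ (by simpa using hb1)
    t1 t2 hu hJ hK hr hru hs0 hs) fun x y h => h.1)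
  · rw [card_pre _ Subtype.val_injective, card_pre _ P.st_inj]
    have e1 : R ∩ univ.image (Subtype.val : P.X → V) = P.X ∩ R := by
      ext v; simp [and_comm]
    have e2 : C ∩ univ.image (fun x : P.X => P.st x) = fs P ∅ C := by
      ext v
      simp only [mem_inter, mem_image, mem_univ, true_and, mem_fs, notMem_empty, not_false_eq_true,
        and_true]
      exact ⟨fun ⟨h, y, e⟩ => ⟨h, e ▸ P.st_St _⟩,
        fun ⟨h, e⟩ => ⟨h, ⟨P.e v, P.e_mem v⟩, P.st_e e⟩⟩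
    rw [e1, e2, bal]
  · simp only [mem_filter, mem_univ, true_and]
    rw [P.st_e hb0.2.1]; exact hb0.1

lemma sum_sdiff_le (R U : Finset V) (f : V → ℕ) (l : ℕ) (h : ∀ x ∈ R, f x ≤ l) :
    ∑ x ∈ R, f x ≤ ∑ x ∈ R \ U, f x + l * U.card := by
  rw [← sum_inter_add_sum_sdiff R U f, add_comm]
  have h1 : ∑ x ∈ R ∩ U, f x ≤ (R ∩ U).card * l :=
    sum_le_card_nsmul (R ∩ U) f l fun x hx => h x (mem_inter.1 hx).1
  have h2 : (R ∩ U).card * l ≤ U.card * l :=
    Nat.mul_le_mul_right _ (card_le_card inter_subset_right)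
  rw [mul_comm l]
  omega

lemma exists_arc {R C : Finset V} {l : ℕ} (hr : ∀ x ∈ R, deg E C x ≤ l)
    (hc : ∀ y ∈ C, deg (flip E) R y ≤ l) (U : Finset V) (h : 2 * l * U.card < ecount E R C) :
    ∃ x ∈ R, ∃ y ∈ C, E x y ∧ x ∉ U ∧ y ∉ U := by
  have h1 := sum_sdiff_le R U _ l hr
  have h2 := sum_sdiff_le C U (deg (flip E) (R \ U)) l fun y hy =>
    (deg_mono _ sdiff_subset y).trans (hc y hy)
  rw [← ecount_sum, ← ecount_sum] at h1
  rw [← ecount_sum', ← ecount_sum'] at h2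
  obtain ⟨x, hx, y, hy, e⟩ := ecount_pos (ρ := E) (S := R \ U) (T := C \ U) (by nlinarith)
  rw [mem_sdiff] at hx hy
  exact ⟨x, hx.1, y, hy.1, e, hx.2, hy.2⟩

/-- effect of joining `j` arcs from `R` to `C` -/
structure Jn (P0 P : PS E) (R C : Finset V) (j : ℕ) : Prop where
  x1 : (P.X ∩ R).card + j = (P0.X ∩ R).card
  x2 : P.X ∩ Rᶜ = P0.X ∩ Rᶜ
  s1 : (fs P ∅ C).card + j = (fs P0 ∅ C).card
  s2 : fs P ∅ Cᶜ = fs P0 ∅ Cᶜ

lemma Jn.trans {P0 P Q : PS E} {R C : Finset V} {i j : ℕ} (h : Jn P0 P R C i)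
    (h' : Jn P Q R C j) : Jn P0 Q R C (i + j) :=
  ⟨by have := h.x1; have := h'.x1; omega, h'.x2.trans h.x2,
    by have := h.s1; have := h'.s1; omega, h'.s2.trans h.s2⟩

lemma join_one (hirr : ∀ v, ¬ E v v) (P : PS E) {U R C : Finset V} (hs : Sing P U) {x y : V}
    (hx : x ∈ R) (hy : y ∈ C) (hE : E x y) (xU : x ∉ U) (yU : y ∉ U) :
    ∃ Q, PS.IsJoin P Q x y ∧ Jn P Q R C 1 ∧ Sing Q (insert x (insert y U)) := by
  obtain ⟨Q, hQ⟩ := P.exists_join (hs x xU).1 (hs y yU).2.1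
    (by rw [hs.e yU]; exact fun e => hirr x (e ▸ hE)) hE
  have f1 : ∀ D : Finset V, fs Q ∅ D = (fs P ∅ D).erase y := fun D => by
    ext v; simp only [mem_fs, mem_erase, hQ.St, notMem_empty]; tauto
  refine ⟨Q, hQ, ⟨?_, ?_, ?_, ?_⟩, (hs.mono ((subset_insert _ _).trans (subset_insert _ _))).join
    hQ (mem_insert_self _ _) (mem_insert_of_mem (mem_insert_self _ _))⟩
  · rw [hQ.X, erase_inter, card_erase_add_one (mem_inter.2 ⟨(hs x xU).1, hx⟩)]
  · rw [hQ.X, erase_inter, erase_eq_of_notMem fun e => mem_compl.1 (mem_inter.1 e).2 hx]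
  · rw [f1, card_erase_add_one (mem_fs.2 ⟨hy, (hs y yU).2.1, notMem_empty _⟩)]
  · rw [f1, erase_eq_of_notMem fun e => mem_compl.1 (mem_fs.1 e).1 hy]

lemma join_many (hirr : ∀ v, ¬ E v v) {R C : Finset V} {l : ℕ} (hr : ∀ x ∈ R, deg E C x ≤ l)
    (hc : ∀ y ∈ C, deg (flip E) R y ≤ l) (P0 : PS E) (Z U0 : Finset V) (hZ : Z ⊆ P0.X)
    (hs : Sing P0 U0) (hZU : Z ⊆ U0) : ∀ j, 2 * l * (U0.card + 2 * j) < ecount E R C →
    ∃ P U, Keep P0 P Z ∧ Sing P U ∧ U0 ⊆ U ∧ U.card ≤ U0.card + 2 * j ∧ Jn P0 P R C j := by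
  intro j
  induction j with
  | zero => exact fun _ => ⟨P0, U0, Keep.refl P0 hZ, hs, subset_rfl, le_rfl, ⟨rfl, rfl, rfl, rfl⟩⟩
  | succ j ih =>
    intro h
    have m1 : 2 * l * (U0.card + 2 * j) ≤ 2 * l * (U0.card + 2 * (j + 1)) := by gcongr; omega
    obtain ⟨P, U, k1, k2, k3, k4, k5⟩ := ih (by omega)
    have m2 : 2 * l * U.card ≤ 2 * l * (U0.card + 2 * j) := by gcongr
    obtain ⟨x, hx, y, hy, e, xU, yU⟩ := exists_arc hr hc U (by omega)
    obtain ⟨Q, q1, q2, q3⟩ := join_one hirr P k2 hx hy e xU yU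
    have := card_insert_le x (insert y U)
    have := card_insert_le y U
    exact ⟨Q, _, k1.trans (q1.keep k1.sub (fun e => xU (k3 (hZU e)))
      (by rw [k2.e yU]; exact fun e => yU (k3 (hZU e)))), q3,
      k3.trans ((subset_insert _ _).trans (subset_insert _ _)), by omega, k5.trans q2⟩

lemma markov (ρ : V → V → Prop) (S T A : Finset V) (a : ℕ) (hA : A ⊆ S)
    (h : ∀ x ∈ A, a ≤ deg ρ T x) : A.card * a ≤ ecount ρ S T := by
  rw [ecount_sum]
  exact le_trans (by simpa using card_nsmul_le_sum A _ a h) (sum_le_sum_of_subset hA)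

lemma ecount_flip (ρ : V → V → Prop) (S T : Finset V) : ecount (flip ρ) T S = ecount ρ S T := by
  rw [ecount_sum, ecount_sum']

lemma deg_le_compl (ρ : V → V → Prop) (C : Finset V) (x : V) :
    deg ρ univ x + C.card ≤ deg ρ C x + Fintype.card V := by
  have := deg_le_add ρ univ C x
  have := card_sdiff_add_card_eq_card (subset_univ C)
  rw [card_univ] at this
  omega

lemma ecount_ge {R C : Finset V} {c q δ : ℕ} (hc : Fintype.card V ≤ 2 * c)
    (hδ : R.card + C.card = Fintype.card V + δ) (h1 : q ≤ (R.filter (c ≤ deg E univ ·)).card)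
    (h2 : q ≤ (C.filter (c ≤ deg (flip E) univ ·)).card) : q * δ ≤ 2 * ecount E R C := by
  have m1 := markov E R C _ (c + C.card - Fintype.card V) (filter_subset (c ≤ deg E univ ·) R)
    fun x hx => by
      have := (mem_filter.1 hx).2
      have := deg_le_compl E C x
      omega
  have m2 := markov (flip E) C R _ (c + R.card - Fintype.card V)
    (filter_subset (c ≤ deg (flip E) univ ·) C) fun x hx => by
      have := (mem_filter.1 hx).2
      have := deg_le_compl (flip E) R x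
      omega
  rw [ecount_flip] at m2
  have m3 := Nat.mul_le_mul_right (c + C.card - Fintype.card V) h1
  have m4 := Nat.mul_le_mul_right (c + R.card - Fintype.card V) h2
  have m5 : q * δ ≤ q * ((c + C.card - Fintype.card V) + (c + R.card - Fintype.card V)) :=
    Nat.mul_le_mul_left _ (by omega)
  rw [mul_add] at m5
  omega

end Pool.Agent.Lib.MP_c8ddae_co
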