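import Pool.Agent.Lib.MP_c8ddae_co.H8Ext1

set_option autoImplicit false
open Finset

namespace Pool.Agent.Lib.MP_c8ddae_co

variable {V : Type} [Fintype V] [DecidableEq V] {E : V → V → Prop}

lemma out_of {ρ : V → V → Prop} (hirr : ∀ v, ¬ ρ v v) {A : Finset V} {x : V} (hx : x ∈ A)
    (h : A.card ≤ deg ρ univ x) : ∃ y, y ∉ A ∧ ρ x y := by
  obtain ⟨y, -, h1, h2⟩ := exists_of_lt_deg ρ univ (A.erase x) x
    (by rw [← card_erase_add_one hx] at h; omega)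
  exact ⟨y, fun e => h2 (mem_erase.2 ⟨fun e' => hirr x (e' ▸ h1), e⟩), h1⟩

lemma pick2 {T : Finset V} (h : 3 ≤ T.card) (p q : V) : ∃ x ∈ T, x ≠ p ∧ x ≠ q := by
  obtain ⟨x, h1, h2⟩ := exists_mem_notMem_of_card_lt_card
    (lt_of_le_of_lt (card_le_two (a := p) (b := q)) (by omega : 2 < T.card))
  exact ⟨x, h1, by simpa using h2⟩

lemma two_arcs_small (hirr : ∀ v, ¬ E v v) {A : Finset V} {c : ℕ} (hA : A.card < c)
    (h1 : 3 ≤ (A.filter (c ≤ deg E univ ·)).card)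
    (h2 : 3 ≤ (A.filter (c ≤ deg (flip E) univ ·)).card) :
    ∃ x y b a, x ∈ A ∧ y ∉ A ∧ b ∉ A ∧ a ∈ A ∧ E x y ∧ E b a ∧ x ≠ a ∧ y ≠ b := by
  obtain ⟨a, ha⟩ := card_pos.1 (by omega : 0 < (A.filter (c ≤ deg (flip E) univ ·)).card)
  rw [mem_filter] at ha
  obtain ⟨b, b1, b2⟩ := out_of (ρ := flip E) hirr ha.1 (by omega)
  obtain ⟨x, hx, x1, -⟩ := pick2 h1 a a
  rw [mem_filter] at hx
  obtain ⟨y, y1, y2⟩ := out_of hirr (mem_insert_of_mem (b := b) hx.1)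
    (by have := card_insert_le b A; omega)
  rw [mem_insert, not_or] at y1
  exact ⟨x, y, b, a, hx.1, y1.2, b1, ha.1, y2, b2, x1, y1.1⟩

lemma two_arcs (hirr : ∀ v, ¬ E v v) {A : Finset V} {c : ℕ} (hc : Fintype.card V ≤ 2 * c)
    (h1 : 3 ≤ (A.filter (c ≤ deg E univ ·)).card)
    (h2 : 3 ≤ (A.filter (c ≤ deg (flip E) univ ·)).card)
    (h3 : 3 ≤ (Aᶜ.filter (c ≤ deg E univ ·)).card)
    (h4 : 3 ≤ (Aᶜ.filter (c ≤ deg (flip E) univ ·)).card) :
    ∃ x y b a, x ∈ A ∧ y ∉ A ∧ b ∉ A ∧ a ∈ A ∧ E x y ∧ E b a ∧ x ≠ a ∧ y ≠ b := by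
  by_cases hA : A.card < c
  · exact two_arcs_small hirr hA h1 h2
  by_cases hB : Aᶜ.card < c
  · obtain ⟨x, y, b, a, q1, q2, q3, q4, q5, q6, q7, q8⟩ := two_arcs_small hirr hB h3 h4
    exact ⟨b, a, x, y, by simpa using q3, by simpa using q4, by simpa using q1, by simpa using q2,
      q6, q5, q8.symm, q7.symm⟩
  have := card_add_card_compl A
  have oA : ∀ x ∈ A.filter (c ≤ deg E univ ·), ∃ y, x ∈ A ∧ y ∉ A ∧ E x y := fun x hx => by
    rw [mem_filter] at hx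
    obtain ⟨y, y1, y2⟩ := out_of hirr hx.1 (by omega)
    exact ⟨y, hx.1, y1, y2⟩
  have oB : ∀ x ∈ Aᶜ.filter (c ≤ deg E univ ·), ∃ y, x ∉ A ∧ y ∈ A ∧ E x y := fun x hx => by
    rw [mem_filter] at hx
    obtain ⟨y, y1, y2⟩ := out_of hirr hx.1 (by omega)
    exact ⟨y, mem_compl.1 hx.1, by simpa using y1, y2⟩
  obtain ⟨x, hx⟩ := card_pos.1 (by omega : 0 < (A.filter (c ≤ deg E univ ·)).card)
  obtain ⟨y, x1, x2, x3⟩ := oA x hx
  obtain ⟨b, hb, b0, -⟩ := pick2 h3 y y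
  obtain ⟨a, b1, b2, b3⟩ := oB b hb
  by_cases e1 : x = a
  swap
  · exact ⟨x, y, b, a, x1, x2, b1, b2, x3, b3, e1, b0.symm⟩
  obtain ⟨x', hx', z0, -⟩ := pick2 h1 a a
  obtain ⟨y', z1, z2, z3⟩ := oA x' hx'
  by_cases e2 : y' = b
  swap
  · exact ⟨x', y', b, a, z1, z2, b1, b2, z3, b3, z0, e2⟩
  obtain ⟨b', hb', w0, w0'⟩ := pick2 h3 y b
  obtain ⟨a', w1, w2, w3⟩ := oB b' hb'
  by_cases e3 : x = a'
  · exact ⟨x', y', b', a', z1, z2, w1, w2, z3, w3, e3 ▸ e1 ▸ z0, e2 ▸ w0'.symm⟩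
  · exact ⟨x, y, b', a', x1, x2, w1, w2, x3, w3, e3, w0.symm⟩

lemma fs_triv (C : Finset V) : fs (PS.triv E) ∅ C = C := by
  ext v
  exact mem_fs.trans ⟨fun h => h.1, fun h => ⟨h, mem_univ _, notMem_empty _⟩⟩

lemma Jn.flat {P : PS E} {R C : Finset V} {j : ℕ} (h : Jn (PS.triv E) P R C j) :
    (P.X ∩ R).card + j = R.card ∧ (P.X ∩ Rᶜ).card = Rᶜ.card ∧ (fs P ∅ C).card + j = C.card ∧
      (fs P ∅ Cᶜ).card = Cᶜ.card ∧ Fintype.card V ≤ P.X.card + j := by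
  have x1 := h.x1
  have x2 := congrArg card h.x2
  have s1 := h.s1
  have s2 := congrArg card h.s2
  rw [fs_triv] at s1 s2
  rw [show (PS.triv E).X = univ from rfl, univ_inter] at x1 x2
  have := card_split R P.X
  have := card_add_card_compl R
  omega

lemma keep_single {P : PS E} {v : V} (h : Keep (PS.triv E) P {v}) : P.St v ∧ P.e v = v :=
  have s := h v (mem_singleton_self _)
  ⟨(s.St v rfl).2 (mem_univ _), (s.e v).2 rfl⟩

lemma cross (hirr : ∀ v, ¬ E v v) {R C : Finset V} {c q l J0 : ℕ} (hc : Fintype.card V ≤ 2 * c)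
    (hq : 12 * l + 3 ≤ q) (hJ : 2 ≤ J0) (j1 : R.card ≤ C.card + J0) (j2 : C.card ≤ R.card + J0)
    (h1 : q ≤ (R.filter (c ≤ deg E univ ·)).card)
    (h2 : q ≤ (C.filter (c ≤ deg (flip E) univ ·)).card)
    (h3 : q ≤ (Rᶜ.filter (c ≤ deg E univ ·)).card)
    (h4 : q ≤ (Cᶜ.filter (c ≤ deg (flip E) univ ·)).card)
    (d1 : C.card < R.card → (∀ x ∈ R, deg E Cᶜ x ≤ l) ∧ ∀ y ∈ Cᶜ, deg (flip E) R y ≤ l)
    (d2 : R.card < C.card → (∀ x ∈ Rᶜ, deg E C x ≤ l) ∧ ∀ y ∈ C, deg (flip E) Rᶜ y ≤ l) :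
    ∃ P : PS E, Fintype.card V ≤ P.X.card + J0 ∧ (P.X ∩ R).card = (fs P ∅ C).card ∧
      ∃ b ∈ fs P ∅ C, P.e b ∉ R := by
  have n1 := card_add_card_compl R
  have n2 := card_add_card_compl C
  have e1 := card_sdiff_add_card_inter R C
  have e2 := card_sdiff_add_card_inter C R
  rw [inter_comm] at e2
  have sv : ∀ v, Sing (PS.triv E) {v} := fun v => sing_triv.mono (empty_subset _)
  have amp : ∀ δ m, 0 < δ → q * δ ≤ 2 * m → ∀ t, t ≤ 3 * δ → 2 * l * t < m := by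
    intro δ m a1 a2 t a3
    have : (12 * l + 3) * δ ≤ q * δ := Nat.mul_le_mul_right _ hq
    have : 2 * l * t ≤ 2 * l * (3 * δ) := Nat.mul_le_mul_left _ a3
    nlinarith
  rcases lt_trichotomy C.card R.card with h | h | h
  · obtain ⟨δ, hδ⟩ : ∃ δ, R.card = C.card + (δ + 1) := ⟨R.card - C.card - 1, by omega⟩
    have ge := amp (δ + 1) _ (by omega) (ecount_ge (E := E) (R := R) (C := Cᶜ) hc (by omega) h1 h4)
    obtain ⟨a1, a2⟩ := d1 h
    rcases (C \ R).eq_empty_or_nonempty with h0 | ⟨v, hv⟩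
    · rw [h0, card_empty] at e2
      obtain ⟨x, hx, y, hy, e, xU, yU⟩ := exists_arc a1 a2 (R \ C) (ge _ (by omega))
      obtain ⟨Q, q1, q2, q3⟩ := join_one hirr (PS.triv E) sing_triv hx hy e (by simp) (by simp)
      have yR : y ∉ R := fun e => yU (mem_sdiff.2 ⟨e, mem_compl.1 hy⟩)
      have xy : x ≠ y := fun e => yR (e ▸ hx)
      have yX : y ∈ Q.X := q1.mem xy.symm (mem_univ _)
      have c2 : (insert x (insert y (∅ : Finset V))).card ≤ 2 := card_le_two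
      obtain ⟨P, U, k1, -, -, -, k5⟩ := join_many hirr a1 a2 Q {y} _ (by simpa using yX) q3
        (by simp) δ (ge _ (by omega))
      have fl := (q2.trans k5).flat
      rw [compl_compl] at fl
      have s := k1 y (mem_singleton_self _)
      have ex : Q.e x = y := q1.e_eq rfl
      exact ⟨P, by omega, by omega, x, mem_fs.2 ⟨by_contra fun e => xU (mem_sdiff.2 ⟨hx, e⟩),
        (s.St x ex).2 ((q1.St x).2 ⟨mem_univ _, xy⟩), notMem_empty _⟩,
        by rw [(s.e x).2 ex]; exact yR⟩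
    · obtain ⟨P, U, k1, -, -, -, k5⟩ := join_many hirr a1 a2 (PS.triv E) {v} {v} (subset_univ _)
        (sv v) subset_rfl (δ + 1) (ge _ (by rw [card_singleton]; omega))
      have fl := k5.flat
      rw [compl_compl] at fl
      rw [mem_sdiff] at hv
      exact ⟨P, by omega, by omega, v, mem_fs.2 ⟨hv.1, (keep_single k1).1, notMem_empty _⟩,
        by rw [(keep_single k1).2]; exact hv.2⟩
  · rcases (C \ R).eq_empty_or_nonempty with h0 | ⟨v, hv⟩
    · obtain rfl : C = R := eq_of_subset_of_card_le (sdiff_eq_empty_iff_subset.1 h0) h.ge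
      obtain ⟨x, y, b, a, q1, q2, q3, q4, q5, q6, q7, q8⟩ := two_arcs (A := C) hirr hc (by omega)
        (by omega) (by omega) (by omega)
      have xy : x ≠ y := fun e => q2 (e ▸ q1)
      have xb : b ≠ x := fun e => q3 (e ▸ q1)
      have ay : a ≠ y := fun e => q2 (e ▸ q4)
      obtain ⟨Q, t1, t2, t3⟩ := join_one hirr (PS.triv E) sing_triv q1 (mem_compl.2 q2) q5
        (by simp) (by simp)
      have aU : a ∉ insert x (insert y (∅ : Finset V)) := by simp [q7.symm, ay]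
      obtain ⟨P, s1, s2, -⟩ := join_one hirr Q t3 (mem_compl.2 q3) q4 q6 (by simp [xb, q8.symm]) aU
      have fl := t2.flat
      have a1 := s2.x1
      have a2 := congrArg card s2.x2
      have a3 := s2.s1
      rw [compl_compl] at fl a2
      have := card_split C P.X
      have ex : Q.e x = y := t1.e_eq rfl
      exact ⟨P, by omega, by omega, x, mem_fs.2 ⟨q1, (s1.St x).2 ⟨(t1.St x).2 ⟨mem_univ _, xy⟩, q7⟩,
        notMem_empty _⟩, by rw [s1.e_ne (by rw [ex]; exact q8), ex]; exact q2⟩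
    · rw [mem_sdiff] at hv
      exact ⟨PS.triv E, Nat.le_add_right_of_le (card_univ (α := V)).ge,
        by rw [fs_triv, show (PS.triv E).X = univ from rfl, univ_inter, h], v,
        by rw [fs_triv]; exact hv.1, hv.2⟩
  · obtain ⟨δ, hδ⟩ : ∃ δ, C.card = R.card + (δ + 1) := ⟨C.card - R.card - 1, by omega⟩
    have ge := amp (δ + 1) _ (by omega) (ecount_ge (E := E) (R := Rᶜ) (C := C) hc (by omega) h3 h2)
    obtain ⟨a1, a2⟩ := d2 h
    obtain ⟨v, hv⟩ : (C \ R).Nonempty := card_pos.1 (by omega)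
    obtain ⟨P, U, k1, -, -, -, k5⟩ := join_many hirr a1 a2 (PS.triv E) {v} {v} (subset_univ _)
      (sv v) subset_rfl (δ + 1) (ge _ (by rw [card_singleton]; omega))
    have fl := k5.flat
    rw [compl_compl] at fl
    rw [mem_sdiff] at hv
    exact ⟨P, by omega, by omega, v, mem_fs.2 ⟨hv.1, (keep_single k1).1, notMem_empty _⟩,
      by rw [(keep_single k1).2]; exact hv.2⟩

end Pool.Agent.Lib.MP_c8ddae_co
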