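import Pool.Agent.Lib.MP_c8ddae_co.H8Ext2

set_option autoImplicit false
open Finset

namespace Pool.Agent.Lib.MP_c8ddae_co

variable {V : Type} [Fintype V] [DecidableEq V] {E : V → V → Prop}

lemma PosC.high_in {ρ : V → V → Prop} {c s : ℕ} (h : PosC ρ c s) (hs : s ≤ c) (T : Finset V) :
    T.card + s ≤ (T.filter (c ≤ deg ρ univ ·)).card + c := by
  have h1 := h.card_low hs
  have h2 := card_filter_add_card_filter_not (s := T) (c ≤ deg ρ univ ·)
  have h3 : (T.filter fun x => ¬ c ≤ deg ρ univ x).card ≤ (univ.filter (deg ρ univ · < c)).card :=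
    card_le_card fun x hx => mem_filter.2 ⟨mem_univ _, not_le.1 (mem_filter.1 hx).2⟩
  omega

lemma side_sizes {ρ : V → V → Prop} {c s η : ℕ} (hp : PosC (flip ρ) c s) (hs : s ≤ c)
    (hc : Fintype.card V ≤ 2 * c) (hη : 0 < η) (hsη : 61 * η ≤ s) {S T R : Finset V}
    (hS : S.card + η = c) (hT : T.card + η = c) (he : ecount ρ S T ≤ 20 * η * η)
    (hR : ∀ x, x ∈ R ↔ deg ρ T x < 20 * η) : (S \ R).card ≤ η ∧ (R \ S).card ≤ 2 * η := by
  constructor
  · have := markov ρ S T (S \ R) (20 * η) sdiff_subset fun x hx =>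
      not_lt.1 fun e => (mem_sdiff.1 hx).2 ((hR x).2 e)
    exact Nat.le_of_mul_le_mul_right (by nlinarith) (by omega : 0 < 20 * η)
  · by_contra hn
    obtain ⟨ζ, hζ⟩ : ∃ ζ, (R \ S).card = ζ + η := ⟨(R \ S).card - η, by omega⟩
    have h1 := hp.high_in hs T
    have cu : (S ∪ (R \ S)).card = S.card + (R \ S).card := card_union_of_disjoint disjoint_sdiff
    have h2 := markov (flip ρ) T (S ∪ (R \ S)) _ ζ (filter_subset (c ≤ deg (flip ρ) univ ·) T)
      fun y hy => by
        have := (mem_filter.1 hy).2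
        have := deg_le_compl (flip ρ) (S ∪ (R \ S)) y
        omega
    rw [ecount_flip, ecount_sum, sum_union disjoint_sdiff, ← ecount_sum] at h2
    have h3 : ∑ x ∈ R \ S, deg ρ T x ≤ (R \ S).card * (20 * η) :=
      sum_le_card_nsmul _ _ _ fun x hx => ((hR x).1 (mem_sdiff.1 hx).1).le
    have h4 : 60 * η * ζ ≤ (T.filter (c ≤ deg (flip ρ) univ ·)).card * ζ :=
      Nat.mul_le_mul_right _ (by omega)
    rw [hζ] at h3
    have h5 : η * (η + 1) ≤ η * ζ := Nat.mul_le_mul_left _ (by omega)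
    nlinarith

lemma deg_split (ρ : V → V → Prop) (D : Finset V) (x : V) :
    deg ρ univ x ≤ deg ρ D x + deg ρ Dᶜ x := by
  classical
  rw [deg_eq, deg_eq, deg_eq]
  refine le_trans (card_le_card fun v hv => ?_) (card_union_le _ _)
  by_cases h : v ∈ D
  · exact mem_union_left _ (mem_filter.2 ⟨h, (mem_filter.1 hv).2⟩)
  · exact mem_union_right _ (mem_filter.2 ⟨mem_compl.2 h, (mem_filter.1 hv).2⟩)

lemma half0 {ρ : V → V → Prop} {c s η σ : ℕ} (hp : PosC ρ c s) (hs : s ≤ c)
    (hc : Fintype.card V ≤ 2 * c) (hη : 0 < η) (hsη : σ + 44 * η ≤ s) {S T R D : Finset V}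
    (hS : S.card + η = c) (hT : T.card + η = c) (he : ecount ρ S T ≤ 20 * η * η)
    (hR : ∀ x, x ∈ R ↔ deg ρ T x < 20 * η) (hD : ∀ y, y ∈ D ↔ deg (flip ρ) S y < 20 * η)
    (a1 : (S \ R).card ≤ η) (a2 : (R \ S).card ≤ 2 * η) (a3 : (T \ D).card ≤ η)
    (a4 : (D \ T).card ≤ 2 * η) : ∃ H, Half ρ R Dᶜ H (5 * η) (19 * η) σ := by
  refine ⟨R.filter fun x => Dᶜ.card ≤ deg ρ Dᶜ x + 5 * η, filter_subset _ _,
    fun x hx => (mem_filter.1 hx).2, fun k hk => ?_, fun y hy => ?_⟩
  · set H := R.filter fun x => Dᶜ.card ≤ deg ρ Dᶜ x + 5 * η with hH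
    by_cases hk' : k + 22 * η < c
    · have hsub : (R \ H).filter (deg ρ Dᶜ · ≤ k) ⊆ univ.filter (deg ρ univ · ≤ k + 22 * η) := by
        intro x hx
        rw [mem_filter, mem_sdiff] at hx
        have := deg_split ρ D x
        have := deg_le_add ρ D T x
        have := (hR x).1 hx.1.1
        exact mem_filter.2 ⟨mem_univ _, by omega⟩
      have := hp _ hk' (hk.mono hsub)
      have := card_le_card hsub
      omega
    · have b1 := hp.high_in hs S
      have b2 := card_filter_add_card_filter_not (s := S.filter (c ≤ deg ρ univ ·))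
        (deg ρ T · ≤ η)
      have b3 := markov ρ S T ((S.filter (c ≤ deg ρ univ ·)).filter fun x => ¬ deg ρ T x ≤ η) η
        ((filter_subset _ _).trans (filter_subset _ _)) fun x hx =>
          (not_le.1 (mem_filter.1 hx).2).le
      have b4 := Nat.le_of_mul_le_mul_right (b3.trans he) hη
      have b5 : ((S.filter (c ≤ deg ρ univ ·)).filter (deg ρ T · ≤ η)).card ≤ H.card := by
        refine card_le_card fun x hx => ?_
        simp only [mem_filter] at hx
        have := deg_split ρ D x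
        have := deg_le_add ρ D T x
        have := card_add_card_compl D
        have := le_card_sdiff D T
        exact mem_filter.2 ⟨(hR x).2 (by omega), by omega⟩
      have b6 : (R \ H).card + H.card = R.card :=
        card_sdiff_add_card_eq_card (filter_subset _ _)
      have b7 := le_card_sdiff S R
      have b8 := card_filter_le (R \ H) (deg ρ Dᶜ · ≤ k)
      omega
  · have := (hD y).not.1 (mem_compl.1 hy)
    have := deg_le_add (flip ρ) S R y
    omega

lemma Half.move {ρ : V → V → Prop} {R C H R' C' : Finset V} {μ θ σ σ' j l : ℕ}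
    (h : Half ρ R C H μ θ σ) (h1 : R ⊆ R') (h2 : C' ⊆ C) (h3 : (R' \ R).card ≤ j)
    (h4 : (C \ C').card ≤ j) (h5 : ∀ x ∈ R' \ R, l ≤ deg ρ C x) (h6 : σ' + 2 * j ≤ σ)
    (h7 : σ' + 2 * j ≤ l) : Half ρ R' C' H μ θ σ' := by
  refine ⟨h.sub.trans h1, fun x hx => ?_, fun k hk => ?_,
    fun y hy => (h.col y (h2 hy)).trans (deg_mono _ h1 y)⟩
  · have := h.hi x hx
    have := deg_le_add ρ C C' x
    have := card_sdiff_add_card_eq_card h2
    omega
  · set S := (R' \ H).filter (deg ρ C' · ≤ k) with hS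
    have e1 := card_sdiff_add_card_inter S R
    have e2 : (S \ R).card ≤ (R' \ R).card := card_le_card (sdiff_subset_sdiff
      ((filter_subset _ _).trans sdiff_subset) subset_rfl)
    rcases (S ∩ R).eq_empty_or_nonempty with h0 | h0
    · obtain ⟨x, hx⟩ := hk
      have xR : x ∉ R := fun e => by
        have : x ∈ S ∩ R := mem_inter.2 ⟨hx, e⟩
        rw [h0] at this; simp at this
      rw [hS, mem_filter, mem_sdiff] at hx
      have := h5 x (mem_sdiff.2 ⟨hx.1.1, xR⟩)
      have := deg_le_add ρ C C' x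
      rw [h0, card_empty] at e1
      omega
    · obtain ⟨x, hx, h8⟩ := h.big (S ∩ R) (fun v hv => by
        rw [mem_inter, hS, mem_filter, mem_sdiff] at hv
        exact mem_sdiff.2 ⟨hv.2, hv.1.1.2⟩) h0
      have := (mem_filter.1 (mem_inter.1 hx).1).2
      have := deg_le_add ρ C C' x
      omega

lemma choose_two (A B : Finset V) (d : ℕ) : ∃ A' ⊆ A, ∃ B' ⊆ B, A'.card + B'.card ≤ d ∧
    (A'.card + B'.card < d → A' = A ∧ B' = B) := by
  obtain ⟨A', a1, a2⟩ := exists_subset_card_eq (min_le_left A.card d)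
  obtain ⟨B', b1, b2⟩ := exists_subset_card_eq (min_le_left B.card (d - A'.card))
  exact ⟨A', a1, B', b1, by omega, fun h => ⟨eq_of_subset_of_card_le a1 (by omega),
    eq_of_subset_of_card_le b1 (by omega)⟩⟩

theorem ham_ext (hirr : ∀ v, ¬ E v v) {c s η u J K r s0 : ℕ} (hp : PosC E c s)
    (hp' : PosC (flip E) c s) (hs : s ≤ c) (hc : Fintype.card V ≤ 2 * c)
    (hc' : 2 * c ≤ Fintype.card V + 1) (hη : 0 < η) (hsη : 300 * η ≤ s) {S T : Finset V}
    (hS : S.card + η = c) (hT : T.card + η = c) (he : ecount E S T ≤ 20 * η * η) (hu : u ≤ η)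
    (hJ : Fintype.card V < J * (6 * η))
    (hK : (Fintype.card V : ℝ) ^ 2 * (1 - (4 * η : ℕ) / (Fintype.card V : ℕ)) ^ K < 1)
    (hr : Fintype.card V < r * (3 * η)) (hru : 1 + (2 * r + 3) * ((K + 1) * (2 * J + 4)) ≤ u)
    (hs0 : ∀ e, e * (e + 1) ≤ 4 * Fintype.card V + 6 → 2 * e + 2 ≤ s0) (hs1 : s0 ≤ η) :
    Ham E := by
  have he' : ecount (flip E) T S ≤ 20 * η * η := by rw [ecount_flip]; exact he
  obtain ⟨R, hR⟩ : ∃ R : Finset V, ∀ x, x ∈ R ↔ deg E T x < 20 * η :=
    ⟨univ.filter (deg E T · < 20 * η), by simp⟩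
  obtain ⟨D, hD⟩ : ∃ D : Finset V, ∀ x, x ∈ D ↔ deg (flip E) S x < 20 * η :=
    ⟨univ.filter (deg (flip E) S · < 20 * η), by simp⟩
  obtain ⟨a1, a2⟩ := side_sizes hp' hs hc hη (by omega) hS hT he hR
  obtain ⟨a3, a4⟩ := side_sizes (ρ := flip E) hp hs hc hη (by omega) hT hS he' hD
  obtain ⟨H1, h1⟩ := half0 (σ := 22 * η) hp hs hc hη (by omega) hS hT he hR hD a1 a2 a3 a4
  obtain ⟨H2, h2⟩ := half0 (σ := 22 * η) hp' hs hc hη (by omega) hT hS he' hD hR a3 a4 a1 a2
  have b1 := le_card_sdiff S R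
  have b2 := le_card_sdiff R S
  have b3 := le_card_sdiff T D
  have b4 := le_card_sdiff D T
  obtain ⟨A, sA, B, sB, c1, c2⟩ := choose_two (Rᶜ.filter (22 * η ≤ deg E Dᶜ ·))
    (Dᶜ.filter (22 * η ≤ deg (flip E) Rᶜ ·)) (Fintype.card V - (R.card + D.card))
  have dA : Disjoint R A := disjoint_left.2 fun v h1 h2 => mem_compl.1 (mem_filter.1 (sA h2)).1 h1
  have dB : Disjoint D B := disjoint_left.2 fun v h1 h2 => mem_compl.1 (mem_filter.1 (sB h2)).1 h1
  have k1 := card_union_of_disjoint dA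
  have k2 := card_union_of_disjoint dB
  have u1 : (R ∪ A) \ R = A := union_sdiff_cancel_left dA
  have u2 : (D ∪ B) \ D = B := union_sdiff_cancel_left dB
  have u3 : ∀ X Y : Finset V, (Xᶜ \ (X ∪ Y)ᶜ).card ≤ Y.card := fun X Y =>
    card_le_card fun v => by simp only [mem_sdiff, mem_compl, mem_union]; tauto
  have m1 := h1.move (σ' := 14 * η) (j := 4 * η) (l := 22 * η) (subset_union_left (s₂ := A))
    (compl_subset_compl.2 (subset_union_left (s₂ := B))) (by rw [u1]; omega)
    ((u3 _ _).trans (by omega)) (by rw [u1]; exact fun x hx => (mem_filter.1 (sA hx)).2)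
    (by omega) (by omega)
  have m2 := h2.move (σ' := 14 * η) (j := 4 * η) (l := 22 * η) (subset_union_left (s₂ := B))
    (compl_subset_compl.2 (subset_union_left (s₂ := A))) (by rw [u2]; omega)
    ((u3 _ _).trans (by omega)) (by rw [u2]; exact fun x hx => (mem_filter.1 (sB hx)).2)
    (by omega) (by omega)
  have n1 := card_add_card_compl (R ∪ A)
  have n2 := card_add_card_compl (D ∪ B)
  have q1 := hp.high_in hs (R ∪ A)
  have q2 := hp'.high_in hs (D ∪ B)ᶜ
  have q3 := hp.high_in hs (R ∪ A)ᶜ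
  have q4 := hp'.high_in hs (D ∪ B)
  obtain ⟨P, p1, p2, b, p3, p4⟩ := cross (R := R ∪ A) (C := (D ∪ B)ᶜ) (q := 290 * η) (l := 22 * η)
    (J0 := 4 * η) hirr hc (by omega) (by omega) (by omega) (by omega) (by omega) (by omega)
    (by omega) (by rw [compl_compl]; omega) (fun h => by
      obtain rfl : A = ∅ := card_eq_zero.1 (by omega)
      obtain rfl : B = ∅ := card_eq_zero.1 (by omega)
      rw [compl_compl, union_empty, union_empty]
      refine ⟨fun x hx => ?_, fun y hy => ?_⟩
      · have := (hR x).1 hx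
        have := deg_le_add E D T x
        omega
      · have := (hD y).1 hy
        have := deg_le_add (flip E) R S y
        omega) (fun h => by
      obtain ⟨rfl, rfl⟩ := c2 (by omega)
      refine ⟨fun x hx => ?_, fun y hy => ?_⟩
      · simp only [mem_compl, mem_union, mem_filter, not_or, not_and, not_le] at hx
        exact (deg_mono _ (compl_subset_compl.2 subset_union_left) x).trans (hx.2 hx.1).le
      · simp only [mem_compl, mem_union, mem_filter, not_or, not_and, not_le] at hy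
        exact (deg_mono _ (compl_subset_compl.2 subset_union_left) y).trans (hy.2 hy.1).le)
  exact ham_cross P p1 p2 p3 p4 m1 (by rw [compl_compl]; exact m2) (by omega) (by omega)
    (by omega) hu hJ hK hr hru hs0 hs1

lemma ecount_mono (ρ : V → V → Prop) {S T S' T' : Finset V} (h1 : S ⊆ S') (h2 : T ⊆ T') :
    ecount ρ S T ≤ ecount ρ S' T' := by
  classical
  rw [ecount_eq, ecount_eq]
  exact card_le_card (filter_subset_filter _ (product_subset_product h1 h2))

end Pool.Agent.Lib.MP_c8ddae_co
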