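import Pool.Agent.Lib.MP_c8ddae_co.H8Slack

set_option autoImplicit false
open Finset

namespace Pool.Agent.Lib.MP_c8ddae_co

variable {V : Type} [Fintype V] [DecidableEq V] {E : V → V → Prop}

/-- start of the path through `v` -/
noncomputable def PS.st (P : PS E) (v : V) : V := (P.exists_start v).choose

lemma PS.st_St (P : PS E) (v : V) : P.St (P.st v) := (P.exists_start v).choose_spec.1
lemma PS.e_st (P : PS E) (v : V) : P.e (P.st v) = P.e v := (P.exists_start v).choose_spec.2

/-- the digraph obtained by contracting every path -/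
def PS.con (P : PS E) (x y : P.X) : Prop := x ≠ y ∧ E x (P.st y)

lemma PS.e_st' (P : PS E) (x : P.X) : P.e (P.st x) = x := by
  rw [P.e_st, P.e_self _ x.2]

lemma PS.st_inj (P : PS E) : Function.Injective fun x : P.X => P.st x := by
  intro x y h
  apply Subtype.ext
  rw [← P.e_st' x, ← P.e_st' y]
  exact congrArg P.e h

lemma PS.lift (P : PS E) (h : Ham P.con) : Ham E := by
  classical
  obtain ⟨τ, x0, ht, h1, h2⟩ := h
  set f : V → V := fun v => if hv : v ∈ P.X then P.st (τ ⟨v, hv⟩) else P.F v with hf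
  have hinj : Function.Injective f := by
    intro u v huv
    simp only [hf] at huv
    split_ifs at huv with hu hv hv
    · have := τ.injective (P.st_inj huv)
      exact congrArg Subtype.val this
    · exact absurd (huv ▸ P.st_St _) (P.not_St_F hv)
    · exact absurd (huv.symm ▸ P.st_St _) (P.not_St_F hu)
    · exact P.F.injective huv
  refine ⟨Equiv.ofBijective f (Finite.injective_iff_bijective.1 hinj), x0,
    fun v => P.d v + Fintype.card V * ht ⟨P.e v, P.e_mem v⟩, fun v => ?_, fun v hv => ?_⟩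
  · show E v (f v)
    simp only [hf]
    split_ifs with h
    · exact (h1 ⟨v, h⟩).2
    · exact P.real v h
  · show P.d (f v) + Fintype.card V * ht ⟨P.e (f v), P.e_mem _⟩ <
      P.d v + Fintype.card V * ht ⟨P.e v, P.e_mem _⟩
    by_cases h : v ∈ P.X
    · have e1 : f v = P.st (τ ⟨v, h⟩) := by simp only [hf, dif_pos h]
      have e2 : (⟨P.e (f v), P.e_mem _⟩ : P.X) = τ ⟨v, h⟩ :=
        Subtype.ext (by rw [e1]; exact P.e_st' _)
      have e3 : (⟨P.e v, P.e_mem _⟩ : P.X) = ⟨v, h⟩ := Subtype.ext (P.e_self v h)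
      rw [e2, e3]
      have h3 := h2 ⟨v, h⟩ (fun e => hv (congrArg Subtype.val e))
      have h4 := P.d_lt (f v)
      nlinarith
    · have e1 : f v = P.F v := by simp only [hf, dif_neg h]
      have e2 : (⟨P.e (f v), P.e_mem _⟩ : P.X) = ⟨P.e v, P.e_mem _⟩ :=
        Subtype.ext (by rw [e1]; exact P.e_step v h)
      rw [e2, e1]
      have := P.d_step v h
      omega

lemma PS.deg_con (P : PS E) (B : Finset V) (hB : ∀ v ∈ B, P.St v) (x : P.X) :
    deg E B x ≤ deg P.con univ x + 1 := by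
  classical
  rw [deg_eq, deg_eq]
  refine le_trans (card_le_card_of_injOn (t := insert x (univ.filter (P.con x)))
    (fun v => ⟨P.e v, P.e_mem v⟩) (fun v hv => ?_) (fun u hu v hv h => ?_)) (card_insert_le _ _)
  · rw [mem_coe, mem_filter] at hv
    rw [mem_coe, mem_insert, mem_filter]
    by_cases h : x = ⟨P.e v, P.e_mem v⟩
    · exact Or.inl h.symm
    · refine Or.inr ⟨mem_univ _, h, ?_⟩
      have : P.st (P.e v) = v := P.start_unique (P.st_St _) (hB v hv.1)
        (by rw [P.e_st, P.e_self _ (P.e_mem v)])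
      show E x (P.st (P.e v))
      rw [this]; exact hv.2
  · rw [mem_coe, mem_filter] at hu hv
    exact P.start_unique (hB u hu.1) (hB v hv.1) (congrArg Subtype.val h)

lemma PS.deg_con' (P : PS E) (A : Finset V) (hA : A ⊆ P.X) (y : P.X) :
    deg (flip E) A (P.st y) ≤ deg (flip P.con) univ y + 1 := by
  classical
  rw [deg_eq', deg_eq']
  refine le_trans (card_le_card_of_injOn (t := insert y (univ.filter (P.con · y)))
    (fun v => ⟨P.e v, P.e_mem v⟩) (fun v hv => ?_) (fun u hu v hv h => ?_)) (card_insert_le _ _)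
  · rw [mem_coe, mem_filter] at hv
    rw [mem_coe, mem_insert, mem_filter]
    by_cases h : (⟨P.e v, P.e_mem v⟩ : P.X) = y
    · exact Or.inl h
    · refine Or.inr ⟨mem_univ _, h, ?_⟩
      show E (P.e v) _
      rw [P.e_self v (hA hv.1)]; exact hv.2
  · rw [mem_coe, mem_filter] at hu hv
    have := congrArg Subtype.val h
    simp only at this
    rwa [P.e_self u (hA hu.1), P.e_self v (hA hv.1)] at this

/-- Posa-type condition with slack function `φ` below the cap `c` -/
def PosF (ρ : V → V → Prop) (c : ℕ) (φ : ℕ → ℕ) : Prop :=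
  ∀ k < c, (univ.filter (deg ρ univ · ≤ k)).Nonempty →
    (univ.filter (deg ρ univ · ≤ k)).card + φ k ≤ k

lemma PosF.pos {ρ : V → V → Prop} {c : ℕ} {φ : ℕ → ℕ} (h : PosF ρ c φ) :
    Pos (univ.filter (deg ρ univ · < c) ∩ univ) (deg ρ univ) (fun k => φ (min k (c - 1))) 0 0 := by
  intro k hk
  obtain ⟨x, hx⟩ := hk
  have hsub : (univ.filter (deg ρ univ · < c) ∩ univ).filter (deg ρ univ · ≤ k) ⊆
      univ.filter (deg ρ univ · ≤ min k (c - 1)) := by
    intro v hv
    simp only [mem_filter, mem_inter, mem_univ, true_and, and_true] at hv ⊢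
    omega
  have hc : 0 < c := by
    simp only [mem_filter, mem_inter, mem_univ, true_and, and_true] at hx
    omega
  have h1 := h (min k (c - 1)) (by omega) ⟨x, hsub hx⟩
  have h2 := card_le_card hsub
  simp only [add_zero]
  omega

lemma posC_transfer {W : Type} [Fintype W] [DecidableEq W] (ρ : V → V → Prop) (ρ' : W → W → Prop)
    (f : W → V) (hf : Function.Injective f) (A B : Finset V) (hA : ∀ w, f w ∈ A) (c J a b : ℕ)
    (hB : Bᶜ.card ≤ J) (hdeg : ∀ w, deg ρ B (f w) ≤ deg ρ' univ w + 1)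
    (h : ∀ k, ((univ.filter (deg ρ univ · < c) ∩ A).filter (deg ρ B · ≤ k)).Nonempty →
      ((univ.filter (deg ρ univ · < c) ∩ A).filter (deg ρ B · ≤ k)).card + a ≤ k + b)
    {c' s' : ℕ} (hc : c' + J + 1 ≤ c) (hs : s' + b + 1 ≤ a) : PosC ρ' c' s' := by
  intro k hk hne
  have hmap : ∀ w ∈ univ.filter (deg ρ' univ · ≤ k),
      f w ∈ (univ.filter (deg ρ univ · < c) ∩ A).filter (deg ρ B · ≤ k + 1) := by
    intro w hw
    have h1 := hdeg w
    have h2 := deg_le_add ρ univ B (f w)
    rw [← compl_eq_univ_sdiff] at h2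
    simp only [mem_filter, mem_inter, mem_univ, true_and] at hw ⊢
    exact ⟨⟨by omega, hA w⟩, by omega⟩
  obtain ⟨w, hw⟩ := hne
  have h1 := h (k + 1) ⟨f w, hmap w hw⟩
  have h2 := card_le_card_of_injOn f (fun w hw => mem_coe.2 (hmap w (mem_coe.1 hw))) hf.injOn
  omega

theorem ham_rel [Nonempty V] {c s σ u J K r s0 t e0 : ℕ} {φ : ℕ → ℕ} (hmono : Monotone φ)
    (h : PosF E c φ) (h' : PosF (flip E) c φ)
    (hφ : ∀ t e, e * (e + 1) ≤ 4 * t + 2 → 2 * e + 2 ≤ φ t)
    (he0 : ∀ e, e * (e + 1) ≤ 4 * t → e ≤ e0) (hst : s + 2 * e0 + 1 ≤ φ t)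
    (hcap : Fintype.card V + 2 * σ + (2 * t + e0 + 2) ≤ 2 * c) (hσt : 2 * t + e0 + 2 ≤ 2 * σ)
    (hJ : 2 * Fintype.card V < J * s) (hu : 2 * u < s) (hsσ : s ≤ σ)
    (hK : (Fintype.card V : ℝ) ^ 2 * (1 - σ / (Fintype.card V : ℕ)) ^ K < 1)
    (hr : Fintype.card V ≤ (r + 1) * σ) (hru : (r + 1) * ((K + 1) * (2 * J + 6)) ≤ u)
    (hs0 : ∀ e, e * (e + 1) ≤ 4 * Fintype.card V + 6 → 2 * e + 2 ≤ s0)
    (hs : s0 + (u + (r + 1)) ≤ s) : Ham E := by
  classical
  have htc : t ≤ c - 1 := by omega
  obtain ⟨P, A, B, Jn, e, -, bk, hJn, he, -, -, hR, hC⟩ := greedy E (fun _ _ h => h) (PS.triv E)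
    univ univ (univ.filter (deg E univ · < c)) (univ.filter (deg (flip E) univ · < c))
    subset_rfl (fun _ _ => mem_univ _) (fun _ => True) (fun _ _ _ _ _ _ _ _ _ _ _ _ => trivial)
    (fun k => φ (min k (c - 1))) (fun a b hab => hmono (min_le_min_right _ hab)) t
    (fun t' e ht' he => by
      have := hφ t' e he
      rwa [min_eq_left (by omega)]) trivial h.pos h'.pos
  simp only [min_eq_left htc] at hR hC
  have he' := he0 e he
  have hX : ∀ v, v ∈ P.X ↔ v ∈ A := fun v =>
    (bk.X v).trans ⟨fun h => h.2 (mem_univ _), fun h => ⟨mem_univ _, fun _ => h⟩⟩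
  have hS : ∀ v, P.St v ↔ v ∈ B := fun v =>
    (bk.St v).trans ⟨fun h => h.2 (mem_univ _), fun h => ⟨mem_univ _, fun _ => h⟩⟩
  have cA := bk.cardA
  have cB := bk.cardB
  rw [card_univ] at cA cB
  have cX : Fintype.card P.X = A.card := by
    rw [Fintype.card_coe]; congr 1; ext v; exact hX v
  haveI : Nonempty P.X := ⟨⟨P.e (Classical.arbitrary V), P.e_mem _⟩⟩
  have p1 : PosC P.con (c - Jn - 1) s := posC_transfer E P.con (fun x : P.X => x.1)
    Subtype.val_injective A B (fun w => (hX _).1 w.2) c Jn _ _ (by rw [card_compl]; omega)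
    (P.deg_con B fun v hv => (hS v).2 hv) hR (by omega) (by omega)
  have p2 : PosC (flip P.con) (c - Jn - 1) s := posC_transfer (flip E) (flip P.con)
    (fun x : P.X => P.st x) P.st_inj B A (fun w => (hS _).1 (P.st_St _)) c Jn _ _
    (by rw [card_compl]; omega) (P.deg_con' A fun v hv => (hX v).2 hv) hC (by omega) (by omega)
  exact P.lift (ham_slack (fun v h => h.1 rfl) (N := Fintype.card V) (by omega) p1 p2
    (by omega) hJ hu hsσ hK hr hru hs0 hs)

lemma Ham.enum (h : Ham E) : ∃ f : Fin (Fintype.card V) ≃ V,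
    ∀ i j : Fin (Fintype.card V), j.val = (i.val + 1) % Fintype.card V → E (f i) (f j) := by
  obtain ⟨F, x, ht, h1, h2⟩ := h
  have reach : ∀ m v, ht v = m → ∃ j, F^[j] v = x := by
    intro m
    induction m using Nat.strong_induction_on with
    | _ m ih =>
      intro v hv
      by_cases hx : v = x
      · exact ⟨0, hx⟩
      · obtain ⟨j, hj⟩ := ih _ (hv ▸ h2 v hx) (F v) rfl
        exact ⟨j + 1, hj⟩
  have hper : ∀ v, v ∈ Function.periodicPts F := fun v =>
    Function.mk_mem_periodicPts (orderOf_pos F) (by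
      show F^[orderOf F] v = v
      rw [← Equiv.Perm.coe_pow, pow_orderOf_eq_one]; rfl)
  set m := Function.minimalPeriod F x with hm
  have hpos : 0 < m := Function.minimalPeriod_pos_of_mem_periodicPts (hper x)
  have hbij : Function.Bijective fun i : Fin m => F^[i.val] x := by
    constructor
    · intro i j hij
      exact Fin.ext (Function.iterate_injOn_Iio_minimalPeriod i.2 j.2 hij)
    · intro v
      obtain ⟨j, hj⟩ := reach _ v rfl
      obtain ⟨p, hp, hv⟩ := hper v
      have h3 : F^[p * (j + 1) - j] x = v := by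
        rw [← hj, ← Function.iterate_add_apply, Nat.sub_add_cancel (by nlinarith)]
        exact hv.mul_const (j + 1)
      exact ⟨⟨(p * (j + 1) - j) % m, Nat.mod_lt _ hpos⟩, by
        show F^[_ % m] x = v
        rw [hm, Function.iterate_mod_minimalPeriod_eq, h3]⟩
  have hcard : Fintype.card V = m := by
    rw [← Fintype.card_of_bijective hbij, Fintype.card_fin]
  rw [hcard]
  refine ⟨Equiv.ofBijective _ hbij, fun i j hij => ?_⟩
  show E (F^[i.val] x) (F^[j.val] x)
  have h3 : F^[(i.val + 1) % m] x = F^[i.val + 1] x := Function.iterate_mod_minimalPeriod_eq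
  rw [hij, h3, Function.iterate_succ_apply']
  exact h1 _

end Pool.Agent.Lib.MP_c8ddae_co
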