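import Pool.Agent.Lib.MP_c8ddae_co.H8Exch
import Pool.Agent.Lib.MP_c8ddae_co.H8Rel

set_option autoImplicit false
open Finset

namespace Pool.Agent.Lib.MP_c8ddae_co

variable {V : Type} [Fintype V] [DecidableEq V] {E : V → V → Prop}

open Classical in
/-- number of arcs from `S` to `T` -/
noncomputable def ecount (ρ : V → V → Prop) (S T : Finset V) : ℕ :=
  ((S ×ˢ T).filter fun p => ρ p.1 p.2).card

lemma ecount_eq (ρ : V → V → Prop) (S T : Finset V) [∀ a b, Decidable (ρ a b)] :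
    ecount ρ S T = ((S ×ˢ T).filter fun p => ρ p.1 p.2).card := by
  unfold ecount; congr

lemma ecount_sum (ρ : V → V → Prop) (S T : Finset V) :
    ecount ρ S T = ∑ x ∈ S, deg ρ T x := by
  classical
  rw [ecount_eq, card_filter, sum_product]
  refine sum_congr rfl fun x _ => ?_
  rw [deg_eq, card_filter]

lemma ecount_sum' (ρ : V → V → Prop) (S T : Finset V) :
    ecount ρ S T = ∑ y ∈ T, deg (flip ρ) S y := by
  classical
  rw [ecount_eq, card_filter, sum_product_right]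
  refine sum_congr rfl fun x _ => ?_
  rw [deg_eq', card_filter]

lemma popular (A : Finset V) (r : V → V → Prop) (c : ℕ) (h : ∀ a ∈ A, c ≤ deg r univ a) :
    A.card * c ≤ A.card * (univ.filter fun w => 4 ≤ deg (flip r) A w).card +
      3 * Fintype.card V := by
  have h1 : A.card * c ≤ ecount r A univ := by
    rw [ecount_sum]; simpa using card_nsmul_le_sum A _ c h
  rw [ecount_sum', ← sum_filter_add_sum_filter_not univ (fun w => 4 ≤ deg (flip r) A w)] at h1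
  have h2 := sum_le_card_nsmul (univ.filter fun w => 4 ≤ deg (flip r) A w) (deg (flip r) A) A.card
    fun w _ => deg_le_card _ _ _
  have h3 := sum_le_card_nsmul (univ.filter fun w => ¬ 4 ≤ deg (flip r) A w) (deg (flip r) A) 3
    fun w hw => by have := (mem_filter.1 hw).2; omega
  have h4 := card_le_univ (univ.filter fun w => ¬ 4 ≤ deg (flip r) A w)
  simp only [smul_eq_mul] at h2 h3
  nlinarith

lemma pick3 (ρ : V → V → Prop) (A : Finset V) (w : V) (h : 4 ≤ deg ρ A w) (p q r : V) :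
    ∃ a ∈ A, ρ w a ∧ a ≠ p ∧ a ≠ q ∧ a ≠ r := by
  obtain ⟨a, h1, h2, h3⟩ := exists_of_lt_deg ρ A {p, q, r} w (lt_of_le_of_lt card_le_three h)
  exact ⟨a, h1, h2, by simpa using h3⟩

lemma crossing (S : Finset (V × V)) (d : V → ℕ) (hS : 2 * Fintype.card V < S.card)
    (h1 : ∀ p ∈ S, ∀ q ∈ S, p.2 = q.2 → d p.1 = d q.1 → p.1 = q.1)
    (h2 : ∀ p ∈ S, ∀ q ∈ S, p.1 = q.1 → d p.2 = d q.2 → p.2 = q.2) :
    ∃ w w1 w2 w3, (w, w2) ∈ S ∧ (w1, w2) ∈ S ∧ (w, w3) ∈ S ∧ d w1 < d w ∧ d w2 < d w3 := by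
  classical
  by_contra hc
  push Not at hc
  set S1 := S.filter fun p => ∀ w1, (w1, p.2) ∈ S → d p.1 ≤ d w1 with hS1
  set S2 := S.filter fun p => ∀ w3, (p.1, w3) ∈ S → d w3 ≤ d p.2 with hS2
  have c1 : S1.card ≤ Fintype.card V := by
    refine card_le_card_of_injOn (t := univ) Prod.snd (fun _ _ => by simp) fun p hp q hq h => ?_
    rw [mem_coe, mem_filter] at hp hq
    refine Prod.ext (h1 p hp.1 q hq.1 h (le_antisymm (hp.2 _ ?_) (hq.2 _ ?_))) h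
    · rw [h]; exact hq.1
    · rw [← h]; exact hp.1
  have c2 : S2.card ≤ Fintype.card V := by
    refine card_le_card_of_injOn (t := univ) Prod.fst (fun _ _ => by simp) fun p hp q hq h => ?_
    rw [mem_coe, mem_filter] at hp hq
    refine Prod.ext h (h2 p hp.1 q hq.1 h (le_antisymm (hq.2 _ ?_) (hp.2 _ ?_)))
    · rw [← h]; exact hp.1
    · rw [h]; exact hq.1
  have hsub : S ⊆ S1 ∪ S2 := by
    intro p hp
    by_contra hn
    simp only [hS1, hS2, mem_union, mem_filter, hp, true_and, not_or, not_forall, not_le] at hn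
    obtain ⟨⟨w1, a1, a2⟩, ⟨w3, a3, a4⟩⟩ := hn
    exact absurd (hc p.1 w1 p.2 w3 hp a1 a3 a2) (not_le.2 a4)
  have := card_le_card hsub
  have := card_union_le S1 S2
  omega

lemma card_sdiff_two (F : Equiv.Perm V) (A U : Finset V) :
    A.card ≤ (A.filter fun w => w ∉ U ∧ F w ∉ U).card + 2 * U.card := by
  classical
  have e1 : (univ.filter fun w => F w ∈ U).card = U.card := by
    have := card_filter_perm F (· ∈ U)
    simpa only [filter_mem_eq_inter, univ_inter] using this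
  have h1 := card_union_le ((A.filter fun w => w ∉ U ∧ F w ∉ U) ∪ U) (univ.filter fun w => F w ∈ U)
  have h2 := card_union_le (A.filter fun w => w ∉ U ∧ F w ∉ U) U
  have h3 : A ⊆ (A.filter fun w => w ∉ U ∧ F w ∉ U) ∪ U ∪ (univ.filter fun w => F w ∈ U) := by
    intro w hw
    simp only [mem_union, mem_filter, mem_univ, true_and]
    tauto
  have := card_le_card h3
  omega

lemma merge_step_ne (P : PS E) (Z U : Finset V) (hZ : Z ⊆ P.X) (hU : ∀ v, P.e v ∈ Z → v ∈ U)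
    (c h : ℕ) (hNE : ∀ S T : Finset V, h ≤ S.card → h ≤ T.card → 2 * Fintype.card V < ecount E S T)
    (hm : 3 * Fintype.card V + (P.X \ Z).card * (h + 2 * U.card) ≤ (P.X \ Z).card * c)
    (hm0 : 0 < (P.X \ Z).card)
    (ends : ∀ a ∈ P.X, a ∉ Z → c ≤ deg E univ a)
    (starts : ∀ b, P.St b → P.e b ∉ Z → c ≤ deg (flip E) univ b) :
    (∃ Q a b, a ∈ P.X ∧ a ∉ Z ∧ Red P Q Z a b) ∨
      ∃ Q a a', a ∈ P.X ∧ a ∉ Z ∧ a' ∈ P.X ∧ a' ∉ Z ∧ a ≠ a' ∧ Red2 P Q Z a a' := by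
  classical
  set r1 : V → V → Prop := fun a w => E a (P.F w) with hr1
  set r2 : V → V → Prop := fun a w => E w (P.st a) with hr2
  have est : ∀ a ∈ P.X, P.e (P.st a) = a := fun a ha => by rw [P.e_st, P.e_self a ha]
  have p1 := popular (P.X \ Z) r1 c fun a ha => by
    rw [mem_sdiff] at ha
    rw [deg_eq]
    exact (ends a ha.1 ha.2).trans (by rw [deg_eq]; exact (card_filter_perm P.F (E a)).ge)
  have p2 := popular (P.X \ Z) r2 c fun a ha => by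
    rw [mem_sdiff] at ha
    exact starts _ (P.st_St a) (by rw [est a ha.1]; exact ha.2)
  set A := (univ.filter fun w => 4 ≤ deg (flip r1) (P.X \ Z) w).filter
    fun w => w ∉ U ∧ P.F w ∉ U with hA
  set B := (univ.filter fun w => 4 ≤ deg (flip r2) (P.X \ Z) w).filter
    fun w => w ∉ U ∧ P.F w ∉ U with hB
  have cA : h ≤ A.card := by
    have h1 := card_sdiff_two P.F (univ.filter fun w => 4 ≤ deg (flip r1) (P.X \ Z) w) U
    rw [← hA] at h1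
    have h2 : h + 2 * U.card ≤ (univ.filter fun w => 4 ≤ deg (flip r1) (P.X \ Z) w).card :=
      Nat.le_of_mul_le_mul_left (by omega) hm0
    omega
  have cB : h ≤ B.card := by
    have h1 := card_sdiff_two P.F (univ.filter fun w => 4 ≤ deg (flip r2) (P.X \ Z) w) U
    rw [← hB] at h1
    have h2 : h + 2 * U.card ≤ (univ.filter fun w => 4 ≤ deg (flip r2) (P.X \ Z) w).card :=
      Nat.le_of_mul_le_mul_left (by omega) hm0
    omega
  have pA : ∀ w ∈ A, P.e w ∉ Z ∧ P.e (P.F w) ∉ Z ∧ ∀ p q r, ∃ a, a ∈ P.X ∧ a ∉ Z ∧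
      E a (P.F w) ∧ a ≠ p ∧ a ≠ q ∧ a ≠ r := by
    intro w hw
    simp only [hA, mem_filter, mem_univ, true_and] at hw
    refine ⟨fun e => hw.2.1 (hU _ e), fun e => hw.2.2 (hU _ e), fun p q r => ?_⟩
    obtain ⟨a, a1, a2, a3⟩ := pick3 _ _ w hw.1 p q r
    exact ⟨a, (mem_sdiff.1 a1).1, (mem_sdiff.1 a1).2, a2, a3⟩
  have pB : ∀ w ∈ B, P.e w ∉ Z ∧ ∀ p q r, ∃ b, P.St b ∧ P.e b ∉ Z ∧
      E w b ∧ P.e b ≠ p ∧ P.e b ≠ q ∧ P.e b ≠ r := by
    intro w hw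
    simp only [hB, mem_filter, mem_univ, true_and] at hw
    refine ⟨fun e => hw.2.1 (hU _ e), fun p q r => ?_⟩
    obtain ⟨a, a1, a2, a3⟩ := pick3 _ _ w hw.1 p q r
    rw [mem_sdiff] at a1
    exact ⟨P.st a, P.st_St a, by rw [est a a1.1]; exact a1.2, a2, by rw [est a a1.1]; exact a3⟩
  by_contra hcon
  rw [not_or] at hcon
  obtain ⟨n1, n2⟩ := hcon
  have AX : ∀ w ∈ A, w ∉ P.X := by
    intro w hw hX
    obtain ⟨-, z, pk⟩ := pA w hw
    obtain ⟨a, a1, a2, a3, a4, -⟩ := pk (P.e (P.F w)) w w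
    obtain ⟨Q, hQ⟩ := red_join P Z hZ a1 ((P.St_F w).2 hX) a2 z a4.symm a3
    exact n1 ⟨Q, a, _, a1, a2, hQ⟩
  have BX : ∀ w ∈ B, w ∉ P.X := by
    intro w hw hX
    obtain ⟨z, pk⟩ := pB w hw
    rw [P.e_self w hX] at z
    obtain ⟨b, b1, b2, b3, b4, -⟩ := pk w w w
    obtain ⟨Q, hQ⟩ := red_join P Z hZ hX b1 z b2 b4 b3
    exact n1 ⟨Q, w, _, hX, z, hQ⟩
  have back : ∀ w1 ∈ A, ∀ w2 ∈ B, E w1 (P.F w2) → P.e w2 = P.e w1 ∧ P.d w1 < P.d w2 := by
    intro w1 h1 w2 h2 hE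
    obtain ⟨z1, -, pk1⟩ := pA w1 h1
    obtain ⟨z2, pk2⟩ := pB w2 h2
    obtain ⟨a, a1, a2, a3, a4, a5, -⟩ := pk1 (P.e w1) (P.e w2) w1
    obtain ⟨b, b1, b2, b3, b4, b5, b6⟩ := pk2 (P.e w1) (P.e w2) a
    by_cases h12 : w1 = w2
    · subst h12
      obtain ⟨Q, hQ⟩ := red_switch P Z hZ a1 b1 (AX _ h1) a2 b2 z1 a4.symm b4 a3 b3
      exact absurd ⟨Q, a, _, a1, a2, hQ⟩ n1
    · by_cases hord : P.e w2 = P.e w1 ∧ P.d w1 ≤ P.d w2
      · exact ⟨hord.1, lt_of_le_of_ne hord.2 fun e => h12 (P.inj' e hord.1.symm)⟩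
      · obtain ⟨Q, hQ⟩ := red_three P Z hZ a1 b1 (AX _ h1) (BX _ h2) a2 b2 z1 z2 hord a4.symm
          a5.symm b4 b5 b6 a3 hE b3
        exact absurd ⟨Q, a, _, a1, a2, hQ⟩ n1
  set S := (A ×ˢ B).filter fun p => E p.1 (P.F p.2) with hS
  have mS : ∀ p ∈ S, p.1 ∈ A ∧ p.2 ∈ B ∧ E p.1 (P.F p.2) := fun p hp => by
    simpa only [hS, mem_filter, mem_product, and_assoc] using hp
  have cS : 2 * Fintype.card V < S.card := by
    refine lt_of_lt_of_le (hNE A (B.image P.F) cA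
      (by rw [card_image_of_injective _ P.F.injective]; exact cB)) ?_
    rw [ecount_eq]
    refine card_le_card_of_injOn (fun p => (p.1, P.F.symm p.2)) (fun p hp => ?_)
      (fun p _ q _ e => ?_)
    · rw [mem_coe, mem_filter, mem_product, mem_image] at hp
      obtain ⟨⟨x1, w, x2, x3⟩, x4⟩ := hp
      rw [mem_coe, hS, mem_filter, mem_product]
      have e1 : P.F.symm p.2 = w := by rw [← x3, Equiv.symm_apply_apply]
      simp only [e1]
      exact ⟨⟨x1, x2⟩, x3 ▸ x4⟩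
    · have := Prod.mk.inj e
      exact Prod.ext this.1 (P.F.symm.injective this.2)
  have bk : ∀ p ∈ S, P.e p.2 = P.e p.1 ∧ P.d p.1 < P.d p.2 := fun p hp =>
    back _ (mS p hp).1 _ (mS p hp).2.1 (mS p hp).2.2
  obtain ⟨w, w1, w2, w3, s0, s1, s3, o1, o3⟩ := crossing S P.d cS
    (fun p hp q hq e1 e2 => P.inj' e2 (by rw [← (bk p hp).1, e1, (bk q hq).1]))
    (fun p hp q hq e1 e2 => P.inj' e2 (by rw [(bk p hp).1, e1, (bk q hq).1]))
  obtain ⟨m1, m2, -⟩ := mS _ s0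
  obtain ⟨m3, -, m4⟩ := mS _ s1
  obtain ⟨-, m5, m6⟩ := mS _ s3
  obtain ⟨t1, t2⟩ := bk _ s0
  obtain ⟨t3, -⟩ := bk _ s1
  obtain ⟨t4, -⟩ := bk _ s3
  simp only at m1 m2 m3 m4 m5 m6 t1 t2 t3 t4
  obtain ⟨z, -, pk⟩ := pA w m1
  obtain ⟨a', x1, x2, x3, x4, -⟩ := pk (P.e w) w w
  obtain ⟨a, y1, y2, y3, y4, y5, -⟩ := (pA w1 m3).2.2 (P.e w) a' w
  obtain ⟨b, u1, u2, u3, u4, u5, -⟩ := (pB w2 m2).2 (P.e w) a' w
  obtain ⟨b', v1, v2, v3, v4, v5, -⟩ := (pB w3 m5).2 (P.e w) (P.e b) w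
  obtain ⟨Q, hQ⟩ := red_five P Z hZ y1 x1 u1 v1 y5 (fun e => v5 (by rw [e])) (AX _ m1) (AX _ m3)
    (BX _ m2) (BX _ m5) y2 x2 u2 v2 z (t3.symm.trans t1) t1 t4 o1 t2 o3 y4.symm x4.symm u4 v4 u5
    m4 m6 x3 y3 u3 v3
  exact n2 ⟨Q, a, a', y1, y2, x1, x2, y5, hQ⟩

lemma Good.red2 {P0 P Q : PS E} {Z : Finset V} {Hr Hc : V → Prop} {a b : V}
    (h : Good P0 P Z Hr Hc) (r : Red2 P Q Z a b) : Good P0 Q Z Hr Hc :=
  ⟨h.keep.trans r.keep,
    fun v hv hz => h.ends v (mem_of_mem_erase (mem_of_mem_erase (r.X ▸ hv))) hz,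
    fun v hv hz => h.starts v (r.St v hv) fun e => hz ((r.keep.e_mem v).2 e)⟩

lemma Red2.card {P Q : PS E} {Z : Finset V} {a a' : V} (r : Red2 P Q Z a a') (ha : a ∈ P.X)
    (hz : a ∉ Z) (ha' : a' ∈ P.X) (hz' : a' ∉ Z) (hne : a ≠ a') :
    (Q.X \ Z).card + 2 = (P.X \ Z).card := by
  have h1 : Q.X \ Z = ((P.X \ Z).erase a').erase a := by
    rw [r.X]; ext v; simp only [mem_sdiff, mem_erase]; tauto
  have h2 : a' ∈ P.X \ Z := mem_sdiff.2 ⟨ha', hz'⟩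
  have h3 : a ∈ (P.X \ Z).erase a' := mem_erase.2 ⟨hne, mem_sdiff.2 ⟨ha, hz⟩⟩
  rw [h1, ← card_erase_add_one h2, ← card_erase_add_one h3]

lemma merge_all_ne (P0 : PS E) (Z : Finset V) {Hr Hc : V → Prop} (r : ℕ)
    (hstep : ∀ P, Good P0 P Z Hr Hc → r + 2 ≤ (P.X \ Z).card →
      (∃ Q a b, a ∈ P.X ∧ a ∉ Z ∧ Red P Q Z a b) ∨
      ∃ Q a a', a ∈ P.X ∧ a ∉ Z ∧ a' ∈ P.X ∧ a' ∉ Z ∧ a ≠ a' ∧ Red2 P Q Z a a') :
    ∀ (m : ℕ) (P : PS E), Good P0 P Z Hr Hc → (P.X \ Z).card = m → r ≤ m →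
      ∃ Q, Good P0 Q Z Hr Hc ∧ ((Q.X \ Z).card = r ∨ (Q.X \ Z).card = r + 1) := by
  intro m
  induction m using Nat.strong_induction_on with
  | _ m ih =>
    intro P h1 h2 h3
    by_cases hm : r + 2 ≤ m
    · rcases hstep P h1 (by omega) with ⟨Q, a, b, ha, hz, hr⟩ | ⟨Q, a, a', x1, x2, x3, x4, x5, hr⟩
      · have := hr.card ha hz
        exact ih _ (by omega) Q (h1.red hr) rfl (by omega)
      · have := hr.card x1 x2 x3 x4 x5
        exact ih _ (by omega) Q (h1.red2 hr) rfl (by omega)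
    · exact ⟨P, h1, by omega⟩

end Pool.Agent.Lib.MP_c8ddae_co
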