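import Pool.Agent.Lib.MP_c8ddae_co.H8NE1

set_option autoImplicit false
open Finset

namespace Pool.Agent.Lib.MP_c8ddae_co

variable {V : Type} [Fintype V] [DecidableEq V] {E : V → V → Prop}

lemma ecount_pos {ρ : V → V → Prop} {S T : Finset V} (h : 0 < ecount ρ S T) :
    ∃ x ∈ S, ∃ y ∈ T, ρ x y := by
  classical
  rw [ecount_eq, card_pos] at h
  obtain ⟨p, hp⟩ := h
  rw [mem_filter, mem_product] at hp
  exact ⟨p.1, hp.1.1, p.2, hp.1.2, hp.2⟩

lemma ecount_le (ρ : V → V → Prop) (S T : Finset V) :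
    ecount ρ S T ≤ Fintype.card V * Fintype.card V := by
  classical
  rw [ecount_eq]
  simpa using card_le_univ ((S ×ˢ T).filter fun p => ρ p.1 p.2)

lemma uh_ne (hirr : ∀ v, ¬ E v v) {c s u J K h e0 : ℕ}
    (hp : PosC E c s) (hp' : PosC (flip E) c s) (hcn : c ≤ Fintype.card V)
    (hNE : ∀ S T : Finset V, h ≤ S.card → h ≤ T.card → e0 ≤ ecount E S T) (he : 0 < e0)
    (hh : h + u ≤ c) (huc : u < c)
    (hJ : 2 * Fintype.card V < J * s) (hus : 2 * u < s)
    (hK : (Fintype.card V : ℝ) ^ 2 *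
      (1 - e0 / (Fintype.card V * Fintype.card V : ℕ)) ^ K < 1) :
    UH E E (fun x y => c ≤ deg E univ x ∧ c ≤ deg (flip E) univ y) univ u (2 * J + 4) K := by
  classical
  refine ⟨fun A hA x _ y _ => reach_of_pos hp hp' hus hJ huc ?_ A hA x y,
    by rw [card_univ]; omega, ?_⟩
  · intro S T hS hT
    exact ecount_pos (he.trans_le (hNE S T (by omega) (by omega)))
  · refine ⟨univ.filter fun p => E p.1 p.2, Fintype.card V * Fintype.card V, e0,
      by simpa using card_le_univ (univ.filter fun p : V × V => E p.1 p.2), he,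
      (hNE univ univ (by rw [card_univ]; omega) (by rw [card_univ]; omega)).trans
        (ecount_le _ _ _), ?_, hK, ?_⟩
    · intro p hp
      have := (mem_filter.1 hp).2
      exact ⟨this, mem_univ _, mem_univ _, fun e => hirr p.1 (by rwa [← e] at this)⟩
    · rintro A hA x y ⟨hx, hy⟩
      rw [deg_eq] at hx
      rw [deg_eq'] at hy
      have h1 := le_card_sdiff A (univ.filter (E x))
      have h2 := le_card_sdiff A (univ.filter (E · y))
      have h3 := hNE (univ.filter (E · y) \ A) (univ.filter (E x) \ A) (by omega) (by omega)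
      rw [ecount_eq] at h3
      refine ⟨_, fun p hp => ?_, h3, fun p hp => ?_⟩
      · exact mem_filter.2 ⟨mem_univ _, (mem_filter.1 hp).2⟩
      · simp only [mem_filter, mem_product, mem_sdiff, mem_univ, true_and] at hp
        exact ⟨hp.1.1.2, hp.1.2.2, hp.1.2.1, hp.1.1.1⟩

/-- a path with high start and end containing an arc from a high row to a high column -/
lemma spare_path {c s u L : ℕ} (hp : PosC E c s) (hp' : PosC (flip E) c s) (hsc : s ≤ c)
    (hcn : 2 * c ≤ Fintype.card V + 1) (hs : 3 ≤ s) (hu : 3 ≤ u)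
    (reach : ∀ A : Finset V, A.card ≤ u → ∀ x y, Wk E A L x y) :
    ∃ (P : PS E) (U : Finset V) (v1 v2 : V), Sing P U ∧ U.card ≤ L + 3 ∧ v2 ∈ U ∧ v2 ∈ P.X ∧
      (∀ v ∈ U, P.e v = v2) ∧ P.St v1 ∧ P.e v1 = v2 ∧ v1 ∉ P.X ∧ c ≤ deg E univ v1 ∧
      c ≤ deg (flip E) univ v1 ∧ c ≤ deg (flip E) univ (P.F v1) ∧ c ≤ deg E univ v2 := by
  classical
  have l1 := hp.card_low hsc
  have l2 := hp'.card_low hsc
  obtain ⟨v1, hv1⟩ : ((univ.filter (deg E univ · < c) ∪
      univ.filter (deg (flip E) univ · < c))ᶜ).Nonempty := by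
    have := card_union_le (univ.filter (deg E univ · < c)) (univ.filter (deg (flip E) univ · < c))
    rw [← card_pos, card_compl]; omega
  simp only [mem_compl, mem_union, mem_filter, mem_univ, true_and, not_or, not_lt] at hv1
  obtain ⟨y, -, hy, hy'⟩ := exists_of_lt_deg E univ
    (insert v1 (univ.filter (deg (flip E) univ · < c))) v1 (by
      have := card_insert_le v1 (univ.filter (deg (flip E) univ · < c))
      omega)
  simp only [mem_insert, mem_filter, mem_univ, true_and, not_or, not_lt] at hy'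
  obtain ⟨v2, hv2⟩ : ((insert y (insert v1 (univ.filter (deg E univ · < c))))ᶜ).Nonempty := by
    have := card_insert_le v1 (univ.filter (deg E univ · < c))
    have := card_insert_le y (insert v1 (univ.filter (deg E univ · < c)))
    rw [← card_pos, card_compl]; omega
  simp only [mem_compl, mem_insert, mem_filter, mem_univ, true_and, not_or, not_lt] at hv2
  have hQ : JClosed E fun _ : PS E => True := fun _ _ _ _ _ _ _ _ _ => trivial
  have b0 := BS.init (P := PS.triv E) (Q := fun _ => True) (Z := ∅) (U := ∅) (b0 := v1) trivial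
    (empty_subset _) sing_triv subset_rfl (by simp)
  obtain ⟨P1, b1⟩ := b0.ext (fun _ _ h => h) hQ (y := y) (by simpa using hy'.1) hy
  have c3 : (insert v2 (insert y (insert v1 (∅ : Finset V)))).card ≤ 3 := card_le_three
  have c2 : (insert y (insert v1 (∅ : Finset V))).card ≤ 2 := card_le_two
  obtain ⟨P2, U2, c', b2, -, k2, k3, k4⟩ := BS.walk (fun _ _ h => h) hQ L P1 _
    (insert v2 (insert y (insert v1 ∅))) y b1 (subset_insert _ _) (reach _ (by omega) y v2)
  have hv : v2 ∉ U2 := fun e => by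
    rcases k3 v2 e with h | h
    · simp only [mem_insert, notMem_empty, or_false] at h
      tauto
    · exact h (mem_insert_self _ _)
  obtain ⟨P3, b3⟩ := b2.ext (fun _ _ h => h) hQ hv k4
  have a1 := b3.arcs (v1, y) (by simp)
  have := card_insert_le v2 U2
  exact ⟨P3, _, v1, v2, b3.sing, by omega, b3.cU, b3.cX, fun v h => b3.new v h (by simp), b3.st,
    b3.eb, a1.1, hv1.1, hv1.2, by rw [a1.2.2]; exact hy'.2, hv2.2.2⟩

theorem ham_ne [Nonempty V] (hirr : ∀ v, ¬ E v v) {c s u J K r s0 h e0 : ℕ}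
    (hp : PosC E c s) (hp' : PosC (flip E) c s) (hcn : 2 * c ≤ Fintype.card V + 1)
    (hNE : ∀ S T : Finset V, h ≤ S.card → h ≤ T.card → e0 ≤ ecount E S T)
    (he : 2 * Fintype.card V < e0) (hh : h + 2 * u ≤ c) (hsc : s ≤ c)
    (hJ : 2 * Fintype.card V < J * s) (hus : 2 * u < s)
    (hK : (Fintype.card V : ℝ) ^ 2 *
      (1 - e0 / (Fintype.card V * Fintype.card V : ℕ)) ^ K < 1)
    (hr : 3 * Fintype.card V + r * (h + 2 * u) ≤ r * c)
    (hru : 2 * J + 7 + (r + 2) * ((K + 1) * (2 * J + 6)) ≤ u)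
    (hs0 : ∀ e, e * (e + 1) ≤ 4 * Fintype.card V + 6 → 2 * e + 2 ≤ s0)
    (hs : s0 + (u + r) ≤ s) : Ham E := by
  classical
  have hn := Fintype.card_pos (α := V)
  have H := uh_ne hirr hp hp' (by omega) hNE (by omega) (by omega : h + u ≤ c) (by omega) hJ hus hK
  obtain ⟨P0, U0, v1, v2, sg0, cU0, m1, m2, m3, m4, m5, m6, d1, d2, d3, d4⟩ := spare_path hp hp'
    hsc hcn (by omega) (by omega : 3 ≤ u) fun A hA x y => H.reach A hA x (mem_univ _) y (mem_univ _)
  obtain ⟨P1, U, Cs, -, k1, sg, hU0, hU, c1, dj, c2, c3, c4, c5⟩ := many_cycles (fun _ _ h => h)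
    (Q := fun _ => True) (fun _ _ _ _ _ _ _ _ _ => trivial) H P0 {v2} U0 trivial
    (by simpa using m2) sg0 (by simpa using m1) (r + 2) (by
      have : 2 * J + 4 + 2 = 2 * J + 6 := by omega
      rw [this]; omega)
  replace hU : U.card ≤ u := by
    have : 2 * J + 4 + 2 = 2 * J + 6 := by omega
    rw [this] at hU; omega
  have s1 := k1 v2 (mem_singleton_self _)
  have hv2 : v2 ∉ Cs := fun e => disjoint_left.1 dj e (mem_singleton_self _)
  set Z := insert v2 Cs with hZ
  have ZU : Z ⊆ U := insert_subset (hU0 m1) c1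
  have ZX : Z ⊆ P1.X := insert_subset s1.mem c2
  have hUe : ∀ v, P1.e v ∈ Z ↔ v ∈ U := fun v =>
    ⟨fun hv => by
      by_contra hn
      rw [sg.e hn] at hv
      exact hn (ZU hv), fun hv => by
      by_cases h0 : v ∈ U0
      · rw [(s1.e v).2 (m3 v h0)]; exact mem_insert_self _ _
      · exact mem_insert_of_mem (c4 v hv h0)⟩
  obtain ⟨Y0, hY0, hYc⟩ : ∃ Y0 ⊆ (univ.filter (deg (flip E) univ · < c) ∪ U)ᶜ,
      Y0.card = r := by
    apply exists_subset_card_eq
    have := hp'.card_low hsc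
    have := card_union_le (univ.filter (deg (flip E) univ · < c)) U
    rw [card_compl]
    omega
  have hY : ∀ y ∈ Y0, c ≤ deg (flip E) univ y ∧ y ∉ U := by
    intro y hy
    have := hY0 hy
    simpa using this
  obtain ⟨P2, A, B, Jn, k2, bk, hA, hB⟩ := greedy_all E (fun _ _ h => h) P1 Uᶜ (U ∪ Y0)ᶜ
    (univ.filter (deg E univ · < c)) (univ.filter (deg (flip E) univ · < c))
    (fun v hv => (sg v (mem_compl.1 hv)).1)
    (fun v hv => (sg v fun e => mem_compl.1 hv (mem_union_left _ e)).2.1)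
    (fun P => Keep P1 P Z)
    (fun P P' x y hk hx hy _ _ _ _ hj => hk.trans (hj.keep hk.sub
      (fun e => mem_compl.1 hx (ZU e))
      (fun e => mem_compl.1 hy (mem_union_left _ ((hUe y).1 ((hk.e_mem y).1 e))))))
    (Keep.refl P1 ZX) s0 hs0
    (hp.restrict _ _ (u + r) s0 (by
      have := card_union_le U Y0
      rw [compl_compl]; omega) hs)
    (hp'.restrict _ _ (u + r) s0 (by rw [compl_compl]; omega) hs)
  have g2 : Good P1 P2 Z (fun x => c ≤ deg E univ x) (fun y => c ≤ deg (flip E) univ y) := by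
    refine ⟨k2, fun a ha haz => ?_, fun b hb hbz => ?_⟩
    · obtain ⟨h1, h2⟩ := (bk.X a).1 ha
      have haU : a ∉ U := fun e => haz (by
        have := (hUe a).2 e
        rwa [P1.e_self a h1] at this)
      by_contra hn
      have : a ∈ univ.filter (deg E univ · < c) ∩ A :=
        mem_inter.2 ⟨by simpa using hn, h2 (mem_compl.2 haU)⟩
      rw [hA] at this
      simp at this
    · obtain ⟨h1, h2⟩ := (bk.St b).1 hb
      have hbU : b ∉ U := fun e => hbz ((k2.e_mem b).2 ((hUe b).2 e))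
      by_cases hy : b ∈ Y0
      · exact (hY b hy).1
      · by_contra hn
        have : b ∈ univ.filter (deg (flip E) univ · < c) ∩ B :=
          mem_inter.2 ⟨by simpa using hn, h2 (by simp [hbU, hy])⟩
        rw [hB] at this
        simp at this
  have hm : r ≤ (P2.X \ Z).card := by
    rw [← hYc]
    refine card_starts_le P2 Z Y0 fun b hb => ⟨(bk.St b).2 ⟨(sg b (hY b hb).2).2.1,
      fun e => absurd (mem_union_right _ hb) (mem_compl.1 e)⟩, fun e => ?_⟩
    exact (hY b hb).2 ((hUe b).1 ((k2.e_mem b).1 e))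
  obtain ⟨P3, g3, hc3⟩ := merge_all_ne P1 Z r (fun P g hm =>
    merge_step_ne P Z U g.keep.sub (fun v hv => (hUe v).1 ((g.keep.e_mem v).1 hv)) c h
      (fun S T hS hT => he.trans_le (hNE S T hS hT)) (by
        obtain ⟨m, hm'⟩ := Nat.exists_eq_add_of_le (by omega : r ≤ (P.X \ Z).card)
        rw [hm']
        have e1 : r * (h + 2 * U.card) ≤ r * (h + 2 * u) := by gcongr
        have e2 : m * (h + 2 * U.card) ≤ m * c := by gcongr; omega
        nlinarith) (by omega) g.ends g.starts) _ P2 g2 rfl hm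
  have s3 := s1.trans (g3.keep v2 (mem_insert_self _ _))
  have kC : Keep P1 P3 Cs := fun z hz => g3.keep z (mem_insert_of_mem hz)
  have ev1 : P3.e v1 = v2 := (s3.e v1).2 m5
  have cX : (P3.X \ Cs).card = (P3.X \ Z).card + 1 := by
    rw [← card_insert_of_notMem (a := v2) (by simp [hZ])]
    congr 1
    ext v
    simp only [hZ, mem_sdiff, mem_insert]
    constructor
    · tauto
    · rintro (rfl | h)
      · exact ⟨s3.mem, hv2⟩
      · tauto
  have ends : ∀ a ∈ P3.X, a ∉ Cs → c ≤ deg E univ a := fun a ha hz => by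
    by_cases e : a = v2
    · rw [e]; exact d4
    · exact g3.ends a ha (by simp [hZ, e, hz])
  have starts : ∀ b, P3.St b → P3.e b ∉ Cs → c ≤ deg (flip E) univ b := fun b hb hz => by
    by_cases e : P3.e b = v2
    · rw [P3.start_unique hb ((s3.St v1 m5).2 m4) (e.trans ev1.symm)]; exact d2
    · exact g3.starts b hb (by simp [hZ, e, hz])
  rcases hc3 with hc3 | hc3
  · have hw : v1 ∉ P3.X := s3.notMem m6 m5
    obtain ⟨Q, hQ⟩ := P3.exists_cut hw
    have kQ : Keep P3 Q Cs := hQ.keep kC.sub hw (by rw [ev1]; exact hv2)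
    refine close_all (Hr := fun x => c ≤ deg E univ x) (Hc := fun y => c ≤ deg (flip E) univ y)
      (fun x y hx hy => ⟨hx, hy⟩) (r + 1) Q Cs c3 kQ.sub
      (fun z hz => (c5 z hz).same ((kC.trans kQ) z hz)) ?_ (fun a ha hz => ?_) fun b hb hz => ?_
    · rw [hQ.X, insert_sdiff_of_notMem _ fun e => hw (kC.sub e),
        card_insert_of_notMem fun e => hw (mem_sdiff.1 e).1]
      omega
    · rw [hQ.X, mem_insert] at ha
      rcases ha with rfl | ha
      · exact d1
      · exact ends a ha hz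
    · rcases (hQ.St b).1 hb with h1 | h1
      · exact starts b h1 fun e => hz ((kQ.e_mem b).2 e)
      · rw [h1, s3.F v1 m5 fun e => m6 (e ▸ m2)]; exact d3
  · exact close_all (Hr := fun x => c ≤ deg E univ x) (Hc := fun y => c ≤ deg (flip E) univ y)
      (fun x y hx hy => ⟨hx, hy⟩) (r + 1) P3 Cs c3 kC.sub
      (fun z hz => (c5 z hz).same (kC z hz)) (by omega) ends starts

end Pool.Agent.Lib.MP_c8ddae_co
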