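import Mathlib

set_option autoImplicit false

namespace Pool.Agent.Lib.MP_c8ddae_co.NW

/-- The arcs of the example, on vertex numbers: `0 → 2, 4`; `1 → 2, 3`; `2 → 3, 4`;
`3 → 1, 2, 4`; every vertex `≥ 4` sends an arc to every other vertex. -/
def arc (a b : ℕ) : Prop :=
  a ≠ b ∧ (4 ≤ a ∨ (a = 0 ∧ (b = 2 ∨ b = 4)) ∨ (a = 1 ∧ (b = 2 ∨ b = 3)) ∨
    (a = 2 ∧ (b = 3 ∨ b = 4)) ∨ (a = 3 ∧ (b = 1 ∨ b = 2 ∨ b = 4)))

/-- The example on `Fin n`. -/
def ex (n : ℕ) : Digraph (Fin n) := ⟨fun u v => arc u.val v.val⟩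

theorem ex_adj {n : ℕ} (u v : Fin n) : (ex n).Adj u v ↔ arc u.val v.val := Iff.rfl

theorem le_card {n : ℕ} (S : Set (Fin n)) (T : Finset ℕ) (h : ∀ u ∈ S, u.val ∈ T) :
    S.ncard ≤ T.card := by
  rw [← Set.ncard_coe_finset T]
  exact Set.ncard_le_ncard_of_injOn (fun u => u.val) (fun u hu => h u hu)
    (fun a _ b _ hab => Fin.ext hab) T.finite_toSet

theorem ge_card {n : ℕ} (S : Set (Fin n)) (T : Finset ℕ) (h : ∀ u, u ∉ S → u.val ∈ T) :
    n ≤ S.ncard + T.card := by
  have h1 := Set.ncard_add_ncard_compl S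
  have h2 := le_card Sᶜ T (fun u hu => h u hu)
  rw [Nat.card_eq_fintype_card, Fintype.card_fin] at h1
  omega

theorem avoid_card {n : ℕ} (S : Set (Fin n)) (T : Finset ℕ) (hT : ∀ t ∈ T, t < n)
    (h : ∀ u ∈ S, u.val ∉ T) : S.ncard + T.card ≤ n := by
  have h1 := le_card S (Finset.range n \ T) (fun u hu => by
    simp only [Finset.mem_sdiff, Finset.mem_range]; exact ⟨u.isLt, h u hu⟩)
  have h2 : T ⊆ Finset.range n := fun t ht => Finset.mem_range.2 (hT t ht)
  rw [Finset.card_sdiff_of_subset h2, Finset.card_range] at h1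
  have h3 := Finset.card_le_card h2
  rw [Finset.card_range] at h3
  omega

/-- outdegree -/
noncomputable abbrev od {n : ℕ} (v : Fin n) : ℕ := {u : Fin n | (ex n).Adj v u}.ncard

/-- indegree -/
noncomputable abbrev ind {n : ℕ} (v : Fin n) : ℕ := {u : Fin n | (ex n).Adj u v}.ncard

theorem od_two {n : ℕ} (hn : 8 ≤ n) (v : Fin n) : 2 ≤ od v := by
  have key : ∀ a b : ℕ, a < 5 → b < 5 → a ≠ b → arc v.val a → arc v.val b → 2 ≤ od v := by
    intro a b ha hb hab h1 h2
    have : 1 < od v := (Set.one_lt_ncard (Set.toFinite _)).2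
      ⟨⟨a, by omega⟩, h1, ⟨b, by omega⟩, h2, fun h => hab (congrArg Fin.val h)⟩
    omega
  rcases (by omega : v.val = 0 ∨ v.val = 1 ∨ v.val = 2 ∨ v.val = 3 ∨ 4 ≤ v.val) with
    h | h | h | h | h
  · exact key 2 4 (by omega) (by omega) (by omega) (by unfold arc; omega) (by unfold arc; omega)
  · exact key 2 3 (by omega) (by omega) (by omega) (by unfold arc; omega) (by unfold arc; omega)
  · exact key 3 4 (by omega) (by omega) (by omega) (by unfold arc; omega) (by unfold arc; omega)
  · exact key 2 4 (by omega) (by omega) (by omega) (by unfold arc; omega) (by unfold arc; omega)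
  · exact key 2 3 (by omega) (by omega) (by omega) (by unfold arc; omega) (by unfold arc; omega)

theorem od_big {n : ℕ} (v : Fin n) (hv : 4 ≤ v.val) : n ≤ od v + 1 := by
  have := ge_card {u : Fin n | (ex n).Adj v u} {v.val} (fun u hu => by
    simp only [Set.mem_ofPred_eq, ex_adj, arc] at hu
    simp only [Finset.mem_singleton]; omega)
  simpa using this

theorem ind_of {n : ℕ} (v : Fin n) (T : Finset ℕ) (h : ∀ a : ℕ, ¬ arc a v.val → a ∈ T) :
    n ≤ ind v + T.card :=
  ge_card {u : Fin n | (ex n).Adj u v} T (fun u hu => h u.val hu)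

theorem ind_all {n : ℕ} (v : Fin n) : n ≤ ind v + 5 := by
  have h := ind_of v {0, 1, 2, 3, v.val} (fun a ha => by
    unfold arc at ha
    simp only [Finset.mem_insert, Finset.mem_singleton]; omega)
  have h2 : ({0, 1, 2, 3, v.val} : Finset ℕ).card ≤ 5 := Finset.card_le_five
  omega

theorem ind_four {n : ℕ} (v : Fin n) (hv : v.val ≤ 4) : n ≤ ind v + 4 := by
  rcases (by omega : v.val ≤ 3 ∨ v.val = 4) with h | h
  · exact ind_of v {0, 1, 2, 3} (fun a ha => by
      unfold arc at ha
      simp only [Finset.mem_insert, Finset.mem_singleton]; omega)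
  · exact ind_of v {1, 2, 3, 4} (fun a ha => by
      unfold arc at ha
      simp only [Finset.mem_insert, Finset.mem_singleton]; omega)

theorem ind_two {n : ℕ} (v : Fin n) (h2 : 2 ≤ v.val) (hv : v.val ≤ 4) : n ≤ ind v + 2 := by
  rcases (by omega : v.val = 2 ∨ v.val = 3 ∨ v.val = 4) with h | h | h
  · exact ind_of v {1, 2} (fun a ha => by
      unfold arc at ha
      simp only [Finset.mem_insert, Finset.mem_singleton]; omega)
  · exact ind_of v {0, 3} (fun a ha => by
      unfold arc at ha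
      simp only [Finset.mem_insert, Finset.mem_singleton]; omega)
  · exact ind_of v {1, 4} (fun a ha => by
      unfold arc at ha
      simp only [Finset.mem_insert, Finset.mem_singleton]; omega)

theorem ind_three {n : ℕ} (v : Fin n) (h1 : 1 ≤ v.val) (hv : v.val ≤ 4) : n ≤ ind v + 3 := by
  rcases (by omega : v.val = 1 ∨ 2 ≤ v.val) with h | h
  · exact ind_of v {0, 1, 2} (fun a ha => by
      unfold arc at ha
      simp only [Finset.mem_insert, Finset.mem_singleton]; omega)
  · have := ind_two v h hv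
    omega

/-- a set of vertices of outdegree `< n - 1` has at most four elements -/
theorem low_out {n : ℕ} (S : Set (Fin n)) (h : ∀ v ∈ S, od v + 1 < n) : S.ncard ≤ 4 :=
  le_card S {0, 1, 2, 3} (fun v hv => by
    have h1 := h v hv
    have h2 := od_big v
    simp only [Finset.mem_insert, Finset.mem_singleton]; omega)

theorem none_card {n : ℕ} (S : Set (Fin n)) (h : ∀ v, v ∉ S) : S.ncard = 0 := by
  rw [Set.eq_empty_of_forall_notMem h, Set.ncard_empty]

theorem strong {n : ℕ} (hn : 8 ≤ n) (u v : Fin n) : Relation.ReflTransGen (ex n).Adj u v := by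
  have h4 : ∀ w : Fin n, w.val ≠ 1 → Relation.ReflTransGen (ex n).Adj w ⟨4, by omega⟩ := by
    intro w hw
    by_cases h : w.val = 4
    · have : w = ⟨4, by omega⟩ := Fin.ext h
      rw [this]
    · exact Relation.ReflTransGen.single (show arc w.val 4 by unfold arc; omega)
  have h5 : Relation.ReflTransGen (ex n).Adj u ⟨4, by omega⟩ := by
    by_cases h : u.val = 1
    · refine Relation.ReflTransGen.head (b := ⟨2, by omega⟩) ?_ (h4 _ (by simp))
      exact (show arc u.val 2 by unfold arc; omega)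
    · exact h4 u h
  refine h5.trans ?_
  by_cases h : v.val = 4
  · have : v = ⟨4, by omega⟩ := Fin.ext h
    rw [this]
  · exact Relation.ReflTransGen.single (show arc 4 v.val by unfold arc; omega)

theorem nw_one {n : ℕ} (hn : 8 ≤ n) (i : ℕ) (h1 : 1 ≤ i) (h2 : 2 * i < n) :
    {v : Fin n | od v ≤ i}.ncard < i ∨ {v : Fin n | ind v < n - i}.ncard < n - i := by
  rcases (by omega : i = 1 ∨ i = 2 ∨ i = 3 ∨ i = 4 ∨ 5 ≤ i) with h | h | h | h | h
  · left
    rw [none_card _ (fun v hv => by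
      have := od_two hn v
      simp only [Set.mem_ofPred_eq] at hv; omega)]
    omega
  · right
    have := avoid_card {v : Fin n | ind v < n - i} {2, 3, 4}
      (fun t ht => by simp only [Finset.mem_insert, Finset.mem_singleton] at ht; omega)
      (fun v hv ht => by
        have := ind_two v
        simp only [Finset.mem_insert, Finset.mem_singleton] at ht
        simp only [Set.mem_ofPred_eq] at hv; omega)
    have h3 : ({2, 3, 4} : Finset ℕ).card = 3 := rfl
    omega
  · right
    have := avoid_card {v : Fin n | ind v < n - i} {1, 2, 3, 4}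
      (fun t ht => by simp only [Finset.mem_insert, Finset.mem_singleton] at ht; omega)
      (fun v hv ht => by
        have := ind_three v
        simp only [Finset.mem_insert, Finset.mem_singleton] at ht
        simp only [Set.mem_ofPred_eq] at hv; omega)
    have h3 : ({1, 2, 3, 4} : Finset ℕ).card = 4 := rfl
    omega
  · right
    have := avoid_card {v : Fin n | ind v < n - i} {0, 1, 2, 3, 4}
      (fun t ht => by simp only [Finset.mem_insert, Finset.mem_singleton] at ht; omega)
      (fun v hv ht => by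
        have := ind_four v
        simp only [Finset.mem_insert, Finset.mem_singleton] at ht
        simp only [Set.mem_ofPred_eq] at hv; omega)
    have h3 : ({0, 1, 2, 3, 4} : Finset ℕ).card = 5 := rfl
    omega
  · left
    have := low_out {v : Fin n | od v ≤ i} (fun v hv => by
      simp only [Set.mem_ofPred_eq] at hv; omega)
    omega

theorem nw_two {n : ℕ} (hn : 8 ≤ n) (i : ℕ) (h1 : 1 ≤ i) (h2 : 2 * i < n) :
    {v : Fin n | od v < n - i}.ncard < n - i := by
  have := low_out {v : Fin n | od v < n - i} (fun v hv => by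
    simp only [Set.mem_ofPred_eq] at hv; omega)
  omega

/-- A Hamiltonian dicircuit gives a successor permutation with a single orbit. -/
theorem succ_of_ham {n : ℕ} (A : Fin n → Fin n → Prop) (f : Fin n ≃ Fin n)
    (hf : ∀ i j : Fin n, j.val = (i.val + 1) % n → A (f i) (f j)) :
    ∃ s : Fin n → Fin n, Function.Bijective s ∧ (∀ v, A v (s v)) ∧
      ∀ P : Fin n → Prop, (∀ v, P v → P (s v)) → ∀ a b, P a → P b := by
  let nx : Fin n → Fin n := fun i => ⟨(i.val + 1) % n, Nat.mod_lt _ i.pos⟩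
  have hinj : Function.Injective nx := by
    intro i j h
    have h1 : (i.val + 1) % n = (j.val + 1) % n := congrArg Fin.val h
    have h2 : i.val % n = j.val % n := Nat.ModEq.add_right_cancel' 1 h1
    rw [Nat.mod_eq_of_lt i.isLt, Nat.mod_eq_of_lt j.isLt] at h2
    exact Fin.ext h2
  refine ⟨fun v => f (nx (f.symm v)), ?_, ?_, ?_⟩
  · exact Finite.injective_iff_bijective.1 (f.injective.comp (hinj.comp f.symm.injective))
  · intro v
    have h := hf (f.symm v) (nx (f.symm v)) rfl
    rwa [Equiv.apply_symm_apply] at h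
  · intro P hP a b ha
    obtain ⟨a, rfl⟩ := f.surjective a
    obtain ⟨b, rfl⟩ := f.surjective b
    have hk : 0 < n := a.pos
    have hall : ∀ t : ℕ, P (f ⟨(a.val + t) % n, Nat.mod_lt _ hk⟩) := by
      intro t
      induction t with
      | zero =>
        have : (⟨(a.val + 0) % n, Nat.mod_lt _ hk⟩ : Fin n) = a :=
          Fin.ext (by simp [Nat.mod_eq_of_lt a.isLt])
        rw [this]; exact ha
      | succ t ih =>
        have h := hP _ ih
        have : nx ⟨(a.val + t) % n, Nat.mod_lt _ hk⟩ =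
            ⟨(a.val + (t + 1)) % n, Nat.mod_lt _ hk⟩ :=
          Fin.ext (by simp only [nx]; rw [Nat.mod_add_mod, add_assoc])
        simp only [Equiv.symm_apply_apply] at h
        rw [this] at h; exact h
    have h := hall (b.val + n - a.val)
    have : (⟨(a.val + (b.val + n - a.val)) % n, Nat.mod_lt _ hk⟩ : Fin n) = b := by
      refine Fin.ext ?_
      have h1 : a.val + (b.val + n - a.val) = b.val + n := by have := a.isLt; omega
      simp only [h1, Nat.add_mod_right, Nat.mod_eq_of_lt b.isLt]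
    rw [this] at h
    exact h

theorem arc_zero {a b : ℕ} (h : arc a b) (ha : a = 0) : b = 2 ∨ b = 4 := by unfold arc at h; omega

theorem arc_one {a b : ℕ} (h : arc a b) (ha : a = 1) : b = 2 ∨ b = 3 := by unfold arc at h; omega

theorem arc_two {a b : ℕ} (h : arc a b) (ha : a = 2) : b = 3 ∨ b = 4 := by unfold arc at h; omega

theorem arc_three {a b : ℕ} (h : arc a b) (ha : a = 3) : b = 1 ∨ b = 2 ∨ b = 4 := by
  unfold arc at h; omega

theorem no_ham {n : ℕ} (hn : 8 ≤ n) (f : Fin n ≃ Fin n)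
    (hf : ∀ i j : Fin n, j.val = (i.val + 1) % n → (ex n).Adj (f i) (f j)) : False := by
  obtain ⟨s, hs, hA, hP⟩ := succ_of_ham (ex n).Adj f hf
  have hinj : ∀ u v : Fin n, (s u).val = (s v).val → u.val = v.val :=
    fun u v h => congrArg Fin.val (hs.1 (Fin.ext h))
  obtain ⟨v0, h0⟩ : ∃ v : Fin n, v.val = 0 := ⟨⟨0, by omega⟩, rfl⟩
  obtain ⟨v1, h1⟩ : ∃ v : Fin n, v.val = 1 := ⟨⟨1, by omega⟩, rfl⟩
  obtain ⟨v2, h2⟩ : ∃ v : Fin n, v.val = 2 := ⟨⟨2, by omega⟩, rfl⟩
  obtain ⟨v3, h3⟩ : ∃ v : Fin n, v.val = 3 := ⟨⟨3, by omega⟩, rfl⟩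
  have e0 := arc_zero (hA v0) h0
  have e1 := arc_one (hA v1) h1
  have e2 := arc_two (hA v2) h2
  have e3 := arc_three (hA v3) h3
  have i01 : (s v0).val ≠ (s v1).val := fun h => by have := hinj v0 v1 h; omega
  have i02 : (s v0).val ≠ (s v2).val := fun h => by have := hinj v0 v2 h; omega
  have i03 : (s v0).val ≠ (s v3).val := fun h => by have := hinj v0 v3 h; omega
  have i12 : (s v1).val ≠ (s v2).val := fun h => by have := hinj v1 v2 h; omega
  have i13 : (s v1).val ≠ (s v3).val := fun h => by have := hinj v1 v3 h; omega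
  have i23 : (s v2).val ≠ (s v3).val := fun h => by have := hinj v2 v3 h; omega
  have h := hP (fun v => v.val = 1 ∨ v.val = 3 ∨ (v.val = 2 ∧ (s v0).val = 4)) (fun v hv => by
    rcases hv with h | h | ⟨h, h'⟩
    · rw [show v = v1 from Fin.ext (h.trans h1.symm)]
      rcases e0 with e0 | e0 <;> rcases e1 with e1 | e1 <;> simp_all
    · rw [show v = v3 from Fin.ext (h.trans h3.symm)]
      rcases e0 with e0 | e0 <;> rcases e1 with e1 | e1 <;> rcases e2 with e2 | e2 <;>
        rcases e3 with e3 | e3 | e3 <;> simp_all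
    · rw [show v = v2 from Fin.ext (h.trans h2.symm)]
      rcases e2 with e2 | e2 <;> simp_all) v1 v0 (Or.inl h1)
  rcases h with h | h | ⟨h, -⟩ <;> rw [h0] at h <;> simp at h

/-- The small examples (`t = 1` on six vertices, `t = 6` on seven): all arcs except that
`0 → 2, 5`; `5 → 2, 3`; `1 → 3, 5` and `0 ← 2, 4`; `4 ← 2, 3`; `t ← 3, 4` are complete lists. -/
abbrev arc2 (t a b : ℕ) : Prop :=
  a ≠ b ∧ (a = 0 → b = 2 ∨ b = 5) ∧ (a = 5 → b = 2 ∨ b = 3) ∧ (a = 1 → b = 3 ∨ b = 5) ∧
    (b = 0 → a = 2 ∨ a = 4) ∧ (b = 4 → a = 2 ∨ a = 3) ∧ (b = t → a = 3 ∨ a = 4)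

/-- The small examples as digraphs. -/
def ex2 (t n : ℕ) : Digraph (Fin n) := ⟨fun u v => arc2 t u.val v.val⟩

theorem no_ham2 {t n : ℕ} (hn : 6 ≤ n) (ht : t = 1 ∨ t = 6) (htn : t < n) (f : Fin n ≃ Fin n)
    (hf : ∀ i j : Fin n, j.val = (i.val + 1) % n → (ex2 t n).Adj (f i) (f j)) : False := by
  obtain ⟨s, hs, hA, hP⟩ := succ_of_ham (ex2 t n).Adj f hf
  have hinj : ∀ u v : Fin n, (s u).val = (s v).val → u.val = v.val :=
    fun u v h => congrArg Fin.val (hs.1 (Fin.ext h))
  have hfun : ∀ u v : Fin n, u.val = v.val → (s u).val = (s v).val :=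
    fun u v h => by rw [Fin.ext h]
  obtain ⟨v0, h0⟩ : ∃ v : Fin n, v.val = 0 := ⟨⟨0, by omega⟩, rfl⟩
  obtain ⟨v1, h1⟩ : ∃ v : Fin n, v.val = 1 := ⟨⟨1, by omega⟩, rfl⟩
  obtain ⟨v5, h5⟩ : ∃ v : Fin n, v.val = 5 := ⟨⟨5, by omega⟩, rfl⟩
  obtain ⟨p0, q0⟩ := hs.2 ⟨0, by omega⟩
  obtain ⟨p4, q4⟩ := hs.2 ⟨4, by omega⟩
  obtain ⟨pt, qt⟩ := hs.2 ⟨t, htn⟩
  have r0 : (s p0).val = 0 := congrArg Fin.val q0
  have r4 : (s p4).val = 4 := congrArg Fin.val q4
  have rt : (s pt).val = t := congrArg Fin.val qt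
  have e0 : (s v0).val = 2 ∨ (s v0).val = 5 := (hA v0).2.1 h0
  have e5 : (s v5).val = 2 ∨ (s v5).val = 3 := (hA v5).2.2.1 h5
  have e1 : (s v1).val = 3 ∨ (s v1).val = 5 := (hA v1).2.2.2.1 h1
  have g0 : p0.val = 2 ∨ p0.val = 4 := (hA p0).2.2.2.2.1 r0
  have g4 : p4.val = 2 ∨ p4.val = 3 := (hA p4).2.2.2.2.2.1 r4
  have gt : pt.val = 3 ∨ pt.val = 4 := (hA pt).2.2.2.2.2.2 rt
  have i01 : (s v0).val ≠ (s v1).val := fun h => by have := hinj v0 v1 h; omega
  have i15 : (s v1).val ≠ (s v5).val := fun h => by have := hinj v1 v5 h; omega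
  have t0 : t ≠ 0 := by clear * - ht; omega
  have t4 : t ≠ 4 := by clear * - ht; omega
  have j1 : p0.val ≠ pt.val := fun h => t0 (by rw [← rt, ← hfun p0 pt h, r0])
  have j2 : p4.val ≠ pt.val := fun h => t4 (by rw [← rt, ← hfun p4 pt h, r4])
  have h := hP (fun v => v.val = 0 ∨ v.val = 2 ∨ (v.val = 5 ∧ (s v0).val = 5) ∨
      (v.val = 4 ∧ p4.val = 2)) (fun v hv => by
    rcases hv with h | h | ⟨h, h'⟩ | ⟨h, h'⟩
    · rw [show v = v0 from Fin.ext (h.trans h0.symm)]
      clear * - e0
      omega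
    · by_cases hp : p0.val = 2
      · exact Or.inl (by rw [hfun v p0 (h.trans hp.symm), r0])
      · have hq : p4.val = 2 := by clear * - hp g0 g4 gt j1 j2; omega
        exact Or.inr (Or.inr (Or.inr ⟨by rw [hfun v p4 (h.trans hq.symm), r4], hq⟩))
    · rw [show v = v5 from Fin.ext (h.trans h5.symm)]
      clear * - h' e1 e5 i01 i15
      omega
    · have hp : p0.val = 4 := by
        rcases g0 with g | g
        · have := hfun p0 p4 (g.trans h'.symm)
          rw [r0, r4] at this
          exact absurd this (by decide)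
        · exact g
      exact Or.inl (by rw [hfun v p0 (h.trans hp.symm), r0])) v0 v1 (Or.inl h0)
  clear * - h h1
  omega

theorem strong2 {t n : ℕ} (hn : 6 ≤ n) (ht : t = 1 ∨ t = 6) (u v : Fin n) :
    Relation.ReflTransGen (ex2 t n).Adj u v := by
  have h23 : (ex2 t n).Adj ⟨2, by omega⟩ ⟨3, by omega⟩ := show arc2 t 2 3 by unfold arc2; omega
  have h32 : (ex2 t n).Adj ⟨3, by omega⟩ ⟨2, by omega⟩ := show arc2 t 3 2 by unfold arc2; omega
  have h5 : Relation.ReflTransGen (ex2 t n).Adj u ⟨2, by omega⟩ := by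
    by_cases h : u.val = 1
    · have h3 : (ex2 t n).Adj u ⟨3, by omega⟩ := show arc2 t u.val 3 by unfold arc2; omega
      exact Relation.ReflTransGen.head h3 (Relation.ReflTransGen.single h32)
    · by_cases h' : u.val = 2
      · rw [show u = ⟨2, by omega⟩ from Fin.ext h']
      · exact Relation.ReflTransGen.single (show arc2 t u.val 2 by unfold arc2; omega)
  refine h5.trans ?_
  by_cases h : v.val = t
  · exact Relation.ReflTransGen.head h23
      (Relation.ReflTransGen.single (show arc2 t 3 v.val by unfold arc2; omega))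
  · by_cases h' : v.val = 2
    · rw [show v = ⟨2, by omega⟩ from Fin.ext h']
    · exact Relation.ReflTransGen.single (show arc2 t 2 v.val by unfold arc2; omega)

theorem ncard_filter {n : ℕ} (p : Fin n → Prop) [DecidablePred p] :
    {v : Fin n | p v}.ncard = (Finset.univ.filter p).card := by
  rw [← Set.ncard_coe_finset]
  simp

theorem nw_small {t n : ℕ} (h : (t = 1 ∧ n = 6) ∨ (t = 6 ∧ n = 7)) (i : ℕ) (h1 : 1 ≤ i)
    (h2 : 2 * i < n) :
    ({v : Fin n | {u : Fin n | (ex2 t n).Adj v u}.ncard ≤ i}.ncard < i ∨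
      {v : Fin n | {u : Fin n | (ex2 t n).Adj u v}.ncard < n - i}.ncard < n - i) ∧
    ({v : Fin n | {u : Fin n | (ex2 t n).Adj u v}.ncard ≤ i}.ncard < i ∨
      {v : Fin n | {u : Fin n | (ex2 t n).Adj v u}.ncard < n - i}.ncard < n - i) := by
  have ho : ∀ v : Fin n, {u : Fin n | (ex2 t n).Adj v u}.ncard =
      (Finset.univ.filter fun u : Fin n => arc2 t v.val u.val).card :=
    fun v => ncard_filter (fun u : Fin n => arc2 t v.val u.val)
  have hi : ∀ v : Fin n, {u : Fin n | (ex2 t n).Adj u v}.ncard =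
      (Finset.univ.filter fun u : Fin n => arc2 t u.val v.val).card :=
    fun v => ncard_filter (fun u : Fin n => arc2 t u.val v.val)
  simp only [ho, hi]
  simp only [ncard_filter]
  rcases h with ⟨rfl, rfl⟩ | ⟨rfl, rfl⟩
  · rcases (by omega : i = 1 ∨ i = 2) with rfl | rfl <;> decide +kernel
  · rcases (by omega : i = 1 ∨ i = 2 ∨ i = 3) with rfl | rfl | rfl <;> decide +kernel

end Pool.Agent.Lib.MP_c8ddae_co.NW
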