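import Pool.Agent.Lib.MP_c8ddae_co.H8Rel

set_option autoImplicit false
open Finset

namespace Pool.Agent.Lib.MP_c8ddae_co

variable {V : Type} [Fintype V] [DecidableEq V] {E : V → V → Prop}

lemma deg_ncard (ρ : V → V → Prop) (v : V) : {u | ρ v u}.ncard = deg ρ univ v := by
  classical
  rw [deg_eq, ← Set.ncard_coe_finset]
  congr 1
  ext u; simp

lemma cnt_ncard (ρ : V → V → Prop) (k : ℕ) :
    {v | {u | ρ v u}.ncard ≤ k}.ncard = (univ.filter (deg ρ univ · ≤ k)).card := by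
  rw [← Set.ncard_coe_finset]
  congr 1
  ext u; simp [deg_ncard]

lemma exp_bound {N g M K : ℕ} (hN : 0 < N) (hM : 0 < M) (hg : g ≤ M)
    (h : 2 * Real.log N * M < g * K) : (N : ℝ) ^ 2 * (1 - g / M) ^ K < 1 := by
  have hM' : (0 : ℝ) < M := by exact_mod_cast hM
  have hN' : (0 : ℝ) < N := by exact_mod_cast hN
  have h0 : (0 : ℝ) ≤ 1 - g / M := by
    rw [sub_nonneg, div_le_one hM']; exact_mod_cast hg
  have h1 : (1 - (g : ℝ) / M) ^ K ≤ Real.exp (-(g / M)) ^ K :=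
    pow_le_pow_left₀ h0 (by have := Real.add_one_le_exp (-((g : ℝ) / M)); linarith) K
  have h2 : (N : ℝ) ^ 2 = Real.exp (2 * Real.log N) := by
    rw [show 2 * Real.log N = Real.log N + Real.log N by ring, Real.exp_add, Real.exp_log hN', sq]
  calc (N : ℝ) ^ 2 * (1 - g / M) ^ K ≤ (N : ℝ) ^ 2 * Real.exp (-(g / M)) ^ K := by gcongr
    _ = Real.exp (2 * Real.log N + K * (-(g / M))) := by
      rw [h2, ← Real.exp_nat_mul, ← Real.exp_add]
    _ < 1 := by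
      rw [Real.exp_lt_one_iff]
      have : 2 * Real.log N < g * K / M := by rw [lt_div_iff₀ hM']; exact h
      have h3 : (K : ℝ) * (-(g / M)) = -(g * K / M) := by ring
      linarith

lemma le_floor_of_sq {e : ℕ} {a : ℝ} (ha : 0 ≤ a) (h : (e : ℝ) ^ 2 ≤ a ^ 2) : e ≤ ⌊a⌋₊ :=
  Nat.le_floor (abs_le_of_sq_le_sq' h ha).2

lemma posF_of_real (ρ : V → V → Prop) (a b s : ℝ)
    (h : ∀ k : ℕ, (k : ℝ) < a →
      (((univ.filter (deg ρ univ · ≤ k)).card : ℝ) ≤ max 0 (k - 4 * √k - 4)) ∧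
      (b ≤ k → ((univ.filter (deg ρ univ · ≤ k)).card : ℝ) ≤ max 0 (k - s))) (hs : 0 ≤ s) :
    PosF ρ ⌈a⌉₊ fun k => max (⌊4 * √k⌋₊ + 4) (if ⌈b⌉₊ ≤ k then ⌊s⌋₊ else 0) := by
  intro k hk hne
  obtain ⟨h1, h2⟩ := h k (Nat.lt_ceil.1 hk)
  have hp : (0 : ℝ) < (univ.filter (deg ρ univ · ≤ k)).card := by exact_mod_cast card_pos.2 hne
  have h3 : (univ.filter (deg ρ univ · ≤ k)).card + (⌊4 * √k⌋₊ + 4) ≤ k := by
    have := Nat.floor_le (show 0 ≤ 4 * √(k : ℝ) by positivity)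
    have h4 := (le_max_iff.1 h1).resolve_left (not_le.2 hp)
    have : ((univ.filter (deg ρ univ · ≤ k)).card : ℝ) + (⌊4 * √k⌋₊ + 4) ≤ k := by linarith
    exact_mod_cast this
  beta_reduce
  split_ifs with hb
  · have := Nat.floor_le hs
    have h4 := (le_max_iff.1 (h2 (Nat.ceil_le.1 hb))).resolve_left (not_le.2 hp)
    have h5 : ((univ.filter (deg ρ univ · ≤ k)).card : ℝ) + ⌊s⌋₊ ≤ k := by linarith
    have h6 : (univ.filter (deg ρ univ · ≤ k)).card + ⌊s⌋₊ ≤ k := by exact_mod_cast h5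
    omega
  · omega

theorem ham_real [Nonempty V] (hirr : ∀ v, ¬ E v v) (s σ : ℝ) (hs : 0 < s) (hsσ : s ≤ σ)
    (hC : 10 ^ 6 * (Fintype.card V : ℝ) ^ 3 * Real.log (Fintype.card V) ≤ s ^ 2 * σ ^ 2)
    (h : ∀ k : ℕ, (k : ℝ) < Fintype.card V / 2 + σ →
      (((univ.filter (deg E univ · ≤ k)).card : ℝ) ≤ max 0 (k - 4 * √k - 4)) ∧
      (σ / 4 ≤ k → ((univ.filter (deg E univ · ≤ k)).card : ℝ) ≤ max 0 (k - s)))
    (h' : ∀ k : ℕ, (k : ℝ) < Fintype.card V / 2 + σ →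
      (((univ.filter (deg (flip E) univ · ≤ k)).card : ℝ) ≤ max 0 (k - 4 * √k - 4)) ∧
      (σ / 4 ≤ k → ((univ.filter (deg (flip E) univ · ≤ k)).card : ℝ) ≤ max 0 (k - s))) :
    Ham E := by
  classical
  have p1 := posF_of_real E _ _ s h hs.le
  have p2 := posF_of_real (flip E) _ _ s h' hs.le
  set n := Fintype.card V with hn
  have hn1 : 1 ≤ n := Fintype.card_pos
  have hall : univ.filter (deg E univ · ≤ n - 1) = univ := by
    refine filter_true_of_mem fun v _ => ?_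
    have h1 := deg_erase_of_not E univ (hirr v)
    have h2 := deg_le_card E (univ.erase v) v
    rw [card_erase_of_mem (mem_univ v), card_univ] at h2
    omega
  have hc : ⌈(n : ℝ) / 2 + σ⌉₊ ≤ n - 1 := by
    by_contra hc
    have := p1 (n - 1) (by omega) (by rw [hall]; exact univ_nonempty)
    rw [hall, card_univ] at this
    omega
  have hσn : σ ≤ n / 2 - 1 := by
    have := Nat.ceil_le.1 hc
    rw [Nat.cast_sub hn1] at this
    push_cast at this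
    linarith
  have hσ : 0 < σ := by linarith
  have hn2 : (2 : ℝ) ≤ n := by linarith
  have hn0 : (0 : ℝ) < n := by linarith
  set L := Real.log n with hL
  have hL0 : 0.69 ≤ L := le_trans (by have := Real.log_two_gt_d9; linarith)
    (Real.log_le_log (by norm_num) hn2)
  set w := √(n : ℝ) with hw
  have hw2 : w ^ 2 = n := Real.sq_sqrt hn0.le
  have hw1 : 1 ≤ w := Real.one_le_sqrt.2 (by linarith)
  set x := n / σ with hx
  set y := n / s with hy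
  have hxσ : x * σ = n := div_mul_cancel₀ _ hσ.ne'
  have hys : y * s = n := div_mul_cancel₀ _ hs.ne'
  have hx2 : 2 ≤ x := by rw [hx, le_div_iff₀ hσ]; linarith
  have hy2 : 2 ≤ y := by rw [hy, le_div_iff₀ hs]; linarith
  have key : 10 ^ 6 * (x ^ 2 * y * L) ≤ s := by
    have h1 : 10 ^ 6 * (x ^ 2 * y * L) * (s * σ ^ 2) ≤ s * (s * σ ^ 2) := by
      calc 10 ^ 6 * (x ^ 2 * y * L) * (s * σ ^ 2)
          = 10 ^ 6 * ((x * σ) ^ 2 * (y * s)) * L := by ring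
        _ = 10 ^ 6 * (n : ℝ) ^ 3 * L := by rw [hxσ, hys]; ring
        _ ≤ _ := by linarith
    exact le_of_mul_le_mul_right h1 (by positivity)
  have hsw : 1000 * w ≤ s := by
    refine abs_le_of_sq_le_sq' ?_ hs.le |>.2
    have h1 : (2 : ℝ) ≤ x ^ 2 * L := by nlinarith
    have h2 : 10 ^ 6 * (x ^ 2 * y * L) * s ≤ s * s := by gcongr
    have h3 : 10 ^ 6 * (x ^ 2 * y * L) * s = 10 ^ 6 * (x ^ 2 * L) * n := by rw [← hys]; ring
    nlinarith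
  -- discrete parameters
  have fl : ∀ a : ℝ, 0 ≤ a → (⌊a⌋₊ : ℝ) ≤ a ∧ a < ⌊a⌋₊ + 1 :=
    fun a ha => ⟨Nat.floor_le ha, Nat.lt_floor_add_one a⟩
  obtain ⟨a1, a2⟩ := fl (s / 2) (by positivity)
  obtain ⟨b1, b2⟩ := fl (σ / 2) (by positivity)
  obtain ⟨c1, c2⟩ := fl (2 * w) (by positivity)
  obtain ⟨d1, d2⟩ := fl (3 * w) (by positivity)
  obtain ⟨e1, e2⟩ := fl (5 * y) (by positivity)
  obtain ⟨f1, f2⟩ := fl (5 * x * L) (by positivity)
  obtain ⟨g1, g2⟩ := fl (3 * x) (by positivity)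
  obtain ⟨i1, i2⟩ := fl s hs.le
  have t1 := Nat.le_ceil (σ / 4)
  have t2 := Nat.ceil_lt_add_one (show 0 ≤ σ / 4 by positivity)
  have k1 := Nat.le_ceil ((n : ℝ) / 2 + σ)
  have hu : (((⌊3 * x⌋₊ + 1) * ((⌊5 * x * L⌋₊ + 1 + 1) * (2 * (⌊5 * y⌋₊ + 1) + 6)) : ℕ) : ℝ)
      ≤ s / 2000 := by
    push_cast
    have h1 : (⌊3 * x⌋₊ : ℝ) + 1 ≤ 4 * x := by linarith
    have h2 : (⌊5 * x * L⌋₊ : ℝ) + 1 + 1 ≤ 7 * (x * L) := by nlinarith
    have h3 : 2 * ((⌊5 * y⌋₊ : ℝ) + 1) + 6 ≤ 15 * y := by linarith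
    calc _ ≤ 4 * x * (7 * (x * L) * (15 * y)) := by gcongr
      _ = 420 * (x ^ 2 * y * L) := by ring
      _ ≤ _ := by linarith
  have hru : ⌊3 * x⌋₊ + 1 ≤
      (⌊3 * x⌋₊ + 1) * ((⌊5 * x * L⌋₊ + 1 + 1) * (2 * (⌊5 * y⌋₊ + 1) + 6)) :=
    Nat.le_mul_of_pos_right _ (by positivity)
  set u := (⌊3 * x⌋₊ + 1) * ((⌊5 * x * L⌋₊ + 1 + 1) * (2 * (⌊5 * y⌋₊ + 1) + 6)) with hudef
  have hru' : (⌊3 * x⌋₊ : ℝ) + 1 ≤ u := by exact_mod_cast hru
  refine ham_rel (s := ⌊s / 2⌋₊) (σ := ⌊σ / 2⌋₊) (u := u) (J := ⌊5 * y⌋₊ + 1)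
    (K := ⌊5 * x * L⌋₊ + 1) (r := ⌊3 * x⌋₊) (s0 := 2 * ⌊3 * w⌋₊ + 2) (t := ⌈σ / 4⌉₊)
    (e0 := ⌊2 * w⌋₊) ?_ p1 p2 ?_ ?_ ?_ ?_ ?_ ?_ ?_ ?_ ?_ ?_ le_rfl ?_ ?_
  · intro a b hab
    refine max_le_max (Nat.add_le_add_right (Nat.floor_le_floor ?_) _) ?_
    · gcongr
    · split_ifs <;> omega
  · intro t e he
    refine le_trans ?_ (le_max_left _ _)
    rcases Nat.eq_zero_or_pos e with h0 | h0
    · omega
    · obtain ⟨e', rfl⟩ : ∃ e', e = e' + 1 := ⟨e - 1, by omega⟩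
      have : 2 * e' ≤ ⌊4 * √(t : ℝ)⌋₊ := by
        refine le_floor_of_sq (by positivity) ?_
        rw [mul_pow, Real.sq_sqrt (by positivity)]
        have : (2 * e') ^ 2 ≤ 16 * t := by nlinarith
        have : (((2 * e') ^ 2 : ℕ) : ℝ) ≤ (16 * t : ℕ) := by exact_mod_cast this
        push_cast at this ⊢
        linarith
      omega
  · intro e he
    refine le_floor_of_sq (by positivity) ?_
    have : ((e * (e + 1) : ℕ) : ℝ) ≤ (4 * ⌈σ / 4⌉₊ : ℕ) := by exact_mod_cast he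
    push_cast at this
    have h0 : (0 : ℝ) ≤ e := by positivity
    nlinarith
  · refine le_trans ?_ (le_max_right _ _)
    rw [if_pos le_rfl]
    have : (⌊s / 2⌋₊ : ℝ) + 2 * ⌊2 * w⌋₊ + 1 ≤ ⌊s⌋₊ := by linarith
    exact_mod_cast this
  · have : (n : ℝ) + 2 * ⌊σ / 2⌋₊ + (2 * ⌈σ / 4⌉₊ + ⌊2 * w⌋₊ + 2) ≤ 2 * ⌈(n : ℝ) / 2 + σ⌉₊ := by
      linarith
    exact_mod_cast this
  · have : (2 * ⌈σ / 4⌉₊ + ⌊2 * w⌋₊ + 2 : ℝ) ≤ 2 * ⌊σ / 2⌋₊ := by linarith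
    exact_mod_cast this
  · have h1 : 0.45 * s ≤ ⌊s / 2⌋₊ := by linarith
    have : (2 * n : ℝ) < (⌊5 * y⌋₊ + 1) * ⌊s / 2⌋₊ := by
      calc (2 * n : ℝ) < 5 * y * (0.45 * s) := by nlinarith
        _ ≤ _ := by gcongr
    exact_mod_cast this
  · have : (2 * u : ℝ) < ⌊s / 2⌋₊ := by linarith
    exact_mod_cast this
  · exact Nat.floor_le_floor (by linarith)
  · refine exp_bound (by omega) (by omega) ?_ ?_
    · have : (⌊σ / 2⌋₊ : ℝ) ≤ n := by linarith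
      exact_mod_cast this
    · have h1 : 0.45 * σ ≤ ⌊σ / 2⌋₊ := by linarith
      push_cast
      calc 2 * L * n < 0.45 * σ * (5 * x * L) := by
            have : 0.45 * σ * (5 * x * L) = 2.25 * L * (x * σ) := by ring
            rw [this, hxσ]; nlinarith
        _ ≤ _ := by gcongr
  · have h1 : 0.45 * σ ≤ ⌊σ / 2⌋₊ := by linarith
    have : (n : ℝ) ≤ (⌊3 * x⌋₊ + 1) * ⌊σ / 2⌋₊ := by
      calc (n : ℝ) ≤ 3 * x * (0.45 * σ) := by nlinarith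
        _ ≤ _ := by gcongr
    exact_mod_cast this
  · intro e he
    have : e ≤ ⌊3 * w⌋₊ := by
      refine le_floor_of_sq (by positivity) ?_
      have : ((e * (e + 1) : ℕ) : ℝ) ≤ (4 * n + 6 : ℕ) := by exact_mod_cast he
      push_cast at this
      have h0 : (0 : ℝ) ≤ e := by positivity
      nlinarith
    omega
  · have : (2 * ⌊3 * w⌋₊ + 2 + (u + (⌊3 * x⌋₊ + 1)) : ℝ) ≤ ⌊s / 2⌋₊ := by linarith
    exact_mod_cast this

end Pool.Agent.Lib.MP_c8ddae_co
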