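import Pool.Agent.Lib.MP_c8ddae_co.H8Ext3
import Pool.Agent.Lib.MP_c8ddae_co.H8Num

set_option autoImplicit false
open Finset

namespace Pool.Agent.Lib.MP_c8ddae_co

variable {V : Type} [Fintype V] [DecidableEq V] {E : V → V → Prop}

theorem ham_exact_nat [Nonempty V] (hirr : ∀ v, ¬ E v v) {c s η l : ℕ} (hp : PosC E c s)
    (hp' : PosC (flip E) c s) (hs : s ≤ c) (hc : Fintype.card V ≤ 2 * c)
    (hc' : 2 * c ≤ Fintype.card V + 1) (hsη : 300 * η ≤ s) (hl : Real.log (Fintype.card V) ≤ l)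
    (hl1 : 1 ≤ l) (hη : 9600 * l * Fintype.card V ^ 4 ≤ η ^ 5) : Ham E := by
  have hn := Fintype.card_pos (α := V)
  set n := Fintype.card V with hn'
  have η0 : 0 < η := Nat.pos_of_ne_zero fun e => by
    have : 0 < 9600 * l * n ^ 4 := by positivity
    rw [e] at hη; omega
  have ηn : η ≤ n := by omega
  obtain ⟨J, hJ1, hJ2⟩ : ∃ J, n < J * η ∧ J * η ≤ 2 * n :=
    ⟨n / η + 1, by rw [mul_comm]; exact Nat.lt_mul_div_succ n η0, by
      have := Nat.div_mul_le_self n η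
      rw [add_mul]; omega⟩
  have J0 : 1 ≤ J := Nat.pos_of_ne_zero fun e => by simp [e] at hJ1
  have k1 : 600 * (l * J ^ 4) ≤ η := by
    have a1 : (J * η) ^ 4 ≤ (2 * n) ^ 4 := Nat.pow_le_pow_left hJ2 4
    refine Nat.le_of_mul_le_mul_right ?_ (pow_pos η0 4)
    calc 600 * (l * J ^ 4) * η ^ 4 = 600 * l * (J * η) ^ 4 := by ring
      _ ≤ 600 * l * (2 * n) ^ 4 := by gcongr
      _ = 9600 * l * n ^ 4 := by ring
      _ ≤ η ^ 5 := hη
      _ = η * η ^ 4 := by ring
  have k2 : 9600 * n ≤ η * η := by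
    refine Nat.le_of_mul_le_mul_right ?_ (pow_pos hn 3)
    calc 9600 * n * n ^ 3 = 9600 * 1 * n ^ 4 := by ring
      _ ≤ 9600 * l * n ^ 4 := by gcongr
      _ ≤ η ^ 5 := hη
      _ = η * η * η ^ 3 := by ring
      _ ≤ η * η * n ^ 3 := by gcongr
  have hs0 : ∀ e, e * (e + 1) ≤ 4 * n + 6 → 2 * e + 2 ≤ η := fun e he => by
    by_contra h
    have : η * η ≤ (2 * e + 1) * (2 * e + 1) := Nat.mul_le_mul (by omega) (by omega)
    nlinarith
  have K1 : 1 ≤ l * J ^ 2 := Nat.mul_pos hl1 (by positivity)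
  have k3 : ∀ a b : ℕ, a ≤ 8 * J → b ≤ 8 * J → a * ((l * J ^ 2 + 1) * b) ≤ 128 * (l * J ^ 4) := by
    intro a b ha hb
    calc a * ((l * J ^ 2 + 1) * b) ≤ 8 * J * ((2 * (l * J ^ 2)) * (8 * J)) := by
          gcongr; omega
      _ = 128 * (l * J ^ 4) := by ring
  have k4 : J ≤ l * J ^ 4 := by
    calc J = 1 * J ^ 1 := by ring
      _ ≤ l * J ^ 4 := Nat.mul_le_mul hl1 (Nat.pow_le_pow_right J0 (by omega))
  have nR : (0 : ℝ) < n := by exact_mod_cast hn
  have lR : (1 : ℝ) ≤ l := by exact_mod_cast hl1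
  have JR : (n : ℝ) < J * η := by exact_mod_cast hJ1
  have JR1 : (1 : ℝ) ≤ J := by exact_mod_cast J0
  by_cases hNE : ∀ S T : Finset V, c - η ≤ S.card → c - η ≤ T.card → 20 * η * η ≤ ecount E S T
  · have := k3 (6 * J + 2) (2 * J + 6) (by omega) (by omega)
    refine ham_ne (u := η / 4) (J := J) (K := l * J ^ 2) (r := 6 * J) (s0 := η) hirr hp hp' hc' hNE
      (by nlinarith) (by omega) hs ?_ (by omega) ?_ ?_ (by omega) hs0 (by omega)
    · have : J * (300 * η) ≤ J * s := Nat.mul_le_mul_left _ hsη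
      nlinarith
    · refine exp_bound hn (by positivity) (by nlinarith) ?_
      push_cast
      have a1 : (n : ℝ) * n < (J * η) * (J * η) := mul_lt_mul'' JR JR nR.le nR.le
      have a2 : Real.log n * (n * n) ≤ l * (n * n) := by gcongr
      have a3 : (l : ℝ) * (n * n) < l * ((J * η) * (J * η)) := by gcongr
      have a4 : (0 : ℝ) < l * (n * n) := by positivity
      nlinarith
    · obtain ⟨h, hh⟩ : ∃ h, c = h + η := ⟨c - η, by omega⟩
      have a1 : J * (4 * (η / 4)) ≤ J * η := Nat.mul_le_mul_left _ (by omega)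
      rw [hh, Nat.add_sub_cancel]
      nlinarith
  · push Not at hNE
    obtain ⟨S, T, h1, h2, h3⟩ := hNE
    obtain ⟨S', s1, s2⟩ := exists_subset_card_eq h1
    obtain ⟨T', t1, t2⟩ := exists_subset_card_eq h2
    have := k3 (2 * J + 3) (2 * J + 4) (by omega) (by omega)
    refine ham_ext (u := η) (J := J) (K := l * J ^ 2) (r := J) (s0 := η) (S := S') (T := T') hirr
      hp hp' hs hc hc' η0 hsη (by omega) (by omega) ((ecount_mono E s1 t1).trans h3.le) le_rfl
      (by nlinarith) ?_ (by nlinarith) (by omega) hs0 le_rfl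
    refine exp_bound hn hn (by omega) ?_
    push_cast
    have a2 : Real.log n * n ≤ l * n := by gcongr
    have a3 : (l : ℝ) * n < l * (J * η) := by gcongr
    have a4 : (0 : ℝ) < l * n := by positivity
    have a5 : (l : ℝ) * (J * η) * 1 ≤ l * (J * η) * J := by gcongr
    nlinarith

lemma posC_of_real (ρ : V → V → Prop) (s : ℝ) (hs : 0 ≤ s)
    (h : ∀ k : ℕ, (k : ℝ) < Fintype.card V / 2 →
      ((univ.filter (deg ρ univ · ≤ k)).card : ℝ) ≤ max 0 (k - s)) :
    PosC ρ ((Fintype.card V + 1) / 2) ⌊s⌋₊ := by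
  intro k hk hne
  have h0 : (2 * k : ℝ) < Fintype.card V := by exact_mod_cast (by omega : 2 * k < Fintype.card V)
  have hp : (0 : ℝ) < (univ.filter (deg ρ univ · ≤ k)).card := by exact_mod_cast card_pos.2 hne
  have h4 := (le_max_iff.1 (h k (by linarith))).resolve_left (not_le.2 hp)
  have := Nat.floor_le hs
  have : ((univ.filter (deg ρ univ · ≤ k)).card : ℝ) + ⌊s⌋₊ ≤ k := by linarith
  exact_mod_cast this

theorem ham_exact_real [Nonempty V] (hirr : ∀ v, ¬ E v v) (s : ℝ) (hs0 : 0 < s)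
    (hs : s ≤ Fintype.card V / 2)
    (hC : 10 ^ 19 * (Fintype.card V : ℝ) ^ 4 * Real.log (Fintype.card V) ≤ s ^ 5)
    (h : ∀ k : ℕ, (k : ℝ) < Fintype.card V / 2 →
      ((univ.filter (deg E univ · ≤ k)).card : ℝ) ≤ max 0 (k - s))
    (h' : ∀ k : ℕ, (k : ℝ) < Fintype.card V / 2 →
      ((univ.filter (deg (flip E) univ · ≤ k)).card : ℝ) ≤ max 0 (k - s)) : Ham E := by
  have p1 := posC_of_real E s hs0.le h
  have p2 := posC_of_real (flip E) s hs0.le h'
  have hn := Fintype.card_pos (α := V)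
  have n2 : 2 ≤ Fintype.card V := by
    by_contra hc
    obtain ⟨v⟩ := ‹Nonempty V›
    have e1 : Fintype.card V = 1 := by omega
    have e2 : deg E univ v ≤ 0 := by
      by_contra e
      obtain ⟨y, -, y1, -⟩ := exists_of_lt_deg E univ ∅ v (by rw [card_empty]; omega)
      exact hirr v (by rwa [Fintype.card_le_one_iff.1 e1.le y v] at y1)
    have := p1 0 (by omega) ⟨v, mem_filter.2 ⟨mem_univ _, e2⟩⟩
    have := card_pos.2 (⟨v, mem_filter.2 ⟨mem_univ _, e2⟩⟩ :
      (univ.filter (deg E univ · ≤ 0)).Nonempty)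
    omega
  set n := Fintype.card V with hn'
  have nR : (2 : ℝ) ≤ n := by exact_mod_cast n2
  have lg : 1 / 2 ≤ Real.log n := by
    have := Real.log_two_gt_d9
    have := Real.log_le_log (by norm_num) nR
    linarith
  have s600 : 600 ≤ s := by
    by_contra hc
    have a1 : s ^ 5 ≤ 600 ^ 5 := by gcongr; linarith
    have a2 : (2 : ℝ) ^ 4 ≤ n ^ 4 := by gcongr
    nlinarith
  have f1 := Nat.floor_le (show 0 ≤ s / 300 by positivity)
  have f2 := Nat.lt_floor_add_one (s / 300)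
  have f3 := Nat.ceil_lt_add_one (show 0 ≤ Real.log n by linarith)
  refine ham_exact_nat (η := ⌊s / 300⌋₊) (l := ⌈Real.log n⌉₊) hirr p1 p2 ?_ (by omega) (by omega)
    (Nat.le_floor (by push_cast; linarith)) (Nat.le_ceil _) (Nat.ceil_pos.2 (by linarith)) ?_
  · have := Nat.floor_le hs0.le
    have : (2 * ⌊s⌋₊ : ℝ) ≤ n := by linarith
    have : 2 * ⌊s⌋₊ ≤ n := by exact_mod_cast this
    omega
  · have a1 : (s / 600) ^ 5 ≤ (⌊s / 300⌋₊ : ℝ) ^ 5 := by gcongr; linarith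
    have a2 : (⌈Real.log n⌉₊ : ℝ) * n ^ 4 ≤ 3 * Real.log n * n ^ 4 := by gcongr; linarith
    have a3 : 0 ≤ Real.log n * n ^ 4 := by positivity
    have : (9600 * ⌈Real.log n⌉₊ * n ^ 4 : ℝ) ≤ (⌊s / 300⌋₊ : ℝ) ^ 5 := by
      rw [div_pow] at a1
      nlinarith
    exact_mod_cast this

end Pool.Agent.Lib.MP_c8ddae_co
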