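import Pool.Agent.Lib.MP_c8ddae_co.H8RE3

set_option autoImplicit false
open Finset

namespace Pool.Agent.Lib.MP_c8ddae_co

variable {V : Type} [Fintype V] [DecidableEq V] {E : V → V → Prop}

lemma PosF.max {ρ : V → V → Prop} {c : ℕ} {f g h : ℕ → ℕ} (h1 : PosF ρ c f) (h2 : PosF ρ c g)
    (h3 : ∀ k, h k ≤ g k) : PosF ρ c fun k => Max.max (f k) (h k) := fun k hk hne => by
  have := h1 k hk hne
  have := h2 k hk hne
  have := h3 k
  show _ + Max.max (f k) (h k) ≤ k
  omega

lemma PosF.top {ρ : V → V → Prop} {c s : ℕ} {f : ℕ → ℕ} (h : PosF ρ c f) (h1 : s ≤ f (c - 1))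
    (h2 : s < c) : Top ρ c s := by
  unfold Top
  rcases (univ.filter (deg ρ univ · < c)).eq_empty_or_nonempty with h0 | ⟨x, hx⟩
  · rw [h0]; simpa using h2.le
  · have hsub : univ.filter (deg ρ univ · < c) ⊆ univ.filter (deg ρ univ · ≤ c - 1) :=
      fun v hv => mem_filter.2 ⟨mem_univ _, by have := (mem_filter.1 hv).2; omega⟩
    have := h (c - 1) (by omega) ⟨x, hsub hx⟩
    have := card_le_card hsub
    omega

theorem ham_master_nat [Nonempty V] (hirr : ∀ v, ¬ E v v) {c q σ s l : ℕ} {g : ℕ → ℕ}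
    (gm : Monotone g) (g1 : ∀ t e, e * (e + 1) ≤ 4 * t + 2 → 2 * e + 2 ≤ g t)
    (g2 : ∀ k, ∃ a, g k = a + 4 ∧ a * a ≤ 16 * k)
    (hp : PosF E c g) (hp' : PosF (flip E) c g) (hm : PosF E c fun k => min (k / q) s)
    (hm' : PosF (flip E) c fun k => min (k / q) s) (hc : Fintype.card V ≤ 2 * c)
    (hc' : 2 * c ≤ Fintype.card V + 1) (hq : 1 ≤ q) (hqs : q * s < c)
    (hs : 40510 * q ^ 3 * σ ≤ s) (hl : Real.log (Fintype.card V) ≤ l) (hl1 : 1 ≤ l)
    (hσ : 8 * l * Fintype.card V ^ 4 ≤ q ^ 3 * σ ^ 5) : Ham E := by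
  have hn := Fintype.card_pos (α := V)
  set n := Fintype.card V with hn'
  have σ0 : 0 < σ := Nat.pos_of_ne_zero fun e => by
    have : 0 < 8 * l * n ^ 4 := by positivity
    rw [e] at hσ; omega
  obtain ⟨η, hη⟩ : ∃ η, η = 10 * (q * σ) := ⟨_, rfl⟩
  have w1 : σ ≤ q * σ := Nat.le_mul_of_pos_left _ hq
  have w2 : η ≤ q * η := Nat.le_mul_of_pos_left _ hq
  have w3 : q * η ≤ q * (q * η) := Nat.le_mul_of_pos_left _ hq
  have w4 : 4051 * (q * (q * η)) ≤ s := by
    calc 4051 * (q * (q * η)) = 40510 * q ^ 3 * σ := by rw [hη]; ring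
      _ ≤ s := hs
  have w5 : s ≤ q * s := Nat.le_mul_of_pos_left _ hq
  have η0 : 0 < η := by omega
  have ηn : η ≤ n := by omega
  obtain ⟨J, hJ1, hJ2⟩ : ∃ J, n < J * η ∧ J * η ≤ 2 * n :=
    ⟨n / η + 1, by rw [mul_comm]; exact Nat.lt_mul_div_succ n η0, by
      have := Nat.div_mul_le_self n η
      rw [add_mul]; omega⟩
  have J0 : 1 ≤ J := Nat.pos_of_ne_zero fun e => by simp [e] at hJ1
  have k1 : 5000 * (l * q * J ^ 4) ≤ σ := by
    have a1 : (J * η) ^ 4 ≤ (2 * n) ^ 4 := Nat.pow_le_pow_left hJ2 4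
    refine Nat.le_of_mul_le_mul_right ?_ (pow_pos η0 4)
    calc 5000 * (l * q * J ^ 4) * η ^ 4 = 5000 * l * q * (J * η) ^ 4 := by ring
      _ ≤ 5000 * l * q * (2 * n) ^ 4 := by gcongr
      _ = 10000 * q * (8 * l * n ^ 4) := by ring
      _ ≤ 10000 * q * (q ^ 3 * σ ^ 5) := by gcongr
      _ = σ * η ^ 4 := by rw [hη]; ring
  have k2 : 8000 * n ≤ σ * σ := by
    refine Nat.le_of_mul_le_mul_right ?_ (pow_pos hn 3)
    calc 8000 * n * n ^ 3 = 1000 * (8 * 1 * n ^ 4) := by ring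
      _ ≤ 1000 * (8 * l * n ^ 4) := by gcongr
      _ ≤ 1000 * (q ^ 3 * σ ^ 5) := by gcongr
      _ = σ * σ * η ^ 3 := by rw [hη]; ring
      _ ≤ σ * σ * n ^ 3 := by gcongr
  have hs0 : ∀ e, e * (e + 1) ≤ 4 * n + 6 → 2 * e + 2 ≤ σ / 8 := fun e he => by
    by_contra h
    have : σ * σ ≤ (16 * e + 15) * (16 * e + 15) := Nat.mul_le_mul (by omega) (by omega)
    nlinarith
  have g3 : ∀ k, k ≤ n → g k ≤ σ := fun k hk => by
    obtain ⟨a, a1, a2⟩ := g2 k
    by_contra h
    have : σ * σ ≤ (a + 3) * (a + 3) := Nat.mul_le_mul (by omega) (by omega)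
    nlinarith
  have K1 : 1 ≤ l * J ^ 2 := Nat.mul_pos hl1 (by positivity)
  have qJ : J ≤ q * J := Nat.le_mul_of_pos_left _ hq
  have k3 : ∀ a b : ℕ, a ≤ 10 * J → b ≤ 46 * (q * J) →
      a * ((l * J ^ 2 + 1) * b) ≤ 920 * (l * q * J ^ 4) := by
    intro a b ha hb
    calc a * ((l * J ^ 2 + 1) * b) ≤ 10 * J * ((2 * (l * J ^ 2)) * (46 * (q * J))) := by
          gcongr; omega
      _ = 920 * (l * q * J ^ 4) := by ring
  have k4 : q * J ≤ l * q * J ^ 4 := by
    calc q * J = 1 * q * J ^ 1 := by ring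
      _ ≤ l * q * J ^ 4 := by gcongr; omega
  have nR : (0 : ℝ) < n := by exact_mod_cast hn
  have lR : (1 : ℝ) ≤ l := by exact_mod_cast hl1
  have JR : (n : ℝ) < J * η := by exact_mod_cast hJ1
  have JR1 : (1 : ℝ) ≤ J := by exact_mod_cast J0
  have mm : Monotone fun k => min (k / q) s := fun a b hab =>
    min_le_min_right _ (Nat.div_le_div_right hab)
  have mv : ∀ a k, q * a ≤ k → a ≤ s → a ≤ min (k / q) s := fun a k h1 h2 =>
    le_min ((Nat.le_div_iff_mul_le hq).2 (by rwa [mul_comm])) h2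
  have e0 : ∀ t, t ≤ n → ∀ e, e * (e + 1) ≤ 4 * t → e ≤ σ / 16 := fun t ht e he => by
    have := hs0 e (by omega); omega
  have ηη : 100 * (σ * σ) ≤ η * η := by
    have : 10 * σ * (10 * σ) ≤ η * η := Nat.mul_le_mul (by omega) (by omega)
    nlinarith
  by_cases hNE : ∀ S T : Finset V, c - η ≤ S.card → c - η ≤ T.card → 20 * η * η ≤ ecount E S T
  · have := k3 (8 * J + 2) (2 * (20 * (q * J)) + 6) (by omega) (by omega)
    have m1 := mv (2 * σ) (q * (2 * σ)) le_rfl (by omega)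
    have m2 : q * (2 * σ) = 2 * (q * σ) := by ring
    refine ham_rel_ne (s := σ) (u := σ / 4) (J := 20 * (q * J)) (K := l * J ^ 2) (r := 8 * J)
      (s0 := σ / 8) (t := q * (2 * σ)) (e0 := σ / 16) (h := c - η) (g := 19 * η * η) (l := l)
      (φ := fun k => max (g k) (min (k / q) s)) (gm.max mm) (hp.max hm fun _ => le_rfl)
      (hp'.max hm' fun _ => le_rfl) (fun t e he => (g1 t e he).trans (le_max_left _ _))
      (e0 _ (by omega)) (le_trans (by omega) (m1.trans (le_max_right _ _))) hc'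
      (fun S T h1 h2 => le_trans (by nlinarith) (hNE S T h1 h2)) (by nlinarith) (by omega)
      (by omega) ?_ (by omega) hl ?_ ?_ (by omega) hs0 (by omega)
    · have : 20 * (q * J) * σ = 2 * (J * η) := by rw [hη]; ring
      omega
    · have a1 : n * n < (J * η) * (J * η) := Nat.mul_lt_mul'' hJ1 hJ1
      have a2 : l * (n * n) < l * ((J * η) * (J * η)) := Nat.mul_lt_mul_of_pos_left a1 hl1
      have a3 : 19 * η * η * (l * J ^ 2) = 19 * (l * ((J * η) * (J * η))) := by ring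
      have a4 : 2 * l * (n * n) = 2 * (l * (n * n)) := by ring
      show 2 * l * (n * n) < _
      omega
    · obtain ⟨h, hh⟩ : ∃ h, c = h + η := ⟨c - η, by omega⟩
      have a1 : J * (10 * (2 * (σ / 4) + (2 * (q * (2 * σ)) + σ / 16 + 1))) ≤ J * (6 * η) :=
        Nat.mul_le_mul_left _ (by omega)
      rw [hh, Nat.add_sub_cancel]
      nlinarith
  · push Not at hNE
    obtain ⟨S, T, h1, h2, h3⟩ := hNE
    obtain ⟨S', s1, s2⟩ := exists_subset_card_eq h1
    obtain ⟨T', t1, t2⟩ := exists_subset_card_eq h2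
    have := k3 (2 * J + 3) (2 * J + 4) (by omega) (by omega)
    have hq2 : ∀ ρ : V → V → Prop, (PosF ρ c fun k => min (k / q) s) → ∀ k, q * (44 * η) ≤ k →
        k < c → (univ.filter (deg ρ univ · ≤ k)).Nonempty → (univ.filter (deg ρ univ · ≤ k)).card +
          max (g k) (min (k / q) s / 2) + 22 * η ≤ k := fun ρ h k b1 b2 b3 => by
      have := h k b2 b3
      have := mv _ _ b1 (by omega)
      have := g3 k (by omega)
      beta_reduce at *
      omega
    have m1 := mv (602 * (q * η)) (q * (602 * (q * η))) le_rfl (by omega)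
    have m2 : q * (602 * (q * η)) = 602 * (q * (q * η)) := by ring
    have m3 : q * (44 * η) = 44 * (q * η) := by ring
    have m4 := mv s (c - 1) (by omega) le_rfl
    have m5 := g3 (c - 1) (by omega)
    refine ham_rel_ext (st := s) (η := η) (D0 := q * (44 * η)) (t := q * (602 * (q * η)))
      (e0 := σ / 16) (s1 := 300 * (q * η)) (θ := 1350 * (q * (q * η))) (u := 2 * η) (J := J)
      (K := l * J ^ 2) (r := J) (s0 := σ / 8) (S := S') (T := T')
      (ψ := fun k => max (g k) (min (k / q) s / 2)) hirr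
      (gm.max fun a b hab => Nat.div_le_div_right (mm hab))
      (hp.max hm fun _ => Nat.div_le_self _ _) (hp'.max hm' fun _ => Nat.div_le_self _ _)
      (hq2 _ hm) (hq2 _ hm') (hm.top m4 (by omega)) (hm'.top m4 (by omega))
      (fun t e he => (g1 t e he).trans (le_max_left _ _)) (e0 _ (by omega))
      (le_trans (by omega) (le_max_right _ _)) (by omega) (by omega) (by beta_reduce; omega) hc hc'
      η0 (by omega) (by omega) (by omega) (by omega) (by omega)
      ((ecount_mono E s1 t1).trans h3.le) le_rfl (by nlinarith) ?_ (by nlinarith) (by omega) hs0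
      (by omega)
    refine exp_bound hn hn (by omega) ?_
    push_cast
    have a2 : Real.log n * n ≤ l * n := by gcongr
    have a3 : (l : ℝ) * n < l * (J * η) := by gcongr
    have a4 : (0 : ℝ) < l * n := by positivity
    have a5 : (l : ℝ) * (J * η) * 1 ≤ l * (J * η) * J := by gcongr
    nlinarith

end Pool.Agent.Lib.MP_c8ddae_co
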