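import Pool.Agent.Lib.MP_c8ddae_co.H8Num3

set_option autoImplicit false
open Finset

namespace Pool.Agent.Lib.MP_c8ddae_co

variable {V : Type} [Fintype V] [DecidableEq V] {E : V → V → Prop}

lemma posF_pair (ρ : V → V → Prop) (ε s : ℝ) (hε : 0 < ε) (hs : 0 < s)
    (h : ∀ k : ℕ, (k : ℝ) < Fintype.card V / 2 → ((univ.filter (deg ρ univ · ≤ k)).card : ℝ) ≤
      max 0 (k - max (4 * √k + 4) (min (ε * k) s))) :
    (PosF ρ ((Fintype.card V + 1) / 2) fun k => ⌊4 * √k⌋₊ + 4) ∧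
      PosF ρ ((Fintype.card V + 1) / 2) fun k => min (k / ⌈1 / ε⌉₊) ⌊s / 8⌋₊ := by
  have key : ∀ k < (Fintype.card V + 1) / 2, (univ.filter (deg ρ univ · ≤ k)).Nonempty →
      ∀ a : ℕ, (a : ℝ) ≤ max (4 * √k + 4) (min (ε * k) s) →
      (univ.filter (deg ρ univ · ≤ k)).card + a ≤ k := by
    intro k hk hne a ha
    have h0 : (2 * k : ℝ) < Fintype.card V := by exact_mod_cast (by omega : 2 * k < Fintype.card V)
    have hp : (0 : ℝ) < (univ.filter (deg ρ univ · ≤ k)).card := by exact_mod_cast card_pos.2 hne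
    have h4 := (le_max_iff.1 (h k (by linarith))).resolve_left (not_le.2 hp)
    have : ((univ.filter (deg ρ univ · ≤ k)).card : ℝ) + a ≤ k := by linarith
    exact_mod_cast this
  refine ⟨fun k hk hne => key k hk hne _ (le_max_of_le_left ?_),
    fun k hk hne => key k hk hne _ (le_max_of_le_right ?_)⟩
  · have := Nat.floor_le (show 0 ≤ 4 * √(k : ℝ) by positivity)
    push_cast
    linarith
  · push_cast
    refine min_le_min ?_ ((Nat.floor_le (by positivity)).trans (by linarith))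
    have q1 := Nat.le_ceil (1 / ε)
    have q0 : (0 : ℝ) < 1 / ε := by positivity
    refine Nat.cast_div_le.trans ?_
    rw [div_le_iff₀ (q0.trans_le q1)]
    have : ε * k * (1 / ε) ≤ ε * k * ⌈1 / ε⌉₊ := by gcongr
    have e : ε * k * (1 / ε) = k := by field_simp
    linarith

theorem ham_master_real [Nonempty V] (hirr : ∀ v, ¬ E v v) (ε s : ℝ) (hε : 0 < ε) (hε1 : ε ≤ 1)
    (hs0 : 0 < s) (hs : s ≤ ε * Fintype.card V / 2)
    (hC : 10 ^ 35 * (Fintype.card V : ℝ) ^ 4 * Real.log (Fintype.card V) ≤ ε ^ 12 * s ^ 5)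
    (h : ∀ k : ℕ, (k : ℝ) < Fintype.card V / 2 → ((univ.filter (deg E univ · ≤ k)).card : ℝ) ≤
      max 0 (k - max (4 * √k + 4) (min (ε * k) s)))
    (h' : ∀ k : ℕ, (k : ℝ) < Fintype.card V / 2 →
      ((univ.filter (deg (flip E) univ · ≤ k)).card : ℝ) ≤
        max 0 (k - max (4 * √k + 4) (min (ε * k) s))) : Ham E := by
  obtain ⟨p1, p3⟩ := posF_pair E ε s hε hs0 h
  obtain ⟨p2, p4⟩ := posF_pair (flip E) ε s hε hs0 h'
  have hn := Fintype.card_pos (α := V)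
  have n2 : 2 ≤ Fintype.card V := by
    by_contra hc
    obtain ⟨v⟩ := ‹Nonempty V›
    have e1 : Fintype.card V = 1 := by omega
    have e2 : deg E univ v ≤ 0 := by
      by_contra e
      obtain ⟨y, -, y1, -⟩ := exists_of_lt_deg E univ ∅ v (by rw [card_empty]; omega)
      exact hirr v (by rwa [Fintype.card_le_one_iff.1 e1.le y v] at y1)
    have := p1 0 (by omega) ⟨v, mem_filter.2 ⟨mem_univ _, e2⟩⟩
    beta_reduce at this
    omega
  set n := Fintype.card V with hn'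
  have nR : (2 : ℝ) ≤ n := by exact_mod_cast n2
  have lg : 1 / 2 ≤ Real.log n := by
    have := Real.log_two_gt_d9
    have := Real.log_le_log (by norm_num) nR
    linarith
  set q := ⌈1 / ε⌉₊ with hq
  have q0 : (1 : ℝ) ≤ 1 / ε := by rw [le_div_iff₀ hε]; linarith
  have q1 : 1 ≤ q := Nat.ceil_pos.2 (by linarith)
  have q2 : (q : ℝ) * ε ≤ 2 := by
    have := Nat.ceil_lt_add_one (show (0 : ℝ) ≤ 1 / ε by positivity)
    have e : (1 / ε + 1) * ε = 1 + ε := by field_simp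
    have : (q : ℝ) * ε ≤ (1 / ε + 1) * ε := by gcongr
    linarith
  have qR : (1 : ℝ) ≤ q := by exact_mod_cast q1
  have sn : s ≤ n := by nlinarith
  have big : 10 ^ 34 ≤ ε ^ 12 * s := by
    have a1 : s ^ 4 ≤ (n : ℝ) ^ 4 := by gcongr
    have a2 : 10 ^ 35 * s ^ 4 * (1 / 2) ≤ 10 ^ 35 * (n : ℝ) ^ 4 * Real.log n := by gcongr
    have a3 : 10 ^ 34 * s ^ 4 ≤ ε ^ 12 * s * s ^ 4 := by
      have : 0 < s ^ 4 := by positivity
      nlinarith
    exact le_of_mul_le_mul_right a3 (by positivity)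
  have q3 : (q : ℝ) ^ 3 * 10 ^ 33 ≤ s := by
    have a1 : ε ^ 12 ≤ ε ^ 3 := pow_le_pow_of_le_one hε.le hε1 (by omega)
    have a2 : ((q : ℝ) * ε) ^ 3 ≤ 2 ^ 3 := by gcongr
    have a3 : (q : ℝ) ^ 3 * 10 ^ 34 ≤ q ^ 3 * (ε ^ 3 * s) := by
      gcongr
      exact big.trans (by gcongr)
    have a4 : ((q : ℝ) * ε) ^ 3 * s ≤ 2 ^ 3 * s := by gcongr
    have a5 : (0 : ℝ) < q ^ 3 := by positivity
    nlinarith
  have f1 := Nat.floor_le (show 0 ≤ s / 8 by positivity)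
  have f2 := Nat.lt_floor_add_one (s / 8)
  have f3 := Nat.ceil_lt_add_one (show 0 ≤ Real.log n by linarith)
  have d0 : 0 < 40510 * q ^ 3 := by positivity
  have d1 := Nat.lt_mul_div_succ ⌊s / 8⌋₊ d0
  set σ := ⌊s / 8⌋₊ / (40510 * q ^ 3) with hσ
  have d2 : (⌊s / 8⌋₊ : ℝ) < 40510 * q ^ 3 * (σ + 1) := by exact_mod_cast d1
  have q4 : (1 : ℝ) ≤ q ^ 3 := one_le_pow₀ qR
  have d3 : s ≤ 648160 * (q ^ 3 * σ) := by nlinarith
  refine ham_master_nat (q := q) (σ := σ) (s := ⌊s / 8⌋₊) (l := ⌈Real.log n⌉₊) hirr ?_ ?_ ?_ p1 p2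
    p3 p4 (by omega) (by omega) q1 ?_ (Nat.mul_div_le _ _) (Nat.le_ceil _)
    (Nat.ceil_pos.2 (by linarith)) ?_
  · intro a b hab
    refine Nat.add_le_add_right (Nat.floor_le_floor ?_) _
    gcongr
  · intro t e he
    rcases Nat.eq_zero_or_pos e with h0 | h0
    · omega
    · obtain ⟨e', rfl⟩ : ∃ e', e = e' + 1 := ⟨e - 1, by omega⟩
      have : 2 * e' ≤ ⌊4 * √(t : ℝ)⌋₊ := by
        refine le_floor_of_sq (by positivity) ?_
        rw [mul_pow, Real.sq_sqrt (by positivity)]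
        have : (2 * e') ^ 2 ≤ 16 * t := by nlinarith
        have : (((2 * e') ^ 2 : ℕ) : ℝ) ≤ (16 * t : ℕ) := by exact_mod_cast this
        push_cast at this ⊢
        linarith
      omega
  · intro k
    refine ⟨_, rfl, ?_⟩
    have a1 := Nat.floor_le (show 0 ≤ 4 * √(k : ℝ) by positivity)
    have a2 : (⌊4 * √(k : ℝ)⌋₊ : ℝ) * ⌊4 * √(k : ℝ)⌋₊ ≤ (4 * √k) * (4 * √k) := by gcongr
    have a3 := Real.mul_self_sqrt (show (0 : ℝ) ≤ k by positivity)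
    have : (⌊4 * √(k : ℝ)⌋₊ : ℝ) * ⌊4 * √(k : ℝ)⌋₊ ≤ 16 * k := by nlinarith
    exact_mod_cast this
  · have a1 : (q : ℝ) * ⌊s / 8⌋₊ ≤ q * (ε * n / 2 / 8) := by gcongr; linarith
    have a2 : (q : ℝ) * ε * n ≤ 2 * n := by gcongr
    have : (8 * (q * ⌊s / 8⌋₊) : ℝ) ≤ n := by nlinarith
    have : 8 * (q * ⌊s / 8⌋₊) ≤ n := by exact_mod_cast this
    omega
  · have a1 : s ^ 5 ≤ (648160 * (q ^ 3 * σ)) ^ 5 := by gcongr
    have a2 : (⌈Real.log n⌉₊ : ℝ) * n ^ 4 ≤ 3 * Real.log n * n ^ 4 := by gcongr; linarith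
    have a3 : ((q : ℝ) * ε) ^ 12 ≤ 2 ^ 12 := by gcongr
    have a4 : ε ^ 12 * s ^ 5 ≤ 648160 ^ 5 * 2 ^ 12 * (q ^ 3 * σ ^ 5) := by
      calc ε ^ 12 * s ^ 5 ≤ ε ^ 12 * (648160 * (q ^ 3 * σ)) ^ 5 := by gcongr
        _ = 648160 ^ 5 * ((q : ℝ) * ε) ^ 12 * (q ^ 3 * σ ^ 5) := by ring
        _ ≤ _ := by gcongr
    have a5 : (0 : ℝ) ≤ q ^ 3 * σ ^ 5 := by positivity
    have : (8 * ⌈Real.log n⌉₊ * n ^ 4 : ℝ) ≤ q ^ 3 * σ ^ 5 := by nlinarith
    exact_mod_cast this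

end Pool.Agent.Lib.MP_c8ddae_co
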