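import Pool.Agent.Lib.MP_c8ddae_co.H8PS

set_option autoImplicit false
open Finset

namespace Pool.Agent.Lib.MP_c8ddae_co

variable {V : Type} [Fintype V] [DecidableEq V] {E : V → V → Prop}

/-- the path of `P` ending at `c` is also a path of `Q` -/
structure Same (P Q : PS E) (c : V) : Prop where
  mem : c ∈ Q.X
  e : ∀ v, Q.e v = c ↔ P.e v = c
  F : ∀ v, P.e v = c → v ≠ c → Q.F v = P.F v
  St : ∀ v, P.e v = c → (Q.St v ↔ P.St v)

lemma Same.refl (P : PS E) {c : V} (hc : c ∈ P.X) : Same P P c :=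
  ⟨hc, fun _ => Iff.rfl, fun _ _ _ => rfl, fun _ _ => Iff.rfl⟩

lemma Same.trans {P Q R : PS E} {c : V} (h1 : Same P Q c) (h2 : Same Q R c) : Same P R c :=
  ⟨h2.mem, fun v => (h2.e v).trans (h1.e v),
    fun v hv hc => (h2.F v ((h1.e v).2 hv) hc).trans (h1.F v hv hc),
    fun v hv => (h2.St v ((h1.e v).2 hv)).trans (h1.St v hv)⟩

lemma Same.mem' {P Q : PS E} {c : V} (h : Same P Q c) : c ∈ P.X := by
  have := (h.e c).1 (Q.e_self c h.mem)
  rw [← this]; exact P.e_mem c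

lemma Same.notMem {P Q : PS E} {c : V} (h : Same P Q c) {w : V} (hw : w ∉ P.X) (he : P.e w = c) :
    w ∉ Q.X := by
  intro hq
  have h1 := (h.e w).2 he
  rw [Q.e_self w hq] at h1
  exact hw (h1 ▸ h.mem')

lemma PS.notMem_of_e {P : PS E} {v c : V} (h : P.e v = c) (hne : v ≠ c) : v ∉ P.X :=
  fun hv => hne ((P.e_self v hv).symm.trans h)

lemma PS.IsJoin.same {P Q : PS E} {a b c : V} (h : PS.IsJoin P Q a b) (hc : c ∈ P.X)
    (ha : a ≠ c) (hb : P.e b ≠ c) : Same P Q c where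
  mem := by rw [h.X]; exact mem_erase.2 ⟨ha.symm, hc⟩
  e v := by
    rw [h.e]
    split_ifs with h1
    · exact ⟨fun h2 => absurd h2 hb, fun h2 => absurd (h1.symm.trans h2) ha⟩
    · rfl
  F v hv hne := h.F v (PS.notMem_of_e hv hne)
  St v hv := by
    rw [h.St]
    exact ⟨fun h1 => h1.1, fun h1 => ⟨h1, fun h2 => hb (h2 ▸ hv)⟩⟩

lemma PS.IsCut.same {P Q : PS E} {w c : V} (h : PS.IsCut P Q w) (hc : c ∈ P.X)
    (hw : w ∉ P.X) (hne : P.e w ≠ c) : Same P Q c where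
  mem := by rw [h.X]; exact mem_insert_of_mem hc
  e v := by
    rw [h.e]
    split_ifs with h1
    · exact ⟨fun h2 => absurd (h2 ▸ hc) hw, fun h2 => absurd (h1.1.symm.trans h2) hne⟩
    · rfl
  F v _ _ := by rw [h.F]
  St v hv := by
    rw [h.St]
    refine ⟨fun h1 => h1.resolve_right fun h2 => hne ?_, Or.inl⟩
    rw [← P.e_step w hw, ← h2, hv]

lemma PS.not_St_F (P : PS E) {w : V} (hw : w ∉ P.X) : ¬ P.St (P.F w) := by
  rw [P.St_F]; exact hw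

/-- all paths ending in `Z` are kept -/
def Keep (P Q : PS E) (Z : Finset V) : Prop := ∀ c ∈ Z, Same P Q c

lemma Keep.e_mem {P Q : PS E} {Z : Finset V} (h : Keep P Q Z) (v : V) :
    Q.e v ∈ Z ↔ P.e v ∈ Z :=
  ⟨fun h1 => by rw [((h _ h1).e v).1 rfl]; exact h1,
    fun h1 => by rw [((h _ h1).e v).2 rfl]; exact h1⟩

lemma Keep.trans {P Q R : PS E} {Z : Finset V} (h1 : Keep P Q Z) (h2 : Keep Q R Z) :
    Keep P R Z := fun c hc => (h1 c hc).trans (h2 c hc)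

lemma Keep.refl (P : PS E) {Z : Finset V} (h : Z ⊆ P.X) : Keep P P Z :=
  fun _ hc => Same.refl P (h hc)

lemma Keep.sub {P Q : PS E} {Z : Finset V} (h : Keep P Q Z) : Z ⊆ Q.X := fun c hc => (h c hc).mem

lemma PS.IsJoin.keep {P Q : PS E} {a b : V} {Z : Finset V} (h : PS.IsJoin P Q a b)
    (hZ : Z ⊆ P.X) (ha : a ∉ Z) (hb : P.e b ∉ Z) : Keep P Q Z :=
  fun _ hc => h.same (hZ hc) (fun h1 => ha (h1 ▸ hc)) (fun h1 => hb (h1 ▸ hc))

lemma PS.IsCut.keep {P Q : PS E} {w : V} {Z : Finset V} (h : PS.IsCut P Q w)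
    (hZ : Z ⊆ P.X) (hw : w ∉ P.X) (he : P.e w ∉ Z) : Keep P Q Z :=
  fun _ hc => h.same (hZ hc) hw (fun h1 => he (h1 ▸ hc))

/-- `Q` has one end `a` and one start `b` less than `P`; the paths ending in `Z` are kept. -/
structure Red (P Q : PS E) (Z : Finset V) (a b : V) : Prop where
  X : Q.X = P.X.erase a
  St : ∀ c, Q.St c ↔ P.St c ∧ c ≠ b
  keep : Keep P Q Z

lemma PS.IsCut.e_F {P Q : PS E} {w : V} (h : PS.IsCut P Q w) (hw : w ∉ P.X) :
    Q.e (P.F w) = P.e w := by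
  have := P.d_step w hw
  rw [h.e, if_neg (by omega), P.e_step w hw]

lemma PS.IsCut.e_ne {P Q : PS E} {w v : V} (h : PS.IsCut P Q w) (hv : P.e v ≠ P.e w) :
    Q.e v = P.e v := by
  rw [h.e, if_neg (fun h1 => hv h1.1)]

/-- two-switch: `a → F w`, `w → b` -/
lemma red_switch (P : PS E) (Z : Finset V) (hZ : Z ⊆ P.X) {a b w : V} (ha : a ∈ P.X)
    (hb : P.St b) (hw : w ∉ P.X) (haZ : a ∉ Z) (hbZ : P.e b ∉ Z) (hwZ : P.e w ∉ Z)
    (h1 : P.e w ≠ a) (h2 : P.e b ≠ P.e w) (hE1 : E a (P.F w)) (hE2 : E w b) :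
    ∃ Q, Red P Q Z a b := by
  obtain ⟨P1, c1⟩ := P.exists_cut hw
  have k1 := c1.keep hZ hw hwZ
  have ez := c1.e_F hw
  have eb := c1.e_ne h2
  obtain ⟨P2, j2⟩ := P1.exists_join (a := a) (b := P.F w) (by rw [c1.X]; exact mem_insert_of_mem ha)
    ((c1.St _).2 (Or.inr rfl)) (by rw [ez]; exact h1) hE1
  have k2 := j2.keep k1.sub haZ (by rw [ez]; exact hwZ)
  have hwa : w ≠ a := fun h => hw (h ▸ ha)
  have hbz : b ≠ P.F w := fun h => P.not_St_F hw (h ▸ hb)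
  have eb2 : P2.e b = if P.e b = a then P.e w else P.e b := by rw [j2.e, eb, ez]
  have hne : ∀ v, P.e v ≠ w := fun v h => hw (h ▸ P.e_mem v)
  obtain ⟨P3, j3⟩ := P2.exists_join (a := w) (b := b)
    (by rw [j2.X, c1.X]; exact mem_erase.2 ⟨hwa, mem_insert_self _ _⟩)
    ((j2.St _).2 ⟨(c1.St _).2 (Or.inl hb), hbz⟩)
    (by rw [eb2]; split_ifs <;> exact hne _) hE2
  have k3 := j3.keep k2.sub (fun h => hw (hZ h)) (by rw [eb2]; split_ifs <;> assumption)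
  refine ⟨P3, ?_, ?_, k1.trans (k2.trans k3)⟩
  · rw [j3.X, j2.X, c1.X]
    ext v
    simp only [mem_erase, mem_insert]
    constructor
    · rintro ⟨h3, h4, h5 | h5⟩
      · exact absurd h5 h3
      · exact ⟨h4, h5⟩
    · rintro ⟨h3, h4⟩
      exact ⟨fun h => hw (h ▸ h4), h3, Or.inr h4⟩
  · intro c
    rw [j3.St, j2.St, c1.St]
    constructor
    · rintro ⟨⟨h3 | h3, h4⟩, h5⟩
      · exact ⟨h3, h5⟩
      · exact absurd h3 h4
    · rintro ⟨h3, h4⟩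
      exact ⟨⟨Or.inl h3, fun h => P.not_St_F hw (h ▸ h3)⟩, h4⟩

lemma red_join (P : PS E) (Z : Finset V) (hZ : Z ⊆ P.X) {a b : V} (ha : a ∈ P.X)
    (hb : P.St b) (haZ : a ∉ Z) (hbZ : P.e b ∉ Z) (h1 : P.e b ≠ a) (hE : E a b) :
    ∃ Q, Red P Q Z a b := by
  obtain ⟨Q, j⟩ := P.exists_join ha hb h1 hE
  exact ⟨Q, j.X, j.St, j.keep hZ haZ hbZ⟩

/-- the path ending at `c` closes up to a cycle that can be inserted between any `G`-pair -/
def Cyc (P : PS E) (G : V → V → Prop) (c : V) : Prop :=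
  (∃ b, P.St b ∧ P.e b = c ∧ E c b) ∧
    ∀ x y, G x y → ∃ w, w ∉ P.X ∧ P.e w = c ∧ E x (P.F w) ∧ E w y

lemma Cyc.same {P Q : PS E} {G : V → V → Prop} {c : V} (h : Cyc P G c) (hs : Same P Q c) :
    Cyc Q G c := by
  obtain ⟨⟨b, h1, h2, h3⟩, h4⟩ := h
  refine ⟨⟨b, (hs.St b h2).2 h1, (hs.e b).2 h2, h3⟩, fun x y hxy => ?_⟩
  obtain ⟨w, w1, w2, w3, w4⟩ := h4 x y hxy
  refine ⟨w, hs.notMem w1 w2, (hs.e w).2 w2, ?_, w4⟩
  rw [hs.F w w2 (fun h => w1 (h ▸ hs.mem'))]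
  exact w3

/-- swallow the cycle `c` after the end `a`, ready to continue to `b` -/
lemma junction_aux (P : PS E) {G : V → V → Prop} {a b c : V} (hc : c ∈ P.X) (hcy : Cyc P G c)
    (ha : a ∈ P.X) (hac : a ≠ c) (hG : G a b) :
    ∃ (Q : PS E) (w : V), w ∉ P.X ∧ E w b ∧ Q.X = insert w ((P.X.erase a).erase c) ∧
      (∀ v, Q.St v ↔ P.St v ∧ P.e v ≠ c) ∧
      (∀ v, P.e v ≠ c → Q.e v = if P.e v = a then w else P.e v) ∧
      ∀ c' ∈ P.X, c' ≠ a → c' ≠ c → Same P Q c' := by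
  obtain ⟨⟨bc, s1, s2, s3⟩, h4⟩ := hcy
  obtain ⟨w, hw, ew, E1, E2⟩ := h4 a b hG
  obtain ⟨P1, c1⟩ := P.exists_cut hw
  have ez : P1.e (P.F w) = c := by rw [c1.e_F hw, ew]
  have hwa : w ≠ a := fun h => hw (h ▸ ha)
  have hwc : w ≠ c := fun h => hw (h ▸ hc)
  have ebc : P1.e bc = w := by
    rw [c1.e, if_pos ⟨s2.trans ew.symm, P.d_le_start s1 (ew.trans s2.symm)⟩]
  obtain ⟨P2, j2⟩ := P1.exists_join (a := a) (b := P.F w) (by rw [c1.X]; exact mem_insert_of_mem ha)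
    ((c1.St _).2 (Or.inr rfl)) (by rw [ez]; exact hac.symm) E1
  have hbz : bc ≠ P.F w := fun h => P.not_St_F hw (h ▸ s1)
  have ebc2 : P2.e bc = w := by rw [j2.e, ebc, if_neg hwa]
  obtain ⟨P3, j3⟩ := P2.exists_join (a := c) (b := bc)
    (by rw [j2.X, c1.X]; exact mem_erase.2 ⟨hac.symm, mem_insert_of_mem hc⟩)
    ((j2.St _).2 ⟨(c1.St _).2 (Or.inl s1), hbz⟩) (by rw [ebc2]; exact hwc) s3
  refine ⟨P3, w, hw, E2, ?_, ?_, ?_, ?_⟩
  · rw [j3.X, j2.X, c1.X]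
    ext v
    simp only [mem_erase, mem_insert]
    constructor
    · rintro ⟨h1, h2, h3 | h3⟩
      · exact Or.inl h3
      · exact Or.inr ⟨h1, h2, h3⟩
    · rintro (h1 | ⟨h1, h2, h3⟩)
      · exact ⟨h1 ▸ hwc, h1 ▸ hwa, Or.inl h1⟩
      · exact ⟨h1, h2, Or.inr h3⟩
  · intro v
    rw [j3.St, j2.St, c1.St]
    constructor
    · rintro ⟨⟨h1 | h1, h2⟩, h3⟩
      · exact ⟨h1, fun h => h3 (P.start_unique h1 s1 (h.trans s2.symm))⟩
      · exact absurd h1 h2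
    · rintro ⟨h1, h2⟩
      exact ⟨⟨Or.inl h1, fun h => P.not_St_F hw (h ▸ h1)⟩, fun h => h2 (h ▸ s2)⟩
  · intro v hv
    have e1 : P1.e v = P.e v := c1.e_ne (by rw [ew]; exact hv)
    rw [j3.e, ebc2, j2.e, e1, ez]
    by_cases h : P.e v = a
    · simp [h]
    · simp [h, hv]
  · intro c' hc' h1 h2
    have s1 := c1.same hc' hw (by rw [ew]; exact h2.symm)
    have s2 := j2.same s1.mem h1.symm (by rw [ez]; exact h2.symm)
    have s3 := j3.same s2.mem h2.symm (by rw [ebc2]; exact fun h => hw (h ▸ hc'))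
    exact s1.trans (s2.trans s3)

lemma junction_close (P : PS E) {G : V → V → Prop} {a b c : V} (hcy : Cyc P G c)
    (hX : P.X = {a, c}) (hac : a ≠ c) (hb : P.St b) (hbc : P.e b ≠ c) (hG : G a b) : Ham E := by
  obtain ⟨Q, w, _, hE, hQX, hSt, -⟩ := junction_aux P (by rw [hX]; simp) hcy (by rw [hX]; simp)
    hac hG
  refine Q.ham (x := w) (b := b) ?_ ((hSt b).2 ⟨hb, hbc⟩) hE
  rw [hQX, hX]
  ext v
  simp only [mem_insert, mem_erase, mem_singleton]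
  tauto

lemma junction (P : PS E) {G : V → V → Prop} {a b c : V} (hc : c ∈ P.X) (hcy : Cyc P G c)
    (ha : a ∈ P.X) (hac : a ≠ c) (hb : P.St b) (hbc : P.e b ≠ c) (hba : P.e b ≠ a) (hG : G a b) :
    ∃ Q : PS E, Q.X = (P.X.erase a).erase c ∧
      (∀ v, Q.St v ↔ P.St v ∧ P.e v ≠ c ∧ v ≠ b) ∧
      (∀ v, P.e v ≠ c → Q.e v = if P.e v = a then P.e b else P.e v) ∧
      ∀ c' ∈ P.X, c' ≠ a → c' ≠ c → c' ≠ P.e b → Same P Q c' := by
  obtain ⟨Q, w, hw, hE, hQX, hSt, he, hs⟩ := junction_aux P hc hcy ha hac hG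
  have eb : Q.e b = P.e b := by rw [he b hbc, if_neg hba]
  have hne : ∀ v, P.e v ≠ w := fun v h => hw (h ▸ P.e_mem v)
  obtain ⟨R, j⟩ := Q.exists_join (a := w) (b := b) (by rw [hQX]; exact mem_insert_self _ _)
    ((hSt b).2 ⟨hb, hbc⟩) (by rw [eb]; exact hne b) hE
  refine ⟨R, ?_, ?_, ?_, ?_⟩
  · rw [j.X, hQX, erase_insert]
    exact fun h => hw (mem_of_mem_erase (mem_of_mem_erase h))
  · intro v
    rw [j.St, hSt, and_assoc]
  · intro v hv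
    rw [j.e, eb, he v hv]
    by_cases h : P.e v = a
    · simp [h]
    · simp [h, hne v]
  · intro c' hc' h1 h2 h3
    have s1 := hs c' hc' h1 h2
    exact s1.trans (j.same s1.mem (fun h => hw (h ▸ hc')) (by rw [eb]; exact h3.symm))

end Pool.Agent.Lib.MP_c8ddae_co
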