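import Mathlib

set_option autoImplicit false
open Finset

namespace Pool.Agent.Lib.MP_c8ddae_co

variable {V : Type} [Fintype V] [DecidableEq V]

/-- A system of vertex-disjoint directed paths covering all vertices: `X` is the set of path ends,
`F` is the successor map (arbitrary on `X`), `e v` the end of the path of `v`, `d v` the distance. -/
structure PS (E : V → V → Prop) where
  F : Equiv.Perm V
  X : Finset V
  e : V → V
  d : V → ℕ
  real : ∀ v, v ∉ X → E v (F v)
  e_mem : ∀ v, e v ∈ X
  e_self : ∀ v, v ∈ X → e v = v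
  d_self : ∀ v, v ∈ X → d v = 0
  e_step : ∀ v, v ∉ X → e (F v) = e v
  d_step : ∀ v, v ∉ X → d v = d (F v) + 1

variable {E : V → V → Prop}

namespace PS

/-- `b` is the start of a path. -/
def St (P : PS E) (b : V) : Prop := P.F.symm b ∈ P.X

instance (P : PS E) (b : V) : Decidable (P.St b) := by unfold St; infer_instance

lemma St_F (P : PS E) (v : V) : P.St (P.F v) ↔ v ∈ P.X := by simp [St]

lemma mem_of_d (P : PS E) {v : V} (h : P.d v = 0) : v ∈ P.X := by
  by_contra hv
  have := P.d_step v hv
  omega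

lemma inj (P : PS E) : ∀ (k : ℕ) (u v : V), P.d u = k → P.d v = k → P.e u = P.e v → u = v := by
  intro k
  induction k with
  | zero =>
    intro u v hu hv h
    rw [P.e_self u (P.mem_of_d hu), P.e_self v (P.mem_of_d hv)] at h
    exact h
  | succ k ih =>
    intro u v hu hv h
    have hu' : u ∉ P.X := fun hx => by have := P.d_self u hx; omega
    have hv' : v ∉ P.X := fun hx => by have := P.d_self v hx; omega
    have h1 := P.d_step u hu'
    have h2 := P.d_step v hv'
    have := ih (P.F u) (P.F v) (by omega) (by omega)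
      (by rw [P.e_step u hu', P.e_step v hv', h])
    exact P.F.injective this

lemma inj' (P : PS E) {u v : V} (hd : P.d u = P.d v) (h : P.e u = P.e v) : u = v :=
  P.inj _ u v hd rfl h

lemma walk (P : PS E) (v : V) : ∀ j, j < P.d v →
    ∃ p, p ∉ P.X ∧ P.e p = P.e v ∧ P.d p + j = P.d v := by
  intro j
  induction j with
  | zero =>
    intro h
    exact ⟨v, fun hx => by have := P.d_self v hx; omega, rfl, rfl⟩
  | succ j ih =>
    intro h
    obtain ⟨p, hp, he, hd⟩ := ih (by omega)
    have h1 := P.d_step p hp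
    refine ⟨P.F p, fun hx => ?_, by rw [P.e_step p hp, he], by omega⟩
    have := P.d_self _ hx
    omega

lemma d_le_start (P : PS E) {b v : V} (hb : P.St b) (h : P.e v = P.e b) : P.d v ≤ P.d b := by
  by_contra hlt
  push Not at hlt
  obtain ⟨p, hp, he, hd⟩ := P.walk v (P.d v - P.d b - 1) (by omega)
  have h1 := P.d_step p hp
  have : P.F p = b := P.inj' (by omega) (by rw [P.e_step p hp, he, h])
  rw [← this, St_F] at hb
  exact hp hb

lemma start_unique (P : PS E) {b c : V} (hb : P.St b) (hc : P.St c) (h : P.e b = P.e c) : b = c :=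
  P.inj' (le_antisymm (P.d_le_start hc h) (P.d_le_start hb h.symm)) h

lemma exists_start (P : PS E) (v : V) : ∃ b, P.St b ∧ P.e b = P.e v := by
  obtain ⟨b, hb, hmax⟩ := exists_max_image (univ.filter fun u => P.e u = P.e v) P.d
    ⟨v, by simp⟩
  have hb' : P.e b = P.e v := by simpa using hb
  refine ⟨b, ?_, hb'⟩
  by_contra hs
  unfold St at hs
  have h1 := P.d_step _ hs
  have h2 := P.e_step _ hs
  rw [Equiv.apply_symm_apply] at h1 h2
  have := hmax (P.F.symm b) (by simp [← h2, hb'])
  omega

lemma d_lt (P : PS E) (v : V) : P.d v < Fintype.card V := by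
  have key : ∀ j : Fin (P.d v + 1), ∃ p, P.e p = P.e v ∧ P.d p = j.val := by
    intro j
    rcases Nat.eq_zero_or_pos j.val with h0 | h0
    · exact ⟨P.e v, P.e_self _ (P.e_mem v), by rw [h0]; exact P.d_self _ (P.e_mem v)⟩
    · obtain ⟨p, _, he, hd⟩ := P.walk v (P.d v - j.val) (by have := j.2; omega)
      exact ⟨p, he, by have := j.2; omega⟩
  choose f hf using key
  have hinj : Function.Injective f := by
    intro i j h
    apply Fin.ext
    rw [← (hf i).2, ← (hf j).2, h]
  have := Fintype.card_le_of_injective f hinj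
  simp at this
  omega

/-- the trivial system of one-vertex paths -/
def triv (E : V → V → Prop) : PS E where
  F := 1
  X := univ
  e v := v
  d _ := 0
  real v h := absurd (mem_univ v) h
  e_mem v := mem_univ v
  e_self _ _ := rfl
  d_self _ _ := rfl
  e_step v h := absurd (mem_univ v) h
  d_step v h := absurd (mem_univ v) h

/-- `Q` arises from `P` by adding the arc from the end `a` to the start `b`. -/
structure IsJoin (P Q : PS E) (a b : V) : Prop where
  X : Q.X = P.X.erase a
  F : ∀ v, v ∉ P.X → Q.F v = P.F v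
  Fa : Q.F a = b
  e : ∀ v, Q.e v = if P.e v = a then P.e b else P.e v
  d : ∀ v, Q.d v = if P.e v = a then P.d v + P.d b + 1 else P.d v
  St : ∀ c, Q.St c ↔ P.St c ∧ c ≠ b

lemma exists_join (P : PS E) {a b : V} (ha : a ∈ P.X) (hb : P.St b) (hne : P.e b ≠ a)
    (hE : E a b) : ∃ Q : PS E, IsJoin P Q a b := by
  have hF : ∀ v, v ∉ P.X → (P.F * Equiv.swap a (P.F.symm b)) v = P.F v := by
    intro v hv
    have h1 : v ≠ a := fun h => hv (h ▸ ha)
    have h2 : v ≠ P.F.symm b := fun h => hv (h ▸ hb)
    simp [Equiv.swap_apply_of_ne_of_ne h1 h2]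
  have hFa : (P.F * Equiv.swap a (P.F.symm b)) a = b := by simp
  have hea : P.e a = a := P.e_self a ha
  refine ⟨⟨P.F * Equiv.swap a (P.F.symm b), P.X.erase a,
    fun v => if P.e v = a then P.e b else P.e v,
    fun v => if P.e v = a then P.d v + P.d b + 1 else P.d v, ?_, ?_, ?_, ?_, ?_, ?_⟩,
    rfl, hF, hFa, fun _ => rfl, fun _ => rfl, ?_⟩
  · intro v hv
    by_cases hva : v = a
    · rw [hva, hFa]; exact hE
    · have : v ∉ P.X := fun h => hv (mem_erase.2 ⟨hva, h⟩)
      rw [hF v this]; exact P.real v this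
  · intro v
    split_ifs with h
    · exact mem_erase.2 ⟨hne, P.e_mem b⟩
    · exact mem_erase.2 ⟨h, P.e_mem v⟩
  · intro v hv
    obtain ⟨h1, h2⟩ := mem_erase.1 hv
    rw [P.e_self v h2, if_neg h1]
  · intro v hv
    obtain ⟨h1, h2⟩ := mem_erase.1 hv
    rw [P.e_self v h2, if_neg h1, P.d_self v h2]
  · intro v hv
    by_cases hva : v = a
    · rw [hva, hFa, if_neg hne, if_pos hea]
    · have : v ∉ P.X := fun h => hv (mem_erase.2 ⟨hva, h⟩)
      rw [hF v this, P.e_step v this]
  · intro v hv
    by_cases hva : v = a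
    · rw [hva, hFa, if_neg hne, if_pos hea, P.d_self a ha]; omega
    · have : v ∉ P.X := fun h => hv (mem_erase.2 ⟨hva, h⟩)
      rw [hF v this, P.e_step v this, P.d_step v this]
      split_ifs <;> omega
  · intro c
    unfold PS.St
    simp only [mem_erase]
    have hs : (P.F * Equiv.swap a (P.F.symm b)).symm c
        = Equiv.swap a (P.F.symm b) (P.F.symm c) := by
      rw [Equiv.symm_apply_eq]; simp
    rw [hs]
    by_cases h1 : P.F.symm c = a
    · rw [h1, Equiv.swap_apply_left]
      constructor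
      · rintro ⟨h2, _⟩
        refine ⟨ha, fun h => h2 ?_⟩
        rw [← h, h1]
      · rintro ⟨_, h2⟩
        refine ⟨fun h => h2 ?_, hb⟩
        exact P.F.symm.injective (h1.trans h.symm)
    · by_cases h2 : c = b
      · rw [h2, Equiv.swap_apply_right]; simp
      · have h3 : P.F.symm c ≠ P.F.symm b := fun h => h2 (P.F.symm.injective h)
        rw [Equiv.swap_apply_of_ne_of_ne h1 h3]
        simp [h1, h2]

/-- `Q` arises from `P` by deleting the arc leaving `w`. -/
structure IsCut (P Q : PS E) (w : V) : Prop where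
  X : Q.X = insert w P.X
  F : Q.F = P.F
  e : ∀ v, Q.e v = if P.e v = P.e w ∧ P.d w ≤ P.d v then w else P.e v
  d : ∀ v, Q.d v = if P.e v = P.e w ∧ P.d w ≤ P.d v then P.d v - P.d w else P.d v
  St : ∀ c, Q.St c ↔ P.St c ∨ c = P.F w

lemma exists_cut (P : PS E) {w : V} (hw : w ∉ P.X) : ∃ Q : PS E, IsCut P Q w := by
  have hdw := P.d_step w hw
  have key : ∀ v, v ∉ insert w P.X → ((P.e (P.F v) = P.e w ∧ P.d w ≤ P.d (P.F v)) ↔
      (P.e v = P.e w ∧ P.d w ≤ P.d v)) := by
    intro v hv
    rw [mem_insert, not_or] at hv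
    have h1 := P.d_step v hv.2
    rw [P.e_step v hv.2]
    constructor
    · rintro ⟨h2, h3⟩; exact ⟨h2, by omega⟩
    · rintro ⟨h2, h3⟩
      refine ⟨h2, ?_⟩
      have : P.d v ≠ P.d w := fun h => hv.1 (P.inj' h h2)
      omega
  refine ⟨⟨P.F, insert w P.X,
    fun v => if P.e v = P.e w ∧ P.d w ≤ P.d v then w else P.e v,
    fun v => if P.e v = P.e w ∧ P.d w ≤ P.d v then P.d v - P.d w else P.d v,
    ?_, ?_, ?_, ?_, ?_, ?_⟩, rfl, rfl, fun _ => rfl, fun _ => rfl, ?_⟩
  · intro v hv
    exact P.real v fun h => hv (mem_insert_of_mem h)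
  · intro v
    split_ifs
    · exact mem_insert_self _ _
    · exact mem_insert_of_mem (P.e_mem v)
  · intro v hv
    rcases mem_insert.1 hv with h | h
    · rw [h]; simp
    · have := P.d_self v h
      rw [if_neg (by omega), P.e_self v h]
  · intro v hv
    rcases mem_insert.1 hv with h | h
    · rw [h]; simp
    · have := P.d_self v h
      rw [if_neg (by omega), this]
  · intro v hv
    have hv' : v ∉ P.X := fun h => hv (mem_insert_of_mem h)
    simp only [key v hv]
    rw [P.e_step v hv']
  · intro v hv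
    have hv' : v ∉ P.X := fun h => hv (mem_insert_of_mem h)
    have h1 := P.d_step v hv'
    have h2 := key v hv
    by_cases h : P.e v = P.e w ∧ P.d w ≤ P.d v
    · have h3 := h2.2 h
      rw [if_pos h, if_pos h3]; omega
    · rw [if_neg h, if_neg (fun h' => h (h2.1 h'))]; exact h1
  · intro c
    unfold PS.St
    simp only [mem_insert]
    rw [Equiv.symm_apply_eq]
    tauto

end PS

/-- Hamiltonicity in successor form. -/
def Ham (E : V → V → Prop) : Prop :=
  ∃ (F : Equiv.Perm V) (x : V) (h : V → ℕ), (∀ v, E v (F v)) ∧ ∀ v, v ≠ x → h (F v) < h v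

lemma PS.ham (P : PS E) {x b : V} (hX : P.X = {x}) (hb : P.St b) (hE : E x b) : Ham E := by
  refine ⟨P.F, x, P.d, fun v => ?_, fun v hv => ?_⟩
  · by_cases hv : v = x
    · unfold PS.St at hb
      rw [hX, mem_singleton, Equiv.symm_apply_eq] at hb
      rw [hv, ← hb]; exact hE
    · exact P.real v (by rw [hX]; simpa using hv)
  · have := P.d_step v (by rw [hX]; simpa using hv)
    omega

end Pool.Agent.Lib.MP_c8ddae_co
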