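import Pool.Agent.Lib.MP_c8ddae_co.H8Sw2
import Pool.Agent.Lib.MP_c8ddae_co.H8Num

set_option autoImplicit false
open Finset

namespace Pool.Agent.Lib.MP_c8ddae_co

variable {V : Type} [Fintype V] [DecidableEq V] {E : V → V → Prop}

section
variable {W : Type} [Fintype W] [DecidableEq W]

lemma Half.transfer2 {ρ : V → V → Prop} {R C H : Finset V} {μ θ σ : ℕ} (h : Half ρ R C H μ θ σ)
    (ρ' : W → W → Prop) (f g : W → V) (hf : Function.Injective f) (hg : Function.Injective g)
    {J μ' θ' σ' : ℕ} (hR : (R \ (R ∩ univ.image f)).card ≤ J)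
    (hC : (C \ (C ∩ univ.image g)).card ≤ J)
    (hρ : ∀ x y, x ≠ y → f x ∈ R → g y ∈ C → ρ (f x) (g y) → ρ' x y)
    (h1 : μ + 1 ≤ μ') (h2 : θ' + J + 1 ≤ θ) (h3 : σ' + J + 1 ≤ σ) :
    Half ρ' (univ.filter (f · ∈ R)) (univ.filter (g · ∈ C)) (univ.filter (f · ∈ H)) μ' θ' σ' := by
  have key : ∀ x, f x ∈ R → deg ρ (C ∩ univ.image g) (f x) ≤
      deg ρ' (univ.filter (g · ∈ C)) x + 1 := fun x hx =>
    deg_tr ρ ρ' g C (f x) x fun y e => hρ x y e.symm hx
  refine ⟨fun x hx => mem_filter.2 ⟨mem_univ _, h.sub (mem_filter.1 hx).2⟩, fun x hx => ?_,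
    fun k hk => ?_, fun y hy => ?_⟩
  · have hx' := (mem_filter.1 hx).2
    have := h.hi _ hx'
    have := key x (h.sub hx')
    have := deg_le_add ρ C (C ∩ univ.image g) (f x)
    have := card_sdiff_add_card_eq_card (inter_subset_left : C ∩ univ.image g ⊆ C)
    rw [card_pre g hg]
    omega
  · obtain ⟨v, hv, h4⟩ := h.big _ (fun v hv => by
      obtain ⟨x, hx, rfl⟩ := mem_image.1 hv
      simp only [mem_filter, mem_sdiff, mem_univ, true_and] at hx
      exact mem_sdiff.2 hx.1) (hk.image f)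
    obtain ⟨x, hx, rfl⟩ := mem_image.1 hv
    rw [card_image_of_injective _ hf] at h4
    simp only [mem_filter, mem_sdiff, mem_univ, true_and] at hx
    have := key x hx.1.1
    have := deg_le_add ρ C (C ∩ univ.image g) (f x)
    omega
  · have hy' := (mem_filter.1 hy).2
    have := h.col _ hy'
    have := deg_tr (flip ρ) (flip ρ') f R (g y) y fun x e hx => hρ x y e hx hy'
    have := deg_le_add (flip ρ) R (R ∩ univ.image f) (g y)
    omega

lemma card_miss2 (g : W → V) (hg : Function.Injective g) (D A : Finset V) (hA : ∀ w, g w ∈ A)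
    {J : ℕ} (hJ : A.card ≤ Fintype.card W + J) :
    ((D ∩ A) \ ((D ∩ A) ∩ univ.image g)).card ≤ J := by
  have e1 : ((D ∩ A) \ ((D ∩ A) ∩ univ.image g)).card ≤ (A \ univ.image g).card :=
    card_le_card fun v hv => by
      simp only [mem_sdiff, mem_inter, not_and] at hv ⊢
      exact ⟨hv.1.2, hv.2 hv.1⟩
  have e2 := card_sdiff_add_card_eq_card (show univ.image g ⊆ A from fun v hv => by
    obtain ⟨w, -, rfl⟩ := mem_image.1 hv
    exact hA w)
  rw [card_image_of_injective _ hg, card_univ] at e2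
  omega

lemma filter_pre (g : W → V) (D A : Finset V) (hA : ∀ w, g w ∈ A) :
    univ.filter (g · ∈ D ∩ A) = univ.filter (g · ∈ D) := by
  ext w; simp [hA w]

end

theorem ham_cross2 (P : PS E) {R C A B H1 H2 : Finset V} {η u J K r s0 J0 μ θ σ : ℕ}
    (hA : P.X ⊆ A) (hB : ∀ v, P.St v → v ∈ B) (cA : A.card ≤ P.X.card + J0)
    (cB : B.card ≤ P.X.card + J0) (bal : (P.X ∩ R).card = (fs P ∅ C).card)
    {b0 : V} (hb0 : b0 ∈ fs P ∅ C) (hb1 : P.e b0 ∉ R)
    (h1 : Half E (R ∩ A) (C ∩ B) H1 μ θ σ) (h2 : Half (flip E) (Cᶜ ∩ B) (Rᶜ ∩ A) H2 μ θ σ)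
    (p1 : μ + 1 ≤ 6 * η) (p2 : 14 * η + J0 + 1 ≤ θ) (p3 : 8 * η + J0 + 1 ≤ σ) (hu : u ≤ η)
    (hJ : Fintype.card V < J * (6 * η))
    (hK : (Fintype.card V : ℝ) ^ 2 * (1 - (4 * η : ℕ) / (Fintype.card V : ℕ)) ^ K < 1)
    (hr : Fintype.card V < r * (3 * η)) (hru : 1 + (2 * r + 3) * ((K + 1) * (2 * J + 4)) ≤ u)
    (hs0 : ∀ e, e * (e + 1) ≤ 4 * Fintype.card V + 6 → 2 * e + 2 ≤ s0) (hs : s0 ≤ η) :
    Ham E := by
  classical
  have fA : ∀ x : P.X, x.1 ∈ A := fun x => hA x.2
  have gB : ∀ x : P.X, P.st x ∈ B := fun x => hB _ (P.st_St _)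
  have mA := fun D => card_miss2 (Subtype.val : P.X → V) Subtype.val_injective D A fA
    (J := J0) (by simpa using cA)
  have mB := fun D => card_miss2 (fun x : P.X => P.st x) P.st_inj D B gB
    (J := J0) (by simpa using cB)
  set ρ : P.X → P.X → Prop := fun x y => P.con x y ∧ (x.1 ∈ R ↔ P.st y ∈ C) with hρ
  have t1 := h1.transfer2 ρ Subtype.val (fun x => P.st x) Subtype.val_injective P.st_inj
    (mA _) (mB _) (fun x y e hx hy h =>
      ⟨⟨e, h⟩, iff_of_true (mem_inter.1 hx).1 (mem_inter.1 hy).1⟩) p1 p2 p3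
  have t2 := h2.transfer2 (flip ρ) (fun x => P.st x) Subtype.val P.st_inj Subtype.val_injective
    (mB _) (mA _) (fun x y e hx hy h => ⟨⟨e.symm, h⟩,
      iff_of_false (mem_compl.1 (mem_inter.1 hy).1) (mem_compl.1 (mem_inter.1 hx).1)⟩) p1 p2 p3
  rw [filter_pre _ _ A fA, filter_pre _ _ B gB] at t1 t2
  have c1 : (univ.filter fun x : P.X => P.st x ∈ Cᶜ) = (univ.filter fun x : P.X => P.st x ∈ C)ᶜ := by
    ext; simp
  have c2 : (univ.filter fun x : P.X => x.1 ∈ Rᶜ) = (univ.filter fun x : P.X => x.1 ∈ R)ᶜ := by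
    ext; simp
  rw [c1, c2] at t2
  rw [mem_fs] at hb0
  refine P.lift (Ham.mono (ρ := ρ) (block_ham (v0 := ⟨P.e b0, P.e_mem b0⟩) (fun v h => h.1.1 rfl)
    (Fintype.card_subtype_le _) (fun x y h => by simpa using h.2) ?_ ?_ (by simpa using hb1)
    t1 t2 hu hJ hK hr hru hs0 hs) fun x y h => h.1)
  · rw [card_pre _ Subtype.val_injective, card_pre _ P.st_inj]
    have e1 : R ∩ univ.image (Subtype.val : P.X → V) = P.X ∩ R := by
      ext v; simp [and_comm]
    have e2 : C ∩ univ.image (fun x : P.X => P.st x) = fs P ∅ C := by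
      ext v
      simp only [mem_inter, mem_image, mem_univ, true_and, mem_fs, notMem_empty, not_false_eq_true,
        and_true]
      exact ⟨fun ⟨h, y, e⟩ => ⟨h, e ▸ P.st_St _⟩,
        fun ⟨h, e⟩ => ⟨h, ⟨P.e v, P.e_mem v⟩, P.st_e e⟩⟩
    rw [e1, e2, bal]
  · simp only [mem_filter, mem_univ, true_and]
    rw [P.st_e hb0.2.1]; exact hb0.1

lemma ecount_con (P : PS E) (S T : Finset P.X) :
    ecount E (S.image Subtype.val) (T.image fun x : P.X => P.st x) ≤
      ecount P.con S T + Fintype.card V := by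
  classical
  rw [ecount_sum, ecount_sum, sum_image fun a _ b _ h => Subtype.val_injective h]
  have : ∀ x ∈ S, deg E (T.image fun x : P.X => P.st x) x.1 ≤ deg P.con T x + 1 := by
    intro x _
    rw [deg_eq, deg_eq]
    refine le_trans (card_le_card (t := (insert x (T.filter (P.con x))).image fun x : P.X => P.st x)
      fun w hw => ?_) (card_image_le.trans (card_insert_le _ _))
    rw [mem_filter, mem_image] at hw
    obtain ⟨⟨y, h1, rfl⟩, h2⟩ := hw
    refine mem_image_of_mem _ (mem_insert.2 ?_)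
    by_cases e : y = x
    · exact Or.inl e
    · exact Or.inr (mem_filter.2 ⟨h1, fun e' => e e'.symm, h2⟩)
  refine (sum_le_sum this).trans ?_
  rw [sum_add_distrib, ← card_eq_sum_ones]
  have := card_le_univ S
  have := Fintype.card_subtype_le (· ∈ P.X)
  omega

lemma ecount_le_mul (ρ : V → V → Prop) (S T : Finset V) : ecount ρ S T ≤ S.card * T.card := by
  rw [ecount_sum]
  exact sum_le_card_nsmul _ _ _ fun x _ => deg_le_card _ _ _

theorem ham_rel_ne [Nonempty V] {c s u J K r s0 t e0 h g l : ℕ} {φ : ℕ → ℕ} (hmono : Monotone φ)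
    (hp : PosF E c φ) (hp' : PosF (flip E) c φ)
    (hφ : ∀ t e, e * (e + 1) ≤ 4 * t + 2 → 2 * e + 2 ≤ φ t)
    (he0 : ∀ e, e * (e + 1) ≤ 4 * t → e ≤ e0) (hst : s + 2 * e0 + 1 ≤ φ t)
    (hcn : 2 * c ≤ Fintype.card V + 1)
    (hNE : ∀ S T : Finset V, h ≤ S.card → h ≤ T.card → g + Fintype.card V ≤ ecount E S T)
    (he : 2 * Fintype.card V < g) (hh : h + 2 * u + (2 * t + e0 + 1) ≤ c)
    (hsc : s + (2 * t + e0 + 1) ≤ c) (hJ : 2 * Fintype.card V < J * s) (hus : 2 * u < s)
    (hl : Real.log (Fintype.card V) ≤ l)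
    (hK : 2 * l * (Fintype.card V * Fintype.card V) < g * K)
    (hr : 3 * Fintype.card V + r * (h + 2 * u + (2 * t + e0 + 1)) ≤ r * c)
    (hru : 2 * J + 7 + (r + 2) * ((K + 1) * (2 * J + 6)) ≤ u)
    (hs0 : ∀ e, e * (e + 1) ≤ 4 * Fintype.card V + 6 → 2 * e + 2 ≤ s0)
    (hs : s0 + (u + r) ≤ s) : Ham E := by
  classical
  have htc : t ≤ c - 1 := by omega
  obtain ⟨P, A, B, Jn, e, -, bk, hJn, he1, -, -, hR, hC⟩ := greedy E (fun _ _ h => h) (PS.triv E)
    univ univ (univ.filter (deg E univ · < c)) (univ.filter (deg (flip E) univ · < c))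
    subset_rfl (fun _ _ => mem_univ _) (fun _ => True) (fun _ _ _ _ _ _ _ _ _ _ _ _ => trivial)
    (fun k => φ (min k (c - 1))) (fun a b hab => hmono (min_le_min_right _ hab)) t
    (fun t' e ht' he => by
      have := hφ t' e he
      rwa [min_eq_left (by omega)]) trivial hp.pos hp'.pos
  simp only [min_eq_left htc] at hR hC
  have he' := he0 e he1
  have hX : ∀ v, v ∈ P.X ↔ v ∈ A := fun v =>
    (bk.X v).trans ⟨fun h => h.2 (mem_univ _), fun h => ⟨mem_univ _, fun _ => h⟩⟩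
  have hS : ∀ v, P.St v ↔ v ∈ B := fun v =>
    (bk.St v).trans ⟨fun h => h.2 (mem_univ _), fun h => ⟨mem_univ _, fun _ => h⟩⟩
  have cA := bk.cardA
  have cB := bk.cardB
  rw [card_univ] at cA cB
  have cX : Fintype.card P.X = A.card := by
    rw [Fintype.card_coe]; congr 1; ext v; exact hX v
  haveI : Nonempty P.X := ⟨⟨P.e (Classical.arbitrary V), P.e_mem _⟩⟩
  obtain ⟨c', rfl⟩ : ∃ c', c = c' + (2 * t + e0 + 1) := ⟨c - (2 * t + e0 + 1), by omega⟩
  have p1 : PosC P.con c' s := posC_transfer E P.con (fun x : P.X => x.1)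
    Subtype.val_injective A B (fun w => (hX _).1 w.2) _ Jn _ _ (by rw [card_compl]; omega)
    (P.deg_con B fun v hv => (hS v).2 hv) hR (by omega) (by omega)
  have p2 : PosC (flip P.con) c' s := posC_transfer (flip E) (flip P.con)
    (fun x : P.X => P.st x) P.st_inj B A (fun w => (hS _).1 (P.st_St _)) _ Jn _ _
    (by rw [card_compl]; omega) (P.deg_con' A fun v hv => (hX v).2 hv) hC (by omega) (by omega)
  have ne : ∀ S T : Finset P.X, h ≤ S.card → h ≤ T.card → g ≤ ecount P.con S T := by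
    intro S T h1 h2
    have := hNE (S.image Subtype.val) (T.image fun x : P.X => P.st x)
      (by rwa [card_image_of_injective _ Subtype.val_injective])
      (by rwa [card_image_of_injective _ P.st_inj])
    have := ecount_con P S T
    omega
  have n0 := Fintype.card_pos (α := P.X)
  have nle : Fintype.card P.X ≤ Fintype.card V := by omega
  refine P.lift (ham_ne (J := J) (K := K) (r := r) (s0 := s0) (u := u) (fun v h => h.1 rfl) p1 p2
    (by omega) ne (by omega) (by omega) (by omega) (by omega) hus ?_ (by nlinarith) hru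
    (fun e he => hs0 e (by omega)) hs)
  refine exp_bound n0 (by positivity) ?_ ?_
  · have := ne univ univ (by rw [card_univ]; omega) (by rw [card_univ]; omega)
    exact this.trans (ecount_le_mul _ _ _)
  · have a1 : (Fintype.card P.X : ℝ) ≤ Fintype.card V := by exact_mod_cast nle
    have a0 : (0 : ℝ) < Fintype.card P.X := by exact_mod_cast n0
    have a2 := (Real.log_le_log a0 a1).trans hl
    have a3 : (2 * l * (Fintype.card V * Fintype.card V) : ℝ) < g * K := by exact_mod_cast hK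
    refine lt_of_le_of_lt ?_ a3
    push_cast
    gcongr

end Pool.Agent.Lib.MP_c8ddae_co
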