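import Pool.Agent.Lib.MP_c8ddae_co.H8RE1

set_option autoImplicit false
open Finset

namespace Pool.Agent.Lib.MP_c8ddae_co

variable {V : Type} [Fintype V] [DecidableEq V] {E : V → V → Prop}

/-- at most `c - st` rows have degree below the cap `c` -/
def Top (ρ : V → V → Prop) (c st : ℕ) : Prop := (univ.filter (deg ρ univ · < c)).card + st ≤ c

lemma Top.high_in {ρ : V → V → Prop} {c s : ℕ} (h1 : Top ρ c s) (T : Finset V) :
    T.card + s ≤ (T.filter (c ≤ deg ρ univ ·)).card + c := by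
  unfold Top at h1
  have h2 := card_filter_add_card_filter_not (s := T) (c ≤ deg ρ univ ·)
  have h3 : (T.filter fun x => ¬ c ≤ deg ρ univ x).card ≤ (univ.filter (deg ρ univ · < c)).card :=
    card_le_card fun x hx => mem_filter.2 ⟨mem_univ _, not_le.1 (mem_filter.1 hx).2⟩
  omega

lemma side_sizes2 {ρ : V → V → Prop} {c s η θ : ℕ} (hp : Top (flip ρ) c s)
    (hc : Fintype.card V ≤ 2 * c) (hη : 0 < η) (hθ : 20 * η ≤ θ) (hsη : 3 * θ + η ≤ s)
    {S T R : Finset V} (hS : S.card + η = c) (hT : T.card + η = c)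
    (he : ecount ρ S T ≤ 20 * η * η) (hR : ∀ x, x ∈ R ↔ deg ρ T x < θ) :
    (S \ R).card ≤ η ∧ (R \ S).card ≤ 2 * η := by
  constructor
  · have := markov ρ S T (S \ R) (20 * η) sdiff_subset fun x hx =>
      hθ.trans (not_lt.1 fun e => (mem_sdiff.1 hx).2 ((hR x).2 e))
    exact Nat.le_of_mul_le_mul_right (by nlinarith) (by omega : 0 < 20 * η)
  · by_contra hn
    obtain ⟨ζ, hζ⟩ : ∃ ζ, (R \ S).card = ζ + η := ⟨(R \ S).card - η, by omega⟩
    have h1 := hp.high_in T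
    have cu : (S ∪ (R \ S)).card = S.card + (R \ S).card := card_union_of_disjoint disjoint_sdiff
    have h2 := markov (flip ρ) T (S ∪ (R \ S)) _ ζ (filter_subset (c ≤ deg (flip ρ) univ ·) T)
      fun y hy => by
        have := (mem_filter.1 hy).2
        have := deg_le_compl (flip ρ) (S ∪ (R \ S)) y
        omega
    rw [ecount_flip, ecount_sum, sum_union disjoint_sdiff, ← ecount_sum] at h2
    have h3 : ∑ x ∈ R \ S, deg ρ T x ≤ (R \ S).card * θ :=
      sum_le_card_nsmul _ _ _ fun x hx => ((hR x).1 (mem_sdiff.1 hx).1).le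
    have h4 : 3 * θ * ζ ≤ (T.filter (c ≤ deg (flip ρ) univ ·)).card * ζ :=
      Nat.mul_le_mul_right _ (by omega)
    rw [hζ] at h3
    have h5 : θ * (η + 1) ≤ θ * ζ := Nat.mul_le_mul_left _ (by omega)
    have h6 : 20 * η * η ≤ θ * η := Nat.mul_le_mul_right _ hθ
    nlinarith

lemma ex_card {ρ : V → V → Prop} {η : ℕ} (hη : 0 < η) {S T R D : Finset V}
    (he : ecount ρ S T ≤ 20 * η * η) (a2 : (R \ S).card ≤ 2 * η) (a4 : (D \ T).card ≤ 2 * η) :
    (R.filter (22 * η < deg ρ D ·)).card ≤ 3 * η := by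
  have b3 := markov ρ S T (S.filter (20 * η ≤ deg ρ T ·)) (20 * η) (filter_subset _ _)
    fun x hx => (mem_filter.1 hx).2
  have b4 : (S.filter (20 * η ≤ deg ρ T ·)).card ≤ η :=
    Nat.le_of_mul_le_mul_right (by nlinarith) (by omega : 0 < 20 * η)
  have b5 := card_union_le (R \ S) (S.filter (20 * η ≤ deg ρ T ·))
  refine le_trans (card_le_card (t := R \ S ∪ S.filter (20 * η ≤ deg ρ T ·)) fun x hx => ?_)
    (by omega)
  rw [mem_filter] at hx
  by_cases e : x ∈ S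
  · have := deg_le_add ρ D T x
    exact mem_union_right _ (mem_filter.2 ⟨e, by omega⟩)
  · exact mem_union_left _ (mem_sdiff.2 ⟨hx.1, e⟩)

lemma H_card {ρ : V → V → Prop} {c s η θ : ℕ} (hp : Top ρ c s) (hc : Fintype.card V ≤ 2 * c)
    (hη : 0 < η) (hθ : 20 * η ≤ θ) {S T R D : Finset V} (hS : S.card + η = c)
    (hT : T.card + η = c) (he : ecount ρ S T ≤ 20 * η * η) (hR : ∀ x, x ∈ R ↔ deg ρ T x < θ)
    (a2 : (R \ S).card ≤ 2 * η) (a3 : (T \ D).card ≤ η) (a4 : (D \ T).card ≤ 2 * η) :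
    (R \ R.filter fun x => Dᶜ.card ≤ deg ρ Dᶜ x + 5 * η).card + s ≤ c + 22 * η := by
  set H := R.filter fun x => Dᶜ.card ≤ deg ρ Dᶜ x + 5 * η with hH
  have b1 := hp.high_in S
  have b2 := card_filter_add_card_filter_not (s := S.filter (c ≤ deg ρ univ ·))
    (deg ρ T · ≤ η)
  have b3 := markov ρ S T ((S.filter (c ≤ deg ρ univ ·)).filter fun x => ¬ deg ρ T x ≤ η) η
    ((filter_subset _ _).trans (filter_subset _ _)) fun x hx =>
      (not_le.1 (mem_filter.1 hx).2).le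
  have b4 := Nat.le_of_mul_le_mul_right (b3.trans he) hη
  have b5 : ((S.filter (c ≤ deg ρ univ ·)).filter (deg ρ T · ≤ η)).card ≤ H.card := by
    refine card_le_card fun x hx => ?_
    simp only [mem_filter] at hx
    have := deg_split ρ D x
    have := deg_le_add ρ D T x
    have := card_add_card_compl D
    have := le_card_sdiff D T
    exact mem_filter.2 ⟨(hR x).2 (by omega), by omega⟩
  have b6 : (R \ H).card + H.card = R.card := card_sdiff_add_card_eq_card (filter_subset _ _)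
  have b7 := le_card_sdiff S R
  omega

lemma deg_mono_rel {ρ ρ' : V → V → Prop} {A B : Finset V} {x : V}
    (h : ∀ y ∈ A, ρ x y → y ∈ B ∧ ρ' x y) : deg ρ A x ≤ deg ρ' B x := by
  classical
  rw [deg_eq, deg_eq]
  exact card_le_card fun y hy => mem_filter.2 (h y (mem_filter.1 hy).1 (mem_filter.1 hy).2)

lemma pos_tracked {ε ρ : V → V → Prop} {c s η D0 : ℕ} {ψ : ℕ → ℕ} (hmono : Monotone ψ)
    (hp : PosF ε c ψ)
    (hq : ∀ k, D0 ≤ k → k < c → (univ.filter (deg ε univ · ≤ k)).Nonempty →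
      (univ.filter (deg ε univ · ≤ k)).card + ψ k + 22 * η ≤ k)
    (hD : D0 ≤ c) (htop : ψ (c - 1) + 44 * η ≤ s) {R0 D L : Finset V}
    (hR0 : R0.card + s ≤ c + 22 * η) (h1 : ∀ x ∈ R0, ∀ y, y ∉ D → ε x y → ρ x y)
    (h2 : ∀ x ∈ R0, x ∈ L → ∀ y, ε x y → ρ x y)
    (h3 : ∀ x ∈ R0, x ∉ L → D0 ≤ deg ε univ x ∧ deg ε D x ≤ 22 * η) :
    Pos (R0 ∩ univ) (deg ρ univ) (fun k => ψ (min k (c - 1))) 0 0 := by
  rw [inter_univ]
  intro k hk
  simp only [add_zero]
  have key : ∀ x ∈ R0.filter (deg ρ univ · ≤ k), deg ε univ x ≤ k ∨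
      (D0 ≤ deg ε univ x ∧ deg ε univ x ≤ k + 22 * η) := by
    intro x hx
    rw [mem_filter] at hx
    by_cases e : x ∈ L
    · exact Or.inl ((deg_mono_rel fun y hy h => ⟨hy, h2 x hx.1 e y h⟩).trans hx.2)
    · have := h3 x hx.1 e
      have := deg_split ε D x
      have : deg ε Dᶜ x ≤ deg ρ univ x :=
        deg_mono_rel fun y hy h => ⟨mem_univ _, h1 x hx.1 y (mem_compl.1 hy) h⟩
      omega
  by_cases c1 : k + 22 * η < D0
  · have hsub : R0.filter (deg ρ univ · ≤ k) ⊆ univ.filter (deg ε univ · ≤ k) := fun x hx =>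
      mem_filter.2 ⟨mem_univ _, by have := key x hx; omega⟩
    have := hp k (by omega) (hk.mono hsub)
    have := card_le_card hsub
    rw [min_eq_left (by omega)]
    omega
  by_cases c2 : k + 22 * η < c
  · have hsub : R0.filter (deg ρ univ · ≤ k) ⊆ univ.filter (deg ε univ · ≤ k + 22 * η) :=
      fun x hx => mem_filter.2 ⟨mem_univ _, by have := key x hx; omega⟩
    have := hq _ (by omega) c2 (hk.mono hsub)
    have := card_le_card hsub
    have : ψ (min k (c - 1)) ≤ ψ (k + 22 * η) := hmono (by omega)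
    omega
  · have := card_filter_le R0 (deg ρ univ · ≤ k)
    have : ψ (min k (c - 1)) ≤ ψ (c - 1) := hmono (by omega)
    omega

lemma deg_split_inter (ρ : V → V → Prop) (D B : Finset V) (x : V) :
    deg ρ B x ≤ deg ρ (D ∩ B) x + deg ρ (Dᶜ ∩ B) x := by
  classical
  rw [deg_eq, deg_eq, deg_eq]
  refine le_trans (card_le_card fun v hv => ?_) (card_union_le _ _)
  rw [mem_filter] at hv
  by_cases h : v ∈ D
  · exact mem_union_left _ (mem_filter.2 ⟨mem_inter.2 ⟨h, hv.1⟩, hv.2⟩)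
  · exact mem_union_right _ (mem_filter.2 ⟨mem_inter.2 ⟨mem_compl.2 h, hv.1⟩, hv.2⟩)

/-- the rows that change sides -/
noncomputable def mv (ε : V → V → Prop) (R D H A B : Finset V) (η s0 : ℕ) : Finset V :=
  ((R \ H) ∩ A).filter fun x => 22 * η < deg ε D x ∧ 2 * deg ε (Dᶜ ∩ B) x < s0

lemma mv_card {ε : V → V → Prop} {R D H A B : Finset V} {η s0 : ℕ}
    (h : (R.filter (22 * η < deg ε D ·)).card ≤ 3 * η) : (mv ε R D H A B η s0).card ≤ 3 * η :=
  le_trans (card_le_card fun x hx => by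
    simp only [mv, mem_filter, mem_inter, mem_sdiff] at hx ⊢
    exact ⟨hx.1.1.1, hx.2.1⟩) h

lemma mv_deg {ε ρ : V → V → Prop} {R D H A B : Finset V} {η s0 : ℕ} (hρ : ∀ x y, ρ x y → ε x y)
    (h : ∀ k, (((R \ H) ∩ A).filter (deg ρ B · ≤ k)).Nonempty →
      (((R \ H) ∩ A).filter (deg ρ B · ≤ k)).card + s0 ≤ k) {x : V}
    (hx : x ∈ mv ε R D H A B η s0) : s0 ≤ 2 * deg ε (D ∩ B) x := by
  rw [mv, mem_filter] at hx
  have := h (deg ρ B x) ⟨x, mem_filter.2 ⟨hx.1, le_rfl⟩⟩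
  have : deg ρ B x ≤ deg ε B x := deg_mono_rel fun y hy h => ⟨hy, hρ x y h⟩
  have := deg_split_inter ε D B x
  omega

lemma half_post {ε ρ : V → V → Prop} {S R D H A B Ec : Finset V} {η s0 θ J θ' σ' : ℕ}
    (hρ : ∀ x y, ρ x y → ε x y) (hH : H ⊆ R) (hi : ∀ x ∈ H, Dᶜ.card ≤ deg ε Dᶜ x + 5 * η)
    (hx : (R.filter (22 * η < deg ε D ·)).card ≤ 3 * η)
    (h : ∀ k, (((R \ H) ∩ A).filter (deg ρ B · ≤ k)).Nonempty →
      (((R \ H) ∩ A).filter (deg ρ B · ≤ k)).card + s0 ≤ k)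
    (hD : ∀ y, y ∉ D → θ ≤ deg (flip ε) S y) (a1 : (S \ R).card ≤ η) (hA : Aᶜ.card ≤ J)
    (c1 : Ec.card ≤ 3 * η) (c2 : ∀ y ∈ Ec, s0 ≤ 2 * deg (flip ε) (R ∩ A) y)
    (p1 : σ' + 25 * η ≤ s0) (p2 : 2 * σ' + 6 * η ≤ s0) (p3 : θ' + 4 * η + J ≤ θ)
    (p4 : 2 * θ' + 6 * η ≤ s0) :
    Half ε ((R \ mv ε R D H A B η s0) ∩ A) ((D \ Ec)ᶜ ∩ B) (H ∩ A) (8 * η) θ' σ' := by
  have cE : (mv ε R D H A B η s0).card ≤ 3 * η := mv_card hx
  set Er := mv ε R D H A B η s0 with hEr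
  have sb : Dᶜ ∩ B ⊆ (D \ Ec)ᶜ ∩ B :=
    inter_subset_inter (compl_subset_compl.2 sdiff_subset) subset_rfl
  refine ⟨fun x hx => ?_, fun x hx => ?_, fun k hk => ?_, fun y hy => ?_⟩
  · rw [mem_inter] at hx
    refine mem_inter.2 ⟨mem_sdiff.2 ⟨hH hx.1, fun e => ?_⟩, hx.2⟩
    simp only [hEr, mv, mem_filter, mem_inter, mem_sdiff] at e
    exact e.1.1.2 hx.1
  · have := hi x (mem_inter.1 hx).1
    have := deg_le_add ε Dᶜ (Dᶜ ∩ B) x
    have := card_sdiff_add_card_eq_card (inter_subset_left : Dᶜ ∩ B ⊆ Dᶜ)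
    have := deg_mono ε sb x
    have := card_union_le (Dᶜ ∩ B) Ec
    have : ((D \ Ec)ᶜ ∩ B).card ≤ (Dᶜ ∩ B ∪ Ec).card := card_le_card fun v => by
      simp only [mem_inter, mem_union, mem_compl, mem_sdiff]; tauto
    omega
  · set Z := ((((R \ Er) ∩ A) \ (H ∩ A)).filter (deg ε ((D \ Ec)ᶜ ∩ B) · ≤ k)) with hZ
    have e1 := card_filter_add_card_filter_not (s := Z) (22 * η < deg ε D ·)
    have mZ : ∀ x ∈ Z, x ∈ (R \ H) ∩ A ∧ x ∉ Er ∧ deg ε (Dᶜ ∩ B) x ≤ k := fun x hx => by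
      have := deg_mono ε sb x
      simp only [hZ, mem_filter, mem_inter, mem_sdiff] at hx ⊢
      exact ⟨by tauto, by tauto, by omega⟩
    have e2 : (Z.filter (22 * η < deg ε D ·)).card ≤ 3 * η :=
      le_trans (card_le_card (filter_subset_filter _ fun x hx =>
        (mem_sdiff.1 (mem_inter.1 (mZ x hx).1).1).1)) hx
    rcases (Z.filter fun x => ¬ 22 * η < deg ε D x).eq_empty_or_nonempty with h0 | h0
    · obtain ⟨x, hx⟩ := hk
      have b1 : 22 * η < deg ε D x := by_contra fun e => by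
        have : x ∈ Z.filter fun x => ¬ 22 * η < deg ε D x := mem_filter.2 ⟨hx, e⟩
        rw [h0] at this; simp at this
      obtain ⟨m1, m2, m3⟩ := mZ x hx
      have b2 : s0 ≤ 2 * deg ε (Dᶜ ∩ B) x :=
        not_lt.1 fun e => m2 (mem_filter.2 ⟨m1, b1, e⟩)
      rw [h0, card_empty] at e1
      omega
    · have hsub : (Z.filter fun x => ¬ 22 * η < deg ε D x) ⊆
          ((R \ H) ∩ A).filter (deg ρ B · ≤ k + 22 * η) := fun x hx => by
        rw [mem_filter] at hx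
        obtain ⟨m1, -, m3⟩ := mZ x hx.1
        have : deg ρ B x ≤ deg ε B x := deg_mono_rel fun y hy h => ⟨hy, hρ x y h⟩
        have := deg_split_inter ε D B x
        have := deg_mono ε (inter_subset_left : D ∩ B ⊆ D) x
        exact mem_filter.2 ⟨m1, by omega⟩
      have := h _ (h0.mono hsub)
      have := card_le_card hsub
      omega
  · by_cases e : y ∈ D
    · have := c2 y (by_contra fun e' => mem_compl.1 (mem_inter.1 hy).1 (mem_sdiff.2 ⟨e, e'⟩))
      have := deg_le_add (flip ε) (R ∩ A) ((R \ Er) ∩ A) y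
      have : ((R ∩ A) \ ((R \ Er) ∩ A)).card ≤ Er.card := card_le_card fun v => by
        simp only [mem_inter, mem_sdiff]; tauto
      omega
    · have := hD y e
      have := deg_le_add (flip ε) S ((R \ Er) ∩ A) y
      have := card_union_le (S \ R) Er
      have := card_union_le (S \ R ∪ Er) Aᶜ
      have : (S \ ((R \ Er) ∩ A)).card ≤ (S \ R ∪ Er ∪ Aᶜ).card := card_le_card fun v => by
        simp only [mem_inter, mem_sdiff, mem_union, mem_compl]; tauto
      omega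

end Pool.Agent.Lib.MP_c8ddae_co
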