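import Pool.Agent.Lib.MP_c8ddae_co.H8RE2

set_option autoImplicit false
open Finset

namespace Pool.Agent.Lib.MP_c8ddae_co

variable {V : Type} [Fintype V] [DecidableEq V] {E : V → V → Prop}

lemma PosF.low_card {ρ : V → V → Prop} {c D0 : ℕ} {ψ : ℕ → ℕ} (h : PosF ρ c ψ) (hD : D0 ≤ c) :
    (univ.filter (deg ρ univ · < D0)).card ≤ D0 := by
  rcases (univ.filter (deg ρ univ · < D0)).eq_empty_or_nonempty with h0 | ⟨x, hx⟩
  · rw [h0]; simp
  · have h1 := (mem_filter.1 hx).2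
    have hsub : univ.filter (deg ρ univ · < D0) ⊆ univ.filter (deg ρ univ · ≤ D0 - 1) :=
      fun v hv => mem_filter.2 ⟨mem_univ _, by have := (mem_filter.1 hv).2; omega⟩
    have := h (D0 - 1) (by omega) ⟨x, hsub hx⟩
    have := card_le_card hsub
    omega

lemma erase_facts (X R L : Finset V) {x : V} (hx : x ∈ X) :
    (x ∈ R → (X.erase x ∩ R).card + 1 = (X ∩ R).card) ∧
    (x ∉ R → (X.erase x ∩ R).card = (X ∩ R).card) ∧
    (L \ X).card ≤ (L \ X.erase x).card ∧ (x ∈ L → (L \ X).card + 1 ≤ (L \ X.erase x).card) := by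
  refine ⟨fun h => ?_, fun h => ?_, card_le_card (sdiff_subset_sdiff subset_rfl (erase_subset _ _)),
    fun h => ?_⟩
  · rw [erase_inter, card_erase_add_one (mem_inter.2 ⟨hx, h⟩)]
  · rw [erase_inter, erase_eq_of_notMem fun e => h (mem_inter.1 e).2]
  · rw [← card_insert_of_notMem (a := x) fun e => (mem_sdiff.1 e).2 hx]
    refine card_le_card (insert_subset (mem_sdiff.2 ⟨h, notMem_erase _ _⟩) ?_)
    exact sdiff_subset_sdiff subset_rfl (erase_subset _ _)

/-- imbalance bookkeeping -/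
def Imb (P : PS E) (R D Lr Lc : Finset V) : Prop :=
  (P.X ∩ R).card + Dᶜ.card ≤ (fs P ∅ univ ∩ Dᶜ).card + R.card ∧
    (fs P ∅ univ ∩ Dᶜ).card + R.card ≤
      (P.X ∩ R).card + Dᶜ.card + (Lr \ P.X).card + (Lc \ fs P ∅ univ).card

lemma Imb.step {P Q : PS E} {R D Lr Lc : Finset V} {x y : V} (h : Imb P R D Lr Lc)
    (hx : x ∈ P.X) (hy : P.St y) (j : PS.IsJoin P Q x y)
    (hρ : (x ∈ R ↔ y ∉ D) ∨ (x ∈ R ∧ y ∈ D ∧ (x ∈ Lr ∨ y ∈ Lc))) : Imb Q R D Lr Lc := by
  have f1 : fs Q ∅ univ = (fs P ∅ univ).erase y := by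
    ext v; simp only [mem_fs, mem_erase, j.St, notMem_empty]; tauto
  obtain ⟨a1, a2, a3, a4⟩ := erase_facts P.X R Lr hx
  obtain ⟨b1, b2, b3, b4⟩ := erase_facts (fs P ∅ univ) Dᶜ Lc
    (mem_fs.2 ⟨mem_univ _, hy, notMem_empty _⟩)
  rw [mem_compl] at b1 b2
  unfold Imb at h ⊢
  rw [j.X, f1]
  rcases hρ with h1 | ⟨h1, h2, h3 | h3⟩
  · by_cases e : x ∈ R
    · have := a1 e; have := b1 (h1.1 e); omega
    · have := a2 e; have := b2 fun e' => e (h1.2 e'); omega
  · have := a1 h1; have := b2 (not_not.2 h2); have := a4 h3; omega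
  · have := a1 h1; have := b2 (not_not.2 h2); have := b4 h3; omega

theorem ham_rel_ext (hirr : ∀ v, ¬ E v v) {c st η D0 t e0 s1 θ u J K r s0 : ℕ} {ψ : ℕ → ℕ}
    (hmono : Monotone ψ) (hp : PosF E c ψ) (hp' : PosF (flip E) c ψ)
    (hq : ∀ k, D0 ≤ k → k < c → (univ.filter (deg E univ · ≤ k)).Nonempty →
      (univ.filter (deg E univ · ≤ k)).card + ψ k + 22 * η ≤ k)
    (hq' : ∀ k, D0 ≤ k → k < c → (univ.filter (deg (flip E) univ · ≤ k)).Nonempty →
      (univ.filter (deg (flip E) univ · ≤ k)).card + ψ k + 22 * η ≤ k)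
    (ht : Top E c st) (ht' : Top (flip E) c st)
    (hφ : ∀ t e, e * (e + 1) ≤ 4 * t + 2 → 2 * e + 2 ≤ ψ t)
    (he0 : ∀ e, e * (e + 1) ≤ 4 * t → e ≤ e0) (hst : s1 + 2 * e0 ≤ ψ t) (htc : t < c)
    (hD : D0 ≤ c) (htop : ψ (c - 1) + 44 * η ≤ st)
    (hc : Fintype.card V ≤ 2 * c) (hc' : 2 * c ≤ Fintype.card V + 1) (hη : 0 < η)
    (n1 : 4 * D0 + 113 * η + 10 ≤ s1) (n2 : 2 * D0 + 48 * η + 5 + (2 * t + e0) ≤ θ)
    (n3 : 3 * θ + η ≤ st)
    {S T : Finset V} (hS : S.card + η = c) (hT : T.card + η = c)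
    (he : ecount E S T ≤ 20 * η * η) (hu : u ≤ 2 * η) (hJ : Fintype.card V < J * (6 * (2 * η)))
    (hK : (Fintype.card V : ℝ) ^ 2 * (1 - (4 * (2 * η) : ℕ) / (Fintype.card V : ℕ)) ^ K < 1)
    (hr : Fintype.card V < r * (3 * (2 * η)))
    (hru : 1 + (2 * r + 3) * ((K + 1) * (2 * J + 4)) ≤ u)
    (hs0 : ∀ e, e * (e + 1) ≤ 4 * Fintype.card V + 6 → 2 * e + 2 ≤ s0) (hs1 : s0 ≤ 2 * η) :
    Ham E := by
  classical
  have he' : ecount (flip E) T S ≤ 20 * η * η := by rw [ecount_flip]; exact he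
  obtain ⟨R, hR⟩ : ∃ R : Finset V, ∀ x, x ∈ R ↔ deg E T x < θ :=
    ⟨univ.filter (deg E T · < θ), by simp⟩
  obtain ⟨D, hDd⟩ : ∃ D : Finset V, ∀ x, x ∈ D ↔ deg (flip E) S x < θ :=
    ⟨univ.filter (deg (flip E) S · < θ), by simp⟩
  have hθ : 20 * η ≤ θ := by omega
  obtain ⟨a1, a2⟩ := side_sizes2 ht' hc hη hθ n3 hS hT he hR
  obtain ⟨a3, a4⟩ := side_sizes2 (ρ := flip E) ht hc hη hθ n3 hT hS he' hDd
  have x1 := ex_card hη he a2 a4
  have x2 := ex_card hη he' a4 a2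
  have g1 := H_card ht hc hη hθ hS hT he hR a2 a3 a4
  have g2 := H_card ht' hc hη hθ hT hS he' hDd a4 a1 a2
  set H1 := R.filter fun x => Dᶜ.card ≤ deg E Dᶜ x + 5 * η with hH1
  set H2 := D.filter fun x => Rᶜ.card ≤ deg (flip E) Rᶜ x + 5 * η with hH2
  set Lr := univ.filter (deg E univ · < D0) ∪ R.filter (22 * η < deg E D ·) with hLr
  set Lc := univ.filter (deg (flip E) univ · < D0) ∪ D.filter (22 * η < deg (flip E) R ·) with hLc
  have l1 : Lr.card ≤ D0 + 3 * η := by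
    have := hp.low_card hD
    exact (card_union_le _ _).trans (by omega)
  have l2 : Lc.card ≤ D0 + 3 * η := by
    have := hp'.low_card hD
    exact (card_union_le _ _).trans (by omega)
  set ρ : V → V → Prop := fun x y =>
    E x y ∧ ((x ∈ R ↔ y ∉ D) ∨ (x ∈ R ∧ y ∈ D ∧ (x ∈ Lr ∨ y ∈ Lc))) with hρ
  have hρE : ∀ x y, ρ x y → E x y := fun x y h => h.1
  have q1 := pos_tracked (ρ := ρ) (D := D) (L := Lr) hmono hp hq hD htop g1
    (fun x hx y hy h => ⟨h, Or.inl (iff_of_true (mem_sdiff.1 hx).1 hy)⟩)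
    (fun x hx hl y h => ⟨h, by have := (mem_sdiff.1 hx).1; tauto⟩)
    (fun x hx hl => by
      simp only [hLr, mem_union, mem_filter, mem_univ, true_and, not_or, not_and, not_lt] at hl
      exact ⟨hl.1, hl.2 (mem_sdiff.1 hx).1⟩)
  have q2 := pos_tracked (ρ := flip ρ) (D := R) (L := Lc) hmono hp' hq' hD htop g2
    (fun y hy x hx h => ⟨h, Or.inl (iff_of_false hx (not_not.2 (mem_sdiff.1 hy).1))⟩)
    (fun y hy hl x h => ⟨h, by have := (mem_sdiff.1 hy).1; tauto⟩)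
    (fun x hx hl => by
      simp only [hLc, mem_union, mem_filter, mem_univ, true_and, not_or, not_and, not_lt] at hl
      exact ⟨hl.1, hl.2 (mem_sdiff.1 hx).1⟩)
  obtain ⟨P, A, B, Jn, e, imb, bk, hJn, he1, -, -, oR, oC⟩ := greedy ρ hρE (PS.triv E)
    univ univ (R \ H1) (D \ H2) subset_rfl (fun _ _ => mem_univ _) (fun P => Imb P R D Lr Lc)
    (fun P Q x y h _ _ h1 h2 h3 _ j => h.step h2 h3 j h1.2)
    (fun k => ψ (min k (c - 1))) (fun a b hab => hmono (min_le_min_right _ hab)) t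
    (fun t' e ht' he => by
      have := hφ t' e he
      rwa [min_eq_left (by omega)])
    (by
      unfold Imb
      rw [fs_triv, show (PS.triv E).X = univ from rfl, univ_inter, univ_inter]
      omega) q1 q2
  simp only [min_eq_left (show t ≤ c - 1 by omega)] at oR oC
  have he2 := he0 e he1
  have oR' : ∀ k, (((R \ H1) ∩ A).filter (deg ρ B · ≤ k)).Nonempty →
      (((R \ H1) ∩ A).filter (deg ρ B · ≤ k)).card + s1 ≤ k := fun k hk => by
    have := oR k hk; omega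
  have oC' : ∀ k, (((D \ H2) ∩ B).filter (deg (flip ρ) A · ≤ k)).Nonempty →
      (((D \ H2) ∩ B).filter (deg (flip ρ) A · ≤ k)).card + s1 ≤ k := fun k hk => by
    have := oC k hk; omega
  have hX : P.X = A := by
    ext v
    exact (bk.X v).trans ⟨fun h => h.2 (mem_univ _), fun h => ⟨mem_univ _, fun _ => h⟩⟩
  have hSt : ∀ v, P.St v ↔ v ∈ B := fun v =>
    (bk.St v).trans ⟨fun h => h.2 (mem_univ _), fun h => ⟨mem_univ _, fun _ => h⟩⟩
  have cA := bk.cardA
  have cB := bk.cardB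
  rw [card_univ] at cA cB
  have cA' := card_add_card_compl A
  have cB' := card_add_card_compl B
  have cEr : (mv E R D H1 A B η s1).card ≤ 3 * η := mv_card x1
  have cEc : (mv (flip E) D R H2 B A η s1).card ≤ 3 * η := mv_card x2
  have m1 := half_post (S := S) (J := 2 * t + e0) (θ' := 2 * D0 + 44 * η + 5)
    (σ' := 2 * D0 + 44 * η + 5) hρE (filter_subset _ R) (fun x hx => (mem_filter.1 hx).2) x1 oR'
    (fun y hy => not_lt.1 fun e => hy ((hDd y).2 e)) a1 (by omega) cEc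
    (fun y hy => mv_deg (ρ := flip ρ) (fun x y h => hρE y x h) oC' hy)
    (by omega) (by omega) (by omega) (by omega)
  have m2 := half_post (ε := flip E) (ρ := flip ρ) (S := T) (J := 2 * t + e0)
    (θ' := 2 * D0 + 44 * η + 5) (σ' := 2 * D0 + 44 * η + 5) (fun x y h => hρE y x h)
    (filter_subset _ D) (fun x hx => (mem_filter.1 hx).2) x2 oC'
    (fun y hy => not_lt.1 fun e => hy ((hR y).2 e)) a3 (by omega) cEr
    (fun y hy => mv_deg hρE oR' hy) (by omega) (by omega) (by omega) (by omega)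
  set Er := mv E R D H1 A B η s1 with hEr
  set Ec := mv (flip E) D R H2 B A η s1 with hEc
  have b1 := le_card_sdiff S R
  have b2 := le_card_sdiff R S
  have b3 := le_card_sdiff T D
  have b4 := le_card_sdiff D T
  have b5 := le_card_sdiff Er R
  have b6 := le_card_sdiff Ec D
  have b7 := card_le_card (sdiff_subset : R \ Er ⊆ R)
  have b8 := card_le_card (sdiff_subset : D \ Ec ⊆ D)
  have b9 := card_add_card_compl (R \ Er)
  have b10 := card_add_card_compl (D \ Ec)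
  have b11 := card_add_card_compl D
  have u1 := ht.high_in (R \ Er)
  have u2 := ht.high_in (R \ Er)ᶜ
  have u3 := ht'.high_in (D \ Ec)
  have u4 := ht'.high_in (D \ Ec)ᶜ
  obtain ⟨i1, i2⟩ := imb
  rw [← fs_inter] at i1 i2
  have i3 := card_le_card (sdiff_subset : Lr \ P.X ⊆ Lr)
  have i4 := card_le_card (sdiff_subset : Lc \ fs P ∅ univ ⊆ Lc)
  have i5 : (P.X ∩ (R \ Er)).card ≤ (P.X ∩ R).card :=
    card_le_card (inter_subset_inter subset_rfl sdiff_subset)
  have i6 : (P.X ∩ R).card ≤ (P.X ∩ (R \ Er)).card + Er.card :=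
    le_trans (card_le_card fun v => by
      simp only [mem_inter, mem_sdiff, mem_union]; tauto) (card_union_le _ _)
  have i7 : (fs P ∅ Dᶜ).card ≤ (fs P ∅ (D \ Ec)ᶜ).card :=
    card_le_card fun v => by simp only [mem_fs, mem_sdiff, mem_compl]; tauto
  have i8 : (fs P ∅ (D \ Ec)ᶜ).card ≤ (fs P ∅ Dᶜ).card + Ec.card :=
    le_trans (card_le_card fun v => by
      simp only [mem_fs, mem_sdiff, mem_union, mem_compl]; tauto) (card_union_le _ _)
  obtain ⟨Q, sub, k1, k2, b, k3, k4⟩ := balance_all (R := R \ Er) (C := (D \ Ec)ᶜ)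
    (q := st - 5 * η) (J := 2 * t + e0) (d := 2 * D0 + 16 * η) hirr hc
    ⟨by omega, by rw [compl_compl]; omega⟩ ⟨by omega, by omega⟩ P (by rw [hX]; omega)
    (by omega) (by omega) (by omega)
  rw [hX] at k1
  exact ham_cross2 Q (hX ▸ sub.1) (fun v hv => (hSt v).1 (sub.2 v hv)) k1 (by omega) k2 k3 k4 m1
    (by rw [compl_compl]; exact m2) (by omega) (by omega) (by omega) hu hJ hK hr hru hs0 hs1

end Pool.Agent.Lib.MP_c8ddae_co
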