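import Pool.Agent.Lib.MP_c8ddae_co.H8Close

set_option autoImplicit false
open Finset

namespace Pool.Agent.Lib.MP_c8ddae_co

variable {V : Type} [Fintype V] [DecidableEq V]

open Classical in
/-- vertices outside `A` reached from `x` by a walk with at most `j` inner vertices -/
noncomputable def ball (ρ : V → V → Prop) (A : Finset V) (x : V) (j : ℕ) : Finset V :=
  univ.filter fun v => v ∉ A ∧ Wk ρ A j x v

lemma mem_ball {ρ : V → V → Prop} {A : Finset V} {x v : V} {j : ℕ} :
    v ∈ ball ρ A x j ↔ v ∉ A ∧ Wk ρ A j x v := by simp [ball]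

lemma ball_mono {ρ : V → V → Prop} {A : Finset V} {x : V} {j k : ℕ} (h : j ≤ k) :
    ball ρ A x j ⊆ ball ρ A x k := fun _ hv =>
  mem_ball.2 ⟨(mem_ball.1 hv).1, (mem_ball.1 hv).2.le h⟩

lemma ball_step {ρ : V → V → Prop} {A : Finset V} {x y v : V} {j : ℕ} (hy : y ∈ ball ρ A x j)
    (hv : v ∉ A) (h : ρ y v) : v ∈ ball ρ A x (j + 1) :=
  mem_ball.2 ⟨hv, (mem_ball.1 hy).2.snoc (mem_ball.1 hy).1 h⟩

lemma deg_le_ball_zero (ρ : V → V → Prop) (A : Finset V) (x : V) :
    deg ρ univ x ≤ (ball ρ A x 0).card + A.card := by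
  classical
  rw [deg_eq]
  refine le_trans (card_le_card (t := ball ρ A x 0 ∪ A) fun v hv => ?_) (card_union_le _ _)
  by_cases h : v ∈ A
  · exact mem_union_right _ h
  · exact mem_union_left _ (mem_ball.2 ⟨h, Wk.edge _ _ _ (mem_filter.1 hv).2⟩)

lemma deg_le_ball_succ {ρ : V → V → Prop} {A : Finset V} {x y : V} {j : ℕ}
    (hy : y ∈ ball ρ A x j) : deg ρ univ y ≤ (ball ρ A x (j + 1)).card + A.card := by
  classical
  rw [deg_eq]
  refine le_trans (card_le_card (t := ball ρ A x (j + 1) ∪ A) fun v hv => ?_) (card_union_le _ _)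
  by_cases h : v ∈ A
  · exact mem_union_right _ h
  · exact mem_union_left _ (ball_step hy h (mem_filter.1 hv).2)

lemma grow (f : ℕ → ℕ) (n g j0 J : ℕ) (Done : ℕ → Prop) (hf : ∀ j, f j ≤ n) (hJ : n < J * g)
    (h : ∀ j, j0 ≤ j → ¬ Done j → f j + g ≤ f (j + 1)) : ∃ j, j0 ≤ j ∧ j ≤ j0 + J ∧ Done j := by
  by_contra hc
  push Not at hc
  have key : ∀ i ≤ J, i * g ≤ f (j0 + i) := by
    intro i
    induction i with
    | zero => simp
    | succ i ih =>
      intro hi
      have h1 := ih (by omega)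
      have h2 := h (j0 + i) (by omega) (hc _ (by omega) (by omega))
      rw [← add_assoc, Nat.succ_mul]
      omega
  have := key J le_rfl
  have := hf (j0 + J)
  omega

/-- Posa-type condition with slack `s` below the cap `c` -/
def PosC (ρ : V → V → Prop) (c s : ℕ) : Prop :=
  ∀ k < c, (univ.filter (deg ρ univ · ≤ k)).Nonempty →
    (univ.filter (deg ρ univ · ≤ k)).card + s ≤ k

lemma PosC.exists_big {ρ : V → V → Prop} {c s : ℕ} (h : PosC ρ c s) (S : Finset V)
    (hS : S.Nonempty) : ∃ x ∈ S, min (S.card + s) c ≤ deg ρ univ x := by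
  by_contra hc
  push Not at hc
  obtain ⟨x, hx⟩ := hS
  have h0 := hc x hx
  have hsub : S ⊆ univ.filter (deg ρ univ · ≤ min (S.card + s) c - 1) := fun v hv =>
    mem_filter.2 ⟨mem_univ _, by have := hc v hv; omega⟩
  have h1 := h (min (S.card + s) c - 1) (by omega) ⟨x, hsub hx⟩
  have h2 := card_le_card hsub
  omega

lemma PosC.card_low {ρ : V → V → Prop} {c s : ℕ} (h : PosC ρ c s) (hs : s ≤ c) :
    (univ.filter (deg ρ univ · < c)).card + s ≤ c := by
  rcases (univ.filter (deg ρ univ · < c)).eq_empty_or_nonempty with h0 | h0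
  · rw [h0]; simpa using hs
  · obtain ⟨x, hx, h1⟩ := h.exists_big _ h0
    have := (mem_filter.1 hx).2
    omega

lemma PosC.ball_big {ρ : V → V → Prop} {c s u J : ℕ} (h : PosC ρ c s) (hu : 2 * u < s)
    (hJ : 2 * Fintype.card V < J * s) (hc : u < c) (A : Finset V) (hA : A.card ≤ u) (x : V) :
    c ≤ (ball ρ A x (J + 1)).card + u := by
  obtain ⟨y, hy, h0⟩ := h.exists_big {x} (singleton_nonempty x)
  rw [mem_singleton.1 hy, card_singleton] at h0
  have h1 := deg_le_ball_zero ρ A x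
  obtain ⟨j, -, hj, hd⟩ := grow (fun j => 2 * (ball ρ A x j).card) (2 * Fintype.card V) s 0 J
    (fun j => c ≤ (ball ρ A x (j + 1)).card + u)
    (fun j => by have := card_le_univ (ball ρ A x j); omega) hJ (by
      intro j _ hn
      have hne : (ball ρ A x j).Nonempty :=
        (card_pos.1 (by omega : 0 < (ball ρ A x 0).card)).mono (ball_mono (Nat.zero_le j))
      obtain ⟨z, hz, h2⟩ := h.exists_big _ hne
      have h3 := deg_le_ball_succ hz
      omega)
  have := card_le_card (ball_mono (ρ := ρ) (A := A) (x := x) (by omega : j + 1 ≤ J + 1))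
  omega

lemma reach_of_pos {ρ : V → V → Prop} {c s u J : ℕ} (h : PosC ρ c s) (h' : PosC (flip ρ) c s)
    (hu : 2 * u < s) (hJ : 2 * Fintype.card V < J * s) (hc : u < c)
    (hmid : ∀ S T : Finset V, c ≤ S.card + u → c ≤ T.card + u → ∃ x ∈ S, ∃ y ∈ T, ρ x y)
    (A : Finset V) (hA : A.card ≤ u) (x y : V) : Wk ρ A (2 * J + 4) x y := by
  obtain ⟨a, ha, b, hb, hab⟩ := hmid _ _ (h.ball_big hu hJ hc A hA x) (h'.ball_big hu hJ hc A hA y)
  rw [mem_ball] at ha hb
  exact (ha.2.trans ha.1 (Wk.step _ _ _ _ hb.1 hab hb.2.rev)).le (by omega)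

lemma exists_common (ρ : V → V → Prop) (x : V) (T : Finset V)
    (h : Fintype.card V < deg ρ univ x + T.card) : ∃ y ∈ T, ρ x y := by
  obtain ⟨y, -, h1, h2⟩ := exists_of_lt_deg ρ univ Tᶜ x (by have := card_le_univ T; rw [card_compl]; omega)
  exact ⟨y, by simpa using h2, h1⟩

lemma exists_perm {ρ : V → V → Prop} {c s : ℕ} (h : PosC ρ c s) (h' : PosC (flip ρ) c s)
    (hs : 0 < s) (hc : Fintype.card V ≤ 2 * c) : ∃ μ : Equiv.Perm V, ∀ v, ρ v (μ v) := by
  classical
  obtain ⟨f, hf, hρ⟩ := (Fintype.all_card_le_filter_rel_iff_exists_injective ρ).1 (by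
    intro S
    by_contra hlt
    push Not at hlt
    set N := univ.filter fun b => ∃ a ∈ S, ρ a b with hN
    have hS : S.Nonempty := card_pos.1 (by omega)
    obtain ⟨x, hx, h1⟩ := h.exists_big S hS
    have h2 : deg ρ univ x ≤ N.card := by
      rw [deg_eq]
      exact card_le_card fun v hv => mem_filter.2 ⟨mem_univ _, x, hx, (mem_filter.1 hv).2⟩
    have h3 := card_le_univ S
    have h4 := card_compl N
    have h5 := card_compl S
    obtain ⟨y, hy, h6⟩ := h'.exists_big Nᶜ (card_pos.1 (by omega))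
    have h7 : deg (flip ρ) univ y ≤ Sᶜ.card := by
      rw [deg_eq']
      refine card_le_card fun v hv => mem_compl.2 fun hv' => mem_compl.1 hy ?_
      exact mem_filter.2 ⟨mem_univ _, v, hv', (mem_filter.1 hv).2⟩
    omega)
  exact ⟨Equiv.ofBijective f (Finite.injective_iff_bijective.1 hf), hρ⟩

end Pool.Agent.Lib.MP_c8ddae_co
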