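import Pool.Agent.Lib.MP_c8ddae_co.H8Reach

set_option autoImplicit false
open Finset

namespace Pool.Agent.Lib.MP_c8ddae_co

variable {V : Type} [Fintype V] [DecidableEq V] {E : V → V → Prop}

lemma PosC.restrict {ρ : V → V → Prop} {c s : ℕ} (h : PosC ρ c s) (A B : Finset V) (u s0 : ℕ)
    (hB : Bᶜ.card ≤ u) (hs : s0 + u ≤ s) (k : ℕ)
    (hk : (((univ.filter (deg ρ univ · < c)) ∩ A).filter (deg ρ B · ≤ k)).Nonempty) :
    (((univ.filter (deg ρ univ · < c)) ∩ A).filter (deg ρ B · ≤ k)).card + s0 ≤ k := by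
  obtain ⟨x, hx, h1⟩ := h.exists_big _ hk
  simp only [mem_filter, mem_inter, mem_univ, true_and] at hx
  have h2 := deg_le_add ρ univ B x
  rw [← compl_eq_univ_sdiff] at h2
  omega

lemma sing_triv : Sing (PS.triv E) (∅ : Finset V) :=
  fun v _ => ⟨mem_univ v, mem_univ _, fun _ h => h⟩

lemma PosC.cap_le [Nonempty V] {ρ : V → V → Prop} {c s : ℕ} (h : PosC ρ c s) (hs : 0 < s) :
    c ≤ Fintype.card V := by
  obtain ⟨x, -, h1⟩ := h.exists_big univ univ_nonempty
  have := deg_le_card ρ univ x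
  rw [card_univ] at h1 this
  omega

lemma pow_bound {n N : ℕ} (hN : n ≤ N) {g M K : ℕ} (hg : g ≤ M)
    (hK : (N : ℝ) ^ 2 * (1 - g / M) ^ K < 1) : (n : ℝ) ^ 2 * (1 - g / M) ^ K < 1 := by
  refine lt_of_le_of_lt (mul_le_mul_of_nonneg_right ?_ (pow_nonneg ?_ _)) hK
  · gcongr
  · rw [sub_nonneg]
    exact div_le_one_of_le₀ (by exact_mod_cast hg) (by positivity)

lemma uh_slack (hirr : ∀ v, ¬ E v v) {c s σ u J K N : ℕ} (hN : Fintype.card V ≤ N)
    (h : PosC E c s) (h' : PosC (flip E) c s)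
    (hcap : Fintype.card V + 2 * σ ≤ 2 * c) (hcn : c ≤ Fintype.card V)
    (hJ : 2 * Fintype.card V < J * s) (hu : 2 * u + 1 ≤ σ) (hus : 2 * u < s)
    (hK : (N : ℝ) ^ 2 * (1 - σ / N) ^ K < 1) :
    UH E E (fun x y => c ≤ deg E univ x ∧ c ≤ deg (flip E) univ y) univ u (2 * J + 4) K := by
  classical
  refine ⟨fun A hA x _ y _ => reach_of_pos h h' hus hJ (by omega) ?_ A hA x y,
    by rw [card_univ]; omega, ?_⟩
  · intro S T hS hT
    obtain ⟨x, hx, h1⟩ := h.exists_big S (card_pos.1 (by omega))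
    obtain ⟨y, hy, h2⟩ := exists_common E x T (by omega)
    exact ⟨x, hx, y, hy, h2⟩
  · obtain ⟨μ, hμ⟩ := exists_perm h h' (by omega) (by omega)
    have hinj : Function.Injective fun w => (w, μ w) := fun a b hab => (Prod.mk.inj hab).1
    refine ⟨univ.image fun w => (w, μ w), N, σ, card_image_le.trans (by simpa using hN),
      by omega, by omega, ?_, pow_bound hN (by omega) hK, ?_⟩
    · intro p hp
      obtain ⟨w, -, rfl⟩ := mem_image.1 hp
      exact ⟨hμ w, mem_univ _, mem_univ _, fun (e : w = μ w) => hirr w (by have := hμ w; rwa [← e] at this)⟩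
    · rintro A hA x y ⟨hx, hy⟩
      set S1 := univ.filter fun w => E x (μ w) with hS1
      set S2 := univ.filter fun w => E w y with hS2
      have e1 : S1.card = deg E univ x := by
        rw [hS1, deg_eq]; exact card_filter_perm μ (E x)
      have e2 : S2.card = deg (flip E) univ y := by rw [hS2, deg_eq']
      have e3 : (univ.filter fun w => μ w ∈ A).card = A.card := by
        have := card_filter_perm μ (· ∈ A)
        simpa only [filter_mem_eq_inter, univ_inter] using this
      have h2 := card_union_add_card_inter S1 S2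
      have h3 := card_le_univ (S1 ∪ S2)
      have h4 := le_card_sdiff (A ∪ univ.filter fun w => μ w ∈ A) (S1 ∩ S2)
      have h5 := card_union_le A (univ.filter fun w => μ w ∈ A)
      refine ⟨((S1 ∩ S2) \ (A ∪ univ.filter fun w => μ w ∈ A)).image fun w => (w, μ w),
        image_subset_image (subset_univ _), by rw [card_image_of_injective _ hinj]; omega, ?_⟩
      intro p hp
      obtain ⟨w, hw, rfl⟩ := mem_image.1 hp
      simp only [hS1, hS2, mem_sdiff, mem_inter, mem_filter, mem_univ, true_and, mem_union,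
        not_or] at hw
      exact ⟨hw.2.1, hw.2.2, hw.1.1, hw.1.2⟩

theorem ham_slack [Nonempty V] (hirr : ∀ v, ¬ E v v) {c s σ u J K r s0 N : ℕ}
    (hN : Fintype.card V ≤ N) (h : PosC E c s) (h' : PosC (flip E) c s)
    (hcap : Fintype.card V + 2 * σ ≤ 2 * c)
    (hJ : 2 * N < J * s) (hu : 2 * u < s) (hsσ : s ≤ σ)
    (hK : (N : ℝ) ^ 2 * (1 - σ / N) ^ K < 1)
    (hr : N ≤ (r + 1) * σ) (hru : (r + 1) * ((K + 1) * (2 * J + 6)) ≤ u)
    (hs0 : ∀ e, e * (e + 1) ≤ 4 * N + 6 → 2 * e + 2 ≤ s0)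
    (hs : s0 + (u + (r + 1)) ≤ s) : Ham E := by
  classical
  have hcn := h.cap_le (by omega)
  have hsc : s ≤ c := by omega
  have H := uh_slack hirr hN h h' hcap hcn (by omega : _ < J * s) (by omega) hu hK
  obtain ⟨P1, U, Cs, -, -, sg, -, hU, c1, -, c2, c3, c4, c5⟩ := many_cycles (fun _ _ h => h)
    (Q := fun _ => True) (fun _ _ _ _ _ _ _ _ _ => trivial) H (PS.triv E) ∅ ∅ trivial
    (empty_subset _) sing_triv subset_rfl (r + 1) (by simpa using hru)
  rw [card_empty, zero_add] at hU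
  replace hU : U.card ≤ u := hU.trans hru
  have hUe : ∀ v, P1.e v ∈ Cs ↔ v ∈ U := fun v =>
    ⟨fun hv => by
      by_contra hn
      rw [sg.e hn] at hv
      exact hn (c1 hv), fun hv => c4 v hv (by simp)⟩
  obtain ⟨Y0, hY0, hYc⟩ : ∃ Y0 ⊆ (univ.filter (deg (flip E) univ · < c) ∪ U)ᶜ,
      Y0.card = r + 1 := by
    apply exists_subset_card_eq
    have := h'.card_low hsc
    have := card_union_le (univ.filter (deg (flip E) univ · < c)) U
    rw [card_compl]
    omega
  have hY : ∀ y ∈ Y0, c ≤ deg (flip E) univ y ∧ y ∉ U := by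
    intro y hy
    have := hY0 hy
    simpa using this
  obtain ⟨P2, A, B, Jn, k2, bk, hA, hB⟩ := greedy_all E (fun _ _ h => h) P1 Uᶜ (U ∪ Y0)ᶜ
    (univ.filter (deg E univ · < c)) (univ.filter (deg (flip E) univ · < c))
    (fun v hv => (sg v (mem_compl.1 hv)).1)
    (fun v hv => (sg v fun e => mem_compl.1 hv (mem_union_left _ e)).2.1)
    (fun P => Keep P1 P Cs)
    (fun P P' x y hk hx hy _ _ _ _ hj => hk.trans (hj.keep hk.sub
      (fun e => mem_compl.1 hx (c1 e))
      (fun e => mem_compl.1 hy (mem_union_left _ ((hUe y).1 ((hk.e_mem y).1 e))))))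
    (Keep.refl P1 c2) s0 (fun e he => hs0 e (by omega))
    (h.restrict _ _ (u + (r + 1)) s0 (by
      have := card_union_le U Y0
      rw [compl_compl]; omega) hs)
    (h'.restrict _ _ (u + (r + 1)) s0 (by rw [compl_compl]; omega) hs)
  have g2 : Good P1 P2 Cs (fun x => c ≤ deg E univ x) (fun y => c ≤ deg (flip E) univ y) := by
    refine ⟨k2, fun a ha haz => ?_, fun b hb hbz => ?_⟩
    · obtain ⟨h1, h2⟩ := (bk.X a).1 ha
      have haU : a ∉ U := fun e => haz (by
        have := (hUe a).2 e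
        rwa [P1.e_self a h1] at this)
      by_contra hn
      have : a ∈ univ.filter (deg E univ · < c) ∩ A :=
        mem_inter.2 ⟨by simpa using hn, h2 (mem_compl.2 haU)⟩
      rw [hA] at this
      simp at this
    · obtain ⟨h1, h2⟩ := (bk.St b).1 hb
      have hbU : b ∉ U := fun e => hbz ((k2.e_mem b).2 ((hUe b).2 e))
      by_cases hy : b ∈ Y0
      · exact (hY b hy).1
      · by_contra hn
        have : b ∈ univ.filter (deg (flip E) univ · < c) ∩ B :=
          mem_inter.2 ⟨by simpa using hn, h2 (by simp [hbU, hy])⟩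
        rw [hB] at this
        simp at this
  have hm : r + 1 ≤ (P2.X \ Cs).card := by
    rw [← hYc]
    refine card_starts_le P2 Cs Y0 fun b hb => ⟨(bk.St b).2 ⟨(sg b (hY b hb).2).2.1,
      fun e => absurd (mem_union_right _ hb) (mem_compl.1 e)⟩, fun e => ?_⟩
    exact (hY b hb).2 ((hUe b).1 ((k2.e_mem b).1 e))
  obtain ⟨P3, g3, hc3⟩ := merge_all P1 Cs (r + 1) (fun P g hm =>
    merge_step P Cs U g.keep.sub (fun v hv => (hUe v).1 ((g.keep.e_mem v).1 hv)) σ (r + 1)
      (fun x y (hx : c ≤ deg E univ x) (hy : c ≤ deg (flip E) univ y) => by omega) (by omega)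
      (hN.trans hr) hm
      g.ends g.starts) ((P2.X \ Cs).card - (r + 1)) P2 g2 (by omega)
  exact close_all (fun x y hx hy => ⟨hx, hy⟩) r P3 Cs c3 g3.keep.sub
    (fun z hz => (c5 z hz).same (g3.keep z hz)) hc3 g3.ends g3.starts

end Pool.Agent.Lib.MP_c8ddae_co
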