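import Pool.Agent.Lib.MP_c8ddae_co.H8Ext3

set_option autoImplicit false
open Finset

namespace Pool.Agent.Lib.MP_c8ddae_co

variable {V : Type} [Fintype V] [DecidableEq V] {E : V → V → Prop}

/-- two-switch, recording that the other arcs are kept -/
lemma red_switch' (P : PS E) (Z : Finset V) (hZ : Z ⊆ P.X) {a b w : V} (ha : a ∈ P.X)
    (hb : P.St b) (hw : w ∉ P.X) (haZ : a ∉ Z) (hbZ : P.e b ∉ Z) (hwZ : P.e w ∉ Z)
    (h1 : P.e w ≠ a) (h2 : P.e b ≠ P.e w) (hE1 : E a (P.F w)) (hE2 : E w b) :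
    ∃ Q, Red P Q Z a b ∧ ∀ v, v ∉ P.X → v ≠ w → Q.F v = P.F v := by
  obtain ⟨P1, c1⟩ := P.exists_cut hw
  have k1 := c1.keep hZ hw hwZ
  have ez := c1.e_F hw
  have eb := c1.e_ne h2
  obtain ⟨P2, j2⟩ := P1.exists_join (a := a) (b := P.F w) (by rw [c1.X]; exact mem_insert_of_mem ha)
    ((c1.St _).2 (Or.inr rfl)) (by rw [ez]; exact h1) hE1
  have k2 := j2.keep k1.sub haZ (by rw [ez]; exact hwZ)
  have hwa : w ≠ a := fun h => hw (h ▸ ha)
  have hbz : b ≠ P.F w := fun h => P.not_St_F hw (h ▸ hb)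
  have eb2 : P2.e b = if P.e b = a then P.e w else P.e b := by rw [j2.e, eb, ez]
  have hne : ∀ v, P.e v ≠ w := fun v h => hw (h ▸ P.e_mem v)
  obtain ⟨P3, j3⟩ := P2.exists_join (a := w) (b := b)
    (by rw [j2.X, c1.X]; exact mem_erase.2 ⟨hwa, mem_insert_self _ _⟩)
    ((j2.St _).2 ⟨(c1.St _).2 (Or.inl hb), hbz⟩)
    (by rw [eb2]; split_ifs <;> exact hne _) hE2
  have k3 := j3.keep k2.sub (fun h => hw (hZ h)) (by rw [eb2]; split_ifs <;> assumption)
  refine ⟨P3, ⟨?_, ?_, k1.trans (k2.trans k3)⟩, fun v hv hvw => ?_⟩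
  · rw [j3.X, j2.X, c1.X]
    ext v
    simp only [mem_erase, mem_insert]
    constructor
    · rintro ⟨h3, h4, h5 | h5⟩
      · exact absurd h5 h3
      · exact ⟨h4, h5⟩
    · rintro ⟨h3, h4⟩
      exact ⟨fun h => hw (h ▸ h4), h3, Or.inr h4⟩
  · intro c
    rw [j3.St, j2.St, c1.St]
    constructor
    · rintro ⟨⟨h3 | h3, h4⟩, h5⟩
      · exact ⟨h3, h5⟩
      · exact absurd h3 h4
    · rintro ⟨h3, h4⟩
      exact ⟨⟨Or.inl h3, fun h => P.not_St_F hw (h ▸ h3)⟩, h4⟩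
  · have v1 : v ∉ P1.X := by rw [c1.X, mem_insert]; exact fun h => h.elim hvw hv
    have v2 : v ∉ P2.X := by rw [j2.X]; exact fun h => v1 (mem_of_mem_erase h)
    rw [j3.F v v2, j2.F v v1, c1.F]

/-- a one-vertex path -/
def Fr (P : PS E) (v : V) : Prop := v ∈ P.X ∧ P.St v

lemma Fr.e {P : PS E} {v : V} (h : Fr P v) : P.e v = v := P.e_self v h.1

lemma Fr.eq {P : PS E} {v u : V} (h : Fr P v) (hu : P.e u = v) : u = v := by
  have h1 := P.d_le_start h.2 (hu.trans h.e.symm)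
  have h2 := P.d_self v h.1
  have h3 := P.mem_of_d (show P.d u = 0 by omega)
  rw [← hu, P.e_self u h3]

/-- ends and starts only disappear -/
def Sub (P Q : PS E) : Prop := Q.X ⊆ P.X ∧ ∀ v, Q.St v → P.St v

lemma Sub.refl (P : PS E) : Sub P P := ⟨subset_rfl, fun _ h => h⟩
lemma Sub.trans {P Q R : PS E} (h : Sub P Q) (h' : Sub Q R) : Sub P R :=
  ⟨h'.1.trans h.1, fun v hv => h.2 v (h'.2 v hv)⟩
lemma Sub.fr {P Q : PS E} (h : Sub P Q) {v : V} (hv : Fr Q v) : Fr P v := ⟨h.1 hv.1, h.2 v hv.2⟩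

lemma Red.jn {P Q : PS E} {Z R C : Finset V} {a b : V} (h : Red P Q Z a b) (ha : a ∈ P.X)
    (hb : P.St b) (haR : a ∈ R) (hbC : b ∈ C) : Jn P Q R C 1 ∧ Sub P Q := by
  have f1 : ∀ D : Finset V, fs Q ∅ D = (fs P ∅ D).erase b := fun D => by
    ext v; simp only [mem_fs, mem_erase, h.St, notMem_empty]; tauto
  refine ⟨⟨?_, ?_, ?_, ?_⟩, by rw [h.X]; exact erase_subset _ _, fun v hv => ((h.St v).1 hv).1⟩
  · rw [h.X, erase_inter, card_erase_add_one (mem_inter.2 ⟨ha, haR⟩)]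
  · rw [h.X, erase_inter, erase_eq_of_notMem fun e => mem_compl.1 (mem_inter.1 e).2 haR]
  · rw [f1, card_erase_add_one (mem_fs.2 ⟨hbC, hb, notMem_empty _⟩)]
  · rw [f1, erase_eq_of_notMem fun e => mem_compl.1 (mem_fs.1 e).1 hbC]

/-- ways of using `x` and `z` to remove an end in `R` and a start in `C` -/
def Opt (P : PS E) (R C : Finset V) (x z : V) : V ⊕ V → Prop
  | .inl y => P.St y ∧ y ∈ C ∧ E x y
  | .inr w => E w z ∧ ((w ∈ P.X ∧ w ∈ R) ∨ (w ∉ P.X ∧ E x (P.F w)))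

/-- the vertex at which an option acts -/
def loc (p : V ⊕ V) : V := p.elim id id

lemma opt_count (hirr : ∀ v, ¬ E v v) (P : PS E) (R C : Finset V) (x z : V)
    (h : Fintype.card V ≤ deg E univ x + deg (flip E) univ z) :
    ∃ O : Finset (V ⊕ V), (∀ p ∈ O, Opt P R C x z p) ∧
      P.X.card ≤ O.card + ((fs P ∅ Cᶜ).erase x).card + ((P.X ∩ Rᶜ).erase z).card := by
  classical
  set O1 := univ.filter fun y => P.St y ∧ y ∈ C ∧ E x y with hO1
  set O2 := univ.filter fun w => E w z ∧ w ∈ P.X ∧ w ∈ R with hO2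
  set O3 := univ.filter fun w => E w z ∧ w ∉ P.X ∧ E x (P.F w) with hO3
  set A := univ.filter fun w => w ∉ P.X ∧ E x (P.F w) with hA
  set B := univ.filter fun w => w ∉ P.X ∧ E w z with hB
  have dj : Disjoint O2 O3 := disjoint_left.2 fun w h2 h3 =>
    (mem_filter.1 h3).2.2.1 (mem_filter.1 h2).2.2.1
  refine ⟨O1.disjSum (O2 ∪ O3), fun p hp => ?_, ?_⟩
  · rcases p with y | w
    · exact (mem_filter.1 (inl_mem_disjSum.1 hp)).2
    · rcases mem_union.1 (inr_mem_disjSum.1 hp) with h1 | h1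
      · exact ⟨(mem_filter.1 h1).2.1, Or.inl (mem_filter.1 h1).2.2⟩
      · exact ⟨(mem_filter.1 h1).2.1, Or.inr (mem_filter.1 h1).2.2⟩
  rw [card_disjSum, card_union_of_disjoint dj]
  have e1 : deg E univ x ≤ O1.card + ((fs P ∅ Cᶜ).erase x).card + A.card := by
    have a1 : (A.image P.F).card ≤ A.card := card_image_le
    have a2 := card_union_le O1 ((fs P ∅ Cᶜ).erase x)
    have a3 := card_union_le (O1 ∪ (fs P ∅ Cᶜ).erase x) (A.image P.F)
    have a4 : deg E univ x ≤ (O1 ∪ (fs P ∅ Cᶜ).erase x ∪ A.image P.F).card := by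
      rw [deg_eq]
      refine card_le_card fun y hy => ?_
      have hy' := (mem_filter.1 hy).2
      by_cases s : P.St y
      · refine mem_union_left _ ?_
        by_cases c : y ∈ C
        · exact mem_union_left _ (mem_filter.2 ⟨mem_univ _, s, c, hy'⟩)
        · exact mem_union_right _ (mem_erase.2 ⟨fun e => hirr x (e ▸ hy'),
            mem_fs.2 ⟨mem_compl.2 c, s, notMem_empty _⟩⟩)
      · exact mem_union_right _ (mem_image.2 ⟨P.F.symm y,
          mem_filter.2 ⟨mem_univ _, s, by simpa using hy'⟩, by simp⟩)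
    omega
  have e2 : deg (flip E) univ z ≤ O2.card + ((P.X ∩ Rᶜ).erase z).card + B.card := by
    have a2 := card_union_le O2 ((P.X ∩ Rᶜ).erase z)
    have a3 := card_union_le (O2 ∪ (P.X ∩ Rᶜ).erase z) B
    have a4 : deg (flip E) univ z ≤ (O2 ∪ (P.X ∩ Rᶜ).erase z ∪ B).card := by
      rw [deg_eq']
      refine card_le_card fun y hy => ?_
      have hy' := (mem_filter.1 hy).2
      by_cases s : y ∈ P.X
      · refine mem_union_left _ ?_
        by_cases c : y ∈ R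
        · exact mem_union_left _ (mem_filter.2 ⟨mem_univ _, hy', s, c⟩)
        · exact mem_union_right _ (mem_erase.2 ⟨fun e => hirr z (e ▸ hy'),
            mem_inter.2 ⟨s, mem_compl.2 c⟩⟩)
      · exact mem_union_right _ (mem_filter.2 ⟨mem_univ _, s, hy'⟩)
    omega
  have e3 := card_union_add_card_inter A B
  have e4 : (A ∪ B).card ≤ P.Xᶜ.card := card_le_card fun w hw => by
    rcases mem_union.1 hw with h1 | h1 <;> exact mem_compl.2 (mem_filter.1 h1).2.1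
  have e5 : (A ∩ B).card ≤ O3.card := card_le_card fun w hw => by
    obtain ⟨h1, h2⟩ := mem_inter.1 hw
    exact mem_filter.2 ⟨mem_univ _, (mem_filter.1 h2).2.2, (mem_filter.1 h1).2⟩
  have e6 := card_add_card_compl P.X
  omega

/-- outcome of one option -/
structure Gain (P Q : PS E) (R C Z : Finset V) (x z : V) (p : V ⊕ V) : Prop where
  jn : Jn P Q R C 1
  sub : Sub P Q
  keep : Keep P Q Z
  fr : ∀ v, Fr P v → v ≠ x → v ≠ z → v ≠ loc p → Fr Q v
  opt : ∀ x' z' p', p' ≠ p → loc p' ≠ x → loc p' ≠ z → Opt P R C x' z' p' → Opt Q R C x' z' p'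

lemma gain_of_red {P Q : PS E} {R C Z : Finset V} {x z a b : V} {p : V ⊕ V} (h : Red P Q Z a b)
    (ha : a ∈ P.X) (hb : P.St b) (haR : a ∈ R) (hbC : b ∈ C) (h1 : a = x ∨ p = .inr a)
    (h2 : b = z ∨ p = .inl b) (hF : ∀ v, v ∉ P.X → .inr v ≠ p → Q.F v = P.F v) :
    Gain P Q R C Z x z p := by
  obtain ⟨j, s⟩ := h.jn ha hb haR hbC
  refine ⟨j, s, h.keep, fun v hv v1 v2 v3 => ⟨?_, ?_⟩, fun x' z' p' q1 q2 q3 o => ?_⟩
  · rw [h.X]
    refine mem_erase.2 ⟨fun e => ?_, hv.1⟩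
    rcases h1 with h1 | h1
    · exact v1 (e.trans h1)
    · exact v3 (by rw [h1]; exact e)
  · refine (h.St v).2 ⟨hv.2, fun e => ?_⟩
    rcases h2 with h2 | h2
    · exact v2 (e.trans h2)
    · exact v3 (by rw [h2]; exact e)
  · rcases p' with y | w
    · refine ⟨(h.St y).2 ⟨o.1, fun e => ?_⟩, o.2⟩
      rcases h2 with h2 | h2
      · exact q3 (e.trans h2)
      · exact q1 (by rw [h2, e])
    · refine ⟨o.1, o.2.imp (fun t => ⟨?_, t.2⟩) fun t => ⟨fun e => t.1 (s.1 e), ?_⟩⟩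
      · rw [h.X]
        refine mem_erase.2 ⟨fun e => ?_, t.1⟩
        rcases h1 with h1 | h1
        · exact q2 (e.trans h1)
        · exact q1 (by rw [h1, e])
      · rw [hF w t.1 q1]; exact t.2

lemma opt_apply (hirr : ∀ v, ¬ E v v) {P : PS E} {R C Z : Finset V} {x z : V} {p : V ⊕ V}
    (hZ : Z ⊆ P.X) (hx : Fr P x) (hz : Fr P z) (xR : x ∈ R) (zC : z ∈ C) (xZ : x ∉ Z)
    (zZ : z ∉ Z) (pZ : P.e (loc p) ∉ Z) (o : Opt P R C x z p) : ∃ Q, Gain P Q R C Z x z p := by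
  rcases p with y | w
  · obtain ⟨o1, o2, o3⟩ := o
    obtain ⟨Q, j⟩ := P.exists_join hx.1 o1 (fun e => hirr x (hx.eq e ▸ o3)) o3
    exact ⟨Q, gain_of_red ⟨j.X, j.St, j.keep hZ xZ pZ⟩ hx.1 o1 xR o2 (Or.inl rfl) (Or.inr rfl)
      fun v hv _ => j.F v hv⟩
  · obtain ⟨o1, ⟨o2, o3⟩ | ⟨o2, o3⟩⟩ := o
    · obtain ⟨Q, j⟩ := P.exists_join o2 hz.2 (fun e => hirr z (by
        rw [hz.e] at e; rw [← e] at o1; exact o1)) o1
      have : w ∉ Z := by rw [← P.e_self w o2]; exact pZ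
      exact ⟨Q, gain_of_red ⟨j.X, j.St, j.keep hZ this (by rw [hz.e]; exact zZ)⟩ o2 hz.2 o3 zC
        (Or.inr rfl) (Or.inl rfl) fun v hv _ => j.F v hv⟩
    · obtain ⟨Q, r, hF⟩ := red_switch' P Z hZ hx.1 hz.2 o2 xZ (by rw [hz.e]; exact zZ) pZ
        (fun e => o2 (hx.eq e ▸ hx.1)) (fun e => o2 (hz.eq (e.symm.trans hz.e) ▸ hz.1)) o3 o1
      exact ⟨Q, gain_of_red r hx.1 hz.2 xR zC (Or.inl rfl) (Or.inl rfl)
        fun v hv e => hF v hv fun e' => e (by rw [e'])⟩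

end Pool.Agent.Lib.MP_c8ddae_co
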