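import Pool.Agent.Lib.MP_c8ddae_co.H8Sw1

set_option autoImplicit false
open Finset

namespace Pool.Agent.Lib.MP_c8ddae_co

variable {V : Type} [Fintype V] [DecidableEq V] {E : V → V → Prop}

lemma card_fs_univ (P : PS E) : (fs P ∅ univ).card = P.X.card := by
  symm
  refine card_bij (fun w _ => P.F w) (fun w hw => ?_) (fun a _ b _ h => P.F.injective h)
    fun b hb => ⟨P.F.symm b, (mem_fs.1 hb).2.1, by simp⟩
  exact mem_fs.2 ⟨mem_univ _, (P.St_F w).2 hw, notMem_empty _⟩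

lemma fs_inter (P : PS E) (C : Finset V) : fs P ∅ C = fs P ∅ univ ∩ C := by
  ext v; simp only [mem_fs, mem_inter, mem_univ]; tauto

lemma fs_split (P : PS E) (C : Finset V) : (fs P ∅ C).card + (fs P ∅ Cᶜ).card = P.X.card := by
  rw [fs_inter P C, fs_inter P Cᶜ, card_split, card_fs_univ]

lemma exists_fr (P : PS E) {T : Finset V} (U : Finset V) {J : ℕ}
    (hJ : Fintype.card V ≤ P.X.card + J) (hT : 2 * J + U.card < T.card) :
    ∃ v ∈ T, Fr P v ∧ v ∉ U := by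
  have e1 := card_add_card_compl P.X
  have e2 := card_add_card_compl (fs P ∅ univ)
  have e3 := card_fs_univ P
  have e4 := card_union_le P.Xᶜ (fs P ∅ univ)ᶜ
  have e5 := card_union_le (P.Xᶜ ∪ (fs P ∅ univ)ᶜ) U
  obtain ⟨v, h1, h2⟩ := exists_mem_notMem_of_card_lt_card
    (show (P.Xᶜ ∪ (fs P ∅ univ)ᶜ ∪ U).card < T.card by omega)
  simp only [mem_union, mem_compl, not_or, not_not] at h2
  exact ⟨v, h1, ⟨h2.1.1, (mem_fs.1 h2.1.2).2.1⟩, h2.2⟩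

lemma Jn.card {P Q : PS E} {R C : Finset V} {j : ℕ} (h : Jn P Q R C j) :
    Q.X.card + j = P.X.card ∧ (Q.X ∩ Rᶜ).card = (P.X ∩ Rᶜ).card ∧
      (fs Q ∅ Cᶜ).card = (fs P ∅ Cᶜ).card := by
  have := h.x1
  have h2 := congrArg Finset.card h.x2
  have := card_split R P.X
  have := card_split R Q.X
  exact ⟨by omega, h2, congrArg Finset.card h.s2⟩

/-- a supply of `q` rows in `R` and `q` columns in `C` of large degree -/
def Sup (E : V → V → Prop) (R C : Finset V) (c q : ℕ) : Prop :=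
  q ≤ (R.filter (c ≤ deg E univ ·)).card ∧ q ≤ (C.filter (c ≤ deg (flip E) univ ·)).card

/-- fresh pair of large degree -/
structure Pr (P : PS E) (R C : Finset V) (c : ℕ) (x z : V) : Prop where
  fx : Fr P x
  fz : Fr P z
  xR : x ∈ R
  zC : z ∈ C
  dx : c ≤ deg E univ x
  dz : c ≤ deg (flip E) univ z

lemma Sup.pr {R C : Finset V} {c q J : ℕ} (h : Sup E R C c q) (P : PS E) (U W : Finset V)
    (hJ : Fintype.card V ≤ P.X.card + J) (hU : 2 * J + U.card < q) (hW : 2 * J + W.card < q) :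
    ∃ x z, Pr P R C c x z ∧ x ∉ U ∧ z ∉ W := by
  obtain ⟨x, x1, x2, x3⟩ := exists_fr P U hJ (hU.trans_le h.1)
  obtain ⟨z, z1, z2, z3⟩ := exists_fr P W hJ (hW.trans_le h.2)
  rw [mem_filter] at x1 z1
  exact ⟨x, z, ⟨x2, z2, x1.1, z1.1, x1.2, z1.2⟩, x3, z3⟩

lemma Pr.count (hirr : ∀ v, ¬ E v v) {P : PS E} {R C : Finset V} {c : ℕ} {x z : V}
    (h : Pr P R C c x z) (hc : Fintype.card V ≤ 2 * c) :
    ∃ O : Finset (V ⊕ V), (∀ p ∈ O, Opt P R C x z p) ∧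
      (P.X ∩ R).card ≤ O.card + (fs P ∅ Cᶜ).card ∧
      ((∀ v, Fr P v → v ∈ R → v ∉ C) → (P.X ∩ R).card + 2 ≤ O.card + (fs P ∅ Cᶜ).card) := by
  obtain ⟨O, o1, o2⟩ := opt_count hirr P R C x z (by have := h.dx; have := h.dz; omega)
  have e1 := card_split R P.X
  have e2 := card_erase_le (s := fs P ∅ Cᶜ) (a := x)
  have e3 := card_erase_le (s := P.X ∩ Rᶜ) (a := z)
  refine ⟨O, o1, by omega, fun hN => ?_⟩
  have e4 := card_erase_add_one (mem_fs.2 ⟨mem_compl.2 (hN x h.fx h.xR), h.fx.2, notMem_empty _⟩)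
  have e5 := card_erase_add_one (mem_inter.2 ⟨h.fz.1, mem_compl.2 fun e => hN z h.fz e h.zC⟩)
  omega

lemma gain_one (hirr : ∀ v, ¬ E v v) {R C : Finset V} {c q J : ℕ} (hc : Fintype.card V ≤ 2 * c)
    (h : Sup E R C c q) (P : PS E) (hJ : Fintype.card V ≤ P.X.card + J) (hq : 2 * J < q)
    (hd : (fs P ∅ Cᶜ).card < (P.X ∩ R).card ∨ ((∀ v, Fr P v → v ∈ R → v ∉ C) ∧
      (fs P ∅ Cᶜ).card < (P.X ∩ R).card + 2)) : ∃ Q, Jn P Q R C 1 ∧ Sub P Q := by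
  obtain ⟨x, z, pr, -, -⟩ := h.pr P ∅ ∅ hJ (by simpa using hq) (by simpa using hq)
  obtain ⟨O, o1, o2, o3⟩ := pr.count hirr hc
  obtain ⟨p, hp⟩ : O.Nonempty := card_pos.1 (by
    rcases hd with hd | ⟨h1, hd⟩
    · omega
    · have := o3 h1; omega)
  obtain ⟨Q, g⟩ := opt_apply hirr (empty_subset _) pr.fx pr.fz pr.xR pr.zC (notMem_empty _)
    (notMem_empty _) (notMem_empty _) (o1 p hp)
  exact ⟨Q, g.jn, g.sub⟩

lemma gain_many (hirr : ∀ v, ¬ E v v) {R C : Finset V} {c q : ℕ} (hc : Fintype.card V ≤ 2 * c)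
    (h : Sup E R C c q) : ∀ (d J : ℕ) (P : PS E), Fintype.card V ≤ P.X.card + J →
    2 * (J + d) < q → (P.X ∩ R).card = (fs P ∅ Cᶜ).card + d → ∃ Q, Jn P Q R C d ∧ Sub P Q := by
  intro d
  induction d with
  | zero => exact fun J P _ _ _ => ⟨P, ⟨rfl, rfl, rfl, rfl⟩, Sub.refl P⟩
  | succ d ih =>
    intro J P hJ hq hd
    obtain ⟨Q, j, s⟩ := gain_one hirr hc h P hJ (by omega) (Or.inl (by omega))
    have := j.card
    have := j.x1
    obtain ⟨Q', j', s'⟩ := ih (J + 1) Q (by omega) (by omega) (by omega)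
    exact ⟨Q', by rw [add_comm]; exact j.trans j', s.trans s'⟩

lemma mixed_two (P : PS E) {R C : Finset V} (h : (fs P ∅ Cᶜ).card + 2 ≤ (P.X ∩ R).card) :
    ∃ b1 b2, P.St b1 ∧ P.St b2 ∧ b1 ∈ C ∧ b2 ∈ C ∧ P.e b1 ∈ R ∧ P.e b2 ∈ R ∧ P.e b1 ≠ P.e b2 := by
  have e1 : ((fs P ∅ Cᶜ).image P.e).card ≤ (fs P ∅ Cᶜ).card := card_image_le
  have e2 := le_card_sdiff ((fs P ∅ Cᶜ).image P.e) (P.X ∩ R)
  obtain ⟨c1, h1, c2, h2, hne⟩ := one_lt_card.1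
    (show 1 < ((P.X ∩ R) \ (fs P ∅ Cᶜ).image P.e).card by omega)
  have key : ∀ c ∈ (P.X ∩ R) \ (fs P ∅ Cᶜ).image P.e, ∃ b, P.St b ∧ b ∈ C ∧ P.e b = c ∧ c ∈ R := by
    intro c hc
    rw [mem_sdiff, mem_inter] at hc
    obtain ⟨b, b1, b2⟩ := P.exists_start c
    rw [P.e_self c hc.1.1] at b2
    refine ⟨b, b1, by_contra fun e => hc.2 (mem_image.2 ⟨b, ?_, b2⟩), b2, hc.1.2⟩
    exact mem_fs.2 ⟨mem_compl.2 e, b1, notMem_empty _⟩
  obtain ⟨b1, a1, a2, a3, a4⟩ := key c1 h1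
  obtain ⟨b2, d1, d2, d3, d4⟩ := key c2 h2
  exact ⟨b1, b2, a1, d1, a2, d2, a3 ▸ a4, d3 ▸ d4, by rw [a3, d3]; exact hne⟩

/-- a path with start in `C` and end `m` in `R` -/
def Mx (P : PS E) (R C : Finset V) (m : V) : Prop := ∃ b, P.St b ∧ b ∈ C ∧ P.e b = m ∧ m ∈ R

lemma Mx.mem {P : PS E} {R C : Finset V} {m : V} (h : Mx P R C m) : m ∈ P.X :=
  let ⟨b, _, _, h3, _⟩ := h
  h3 ▸ P.e_mem b

lemma Mx.keep {P Q : PS E} {R C Z : Finset V} {m : V} (h : Mx P R C m) (k : Keep P Q Z)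
    (hm : m ∈ Z) : Mx Q R C m :=
  let ⟨b, h1, h2, h3, h4⟩ := h
  ⟨b, ((k m hm).St b h3).2 h1, h2, ((k m hm).e b).2 h3, h4⟩

lemma Mx.ne {P : PS E} {R C : Finset V} {m v : V} (h : Mx P R C m)
    (hN : ∀ v, Fr P v → v ∈ R → v ∉ C) (hv : Fr P v) : v ≠ m := by
  rintro rfl
  obtain ⟨b, -, h2, h3, h4⟩ := h
  exact hN v hv h4 (hv.eq h3 ▸ h2)

lemma keep_gain (hirr : ∀ v, ¬ E v v) {P : PS E} {R C Z : Finset V} {c : ℕ} {x z : V} {p : V ⊕ V}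
    (hN : ∀ v, Fr P v → v ∈ R → v ∉ C) (hZ : ∀ m ∈ Z, Mx P R C m) (pr : Pr P R C c x z)
    (o : Opt P R C x z p) (hp : P.e (loc p) ∉ Z) : ∃ Q, Gain P Q R C Z x z p :=
  opt_apply hirr (fun m hm => (hZ m hm).mem) pr.fx pr.fz pr.xR pr.zC
    (fun e => (hZ x e).ne hN pr.fx rfl) (fun e => (hZ z e).ne hN pr.fz rfl) hp o

lemma two_on (hirr : ∀ v, ¬ E v v) {P : PS E} {R C : Finset V} {c : ℕ} {x z x' z' m m' : V}
    (hN : ∀ v, Fr P v → v ∈ R → v ∉ C) (hm : Mx P R C m) (hm' : Mx P R C m') (hne : m' ≠ m)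
    (pr : Pr P R C c x z) (pr' : Pr P R C c x' z') (hx : x' ≠ x) (hz : z' ≠ z)
    {O O' : Finset (V ⊕ V)} (o : ∀ p ∈ O, Opt P R C x z p ∧ P.e (loc p) = m')
    (o' : ∀ p ∈ O', Opt P R C x' z' p ∧ P.e (loc p) = m') (c1 : 2 ≤ O.card) (c2 : 2 ≤ O'.card) :
    ∃ Q m, Jn P Q R C 2 ∧ Sub P Q ∧ Mx Q R C m := by
  obtain ⟨p, hp⟩ : O.Nonempty := card_pos.1 (by omega)
  obtain ⟨p', hp', hpp⟩ := exists_mem_ne (show 1 < O'.card by omega) p
  have nf : ∀ v q, Fr P v → P.e (loc q) = m' → v ≠ loc q := fun v q hv hq e =>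
    hm'.ne hN hv (by rw [← hq, ← e, hv.e])
  obtain ⟨Q, g⟩ := keep_gain (Z := {m}) hirr hN (by simpa using hm) pr (o p hp).1
    (by rw [(o p hp).2]; simpa using hne)
  have xz : x' ≠ z := fun e => hN x' pr'.fx pr'.xR (e ▸ pr.zC)
  have zx : z' ≠ x := fun e => hN x pr.fx pr.xR (e ▸ pr'.zC)
  have hmQ := hm.keep g.keep (mem_singleton_self _)
  obtain ⟨Q', g'⟩ := keep_gain (Z := {m}) (P := Q) (p := p') hirr
    (fun v hv => hN v (g.sub.fr hv)) (by simpa using hmQ)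
    ⟨g.fr x' pr'.fx hx xz (nf _ _ pr'.fx (o p hp).2), g.fr z' pr'.fz zx hz (nf _ _ pr'.fz (o p hp).2),
      pr'.xR, pr'.zC, pr'.dx, pr'.dz⟩
    (g.opt x' z' p' hpp (nf _ _ pr.fx (o' p' hp').2).symm (nf _ _ pr.fz (o' p' hp').2).symm
      (o' p' hp').1)
    (by rw [g.keep.e_mem, (o' p' hp').2]; simpa using hne)
  exact ⟨Q', m, g.jn.trans g'.jn, g.sub.trans g'.sub, hmQ.keep g'.keep (mem_singleton_self _)⟩

lemma two_gains (hirr : ∀ v, ¬ E v v) {R C : Finset V} {c q J : ℕ} (hc : Fintype.card V ≤ 2 * c)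
    (h : Sup E R C c q) (P : PS E) (hJ : Fintype.card V ≤ P.X.card + J) (hq : 2 * J + 2 < q)
    (hN : ∀ v, Fr P v → v ∈ R → v ∉ C) (hd : (P.X ∩ R).card = (fs P ∅ Cᶜ).card + 2) :
    ∃ Q m, Jn P Q R C 2 ∧ Sub P Q ∧ Mx Q R C m := by
  classical
  obtain ⟨b1, b2, s1, s2, c1, c2, r1, r2, hne⟩ := mixed_two P hd.ge
  have m1 : Mx P R C (P.e b1) := ⟨b1, s1, c1, rfl, r1⟩
  have m2 : Mx P R C (P.e b2) := ⟨b2, s2, c2, rfl, r2⟩
  by_cases hoff : ∃ x z p, Pr P R C c x z ∧ Opt P R C x z p ∧ P.e (loc p) ∉ ({P.e b1, P.e b2} : Finset V)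
  · obtain ⟨x, z, p, pr, o, hp⟩ := hoff
    obtain ⟨Q, g⟩ := keep_gain hirr hN (by simpa using ⟨m1, m2⟩) pr o hp
    have k := g.jn.card
    have k1 := g.jn.x1
    have hN' : ∀ v, Fr Q v → v ∈ R → v ∉ C := fun v hv => hN v (g.sub.fr hv)
    obtain ⟨x', z', pr', -, -⟩ := h.pr Q ∅ ∅ (J := J + 1) (by omega) (by simp; omega)
      (by simp; omega)
    obtain ⟨O, o1, o2, -⟩ := pr'.count hirr hc
    obtain ⟨p', hp'⟩ : O.Nonempty := card_pos.1 (by omega)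
    obtain ⟨m, hm, hm'⟩ : ∃ m, Mx Q R C m ∧ Q.e (loc p') ≠ m := by
      by_cases e : Q.e (loc p') = P.e b1
      · exact ⟨_, m2.keep g.keep (by simp), by rw [e]; exact hne⟩
      · exact ⟨_, m1.keep g.keep (by simp), e⟩
    obtain ⟨Q', g'⟩ := keep_gain (Z := {m}) hirr hN' (by simpa using hm) pr' (o1 p' hp')
      (by simpa using hm')
    exact ⟨Q', m, g.jn.trans g'.jn, g.sub.trans g'.sub, hm.keep g'.keep (mem_singleton_self _)⟩
  · have key : ∀ x z, Pr P R C c x z →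
        (∃ O : Finset (V ⊕ V), (∀ p ∈ O, Opt P R C x z p ∧ P.e (loc p) = P.e b1) ∧ 2 ≤ O.card) ∨
        (∃ O : Finset (V ⊕ V), (∀ p ∈ O, Opt P R C x z p ∧ P.e (loc p) = P.e b2) ∧ 2 ≤ O.card) := by
      intro x z pr
      obtain ⟨O, o1, -, o3⟩ := pr.count hirr hc
      have := o3 hN
      have := card_filter_add_card_filter_not (s := O) fun p => P.e (loc p) = P.e b1
      by_cases e : 2 ≤ (O.filter fun p => P.e (loc p) = P.e b1).card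
      · exact Or.inl ⟨_, fun p hp => ⟨o1 p (mem_filter.1 hp).1, (mem_filter.1 hp).2⟩, e⟩
      · refine Or.inr ⟨O.filter fun p => ¬ P.e (loc p) = P.e b1, fun p hp => ?_, by omega⟩
        rw [mem_filter] at hp
        refine ⟨o1 p hp.1, by_contra fun e' => hoff ⟨x, z, p, pr, o1 p hp.1, ?_⟩⟩
        simp [hp.2, e']
    obtain ⟨x1, z1, p1, -, -⟩ := h.pr P ∅ ∅ hJ (by simp; omega) (by simp; omega)
    obtain ⟨x2, z2, p2, a1, a2⟩ := h.pr P {x1} {z1} hJ (by simp; omega) (by simp; omega)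
    have := card_le_two (a := x1) (b := x2)
    have := card_le_two (a := z1) (b := z2)
    obtain ⟨x3, z3, p3, a3, a4⟩ := h.pr P {x1, x2} {z1, z2} hJ (by omega) (by omega)
    simp only [mem_insert, mem_singleton, not_or] at a1 a2 a3 a4
    rcases key _ _ p1 with ⟨O1, u1, v1⟩ | ⟨O1, u1, v1⟩ <;>
    rcases key _ _ p2 with ⟨O2, u2, v2⟩ | ⟨O2, u2, v2⟩ <;>
    rcases key _ _ p3 with ⟨O3, u3, v3⟩ | ⟨O3, u3, v3⟩ <;>
    first
      | exact two_on hirr hN m2 m1 hne p1 p2 a1 a2 u1 u2 v1 v2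
      | exact two_on hirr hN m2 m1 hne p1 p3 a3.1 a4.1 u1 u3 v1 v3
      | exact two_on hirr hN m2 m1 hne p2 p3 a3.2 a4.2 u2 u3 v2 v3
      | exact two_on hirr hN m1 m2 hne.symm p1 p2 a1 a2 u1 u2 v1 v2
      | exact two_on hirr hN m1 m2 hne.symm p1 p3 a3.1 a4.1 u1 u3 v1 v3
      | exact two_on hirr hN m1 m2 hne.symm p2 p3 a3.2 a4.2 u2 u3 v2 v3

lemma repair (hirr : ∀ v, ¬ E v v) {R C : Finset V} {c q J : ℕ} (hc : Fintype.card V ≤ 2 * c)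
    (h : Sup E R Cᶜ c q) (h' : Sup E Rᶜ C c q) (P : PS E) (hJ : Fintype.card V ≤ P.X.card + J)
    (hq : 2 * J + 6 < q) (hd : (P.X ∩ R).card = (fs P ∅ C).card) :
    ∃ Q, Sub P Q ∧ P.X.card ≤ Q.X.card + 4 ∧ (Q.X ∩ R).card = (fs Q ∅ C).card ∧
      ∃ b ∈ fs Q ∅ C, Q.e b ∉ R := by
  by_cases hm : ∃ b ∈ fs P ∅ C, P.e b ∉ R
  · exact ⟨P, Sub.refl P, by omega, hd, hm⟩
  push Not at hm
  have n1 : ∀ v, Fr P v → v ∈ Rᶜ → v ∉ C := fun v hv e e' =>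
    mem_compl.1 e (hv.e ▸ hm v (mem_fs.2 ⟨e', hv.2, notMem_empty _⟩))
  have n2 : ∀ v, Fr P v → v ∈ R → v ∉ Cᶜ := by
    intro v hv e
    have inj : Set.InjOn P.e (fs P ∅ C) := fun a ha b hb e =>
      P.start_unique (mem_fs.1 ha).2.1 (mem_fs.1 hb).2.1 e
    have e1 : (fs P ∅ C).image P.e = P.X ∩ R := eq_of_subset_of_card_le (fun a ha => by
      obtain ⟨b, hb, rfl⟩ := mem_image.1 ha
      exact mem_inter.2 ⟨P.e_mem b, hm b hb⟩) (by rw [card_image_of_injOn inj, hd])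
    obtain ⟨b, hb, e2⟩ := mem_image.1 (e1 ▸ mem_inter.2 ⟨hv.1, e⟩)
    rw [mem_compl, not_not, ← hv.eq e2]
    exact (mem_fs.1 hb).1
  obtain ⟨Q1, j1, s1⟩ := gain_one hirr hc h P hJ (by omega)
    (Or.inr ⟨n2, by rw [compl_compl]; omega⟩)
  have a1 := j1.card
  have a2 := j1.x1
  rw [compl_compl] at a1
  obtain ⟨Q2, j2, s2⟩ := gain_one (J := J + 1) hirr hc h Q1 (by omega) (by omega)
    (Or.inr ⟨fun v hv => n2 v (s1.fr hv), by rw [compl_compl]; omega⟩)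
  have a3 := j2.card
  have a4 := j2.x1
  rw [compl_compl] at a3
  have a5 := card_split R Q2.X
  have a6 := fs_split Q2 C
  obtain ⟨Q, m, j, s, b, b1, b2, b3, b4⟩ := two_gains (J := J + 2) hirr hc h' Q2 (by omega)
    (by omega) (fun v hv => n1 v ((s1.trans s2).fr hv)) (by omega)
  have a7 := j.card
  have a8 := j.s1
  rw [compl_compl] at a7
  exact ⟨Q, s1.trans (s2.trans s), by omega, by omega, b, mem_fs.2 ⟨b2, b1, notMem_empty _⟩,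
    by rw [b3]; exact mem_compl.1 b4⟩

theorem balance_all (hirr : ∀ v, ¬ E v v) {R C : Finset V} {c q J d : ℕ}
    (hc : Fintype.card V ≤ 2 * c) (h : Sup E R Cᶜ c q) (h' : Sup E Rᶜ C c q) (P : PS E)
    (hJ : Fintype.card V ≤ P.X.card + J) (hq : 2 * (J + d) + 6 < q)
    (d1 : (P.X ∩ R).card ≤ (fs P ∅ C).card + d) (d2 : (fs P ∅ C).card ≤ (P.X ∩ R).card + d) :
    ∃ Q, Sub P Q ∧ P.X.card ≤ Q.X.card + (d + 4) ∧ (Q.X ∩ R).card = (fs Q ∅ C).card ∧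
      ∃ b ∈ fs Q ∅ C, Q.e b ∉ R := by
  obtain ⟨Q, s, k1, k2⟩ : ∃ Q, Sub P Q ∧ P.X.card ≤ Q.X.card + d ∧
      (Q.X ∩ R).card = (fs Q ∅ C).card := by
    rcases le_total (fs P ∅ C).card (P.X ∩ R).card with e | e
    · obtain ⟨δ, hδ⟩ := Nat.exists_eq_add_of_le e
      obtain ⟨Q, j, s⟩ := gain_many hirr hc h δ J P hJ (by omega) (by rw [compl_compl]; exact hδ)
      have a1 := j.card
      have a2 := j.x1
      rw [compl_compl] at a1
      exact ⟨Q, s, by omega, by omega⟩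
    · obtain ⟨δ, hδ⟩ := Nat.exists_eq_add_of_le e
      have a5 := card_split R P.X
      have a6 := fs_split P C
      obtain ⟨Q, j, s⟩ := gain_many hirr hc h' δ J P hJ (by omega) (by omega)
      have a1 := j.card
      have a2 := j.s1
      rw [compl_compl] at a1
      exact ⟨Q, s, by omega, by omega⟩
  obtain ⟨Q', s', k3, k4⟩ := repair (J := J + d) hirr hc h h' Q (by omega) hq k2
  exact ⟨Q', s.trans s', by omega, k4⟩

end Pool.Agent.Lib.MP_c8ddae_co
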